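import Pool.Agent.Lib.MP_0f5a21_lc.H.Hyp

/-!
Blocks of the order of the isolated paths of a tree, and their translation to the order of all
paths.
-/

set_option autoImplicit false

namespace Pool.Agent.Lib.MP_0f5a21_lc.H

/-- `f` is a path of `T`. -/
def PathOf (T : Set (List Bool)) (f : ℕ → Bool) : Prop :=
  ∀ n : ℕ, List.ofFn (fun i : Fin n => f i) ∈ T

/-- `f` is an isolated path of `T`. -/
def IsolPath (T : Set (List Bool)) (f : ℕ → Bool) : Prop :=
  PathOf T f ∧ ∃ m : ℕ, ∀ g : ℕ → Bool, PathOf T g → (∀ i < m, g i = f i) → g = f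

/-- `f` passes through the node `σ`. -/
def Through (σ : List Bool) (f : ℕ → Bool) : Prop := List.ofFn (fun i : Fin σ.length => f i) = σ

/-- `f` is lexicographically left of `g`. -/
def LexLt (f g : ℕ → Bool) : Prop := ∃ k : ℕ, (∀ i < k, f i = g i) ∧ f k = false ∧ g k = true

/-- The isolated paths of `T` strictly between `f` and `g`. -/
def Between (T : Set (List Bool)) (f g : ℕ → Bool) : Set (ℕ → Bool) :=
  {h | IsolPath T h ∧ LexLt f h ∧ LexLt h g}

/-- The elements right of `f` in the block of `f` (finitely many isolated paths between). -/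
def RightBlock (T : Set (List Bool)) (f : ℕ → Bool) : Set (ℕ → Bool) :=
  {g | IsolPath T g ∧ LexLt f g ∧ (Between T f g).Finite}

/-- The elements left of `f` in the block of `f` (finitely many isolated paths between). -/
def LeftBlock (T : Set (List Bool)) (f : ℕ → Bool) : Set (ℕ → Bool) :=
  {g | IsolPath T g ∧ LexLt g f ∧ (Between T g f).Finite}

/-- The block of `f` in the order of the isolated paths of `T`, without `f`. -/
def BlockOf (T : Set (List Bool)) (f : ℕ → Bool) : Set (ℕ → Bool) :=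
  LeftBlock T f ∪ RightBlock T f

section translate

variable {t : List Bool → Bool}

theorem pathOf_iff {f : ℕ → Bool} : PathOf {σ | t σ = true} f ↔ IsPath t f := Iff.rfl

theorem lexLt_iff {f g : Pth t} : LexLt (dg f) (dg g) ↔ f < g := (lt_iff (t := t)).symm

theorem isolPath_iff (ht : IsTree t) {f : Pth t} : IsolPath {σ | t σ = true} (dg f) ↔ Isol f := by
  rw [isol_iff ht]
  exact ⟨fun h => h.2, fun h => ⟨dg_path f, h⟩⟩

theorem dg_injective : Function.Injective (dg (t := t)) := fun _ _ h => dg_inj h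

theorem between_eq (ht : IsTree t) (f g : Pth t) :
    Between {σ | t σ = true} (dg f) (dg g) = dg '' {h | Isol h ∧ f < h ∧ h < g} := by
  ext h
  constructor
  · rintro ⟨h1, h2, h3⟩
    have : h = dg (mkP h h1.1 : Pth t) := rfl
    rw [this] at h1 h2 h3 ⊢
    exact ⟨_, ⟨(isolPath_iff ht).1 h1, lexLt_iff.1 h2, lexLt_iff.1 h3⟩, rfl⟩
  · rintro ⟨h, ⟨h1, h2, h3⟩, rfl⟩
    exact ⟨(isolPath_iff ht).2 h1, lexLt_iff.2 h2, lexLt_iff.2 h3⟩

theorem between_finite (ht : IsTree t) {f g : Pth t} :
    (Between {σ | t σ = true} (dg f) (dg g)).Finite ↔ (Bt f g).Finite := by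
  rw [between_eq ht, Set.finite_image_iff dg_injective.injOn]
  constructor
  · intro h
    apply (h.union (Set.toFinite {f, g})).subset
    rintro x ⟨h1, h2, h3⟩
    rcases h2.eq_or_lt with h4 | h4
    · exact Or.inr (Or.inl h4.symm)
    · rcases h3.eq_or_lt with h5 | h5
      · exact Or.inr (Or.inr h5)
      · exact Or.inl ⟨h1, h4, h5⟩
  · intro h
    apply h.subset
    rintro x ⟨h1, h2, h3⟩
    exact ⟨h1, h2.le, h3.le⟩

theorem rightBlock_eq (ht : IsTree t) (f : Pth t) :
    RightBlock {σ | t σ = true} (dg f) = dg '' (RBl f) := by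
  ext h
  constructor
  · rintro ⟨h1, h2, h3⟩
    have : h = dg (mkP h h1.1 : Pth t) := rfl
    rw [this] at h1 h2 h3 ⊢
    exact ⟨_, ⟨(isolPath_iff ht).1 h1, lexLt_iff.1 h2, (between_finite ht).1 h3⟩, rfl⟩
  · rintro ⟨h, ⟨h1, h2, h3⟩, rfl⟩
    exact ⟨(isolPath_iff ht).2 h1, lexLt_iff.2 h2, (between_finite ht).2 h3⟩

theorem leftBlock_eq (ht : IsTree t) (f : Pth t) :
    LeftBlock {σ | t σ = true} (dg f) = dg '' (LBl f) := by
  ext h
  constructor
  · rintro ⟨h1, h2, h3⟩
    have : h = dg (mkP h h1.1 : Pth t) := rfl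
    rw [this] at h1 h2 h3 ⊢
    exact ⟨_, ⟨(isolPath_iff ht).1 h1, lexLt_iff.1 h2, (between_finite ht).1 h3⟩, rfl⟩
  · rintro ⟨h, ⟨h1, h2, h3⟩, rfl⟩
    exact ⟨(isolPath_iff ht).2 h1, lexLt_iff.2 h2, (between_finite ht).2 h3⟩

theorem rightBlock_infinite (ht : IsTree t) {f : Pth t} :
    (RightBlock {σ | t σ = true} (dg f)).Infinite ↔ (RBl f).Infinite := by
  rw [rightBlock_eq ht, Set.infinite_image_iff dg_injective.injOn]

theorem leftBlock_infinite (ht : IsTree t) {f : Pth t} :
    (LeftBlock {σ | t σ = true} (dg f)).Infinite ↔ (LBl f).Infinite := by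
  rw [leftBlock_eq ht, Set.infinite_image_iff dg_injective.injOn]

theorem rightBlock_empty (ht : IsTree t) {f : Pth t} :
    RightBlock {σ | t σ = true} (dg f) = ∅ ↔ RBl f = ∅ := by
  rw [rightBlock_eq ht, Set.image_eq_empty]

theorem leftBlock_empty (ht : IsTree t) {f : Pth t} :
    LeftBlock {σ | t σ = true} (dg f) = ∅ ↔ LBl f = ∅ := by
  rw [leftBlock_eq ht, Set.image_eq_empty]

theorem bl_eq {X : Type} [LinearOrder X] {f : X} (hf : Isol f) : Bl f = insert f (LBl f ∪ RBl f) := by
  ext g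
  constructor
  · rintro ⟨h1, h2, h3⟩
    rcases lt_trichotomy g f with h | h | h
    · exact Or.inr (Or.inl ⟨h1, h, h3⟩)
    · exact Or.inl h
    · exact Or.inr (Or.inr ⟨h1, h, h2⟩)
  · rintro (h | h | h)
    · subst h
      have : (Bt g g).Finite := by
        apply (Set.finite_singleton g).subset
        rintro x ⟨_, h2, h3⟩
        exact le_antisymm h3 h2
      exact ⟨hf, this, this⟩
    · refine ⟨h.1, ?_, h.2.2⟩
      apply (Set.finite_empty).subset
      rintro x ⟨_, h2, h3⟩
      exact absurd (h2.trans h3) (not_le.2 h.2.1)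
    · refine ⟨h.1, h.2.2, ?_⟩
      apply (Set.finite_empty).subset
      rintro x ⟨_, h2, h3⟩
      exact absurd (h2.trans h3) (not_le.2 h.2.1)

theorem blockOf_eq (ht : IsTree t) (f : Pth t) :
    BlockOf {σ | t σ = true} (dg f) = dg '' (LBl f ∪ RBl f) := by
  rw [BlockOf, leftBlock_eq ht, rightBlock_eq ht, Set.image_union]

theorem blockOf_infinite (ht : IsTree t) {f : Pth t} (hf : Isol f) :
    (BlockOf {σ | t σ = true} (dg f)).Infinite ↔ (Bl f).Infinite := by
  rw [blockOf_eq ht, Set.infinite_image_iff dg_injective.injOn, bl_eq hf]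
  exact ⟨fun h => h.mono (Set.subset_insert _ _), fun h hc => h (hc.insert f)⟩

/-- (a) for the tree gives (a) for the order of the paths. -/
theorem hypA_tree (ht : IsTree t) (h : ∀ f, IsolPath {σ | t σ = true} f →
    ((RightBlock {σ | t σ = true} f).Infinite ↔ (LeftBlock {σ | t σ = true} f).Infinite)) :
    HypA (Pth t) := by
  intro f hf
  have := h (dg f) ((isolPath_iff ht).2 hf)
  rwa [rightBlock_infinite ht, leftBlock_infinite ht] at this

/-- (b) for the tree gives (b) for the order of the paths. -/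
theorem hypB_tree (ht : IsTree t) {K : ℕ} (h : ∀ f, IsolPath {σ | t σ = true} f →
    ((BlockOf {σ | t σ = true} f).Infinite ∨ (BlockOf {σ | t σ = true} f).ncard ≤ K)) :
    HypB (Pth t) (K + 1) := by
  intro f hf
  rcases h (dg f) ((isolPath_iff ht).2 hf) with h1 | h1
  · exact Or.inl ((blockOf_infinite ht hf).1 h1)
  · right
    rw [blockOf_eq ht, Set.ncard_image_of_injective _ dg_injective] at h1
    rw [bl_eq hf]
    exact (Set.ncard_insert_le _ _).trans (by omega)

end translate

end Pool.Agent.Lib.MP_0f5a21_lc.H
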