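import Pool.Agent.Lib.MP_0f5a21_lc.H.ExistsAux60

/-!
Theorem H, module A2: a computable run of the construction exists (`exists_run`).
-/

set_option autoImplicit false

namespace Pool.Agent.Lib.MP_0f5a21_lc.H

namespace A2

variable {D : Data} {k s i t n u j j₁ j₂ : ℕ}

theorem spot_facts {q₁ q₂ : ℕ × ℕ} (hs : 0 < s) (h1 : qq D k s j₁ = some q₁)
    (h2 : qq D k s j₂ = some q₂) (hv : 1 ≤ val q₁) (e1 : q₁.2 + 2 ≤ 3 * s)
    (e2 : q₂.2 + 2 ≤ 3 * s) (hlt : val q₁ < val q₂) :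
    val (spotB D (rec D k s) s j₁ j₂) = spot D s j₁ j₂ (val q₁) (val q₂) ∧
      val q₁ < spot D s j₁ j₂ (val q₁) (val q₂) ∧ spot D s j₁ j₂ (val q₁) (val q₂) < val q₂ ∧
      (spotB D (rec D k s) s j₁ j₂).2 = 3 * s + 1 := by
  obtain ⟨m, hm⟩ : ∃ m, 3 * s = m + 2 := ⟨3 * s - 2, by omega⟩
  have hgap := val_gap (m := m) (by omega) (by omega) hlt
  have hsmall : (1 : ℚ) / 2 ^ (3 * s + 1) < 1 / 2 ^ m := by
    rw [hm]
    apply one_div_lt_one_div_of_lt (by positivity)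
    exact pow_lt_pow_right₀ (by norm_num) (by omega)
  have hpos : (0 : ℚ) < 1 / 2 ^ (3 * s + 1) := by positivity
  have hq2 : 1 ≤ q₂.1 := by
    by_contra hc
    have h0 : q₂.1 = 0 := by omega
    have : val q₂ = 0 := by unfold val; rw [h0]; simp
    linarith
  have hp1 := pv_eq h1
  have hp2 := pv_eq h2
  by_cases hcase : D.hr j₁ = true ∨ (D.hl j₂ = false ∧ j₂ < j₁)
  · have hb : (D.hr j₁ || (!(D.hl j₂) && decide (j₂ < j₁))) = true := by
      simpa using hcase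
    have e : spotB D (rec D k s) s j₁ j₂ = dn q₂ (3 * s + 1) := by
      unfold spotB
      rw [hb, hp2]; rfl
    have e' : spot D s j₁ j₂ (val q₁) (val q₂) = val q₂ - 1 / 2 ^ (3 * s + 1) := by
      unfold spot
      rw [if_pos hcase]
    rw [e, e', val_dn (by omega) hq2]
    exact ⟨rfl, by linarith, by linarith, rfl⟩
  · have hb : (D.hr j₁ || (!(D.hl j₂) && decide (j₂ < j₁))) = false := by
      rw [← Bool.not_eq_true]
      simpa using hcase
    have e : spotB D (rec D k s) s j₁ j₂ = up q₁ (3 * s + 1) := by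
      unfold spotB
      rw [hb, hp1]; rfl
    have e' : spot D s j₁ j₂ (val q₁) (val q₂) = val q₁ + 1 / 2 ^ (3 * s + 1) := by
      unfold spot
      rw [if_neg hcase]
    rw [e, e', val_up (by omega)]
    exact ⟨rfl, by linarith, by linarith, rfl⟩

/-- Granularity of the pointers. -/
theorem gran : ∀ s i q, qq D k s i = some q →
    1 ≤ val q ∧ q.2 ≤ 3 * s + 1 ∧ (fl D k s i = false → 0 < s → q.2 + 2 ≤ 3 * s) := by
  intro s
  induction s using Nat.strong_induction_on with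
  | _ s ihs =>
  intro i
  induction i using Nat.strong_induction_on with
  | _ i ih =>
  intro q hq
  rcases lt_or_ge i k with hik | hik
  · rw [qq_base hik] at hq
    obtain rfl : (i + 1, 0) = q := by simpa using hq
    rw [val_base]
    refine ⟨?_, by simp, fun _ _ => by simp only; omega⟩
    have : (0 : ℚ) ≤ i := by positivity
    linarith
  rcases rec_cases (D := D) (s := s) hik with ⟨-, -, hq', -⟩ | ⟨-, hbit, h | ⟨-, h | ⟨hfl, h | h⟩⟩⟩
  · rw [hq] at hq'; exact absurd hq' (by simp)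
  · obtain ⟨t, ht, -, hq', -⟩ := h
    rw [hq] at hq'
    obtain ⟨h1, h2, -⟩ := ihs t ht i q hq'.symm
    exact ⟨h1, by omega, fun _ _ => by omega⟩
  · rw [hq] at h; exact absurd h.2.1 (by simp)
  · obtain ⟨j₁, j₂, hj₁, hj₂, ⟨⟨a₁, a₂, -, -, hp₁, hp₂, hlt, -⟩, -⟩, hq', hf⟩ := h
    obtain ⟨q₁, hq₁, rfl⟩ := pp_some.1 hp₁
    obtain ⟨q₂, hq₂, rfl⟩ := pp_some.1 hp₂
    have hs : 0 < s := by
      have := (bit_iff.1 hbit).1
      omega
    obtain ⟨v1, -, g1⟩ := ih j₁ hj₁ q₁ hq₁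
    obtain ⟨-, -, g2⟩ := ih j₂ hj₂ q₂ hq₂
    obtain ⟨f1, f2, f3, f4⟩ := spot_facts hs hq₁ hq₂ v1 (g1 (hfl j₁ hj₁) hs)
      (g2 (hfl j₂ hj₂) hs) hlt
    rw [hq] at hq'
    obtain rfl : q = spotB D (rec D k s) s j₁ j₂ := by simpa using hq'
    refine ⟨by rw [f1]; linarith, by rw [f4], ?_⟩
    intro hf'
    rw [hf] at hf'
    exact absurd hf' (by simp)
  · rw [hq] at h; exact absurd h.2.1 (by simp)

/-- Distinct active nodes of a stage have distinct pointers. -/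
theorem distinct : ∀ s i j a, i < j → pp D k s i = some a → pp D k s j = some a → False := by
  intro s
  induction s using Nat.strong_induction_on with
  | _ s ihs =>
  intro i j a hij hi hj
  rcases lt_or_ge j k with hjk | hjk
  · rw [pp_base (by omega)] at hi
    rw [pp_base hjk] at hj
    have h1 : ((i : ℚ) + 1) = (j : ℚ) + 1 := by
      have := hi.trans hj.symm
      simpa using this
    have h2 : (i : ℚ) = j := by linarith
    have h3 : i = j := by exact_mod_cast h2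
    omega
  obtain ⟨q, hq, hqa⟩ := pp_some.1 hj
  rcases rec_cases (D := D) (s := s) hjk with ⟨-, -, hq', -⟩ | ⟨-, hbit, h | ⟨-, h | ⟨hfl, h | h⟩⟩⟩
  · rw [hq] at hq'; exact absurd hq' (by simp)
  · obtain ⟨t, ht, hrt, hq', -⟩ := h
    have h1 : pp D k t i = some a := by rw [hrt.2.2.1 i hij]; exact hi
    have h2 : pp D k t j = some a := by
      rw [← hj]; unfold pp; rw [hq']
    exact ihs t ht i j a hij h1 h2
  · rw [hq] at h; exact absurd h.2.1 (by simp)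
  · obtain ⟨j₁, j₂, hj₁, hj₂, ⟨⟨a₁, a₂, -, -, hp₁, hp₂, hlt, hall⟩, -⟩, hq', hf⟩ := h
    obtain ⟨q₁, hq₁, rfl⟩ := pp_some.1 hp₁
    obtain ⟨q₂, hq₂, rfl⟩ := pp_some.1 hp₂
    have hs : 0 < s := by
      have := (bit_iff.1 hbit).1
      omega
    obtain ⟨v1, -, g1⟩ := gran s j₁ q₁ hq₁
    obtain ⟨-, -, g2⟩ := gran s j₂ q₂ hq₂
    obtain ⟨f1, f2, f3, f4⟩ := spot_facts hs hq₁ hq₂ v1 (g1 (hfl j₁ hj₁) hs)
      (g2 (hfl j₂ hj₂) hs) hlt
    rw [hq] at hq'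
    obtain rfl : q = spotB D (rec D k s) s j₁ j₂ := by simpa using hq'
    rw [f1] at hqa
    rcases hall i hij a hi with h | h
    · linarith [h.1]
    · linarith [h.1]
  · rw [hq] at h; exact absurd h.2.1 (by simp)

theorem eq_of_pp {a : ℚ} (hi : pp D k s i = some a) (hj : pp D k s j = some a) : i = j := by
  rcases lt_trichotomy i j with h | h | h
  · exact (distinct s i j a h hi hj).elim
  · exact h
  · exact (distinct s j i a h hj hi).elim

/-- The neighbours are unique. -/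
theorem nbrs_unique {j₁' j₂' : ℕ} {a₁ a₂ a₁' a₂' : ℚ} (h : Nbrs D (pp D k) s i j₁ j₂ a₁ a₂)
    (h' : Nbrs D (pp D k) s i j₁' j₂' a₁' a₂') :
    j₁ = j₁' ∧ j₂ = j₂' ∧ a₁ = a₁' ∧ a₂ = a₂' := by
  obtain ⟨l1, l2, p1, p2, hlt, hall⟩ := h
  obtain ⟨l1', l2', p1', p2', hlt', hall'⟩ := h'
  have key1 : ∀ {j₁ j₂ : ℕ} {a₁ a₂ : ℚ} {j₁' j₂' : ℕ} {a₁' a₂' : ℚ},
      j₁ < i → pp D k s j₁ = some a₁ → a₁ < a₂ →
      (∀ j, j < i → ∀ x, pp D k s j = some x →
        (x ≤ a₁ ∧ D.lt j i s = true ∧ D.lt i j s = false) ∨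
        (a₂ ≤ x ∧ D.lt i j s = true ∧ D.lt j i s = false)) →
      (∀ j, j < i → ∀ x, pp D k s j = some x →
        (x ≤ a₁' ∧ D.lt j i s = true ∧ D.lt i j s = false) ∨
        (a₂' ≤ x ∧ D.lt i j s = true ∧ D.lt j i s = false)) → a₁ ≤ a₁' := by
    intro j₁ j₂ a₁ a₂ j₁' j₂' a₁' a₂' hl hp hlt hall hall'
    rcases hall j₁ hl a₁ hp with ⟨-, h2, h3⟩ | ⟨h1, -⟩
    · rcases hall' j₁ hl a₁ hp with ⟨h4, -⟩ | ⟨-, -, h5⟩
      · exact h4
      · rw [h2] at h5; exact absurd h5 (by simp)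
    · exact absurd hlt (not_lt.2 h1)
  have key2 : ∀ {j₂ : ℕ} {a₁ a₂ : ℚ} {a₁' a₂' : ℚ},
      j₂ < i → pp D k s j₂ = some a₂ → a₁ < a₂ →
      (∀ j, j < i → ∀ x, pp D k s j = some x →
        (x ≤ a₁ ∧ D.lt j i s = true ∧ D.lt i j s = false) ∨
        (a₂ ≤ x ∧ D.lt i j s = true ∧ D.lt j i s = false)) →
      (∀ j, j < i → ∀ x, pp D k s j = some x →
        (x ≤ a₁' ∧ D.lt j i s = true ∧ D.lt i j s = false) ∨
        (a₂' ≤ x ∧ D.lt i j s = true ∧ D.lt j i s = false)) → a₂' ≤ a₂ := by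
    intro j₂ a₁ a₂ a₁' a₂' hl hp hlt hall hall'
    rcases hall j₂ hl a₂ hp with ⟨h1, -⟩ | ⟨-, h2, h3⟩
    · exact absurd hlt (not_lt.2 h1)
    · rcases hall' j₂ hl a₂ hp with ⟨-, -, h5⟩ | ⟨h4, -⟩
      · rw [h2] at h5; exact absurd h5 (by simp)
      · exact h4
  have e1 : a₁ = a₁' := le_antisymm
    (key1 (j₂ := j₂) (j₁' := j₁') (j₂' := j₂') l1 p1 hlt hall hall')
    (key1 (j₂ := j₂') (j₁' := j₁) (j₂' := j₂) l1' p1' hlt' hall' hall)
  have e2 : a₂ = a₂' := le_antisymm (key2 l2' p2' hlt' hall' hall) (key2 l2 p2 hlt hall hall')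
  subst e1 e2
  exact ⟨eq_of_pp p1 p1', eq_of_pp p2 p2', rfl, rfl⟩

theorem put_iff {a : ℚ} (hk : k ≤ i) (hb : bb D k s i = true)
    (hr : ∀ a, ¬ Retained (bb D k) (pp D k) s i a)
    (hn : ∀ j, j < i → ¬ New (bb D k) (pp D k) s j) :
    pp D k s i = some a ↔ Place D (pp D k) s i a := by
  rcases rec_cases (D := D) (s := s) hk with ⟨h, -⟩ | ⟨-, hbit, h | ⟨-, h | ⟨hfl, h | h⟩⟩⟩
  · rw [hb] at h; exact absurd h (by simp)
  · obtain ⟨t, ht, hrt, -⟩ := h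
    exact absurd hrt (no_RT hb hr ht)
  · obtain ⟨⟨j, hj, hf⟩, -⟩ := h
    have hs : 0 < s := by
      have := (bit_iff.1 hbit).1
      omega
    exact absurd ((new_iff hs).2 hf) (hn j hj)
  · obtain ⟨j₁, j₂, hj₁, hj₂, ⟨⟨a₁, a₂, hN⟩, hsoft⟩, hq', -⟩ := h
    have hN' := hN
    obtain ⟨-, -, hp₁, hp₂, hlt, -⟩ := hN
    obtain ⟨q₁, hq₁, rfl⟩ := pp_some.1 hp₁
    obtain ⟨q₂, hq₂, rfl⟩ := pp_some.1 hp₂
    have hs : 0 < s := by
      have := (bit_iff.1 hbit).1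
      omega
    obtain ⟨v1, -, g1⟩ := gran s j₁ q₁ hq₁
    obtain ⟨-, -, g2⟩ := gran s j₂ q₂ hq₂
    obtain ⟨f1, -, -, -⟩ := spot_facts hs hq₁ hq₂ v1 (g1 (hfl j₁ hj₁) hs)
      (g2 (hfl j₂ hj₂) hs) hlt
    have hpi : pp D k s i = some (spot D s j₁ j₂ (val q₁) (val q₂)) :=
      pp_some.2 ⟨_, hq', f1⟩
    rw [hpi]
    constructor
    · intro h
      exact ⟨j₁, j₂, val q₁, val q₂, hN', hsoft, by simpa using h.symm⟩
    · rintro ⟨j₁', j₂', a₁', a₂', hN'', -, ha⟩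
      obtain ⟨rfl, rfl, rfl, rfl⟩ := nbrs_unique hN' hN''
      rw [ha]
  · constructor
    · intro hp
      obtain ⟨q, hq, -⟩ := pp_some.1 hp
      rw [h.2.1] at hq
      exact absurd hq (by simp)
    · rintro ⟨j₁, j₂, a₁, a₂, hN, hsoft, -⟩
      exact absurd ⟨⟨a₁, a₂, hN⟩, hsoft⟩ (h.1 j₁ j₂ hN.1 hN.2.1)

end A2

open A2

/-- A2: a computable run exists. -/
theorem exists_run {D : Data} (hc : D.Comp) (k : ℕ) :
    ∃ (b : ℕ → ℕ → Bool) (Q : ℕ → ℕ → Option (ℕ × ℕ)),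
      (Computable fun p : ℕ × ℕ => b p.1 p.2) ∧ (Computable fun p : ℕ × ℕ => Q p.1 p.2) ∧
      Run D k b (fun s i => (Q s i).map val) := by
  refine ⟨bb D k, qq D k, c_bit (c_rec hc k), c_ptr (c_rec hc k), ?_⟩
  change Run D k (bb D k) (pp D k)
  refine ⟨fun s i h => bb_base h, fun s i h => pp_base h, ?_, ?_, ?_, ?_, ?_⟩
  · intro s i hk
    rw [← bit_iff]
    rcases rec_cases (D := D) (s := s) hk with ⟨h1, h2, -⟩ | ⟨h1, h2, -⟩
    · rw [h1, h2]
    · rw [h1, h2]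
  · intro s i h
    rcases lt_or_ge i k with hik | hik
    · rw [bb_base hik] at h; exact absurd h (by simp)
    · rcases rec_cases (D := D) (s := s) hik with ⟨-, -, h2, -⟩ | ⟨h1, -⟩
      · unfold pp; rw [h2]; rfl
      · rw [h] at h1; exact absurd h1 (by simp)
  · intro s i a hk hb hr
    exact keep_ret hk hb hr
  · intro s i hk hb hr hn
    obtain ⟨j, hj, hn⟩ := hn
    rcases rec_cases (D := D) (s := s) hk with ⟨h, -⟩ | ⟨-, hbit, h | ⟨-, h | ⟨hfl, -⟩⟩⟩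
    · rw [hb] at h; exact absurd h (by simp)
    · obtain ⟨t, ht, hrt, -⟩ := h
      exact absurd hrt (no_RT hb hr ht)
    · unfold pp; rw [h.2.1]; rfl
    · have hs : 0 < s := by
        have := (bit_iff.1 hbit).1
        omega
      have := (new_iff hs).1 hn
      rw [hfl j hj] at this
      exact absurd this (by simp)
  · intro s i a hk hb hr hn
    exact put_iff hk hb hr hn

end Pool.Agent.Lib.MP_0f5a21_lc.H
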