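import Pool.Agent.Lib.MP_0f5a21_lc.H.Defs
import Pool.Agent.Lib.MP_0f5a21_lc.Comp

/-!
Part A3 of Theorem H: the points of a computable run have a computable presentation.
-/

set_option autoImplicit false

namespace Pool.Agent.Lib.MP_0f5a21_lc.H

/-- The point of a triple. -/
def pnt (x : (ℕ × ℕ) × ℕ) : ℚ ×ₗ ℕ := toLex (val x.1, x.2)

/-- Order of points by cross multiplication. -/
def ltP (x y : (ℕ × ℕ) × ℕ) : Bool :=
  decide (x.1.1 * 2 ^ y.1.2 < y.1.1 * 2 ^ x.1.2) ||
    (decide (x.1.1 * 2 ^ y.1.2 = y.1.1 * 2 ^ x.1.2) && decide (x.2 < y.2))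

/-- Equality of points by cross multiplication. -/
def eqP (x y : (ℕ × ℕ) × ℕ) : Bool :=
  decide (x.1.1 * 2 ^ y.1.2 = y.1.1 * 2 ^ x.1.2) && decide (x.2 = y.2)

theorem val_lt (p q : ℕ × ℕ) : val p < val q ↔ p.1 * 2 ^ q.2 < q.1 * 2 ^ p.2 := by
  unfold val
  rw [div_lt_div_iff₀ (by positivity) (by positivity)]
  norm_cast

theorem val_eq (p q : ℕ × ℕ) : val p = val q ↔ p.1 * 2 ^ q.2 = q.1 * 2 ^ p.2 := by
  unfold val
  rw [div_eq_div_iff (by positivity) (by positivity)]
  norm_cast

theorem ltP_iff (x y : (ℕ × ℕ) × ℕ) : ltP x y = true ↔ pnt x < pnt y := by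
  unfold ltP pnt
  rw [Prod.Lex.toLex_lt_toLex]
  simp only [Bool.or_eq_true, Bool.and_eq_true, decide_eq_true_eq, val_lt, val_eq]

theorem eqP_iff (x y : (ℕ × ℕ) × ℕ) : eqP x y = true ↔ pnt x = pnt y := by
  unfold eqP pnt
  simp only [Bool.and_eq_true, decide_eq_true_eq, EmbeddingLike.apply_eq_iff_eq, Prod.mk.injEq,
    val_eq]

theorem comp_or {α : Type} [Primcodable α] {f g : α → Bool} (hf : Computable f)
    (hg : Computable g) : Computable fun a => f a || g a :=
  Primrec.or.to_comp.comp hf hg

theorem comp_pow : Computable₂ ((· ^ ·) : ℕ → ℕ → ℕ) :=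
  (Primrec₂.unpaired'.1 Nat.Primrec.pow).to_comp

theorem comp_pow2 {α : Type} [Primcodable α] {f : α → ℕ} (hf : Computable f) :
    Computable fun a => 2 ^ f a :=
  comp_pow.comp (Computable.const 2) hf

theorem comp_ltn {α : Type} [Primcodable α] {f g : α → ℕ} (hf : Computable f)
    (hg : Computable g) : Computable fun a => decide (f a < g a) :=
  Primrec.nat_lt.decide.to_comp.comp hf hg

theorem comp_mul {α : Type} [Primcodable α] {f g : α → ℕ} (hf : Computable f)
    (hg : Computable g) : Computable fun a => f a * g a :=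
  Primrec.nat_mul.to_comp.comp hf hg

theorem comp_add {α : Type} [Primcodable α] {f g : α → ℕ} (hf : Computable f)
    (hg : Computable g) : Computable fun a => f a + g a :=
  Primrec.nat_add.to_comp.comp hf hg

theorem comp_sub {α : Type} [Primcodable α] {f g : α → ℕ} (hf : Computable f)
    (hg : Computable g) : Computable fun a => f a - g a :=
  Primrec.nat_sub.to_comp.comp hf hg

theorem comp_ltP {α : Type} [Primcodable α] {f g : α → (ℕ × ℕ) × ℕ} (hf : Computable f)
    (hg : Computable g) : Computable fun a => ltP (f a) (g a) := by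
  have h1 : Computable fun a => (f a).1.1 * 2 ^ (g a).1.2 :=
    comp_mul (Computable.fst.comp (Computable.fst.comp hf))
      (comp_pow2 (Computable.snd.comp (Computable.fst.comp hg)))
  have h2 : Computable fun a => (g a).1.1 * 2 ^ (f a).1.2 :=
    comp_mul (Computable.fst.comp (Computable.fst.comp hg))
      (comp_pow2 (Computable.snd.comp (Computable.fst.comp hf)))
  exact comp_or (comp_ltn h1 h2) (comp_and (comp_beq h1 h2)
    (comp_ltn (Computable.snd.comp hf) (Computable.snd.comp hg)))

theorem comp_eqP {α : Type} [Primcodable α] {f g : α → (ℕ × ℕ) × ℕ} (hf : Computable f)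
    (hg : Computable g) : Computable fun a => eqP (f a) (g a) := by
  have h1 : Computable fun a => (f a).1.1 * 2 ^ (g a).1.2 :=
    comp_mul (Computable.fst.comp (Computable.fst.comp hf))
      (comp_pow2 (Computable.snd.comp (Computable.fst.comp hg)))
  have h2 : Computable fun a => (g a).1.1 * 2 ^ (f a).1.2 :=
    comp_mul (Computable.fst.comp (Computable.fst.comp hg))
      (comp_pow2 (Computable.snd.comp (Computable.fst.comp hf)))
  exact comp_and (comp_beq h1 h2) (comp_beq (Computable.snd.comp hf) (Computable.snd.comp hg))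

/-- Has the point of `n` occurred among the first `m` codes? -/
def seen (valid : ℕ → Bool) (pt : ℕ → (ℕ × ℕ) × ℕ) (n m : ℕ) : Bool :=
  m.rec false (fun j acc => acc || (valid j && eqP (pt j) (pt n)))

theorem seen_iff (valid : ℕ → Bool) (pt : ℕ → (ℕ × ℕ) × ℕ) (n m : ℕ) :
    seen valid pt n m = true ↔ ∃ j, j < m ∧ valid j = true ∧ pnt (pt j) = pnt (pt n) := by
  induction m with
  | zero => simp [seen]
  | succ m ih =>
    have h : seen valid pt n (m + 1) =
        (seen valid pt n m || (valid m && eqP (pt m) (pt n))) := rfl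
    rw [h, Bool.or_eq_true, ih, Bool.and_eq_true, eqP_iff]
    constructor
    · rintro (⟨j, h1, h2⟩ | h1)
      · exact ⟨j, by omega, h2⟩
      · exact ⟨m, by omega, h1⟩
    · rintro ⟨j, h1, h2⟩
      by_cases h3 : j = m
      · subst h3
        exact Or.inr h2
      · exact Or.inl ⟨j, by omega, h2⟩

theorem presentable_of_codes {valid : ℕ → Bool} {pt : ℕ → (ℕ × ℕ) × ℕ} (hv : Computable valid)
    (hp : Computable pt) (S : Set (ℚ ×ₗ ℕ))
    (hS : ∀ x, x ∈ S ↔ ∃ n, valid n = true ∧ pnt (pt n) = x) : Presentable S := by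
  classical
  let dom : ℕ → Bool := fun n => valid n && !(seen valid pt n n)
  have hdom : ∀ n, dom n = true ↔
      valid n = true ∧ ∀ j, j < n → valid j = true → pnt (pt j) ≠ pnt (pt n) := by
    intro n
    have h1 : dom n = (valid n && !(seen valid pt n n)) := rfl
    rw [h1, Bool.and_eq_true, Bool.not_eq_true', ← Bool.not_eq_true, seen_iff]
    push Not
    rfl
  have hcd : Computable dom := by
    refine comp_and hv (comp_not ?_)
    have h := Computable.nat_rec (α := ℕ) (σ := Bool)
      (f := fun n => n) (g := fun _ => false)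
      (h := fun n q => q.2 || (valid q.1 && eqP (pt q.1) (pt n)))
      Computable.id (Computable.const false)
      (comp_or (Computable.snd.comp Computable.snd)
        (comp_and (hv.comp (Computable.fst.comp Computable.snd))
          (comp_eqP (hp.comp (Computable.fst.comp Computable.snd))
            (hp.comp Computable.fst)))).to₂
    exact h
  have hcr : Computable fun p : ℕ × ℕ => ltP (pt p.1) (pt p.2) :=
    comp_ltP (hp.comp Computable.fst) (hp.comp Computable.snd)
  let F : {n : ℕ // n ∈ {n | dom n = true}} → S := fun n =>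
    ⟨pnt (pt n.1), (hS _).2 ⟨n.1, ((hdom n.1).1 n.2).1, rfl⟩⟩
  have hF : Function.Bijective F := by
    constructor
    · intro x y hxy
      have h1 : pnt (pt x.1) = pnt (pt y.1) := congrArg Subtype.val hxy
      have hx := (hdom x.1).1 x.2
      have hy := (hdom y.1).1 y.2
      apply Subtype.ext
      by_contra h2
      rcases Nat.lt_or_gt_of_ne h2 with h3 | h3
      · exact hy.2 x.1 h3 hx.1 h1
      · exact hx.2 y.1 h3 hy.1 h1.symm
    · rintro ⟨x, hx⟩
      have h1 := (hS x).1 hx
      have h2 := Nat.find_spec h1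
      refine ⟨⟨Nat.find h1, (hdom _).2 ⟨h2.1, fun j hj hvj hpj => ?_⟩⟩, Subtype.ext h2.2⟩
      exact Nat.find_min h1 hj ⟨hvj, hpj.trans h2.2⟩
  refine ⟨{n | dom n = true}, fun a b => ltP (pt a) (pt b) = true, ?_, ?_,
    Equiv.ofBijective F hF, ?_⟩
  · exact ComputablePred.computable_iff.2 ⟨dom, hcd, rfl⟩
  · exact ComputablePred.computable_iff.2 ⟨_, hcr, rfl⟩
  · intro a b
    show ltP (pt a.1) (pt b.1) = true ↔ pnt (pt a.1) < pnt (pt b.1)
    exact ltP_iff _ _

/-! ### The points of a run -/

/-- Positions of the pointers of stage `s`. -/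
theorem Run.gran {D : Data} {k : ℕ} {b : ℕ → ℕ → Bool} {P : ℕ → ℕ → Option ℚ}
    (h : Run D k b P) : ∀ s i a, P s i = some a →
      1 ≤ a ∧ ∃ n : ℕ, a = (n : ℚ) / 2 ^ (3 * s + 1) := by
  intro s
  induction s using Nat.strong_induction_on with
  | _ s ihs =>
    have hbase : ∀ i a, i < k → P s i = some a →
        1 ≤ a ∧ ∀ e : ℕ, ∃ n : ℕ, a = (n : ℚ) / 2 ^ e := by
      intro i a hi hP
      rw [h.base_P s i hi] at hP
      have h1 : a = (i : ℚ) + 1 := (Option.some.inj hP).symm
      refine ⟨?_, fun e => ⟨(i + 1) * 2 ^ e, ?_⟩⟩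
      · rw [h1]
        have : (0 : ℚ) ≤ i := Nat.cast_nonneg i
        linarith
      · rw [h1]
        push_cast
        field_simp
    -- retained pointers have the granularity of the previous stage
    have hret : ∀ i a, P s i = some a → Retained b P s i a →
        1 ≤ a ∧ 1 ≤ s ∧ ∃ n : ℕ, a = (n : ℚ) / 2 ^ (3 * (s - 1) + 1) := by
      rintro i a hP ⟨t, hts, h1, h2, h3, h4⟩
      obtain ⟨h5, n, h6⟩ := ihs t hts i a h3
      refine ⟨h5, by omega, n * 2 ^ (3 * (s - 1 - t)), ?_⟩
      rw [h6]
      have h7 : 3 * (s - 1) + 1 = (3 * t + 1) + 3 * (s - 1 - t) := by omega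
      rw [h7, pow_add (2 : ℚ) (3 * t + 1)]
      push_cast
      rw [mul_div_mul_right _ _ (by positivity)]
    intro i a hP
    by_cases hi : i < k
    · obtain ⟨h1, h2⟩ := hbase i a hi hP
      exact ⟨h1, h2 _⟩
    · have hki : k ≤ i := not_lt.1 hi
      by_cases hr : Retained b P s i a
      · obtain ⟨h1, h2, n, h3⟩ := hret i a hP hr
        refine ⟨h1, n * 8, ?_⟩
        rw [h3]
        have h7 : (2 : ℚ) ^ (3 * s + 1) = 2 ^ (3 * (s - 1) + 1) * 8 := by
          have h8 : 3 * s + 1 = (3 * (s - 1) + 1) + 3 := by omega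
          rw [h8, pow_add (2 : ℚ) (3 * (s - 1) + 1)]
          norm_num
        rw [h7]
        push_cast
        rw [mul_div_mul_right _ _ (by norm_num)]
      · have hb : b s i = true := by
          by_contra hb
          rw [Bool.not_eq_true] at hb
          rw [h.off s i hb] at hP
          cases hP
        have hno : ∀ a', ¬ Retained b P s i a' := by
          intro a' ha'
          have h1 := h.keep s i a' hki hb ha'
          rw [h1] at hP
          rw [Option.some.inj hP] at ha'
          exact hr ha'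
        have hnew : ∀ j, j < i → ¬ New b P s j := by
          intro j hj hn
          have h1 := h.wait s i hki hb hno ⟨j, hj, hn⟩
          rw [h1] at hP
          cases hP
        obtain ⟨j₁, j₂, a₁, a₂, hN, hS, ha⟩ := (h.put s i a hki hb hno hnew).1 hP
        obtain ⟨hj₁, hj₂, hP₁, hP₂, hlt, -⟩ := hN
        have hs : 1 ≤ s := by
          by_contra hs
          have h0 : s = 0 := by omega
          have h1 := ((h.vis s i hki).1 hb).1
          omega
        have hg : ∀ j x, j < i → P s j = some x →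
            1 ≤ x ∧ ∃ n : ℕ, x = (n : ℚ) / 2 ^ (3 * (s - 1) + 1) := by
          intro j x hj hx
          by_cases hjk : j < k
          · obtain ⟨h1, h2⟩ := hbase j x hjk hx
            exact ⟨h1, h2 _⟩
          · have h1 := hnew j hj
            unfold New at h1
            push Not at h1
            obtain ⟨h2, -, h3⟩ := hret j x hx (h1 x hx)
            exact ⟨h2, h3⟩
        obtain ⟨h1, n₁, hn₁⟩ := hg j₁ a₁ hj₁ hP₁
        obtain ⟨h2, n₂, hn₂⟩ := hg j₂ a₂ hj₂ hP₂
        have hpow : (2 : ℚ) ^ (3 * s + 1) = 2 ^ (3 * (s - 1) + 1) * 8 := by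
          have h7 : 3 * s + 1 = (3 * (s - 1) + 1) + 3 := by omega
          rw [h7, pow_add]
          norm_num
        have hpos : (0 : ℚ) < 2 ^ (3 * (s - 1) + 1) := by positivity
        have hnn : n₁ + 1 ≤ n₂ := by
          rw [hn₁, hn₂, div_lt_div_iff_of_pos_right hpos] at hlt
          exact_mod_cast hlt
        rw [ha]
        unfold spot
        split_ifs
        · constructor
          · rw [hpow, hn₂]
            have h3 : (1 : ℚ) ≤ n₁ / 2 ^ (3 * (s - 1) + 1) := by rw [← hn₁]; exact h1
            rw [le_div_iff₀ hpos] at h3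
            have h4 : (n₂ : ℚ) / 2 ^ (3 * (s - 1) + 1) - 1 / (2 ^ (3 * (s - 1) + 1) * 8) =
                (n₂ - 1 / 8) / 2 ^ (3 * (s - 1) + 1) := by
              field_simp
            rw [h4, le_div_iff₀ hpos]
            have h5 : (n₁ : ℚ) + 1 ≤ n₂ := by exact_mod_cast hnn
            linarith
          · refine ⟨8 * n₂ - 1, ?_⟩
            rw [Nat.cast_sub (by omega), hpow, hn₂]
            push_cast
            field_simp
        · constructor
          · have h3 : (0 : ℚ) ≤ 1 / 2 ^ (3 * s + 1) := by positivity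
            linarith
          · refine ⟨8 * n₁ + 1, ?_⟩
            rw [hpow, hn₁]
            push_cast
            field_simp

section points

variable (D : Data) (k : ℕ) (Q : ℕ → ℕ → Option (ℕ × ℕ))

/-- Validity of a code. -/
def validC (n : ℕ) : Bool :=
  (Q n.unpair.1.unpair.1 n.unpair.1.unpair.2).isSome &&
  ((decide (n.unpair.2.unpair.1 = 0) &&
      decide (n.unpair.2.unpair.2 < D.lab n.unpair.1.unpair.2)) ||
   ((decide (n.unpair.2.unpair.1 = 1) && (decide (n.unpair.2.unpair.2 = 0) &&
      (!(decide (n.unpair.1.unpair.2 = 0)) && !(D.hl n.unpair.1.unpair.2)))) ||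
    (decide (n.unpair.2.unpair.1 = 2) && (decide (n.unpair.2.unpair.2 = 0) &&
      (!(decide (n.unpair.1.unpair.2 + 1 = k)) && !(D.hr n.unpair.1.unpair.2))))))

/-- Position of a code. -/
def posC (n : ℕ) : ℕ × ℕ :=
  bif decide (n.unpair.2.unpair.1 = 0) then
    (Q n.unpair.1.unpair.1 n.unpair.1.unpair.2).getD (0, 0)
  else
    bif decide (n.unpair.2.unpair.1 = 1) then
      (((Q n.unpair.1.unpair.1 n.unpair.1.unpair.2).getD (0, 0)).1 *
          2 ^ (3 * n.unpair.1.unpair.1 + 3) -
        2 ^ ((Q n.unpair.1.unpair.1 n.unpair.1.unpair.2).getD (0, 0)).2,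
       ((Q n.unpair.1.unpair.1 n.unpair.1.unpair.2).getD (0, 0)).2 +
         (3 * n.unpair.1.unpair.1 + 3))
    else
      (((Q n.unpair.1.unpair.1 n.unpair.1.unpair.2).getD (0, 0)).1 *
          2 ^ (3 * n.unpair.1.unpair.1 + 3) +
        2 ^ ((Q n.unpair.1.unpair.1 n.unpair.1.unpair.2).getD (0, 0)).2,
       ((Q n.unpair.1.unpair.1 n.unpair.1.unpair.2).getD (0, 0)).2 +
         (3 * n.unpair.1.unpair.1 + 3))

variable {D k Q}

theorem comp_u1 : Computable fun n : ℕ => n.unpair.1 :=
  (Primrec.fst.comp Primrec.unpair).to_comp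

theorem comp_u2 : Computable fun n : ℕ => n.unpair.2 :=
  (Primrec.snd.comp Primrec.unpair).to_comp

theorem comp_validC (hc : D.Comp) (hQ : Computable fun p : ℕ × ℕ => Q p.1 p.2) :
    Computable (validC D k Q) := by
  have hs : Computable fun n : ℕ => n.unpair.1.unpair.1 := comp_u1.comp comp_u1
  have hi : Computable fun n : ℕ => n.unpair.1.unpair.2 := comp_u2.comp comp_u1
  have hd : Computable fun n : ℕ => n.unpair.2.unpair.1 := comp_u1.comp comp_u2
  have hr : Computable fun n : ℕ => n.unpair.2.unpair.2 := comp_u2.comp comp_u2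
  have hq : Computable fun n : ℕ => Q n.unpair.1.unpair.1 n.unpair.1.unpair.2 :=
    hQ.comp (hs.pair hi)
  refine comp_and (Primrec.option_isSome.to_comp.comp hq) (comp_or ?_ (comp_or ?_ ?_))
  · exact comp_and (comp_beq hd (Computable.const 0)) (comp_ltn hr (hc.lab.comp hi))
  · exact comp_and (comp_beq hd (Computable.const 1)) (comp_and (comp_beq hr (Computable.const 0))
      (comp_and (comp_not (comp_beq hi (Computable.const 0))) (comp_not (hc.hl.comp hi))))
  · exact comp_and (comp_beq hd (Computable.const 2)) (comp_and (comp_beq hr (Computable.const 0))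
      (comp_and (comp_not (comp_beq (comp_add hi (Computable.const 1)) (Computable.const k)))
        (comp_not (hc.hr.comp hi))))

theorem comp_posC (hQ : Computable fun p : ℕ × ℕ => Q p.1 p.2) :
    Computable (posC Q) := by
  have hs : Computable fun n : ℕ => n.unpair.1.unpair.1 := comp_u1.comp comp_u1
  have hi : Computable fun n : ℕ => n.unpair.1.unpair.2 := comp_u2.comp comp_u1
  have hd : Computable fun n : ℕ => n.unpair.2.unpair.1 := comp_u1.comp comp_u2
  have hq : Computable fun n : ℕ => Q n.unpair.1.unpair.1 n.unpair.1.unpair.2 :=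
    hQ.comp (hs.pair hi)
  have hg : Computable fun n : ℕ =>
      (Q n.unpair.1.unpair.1 n.unpair.1.unpair.2).getD ((0, 0) : ℕ × ℕ) :=
    Computable.option_getD hq (Computable.const _)
  have he : Computable fun n : ℕ => 3 * n.unpair.1.unpair.1 + 3 :=
    comp_add (comp_mul (Computable.const 3) hs) (Computable.const 3)
  have h1 := comp_mul (Computable.fst.comp hg) (comp_pow2 he)
  have h2 := comp_pow2 (Computable.snd.comp hg)
  have h3 := comp_add (Computable.snd.comp hg) he
  exact Computable.cond (comp_beq hd (Computable.const 0)) hg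
    (Computable.cond (comp_beq hd (Computable.const 1)) ((comp_sub h1 h2).pair h3)
      ((comp_add h1 h2).pair h3))

/-- The points of a computable run have a computable presentation. -/
theorem pts_presentable (hc : D.Comp) {b : ℕ → ℕ → Bool}
    (hQ : Computable fun p : ℕ × ℕ => Q p.1 p.2)
    (hR : Run D k b (fun s i => (Q s i).map val)) :
    Presentable (Pts D k (fun s i => (Q s i).map val)) := by
  refine presentable_of_codes (valid := validC D k Q)
    (pt := fun n => (posC Q n, n.unpair.2.unpair.2)) (comp_validC hc hQ)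
    ((comp_posC hQ).pair (comp_u2.comp comp_u2)) _ ?_
  intro x
  have hone : ∀ s i q, Q s i = some q → 1 ≤ val q := by
    intro s i q hq
    exact (hR.gran s i (val q) (by show (Q s i).map val = some (val q); rw [hq]; rfl)).1
  have hjl : ∀ s i q, Q s i = some q →
      val (q.1 * 2 ^ (3 * s + 3) - 2 ^ q.2, q.2 + (3 * s + 3)) =
        val q - 1 / 2 ^ (3 * s + 3) := by
    intro s i q hq
    have h1 := hone s i q hq
    unfold val at h1 ⊢
    rw [le_div_iff₀ (by positivity), one_mul] at h1
    have h2 : 2 ^ q.2 ≤ q.1 * 2 ^ (3 * s + 3) := by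
      have h3 : 2 ^ q.2 ≤ q.1 := by exact_mod_cast h1
      have h4 : 1 ≤ 2 ^ (3 * s + 3) := Nat.one_le_two_pow
      calc 2 ^ q.2 ≤ q.1 * 1 := by omega
        _ ≤ _ := Nat.mul_le_mul_left _ h4
    simp only
    rw [Nat.cast_sub h2, pow_add (2 : ℚ) q.2]
    push_cast
    have hA : (2 : ℚ) ^ q.2 ≠ 0 := by positivity
    have hB : (2 : ℚ) ^ (3 * s + 3) ≠ 0 := by positivity
    generalize (2 : ℚ) ^ q.2 = A at hA
    generalize (2 : ℚ) ^ (3 * s + 3) = B at hB
    field_simp
  have hjr : ∀ s (q : ℕ × ℕ),
      val (q.1 * 2 ^ (3 * s + 3) + 2 ^ q.2, q.2 + (3 * s + 3)) =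
        val q + 1 / 2 ^ (3 * s + 3) := by
    intro s q
    unfold val
    simp only
    rw [pow_add (2 : ℚ) q.2]
    push_cast
    have hA : (2 : ℚ) ^ q.2 ≠ 0 := by positivity
    have hB : (2 : ℚ) ^ (3 * s + 3) ≠ 0 := by positivity
    generalize (2 : ℚ) ^ q.2 = A at hA
    generalize (2 : ℚ) ^ (3 * s + 3) = B at hB
    field_simp
  constructor
  · rintro ⟨n, hat, hn⟩
    obtain ⟨⟨p, r⟩, rfl⟩ := toLex.surjective x
    simp only [ofLex_toLex] at hat hn
    cases hat with
    | ptr s i a h =>
      obtain ⟨q, hq, hqa⟩ := Option.map_eq_some_iff.1 h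
      refine ⟨Nat.pair (Nat.pair s i) (Nat.pair 0 r), ?_, ?_⟩
      · simp [validC, hq, hn]
      · simp [posC, pnt, hq, hqa]
    | jl s i a h hi hh =>
      obtain ⟨q, hq, hqa⟩ := Option.map_eq_some_iff.1 h
      have hr : r = 0 := by omega
      subst hr
      refine ⟨Nat.pair (Nat.pair s i) (Nat.pair 1 0), ?_, ?_⟩
      · simp [validC, hq, hi, hh]
      · have h1 := hjl s i q hq
        simp only [posC, pnt, hq, Nat.unpair_pair, Option.getD_some, one_ne_zero, decide_false,
          decide_true, cond_false, cond_true, h1, hqa]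
    | jr s i a h hi hh =>
      obtain ⟨q, hq, hqa⟩ := Option.map_eq_some_iff.1 h
      have hr : r = 0 := by omega
      subst hr
      refine ⟨Nat.pair (Nat.pair s i) (Nat.pair 2 0), ?_, ?_⟩
      · simp [validC, hq, hi, hh]
      · have h1 := hjr s q
        have h20 : (2 : ℕ) ≠ 0 := by norm_num
        have h21 : (2 : ℕ) ≠ 1 := by norm_num
        simp only [posC, pnt, hq, Nat.unpair_pair, Option.getD_some, h20, h21, decide_false,
          cond_false, h1, hqa]
  · rintro ⟨n, hv, rfl⟩
    show ∃ m, IsAtom D k _ (val (posC Q n)) m ∧ n.unpair.2.unpair.2 < m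
    unfold validC at hv
    rw [Bool.and_eq_true, Option.isSome_iff_exists] at hv
    obtain ⟨⟨q, hq⟩, hv⟩ := hv
    have hP : (fun s i => (Q s i).map val) n.unpair.1.unpair.1 n.unpair.1.unpair.2 =
        some (val q) := by
      show (Q _ _).map val = some (val q)
      rw [hq]
      rfl
    simp only [Bool.or_eq_true, Bool.and_eq_true, decide_eq_true_eq, Bool.not_eq_true',
      decide_eq_false_iff_not] at hv
    rcases hv with ⟨h0, h1⟩ | ⟨h0, h1, h2, h3⟩ | ⟨h0, h1, h2, h3⟩
    · refine ⟨_, ?_, h1⟩
      have h4 : posC Q n = q := by simp [posC, h0, hq]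
      rw [h4]
      exact IsAtom.ptr _ _ _ hP
    · refine ⟨1, ?_, by omega⟩
      have h4 : val (posC Q n) = val q - 1 / 2 ^ (3 * n.unpair.1.unpair.1 + 3) := by
        rw [← hjl _ _ q hq]
        simp only [posC, h0, hq, Option.getD_some, one_ne_zero, decide_false, decide_true,
          cond_false, cond_true]
      rw [h4]
      exact IsAtom.jl _ _ _ hP h2 h3
    · refine ⟨1, ?_, by omega⟩
      have h20 : (2 : ℕ) ≠ 0 := by norm_num
      have h21 : (2 : ℕ) ≠ 1 := by norm_num
      have h4 : val (posC Q n) = val q + 1 / 2 ^ (3 * n.unpair.1.unpair.1 + 3) := by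
        rw [← hjr _ q]
        simp only [posC, h0, hq, Option.getD_some, h20, h21, decide_false, cond_false]
      rw [h4]
      exact IsAtom.jr _ _ _ hP h2 h3

end points

end Pool.Agent.Lib.MP_0f5a21_lc.H
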