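import Pool.Agent.Lib.MP_0f5a21_lc.H.Defs

/-!
Theorem H, module A0: from `Good` to `BGood` (the base markers get the first indices).
-/

set_option autoImplicit false

namespace Pool.Agent.Lib.MP_0f5a21_lc.H

namespace A0

/-- Reindexed data. -/
def reindex (D : Data) (e : ℕ → ℕ) : Data where
  c i s := D.c (e i) s
  lt i j s := D.lt (e i) (e j) s
  lab i := D.lab (e i)
  hl i := D.hl (e i)
  hr i := D.hr (e i)

theorem reindex_real (D : Data) (e : ℕ → ℕ) (i : ℕ) : (reindex D e).Real i ↔ D.Real (e i) :=
  Iff.rfl

theorem reindex_comp {D : Data} (hc : D.Comp) {e : ℕ → ℕ} (he : Computable e) :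
    (reindex D e).Comp where
  c := by
    have h := hc.c.comp ((he.comp Computable.fst).pair Computable.snd)
    exact h
  lt := by
    have h := hc.lt.comp (((he.comp (Computable.fst.comp Computable.fst)).pair
      (he.comp (Computable.snd.comp (Computable.fst (α := ℕ × ℕ) (β := ℕ))))).pair Computable.snd)
    exact h
  lab := hc.lab.comp he
  hl := hc.hl.comp he
  hr := hc.hr.comp he

theorem reindex_sound {D : Data} {M : Type} [LinearOrder M] {ρ : ℕ → M} {lab : M → ℕ}
    {hl hr : M → Bool} (h : D.Sound M ρ lab hl hr) (e : ℕ → ℕ) :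
    (reindex D e).Sound M (fun i => ρ (e i)) lab hl hr where
  cmono i := h.cmono (e i)
  lt_sound i j s hi hj hs := h.lt_sound (e i) (e j) s hi hj hs
  lt_complete i j hi hj hij := h.lt_complete (e i) (e j) hi hj hij
  lab_eq i hi := h.lab_eq (e i) hi
  hl_eq i hi := h.hl_eq (e i) hi
  hr_eq i hi := h.hr_eq (e i) hi
  lub := h.lub
  glb := h.glb
  not_both := h.not_both
  hr_next := h.hr_next
  hl_prev := h.hl_prev

/-- Two base markers. -/
def e2 (a b : ℕ) (i : ℕ) : ℕ := if i = 0 then a else if i = 1 then b else i - 2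

/-- Three base markers. -/
def e3 (a b c : ℕ) (i : ℕ) : ℕ := if i = 0 then a else if i = 1 then b else if i = 2 then c else i - 3

theorem e2_comp (a b : ℕ) : Computable (e2 a b) := by
  apply Primrec.to_comp
  unfold e2
  exact Primrec.ite (Primrec.eq.comp Primrec.id (Primrec.const 0)) (Primrec.const a)
    (Primrec.ite (Primrec.eq.comp Primrec.id (Primrec.const 1)) (Primrec.const b)
      (Primrec.nat_sub.comp Primrec.id (Primrec.const 2)))

theorem e3_comp (a b c : ℕ) : Computable (e3 a b c) := by
  apply Primrec.to_comp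
  unfold e3
  exact Primrec.ite (Primrec.eq.comp Primrec.id (Primrec.const 0)) (Primrec.const a)
    (Primrec.ite (Primrec.eq.comp Primrec.id (Primrec.const 1)) (Primrec.const b)
      (Primrec.ite (Primrec.eq.comp Primrec.id (Primrec.const 2)) (Primrec.const c)
        (Primrec.nat_sub.comp Primrec.id (Primrec.const 3))))

end A0

open A0

/-- A0: the base markers can be given the first indices. -/
theorem rebase {D : Data} {M : Type} [LinearOrder M] {ρ : ℕ → M} {lab : M → ℕ}
    {hl hr : M → Bool} (h : D.Good M ρ lab hl hr) (hc : D.Comp) :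
    ∃ (D' : Data) (k : ℕ) (ρ' : ℕ → M), D'.BGood k M ρ' lab hl hr ∧ D'.Comp := by
  obtain ⟨hs, hsurj, m0, m1, hm01⟩ := h
  obtain ⟨top, htop⟩ := hs.lub Set.univ ⟨m0, trivial⟩
  obtain ⟨bot, hbot⟩ := hs.glb Set.univ ⟨m0, trivial⟩
  have htop' : ∀ m, m ≤ top := fun m => htop.1 trivial
  have hbot' : ∀ m, bot ≤ m := fun m => hbot.1 trivial
  have hlt : bot < top := lt_of_le_of_lt (hbot' m0) (lt_of_lt_of_le hm01 (htop' m1))
  obtain ⟨ib, -, hib, hibr⟩ := hsurj bot 0
  obtain ⟨it, -, hit, hitr⟩ := hsurj top 0
  by_cases hsoft : hr bot = true ∧ hl top = true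
  · -- three base markers
    obtain ⟨p, hp, hpr⟩ := hs.hl_prev top hsoft.2
    obtain ⟨x0, hx0⟩ := hs.glb {x | x < top ∧ hr x = false} ⟨p, hp.1, hpr⟩
    have hx0top : x0 < top := lt_of_le_of_lt (hx0.1 ⟨hp.1, hpr⟩) hp.1
    have hx0r : hr x0 = false := by
      by_contra hcon
      have h1 : hr x0 = true := by simpa using hcon
      obtain ⟨x1, hx1, -⟩ := hs.hr_next x0 h1
      obtain ⟨s, hs1, hs2⟩ := (isGLB_lt_iff hx0).1 hx1.1
      have h3 : x0 < s := lt_of_le_of_ne (hx0.1 hs1) (by
        rintro rfl
        exact hcon hs1.2)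
      exact hx1.2 h3 hs2
    have hx0l : hl x0 = false := by
      by_contra hcon
      have h1 : hl x0 = true := by simpa using hcon
      obtain ⟨q, hq, hqr⟩ := hs.hl_prev x0 h1
      exact absurd (hx0.1 ⟨hq.1.trans hx0top, hqr⟩) (not_le.2 hq.1)
    have hbx0 : bot < x0 := lt_of_le_of_ne (hbot' x0) (by
      rintro rfl
      rw [hx0r] at hsoft
      exact absurd hsoft.1 (by simp))
    obtain ⟨im, -, him, himr⟩ := hsurj x0 0
    refine ⟨reindex D (e3 ib im it), 3, fun i => ρ (e3 ib im it i), ?_,
      reindex_comp hc (e3_comp ib im it)⟩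
    refine ⟨reindex_sound hs _, by norm_num, ?_, ?_, ?_, ?_, ?_, ?_⟩
    · intro i hi
      rw [reindex_real]
      interval_cases i
      · exact hib
      · exact him
      · exact hit
    · intro i j hij hj
      interval_cases j
      · omega
      · interval_cases i
        simp only [e3]
        simpa [hibr, himr] using hbx0
      · interval_cases i
        · simp only [e3]
          simpa [hibr, hitr] using hlt
        · simp only [e3]
          simpa [himr, hitr] using hx0top
    · intro m
      simpa [e3, hibr] using hbot' m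
    · intro m
      simpa [e3, hitr] using htop' m
    · intro i hi
      have hi2 : i < 2 := by omega
      interval_cases i
      · simp [e3, himr, hx0l]
      · simp [e3, himr, hx0r]
    · intro m
      right
      intro n
      obtain ⟨i, hi1, hi2, hi3⟩ := hsurj m n
      have he : e3 ib im it (i + 3) = i := by
        simp [e3]
      refine ⟨i + 3, by omega, ?_, ?_⟩
      · rw [reindex_real, he]; exact hi2
      · simp only [he]; exact hi3
  · -- two base markers
    refine ⟨reindex D (e2 ib it), 2, fun i => ρ (e2 ib it i), ?_,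
      reindex_comp hc (e2_comp ib it)⟩
    refine ⟨reindex_sound hs _, le_rfl, ?_, ?_, ?_, ?_, ?_, ?_⟩
    · intro i hi
      rw [reindex_real]
      interval_cases i
      · exact hib
      · exact hit
    · intro i j hij hj
      interval_cases j
      · omega
      · interval_cases i
        simp only [e2]
        simpa [hibr, hitr] using hlt
    · intro m
      simpa [e2, hibr] using hbot' m
    · intro m
      simpa [e2, hitr] using htop' m
    · intro i hi
      have hi2 : i = 0 := by omega
      subst hi2
      simpa [e2, hibr, hitr] using hsoft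
    · intro m
      right
      intro n
      obtain ⟨i, hi1, hi2, hi3⟩ := hsurj m n
      have he : e2 ib it (i + 2) = i := by
        simp [e2]
      refine ⟨i + 2, by omega, ?_, ?_⟩
      · rw [reindex_real, he]; exact hi2
      · simp only [he]; exact hi3

end Pool.Agent.Lib.MP_0f5a21_lc.H
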