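import Pool.Agent.Lib.MP_0f5a21_lc.H.Verify5

/-!
Theorem H, verification: the order built by a run has a decomposition over the markers (A1).
-/

set_option autoImplicit false

namespace Pool.Agent.Lib.MP_0f5a21_lc.H

variable {D : Data} {k : ℕ} {M : Type} [LinearOrder M] {ρ : ℕ → M} {lab : M → ℕ}
  {hl hr : M → Bool} {b : ℕ → ℕ → Bool} {P : ℕ → ℕ → Option ℚ}

theorem atom_mul2 (hR : Run D k b P) {q : ℚ} {n : ℕ} (h : IsAtom D k P q n) :
    ∃ e, Mul2 e q := by
  cases h with
  | ptr s i a h => exact ⟨_, ptr_mul2 hR s i q h⟩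
  | jl s i a h hi hh =>
    exact ⟨3 * s + 3, ((ptr_mul2 hR s i a h).mono (by omega)).sub (mul2_one _)⟩
  | jr s i a h hi hh =>
    exact ⟨3 * s + 3, ((ptr_mul2 hR s i a h).mono (by omega)).add (mul2_one _)⟩

theorem atom_bounds (hR : Run D k b P) {q : ℚ} {n : ℕ} (h : IsAtom D k P q n) :
    1 ≤ q ∧ q ≤ k := by
  cases h with
  | ptr s i a h =>
    have := ptr_bounds hR s i q h
    exact ⟨this.1, this.2.1⟩
  | jl s i a h hi hh =>
    have hb := ptr_bounds hR s i a h
    obtain ⟨p1, p2, _, _⟩ := small_aux s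
    refine ⟨?_, by linarith [hb.2.1]⟩
    have h1 : 1 < a := by
      by_cases hik : k ≤ i
      · exact (hb.2.2 hik).1
      · rw [hR.base_P s i (by omega)] at h
        rw [← Option.some.inj h]
        have : (0 : ℚ) < i := by exact_mod_cast Nat.pos_of_ne_zero hi
        linarith
    have h2 := (mul2_nat (3 * s + 1) 1)
    rw [Nat.cast_one] at h2
    have := h2.gap (ptr_mul2 hR s i a h) h1
    linarith
  | jr s i a h hi hh =>
    have hb := ptr_bounds hR s i a h
    obtain ⟨p1, p2, _, _⟩ := small_aux s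
    refine ⟨by linarith [hb.1], ?_⟩
    have h1 : a < k := by
      by_cases hik : k ≤ i
      · exact (hb.2.2 hik).2
      · rw [hR.base_P s i (by omega)] at h
        rw [← Option.some.inj h]
        have : ((i + 1 : ℕ) : ℚ) < k := by
          have : i + 1 < k := by omega
          exact_mod_cast this
        push_cast at this
        exact this
    have := (ptr_mul2 hR s i a h).gap (mul2_nat (3 * s + 1) k) h1
    linarith

/-- The label of a marker position. -/
theorem atom_label (hG : D.BGood k M ρ lab hl hr) (hR : Run D k b P) {m : M} {n : ℕ}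
    (h : IsAtom D k P (pos hG hR m) n) : n = lab m := by
  obtain ⟨s', _, _, hs'⟩ := fin_some hG hR (pos_fin hG hR m) 0
  have hnot : ∀ s, ¬ Odd2 (3 * s + 3) (pos hG hR m) := by
    intro s ho
    by_cases hi : idx hG hR m < k
    · rw [hR.base_P s' _ hi] at hs'
      apply ho.not_mul2 (show 0 < 3 * s + 3 by omega)
      rw [← Option.some.inj hs']
      have := mul2_nat 0 (idx hG hR m + 1)
      push_cast at this
      exact this
    · obtain ⟨t, B⟩ := exists_birth hR s' _ _ (show k ≤ idx hG hR m by omega) hs'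
      have := ho.unique (birth_odd2 hR B)
      omega
  generalize hq : pos hG hR m = q at h hnot hs'
  cases h with
  | ptr s i a h =>
    have : i = idx hG hR m := ptr_inj hR h hs'
    rw [this, hG.sound.lab_eq _ (pos_fin hG hR m).1, idx_rho hG hR]
  | jl s i a h hi hh =>
    exact absurd (odd2_sub (ptr_mul2 hR s i a h) (by omega)) (hnot s)
  | jr s i a h hi hh =>
    exact absurd (odd2_add (ptr_mul2 hR s i a h) (by omega)) (hnot s)

theorem atom_pos (hG : D.BGood k M ρ lab hl hr) (hR : Run D k b P) (m : M) :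
    IsAtom D k P (pos hG hR m) (lab m) := by
  obtain ⟨s', _, _, hs'⟩ := fin_some hG hR (pos_fin hG hR m) 0
  have := IsAtom.ptr (D := D) (k := k) s' _ _ hs'
  rw [hG.sound.lab_eq _ (pos_fin hG hR m).1, idx_rho hG hR] at this
  exact this

/-- Location of a point. -/
theorem loc (hG : D.BGood k M ρ lab hl hr) (hR : Run D k b P) {q : ℚ} {n : ℕ}
    (h : IsAtom D k P q n) : ∃ m m', (m' = m ∧ pos hG hR m = q) ∨
      (m ⋖ m' ∧ pos hG hR m < q ∧ q < pos hG hR m') := by
  obtain ⟨e, he⟩ := atom_mul2 hR h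
  obtain ⟨h1, h2⟩ := atom_bounds hR h
  rcases v1 hG hR he h1 h2 with ⟨m, hm⟩ | ⟨m, m', h3⟩
  · exact ⟨m, m, Or.inl ⟨rfl, hm⟩⟩
  · exact ⟨m, m', Or.inr h3⟩

/-- Positions of final pointers outside an interval inside a gap. -/
theorem gap_no_fin (hG : D.BGood k M ρ lab hl hr) (hR : Run D k b P) {m m' : M} (hc : m ⋖ m')
    {i : ℕ} {a : ℚ} (h : Fin' D b P i a) : ¬ (pos hG hR m < a ∧ a < pos hG hR m') := by
  rintro ⟨h1, h2⟩
  rw [(fin_pos hG hR h).2, pos_lt hG hR] at h1 h2
  exact hc.2 h1 h2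

/-- Finitely many points over finitely many atoms. -/
theorem points_finite {J : Set ℚ} (h : {p : ℚ × ℕ | IsAtom D k P p.1 p.2 ∧ p.1 ∈ J}.Finite) :
    {z : Pts D k P | (ofLex z.1).1 ∈ J}.Finite := by
  have h1 : (⋃ p ∈ {p : ℚ × ℕ | IsAtom D k P p.1 p.2 ∧ p.1 ∈ J},
      (fun r : ℕ => (toLex (p.1, r) : ℚ ×ₗ ℕ)) '' (Set.Iio p.2)).Finite := by
    apply Set.Finite.biUnion h
    intro p _
    exact (Set.finite_Iio _).image _
  apply Set.Finite.of_finite_image (f := fun z : Pts D k P => z.1) ?_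
    (Subtype.val_injective.injOn)
  apply h1.subset
  rintro _ ⟨z, hz, rfl⟩
  obtain ⟨n, hA, hn⟩ := z.2
  simp only [Set.mem_iUnion]
  exact ⟨((ofLex z.1).1, n), ⟨hA, hz⟩, (ofLex z.1).2, hn, rfl⟩

theorem pts_lt {x y : Pts D k P} : x < y ↔ (ofLex x.1).1 < (ofLex y.1).1 ∨
    ((ofLex x.1).1 = (ofLex y.1).1 ∧ (ofLex x.1).2 < (ofLex y.1).2) := by
  rw [← Subtype.coe_lt_coe, Prod.Lex.lt_iff]

/-- (A1) -/
theorem run_decomp (hG : D.BGood k M ρ lab hl hr) (hR : Run D k b P) :
    Nonempty (Decomp M lab hl hr (Pts D k P)) := by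
  classical
  have hloc : ∀ x : Pts D k P, ∃ m m', (m' = m ∧ pos hG hR m = (ofLex x.1).1) ∨
      (m ⋖ m' ∧ pos hG hR m < (ofLex x.1).1 ∧ (ofLex x.1).1 < pos hG hR m') := by
    intro x
    obtain ⟨n, hA, _⟩ := x.2
    exact loc hG hR hA
  choose lo hi hlh using hloc
  have hlo : ∀ x, pos hG hR (lo x) ≤ (ofLex x.1).1 := by
    intro x
    rcases hlh x with ⟨_, h⟩ | ⟨_, h, _⟩
    · exact h.le
    · exact h.le
  have hhi : ∀ x, (ofLex x.1).1 ≤ pos hG hR (hi x) := by
    intro x
    rcases hlh x with ⟨h, h'⟩ | ⟨_, _, h⟩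
    · rw [h, h']
    · exact h.le
  -- uniqueness of the location
  have hgap : ∀ x : Pts D k P, ∀ m m', m ⋖ m' → pos hG hR m < (ofLex x.1).1 →
      (ofLex x.1).1 < pos hG hR m' → lo x = m ∧ hi x = m' := by
    intro x m m' hc h1 h2
    have hl1 : lo x < m' := (pos_lt hG hR).1 (lt_of_le_of_lt (hlo x) h2)
    have hl2 : m < hi x := (pos_lt hG hR).1 (lt_of_lt_of_le h1 (hhi x))
    rcases hlh x with ⟨h, h'⟩ | ⟨hcx, h3, h4⟩
    · rw [h] at hl2
      exact absurd hl1 (hc.2 hl2)
    · have e1 : lo x ≤ m := by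
        by_contra hcc
        exact hc.2 (not_le.1 hcc) hl1
      have e2 : m ≤ lo x := by
        by_contra hcc
        exact hcx.2 (not_le.1 hcc) hl2
      have e3 : lo x = m := le_antisymm e1 e2
      refine ⟨e3, ?_⟩
      rw [e3] at hcx
      exact hcx.unique_right hc
  have hat : ∀ x : Pts D k P, ∀ m, (ofLex x.1).1 = pos hG hR m → lo x = m ∧ hi x = m := by
    intro x m h
    rcases hlh x with ⟨h1, h2⟩ | ⟨hcx, h3, h4⟩
    · have : lo x = m := pos_inj hG hR (h2.trans h)
      exact ⟨this, h1.trans this⟩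
    · rw [h] at h3 h4
      exact absurd ((pos_lt hG hR).1 h4) (hcx.2 ((pos_lt hG hR).1 h3))
  have hgap' : ∀ x : Pts D k P, ∀ m m', m ⋖ m' → lo x = m → hi x = m' →
      pos hG hR m < (ofLex x.1).1 ∧ (ofLex x.1).1 < pos hG hR m' := by
    intro x m m' hc h1 h2
    rcases hlh x with ⟨h, _⟩ | ⟨_, h3, h4⟩
    · rw [h1, h2] at h
      exact absurd h hc.lt.ne'
    · rw [h1] at h3
      rw [h2] at h4
      exact ⟨h3, h4⟩
  have hmul : ∀ x : Pts D k P, ∃ e, Mul2 e (ofLex x.1).1 := by
    intro x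
    obtain ⟨n, hA, _⟩ := x.2
    exact atom_mul2 hR hA
  have hnohard : ∀ m m', m ⋖ m' → hr m = false ∨ hl m' = false := by
    intro m m' hc
    cases h : hr m
    · exact Or.inl rfl
    · right
      obtain ⟨m'', h1, h2⟩ := hG.sound.hr_next m h
      rw [hc.unique_right h1]
      exact h2
  have hexr : ∀ m m', m ⋖ m' → hr m = false → ∀ β, pos hG hR m < β → ∃ x : Pts D k P,
      (lo x = m ∧ hi x = m') ∧ (ofLex x.1).1 < β := by
    intro m m' hc h β hβ
    obtain ⟨q, hA, h1, h2⟩ := v3_right hG hR h ⟨m', hc.lt⟩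
      (ε := min (β - pos hG hR m) (pos hG hR m' - pos hG hR m))
      (lt_min (by linarith) (by have := (pos_lt hG hR).2 hc.lt; linarith))
    have h3 := min_le_left (β - pos hG hR m) (pos hG hR m' - pos hG hR m)
    have h4 := min_le_right (β - pos hG hR m) (pos hG hR m' - pos hG hR m)
    set x : Pts D k P := ⟨toLex (q, 0), 1, hA, Nat.zero_lt_one⟩ with hx
    have hx1 : (ofLex x.1).1 = q := rfl
    exact ⟨x, hgap x m m' hc (by rw [hx1]; exact h1) (by rw [hx1]; linarith), by rw [hx1]; linarith⟩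
  have hexl : ∀ m m', m ⋖ m' → hl m' = false → ∀ β, β < pos hG hR m' → ∃ x : Pts D k P,
      (lo x = m ∧ hi x = m') ∧ β < (ofLex x.1).1 := by
    intro m m' hc h β hβ
    obtain ⟨q, hA, h1, h2⟩ := v3_left hG hR h ⟨m, hc.lt⟩
      (ε := min (pos hG hR m' - β) (pos hG hR m' - pos hG hR m))
      (lt_min (by linarith) (by have := (pos_lt hG hR).2 hc.lt; linarith))
    have h3 := min_le_left (pos hG hR m' - β) (pos hG hR m' - pos hG hR m)
    have h4 := min_le_right (pos hG hR m' - β) (pos hG hR m' - pos hG hR m)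
    set x : Pts D k P := ⟨toLex (q, 0), 1, hA, Nat.zero_lt_one⟩ with hx
    have hx1 : (ofLex x.1).1 = q := rfl
    exact ⟨x, hgap x m m' hc (by rw [hx1]; linarith) (by rw [hx1]; exact h1), by rw [hx1]; linarith⟩
  have hcov : ∀ x, hi x = lo x ∨ lo x ⋖ hi x := by
    intro x
    rcases hlh x with ⟨h, _⟩ | ⟨h, _, _⟩
    · exact Or.inl h
    · exact Or.inr h
  have hne : ∀ m m', m ⋖ m' → ∃ x, lo x = m ∧ hi x = m' := by
    intro m m' hc
    rcases hnohard m m' hc with h | h
    · obtain ⟨x, hx, _⟩ := hexr m m' hc h _ ((pos_lt hG hR).2 hc.lt)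
      exact ⟨x, hx⟩
    · obtain ⟨x, hx, _⟩ := hexl m m' hc h _ ((pos_lt hG hR).2 hc.lt)
      exact ⟨x, hx⟩
  refine ⟨{ lo := lo, hi := hi, cov := hcov, order := ?_, fin := ?_, card := ?_, ne := hne,
            locfin := ?_, least := ?_, greatest := ?_ }⟩
  · intro x y hxy
    constructor
    · intro hlt
      have hle : (ofLex x.1).1 ≤ (ofLex y.1).1 := by
        rcases pts_lt.1 hlt with h | h
        · exact h.le
        · exact h.1.le
      by_contra hcon
      have hlt' : lo y < hi x := not_le.1 hcon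
      have h5 : lo x ≤ hi y := (pos_le hG hR).1 ((hlo x).trans (hle.trans (hhi y)))
      rcases hlh x with ⟨h1, h2⟩ | ⟨hcx, h3, h4⟩
      · rw [h1] at hlt'
        rcases hlh y with ⟨g1, g2⟩ | ⟨hcy, g3, g4⟩
        · rw [g1] at h5
          exact absurd h5 (not_le.2 hlt')
        · have h6 : hi y ≤ lo x := by
            by_contra hcc
            exact hcy.2 hlt' (not_le.1 hcc)
          have h7 : lo x = hi y := le_antisymm h5 h6
          rw [← h7, h2] at g4
          exact absurd hle (not_le.2 g4)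
      · have h6 : lo y ≤ lo x := by
          by_contra hcc
          exact hcx.2 (not_le.1 hcc) hlt'
        rcases hlh y with ⟨g1, g2⟩ | ⟨hcy, g3, g4⟩
        · have h7 : (ofLex y.1).1 ≤ pos hG hR (lo x) := by
            rw [← g2]
            exact (pos_le hG hR).2 h6
          linarith
        · have h7 : lo x < hi y := (pos_lt hG hR).1 (by linarith)
          have h8 : lo x ≤ lo y := by
            by_contra hcc
            exact hcy.2 (not_le.1 hcc) h7
          have h9 : lo x = lo y := le_antisymm h8 h6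
          have h10 : hi x = hi y := by
            rw [h9] at hcx
            exact hcx.unique_right hcy
          rcases hxy with h | h
          · exact h h9
          · exact h h10
    · intro hle
      have h1 : pos hG hR (hi x) ≤ pos hG hR (lo y) := (pos_le hG hR).2 hle
      have h2 : (ofLex x.1).1 ≤ (ofLex y.1).1 := (hhi x).trans (h1.trans (hlo y))
      rcases eq_or_lt_of_le h2 with h3 | h3
      · exfalso
        have h4 : (ofLex x.1).1 = pos hG hR (hi x) :=
          le_antisymm (hhi x) (by rw [h3]; exact h1.trans (hlo y))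
        have h5 : (ofLex y.1).1 = pos hG hR (hi x) := by rw [← h3, h4]
        have h6 := hat x _ h4
        have h7 := hat y _ h5
        rcases hxy with h | h
        · exact h (h6.1.trans h7.1.symm)
        · exact h h7.2.symm
      · exact pts_lt.2 (Or.inl h3)
  · intro m
    apply (Set.Finite.subset (points_finite (D := D) (k := k) (P := P) (J := {pos hG hR m}) ?_))
    · rintro x ⟨h1, h2⟩
      rcases hlh x with ⟨_, h⟩ | ⟨hc, _, _⟩
      · show (ofLex x.1).1 ∈ ({pos hG hR m} : Set ℚ)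
        rw [← h, h1]
        rfl
      · rw [h1, h2] at hc
        exact absurd hc.lt (lt_irrefl _)
    · apply (Set.finite_singleton (pos hG hR m, lab m)).subset
      rintro ⟨q, n⟩ ⟨h1, h2⟩
      have h2' : q = pos hG hR m := h2
      subst h2'
      have h3 : n = lab m := atom_label hG hR h1
      rw [h3]
      rfl
  · intro m
    have : {x : Pts D k P | lo x = m ∧ hi x = m} =
        Set.range (fun r : Fin (lab m) =>
          (⟨toLex (pos hG hR m, (r : ℕ)), lab m, atom_pos hG hR m, r.2⟩ : Pts D k P)) := by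
      ext x
      constructor
      · rintro ⟨h1, h2⟩
        have h3 : (ofLex x.1).1 = pos hG hR m := by
          rcases hlh x with ⟨_, h⟩ | ⟨hc, _, _⟩
          · rw [← h, h1]
          · rw [h1, h2] at hc
            exact absurd hc.lt (lt_irrefl _)
        obtain ⟨n, hA, hn⟩ := x.2
        rw [h3] at hA
        rw [atom_label hG hR hA] at hn
        refine ⟨⟨(ofLex x.1).2, hn⟩, ?_⟩
        apply Subtype.ext
        show toLex (pos hG hR m, (ofLex x.1).2) = x.1
        rw [← h3]
        rfl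
      · rintro ⟨r, rfl⟩
        exact hat _ m rfl
    rw [this, ← Set.image_univ, Set.ncard_image_of_injective, Set.ncard_univ, Nat.card_fin]
    intro r r' h
    have h1 := congrArg (fun z : Pts D k P => (ofLex z.1).2) h
    exact Fin.ext h1
  · intro m m' hc x y hx1 hx2 hy1 hy2
    obtain ⟨e, he⟩ := hmul x
    obtain ⟨f, hf⟩ := hmul y
    have gx := hgap' x m m' hc hx1 hx2
    have gy := hgap' y m m' hc hy1 hy2
    apply (points_finite (atoms_icc hG hR (he.mono (Nat.le_max_left e f))
      (hf.mono (Nat.le_max_right e f)) (fun i a h hmem => ?_))).subset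
    · rintro z ⟨h1, h2⟩
      constructor
      · rcases eq_or_lt_of_le h1 with h | h
        · rw [h]
        · rcases pts_lt.1 h with h | h
          · exact h.le
          · exact h.1.le
      · rcases eq_or_lt_of_le h2 with h | h
        · rw [h]
        · rcases pts_lt.1 h with h | h
          · exact h.le
          · exact h.1.le
    · exact gap_no_fin hG hR hc h ⟨lt_of_lt_of_le gx.1 hmem.1, lt_of_le_of_lt hmem.2 gy.2⟩
  · intro m m' hc
    constructor
    · intro hm
      obtain ⟨x₀, hx1, hx2⟩ := hne m m' hc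
      have g0 := hgap' x₀ m m' hc hx1 hx2
      obtain ⟨e, he⟩ := hmul x₀
      have hfin := points_finite (atoms_ioc hG hR (y := (ofLex x₀.1).1) hm he
        (fun i a h hmem => gap_no_fin hG hR hc h ⟨hmem.1, lt_of_le_of_lt hmem.2 g0.2⟩))
      obtain ⟨z, hz, hmin⟩ := Set.exists_min_image _ (fun z : Pts D k P => z) hfin
        ⟨x₀, g0.1, le_rfl⟩
      refine ⟨z, hgap z m m' hc hz.1 (lt_of_le_of_lt hz.2 g0.2), fun y hy1 hy2 => ?_⟩
      have gy := hgap' y m m' hc hy1 hy2
      by_cases h : (ofLex y.1).1 ≤ (ofLex x₀.1).1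
      · exact hmin y ⟨gy.1, h⟩
      · exact (pts_lt.2 (Or.inl (lt_of_le_of_lt hz.2 (not_le.1 h)))).le
    · rintro ⟨x, ⟨hx1, hx2⟩, hmin⟩
      by_contra h
      have h' : hr m = false := by simpa using h
      have gx := hgap' x m m' hc hx1 hx2
      obtain ⟨y, ⟨hy1, hy2⟩, hy⟩ := hexr m m' hc h' _ gx.1
      exact absurd (hmin y hy1 hy2) (not_le.2 (pts_lt.2 (Or.inl hy)))
  · intro m m' hc
    constructor
    · intro hm
      obtain ⟨x₀, hx1, hx2⟩ := hne m m' hc
      have g0 := hgap' x₀ m m' hc hx1 hx2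
      obtain ⟨e, he⟩ := hmul x₀
      have hfin := points_finite (atoms_ico hG hR (x := (ofLex x₀.1).1) hm he
        (fun i a h hmem => gap_no_fin hG hR hc h ⟨lt_of_lt_of_le g0.1 hmem.1, hmem.2⟩))
      obtain ⟨z, hz, hmax⟩ := Set.exists_max_image _ (fun z : Pts D k P => z) hfin
        ⟨x₀, le_rfl, g0.2⟩
      refine ⟨z, hgap z m m' hc (lt_of_lt_of_le g0.1 hz.1) hz.2, fun y hy1 hy2 => ?_⟩
      have gy := hgap' y m m' hc hy1 hy2
      by_cases h : (ofLex x₀.1).1 ≤ (ofLex y.1).1
      · exact hmax y ⟨h, gy.2⟩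
      · exact (pts_lt.2 (Or.inl (lt_of_lt_of_le (not_le.1 h) hz.1))).le
    · rintro ⟨x, ⟨hx1, hx2⟩, hmax⟩
      by_contra h
      have h' : hl m' = false := by simpa using h
      have gx := hgap' x m m' hc hx1 hx2
      obtain ⟨y, ⟨hy1, hy2⟩, hy⟩ := hexl m m' hc h' _ gx.2
      exact absurd (hmax y hy1 hy2) (not_le.2 (pts_lt.2 (Or.inl hy)))

end Pool.Agent.Lib.MP_0f5a21_lc.H
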