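import Pool.Agent.Lib.MP_0f5a21_lc.H.Iso
import Pool.Agent.Lib.MP_0f5a21_lc.H.Present
import Pool.Agent.Lib.MP_0f5a21_lc.H.Rebase
import Pool.Agent.Lib.MP_0f5a21_lc.H.Exists
import Pool.Agent.Lib.MP_0f5a21_lc.H.Verify

/-!
Theorem H: a linear order with a decomposition over good computable marker data is presentable.
-/

set_option autoImplicit false

namespace Pool.Agent.Lib.MP_0f5a21_lc.H

theorem Presentable.of_iso {L L' : Type} [LinearOrder L] [LinearOrder L'] (h : Presentable L)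
    (e : L ≃o L') : Presentable L' := by
  obtain ⟨D, R, hD, hR, f, hf⟩ := h
  refine ⟨D, R, hD, hR, f.trans e.toEquiv, fun a b => ?_⟩
  rw [hf a b]
  exact (e.lt_iff_lt (x := f a) (y := f b)).symm

theorem presentable_of_finite {L : Type} [LinearOrder L] [Finite L] : Presentable L := by
  classical
  have := Fintype.ofFinite L
  have e : Fin (Fintype.card L) ≃o L := Fintype.orderIsoFinOfCardEq L rfl
  refine ⟨{n | n < Fintype.card L}, fun a b => a < b, ?_, ?_, ?_⟩
  · exact (Primrec.nat_lt.comp Primrec.id (Primrec.const _)).computablePred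
  · exact (Primrec.nat_lt.comp Primrec.fst Primrec.snd).computablePred
  · refine ⟨(Equiv.mk (fun x => (⟨x.1, x.2⟩ : Fin (Fintype.card L))) (fun x => ⟨x.1, x.2⟩)
      (fun _ => rfl) (fun _ => rfl)).trans e.toEquiv, fun a b => ?_⟩
    have := e.lt_iff_lt (x := (⟨a.1, a.2⟩ : Fin (Fintype.card L))) (y := ⟨b.1, b.2⟩)
    exact (this.trans (by simp)).symm

theorem good_presentable {D : Data} {M : Type} [LinearOrder M] {ρ : ℕ → M} {lab : M → ℕ}
    {hl hr : M → Bool} (hc : D.Comp) (hG : D.Good M ρ lab hl hr) {L : Type} [LinearOrder L]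
    (d : Decomp M lab hl hr L) : Presentable L := by
  obtain ⟨D', k, ρ', hB, hc'⟩ := rebase hG hc
  obtain ⟨b, Q, _, hQ, hR⟩ := exists_run hc' k
  obtain ⟨d'⟩ := run_decomp hB hR
  have hno : ∀ m m' : M, m ⋖ m' → ¬ (hr m = true ∧ hl m' = true) := by
    rintro m m' hcov ⟨h1, h2⟩
    obtain ⟨m'', h3, h4⟩ := hG.sound.hr_next m h1
    rw [hcov.unique_right h3, h4] at h2
    cases h2
  obtain ⟨e⟩ := decomp_iso hno d' d
  exact (pts_presentable hc' hQ hR).of_iso e

end Pool.Agent.Lib.MP_0f5a21_lc.H
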