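import Pool.Agent.Lib.MP_0f5a21_lc.H.Kinds
import Pool.Agent.Lib.MP_0f5a21_lc.H.Glue

/-!
Theorem H, module C5, second part: from the specification `Spec` of the marker data of a tree
(proved in Codes) to `Good`.
-/

set_option autoImplicit false

namespace Pool.Agent.Lib.MP_0f5a21_lc.H

open C4

variable {t : List Bool → Bool}

/-- Limit of paths from the left. -/
def LL (t : List Bool → Bool) (f : ℕ → Bool) : Prop :=
  ∀ n, ∃ m, n ≤ m ∧ both t (pre f m) = true ∧ f m = true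

/-- Limit of paths from the right. -/
def RL (t : List Bool → Bool) (f : ℕ → Bool) : Prop :=
  ∀ n, ∃ m, n ≤ m ∧ both t (pre f m) = true ∧ f m = false

/-- What the markers of a tree have to satisfy. `r0, l0, h0`: path, label, hard right side of the
bottom marker; `r1, l1, h1`: path, label, hard left side of the top marker. -/
structure Spec (t : List Bool → Bool) (Q Q' : List Bool → ℕ → ℕ → ℕ → Bool)
    (r0 r1 : ℕ → Bool) (l0 l1 : ℕ) (h0 h1 : Bool) (D : Data) (rep : ℕ → ℕ → Bool) : Prop where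
  cmono : ∀ i, Monotone (D.c i)
  lt_sound : ∀ i j s, D.Real i → D.Real j → D.lt i j s = true → tw true (rep i) (rep j)
  lt_complete : ∀ i j, D.Real i → D.Real j → tw true (rep i) (rep j) →
    ∃ s₀, ∀ s, s₀ ≤ s → D.lt i j s = true
  kinds : ∀ i, D.Real i →
    (rep i = r0 ∧ D.lab i = l0 ∧ D.hl i = false ∧ D.hr i = h0) ∨
    (rep i = r1 ∧ D.lab i = l1 ∧ D.hl i = h1 ∧ D.hr i = false) ∨
    (IsPath t (rep i) ∧ LL t (rep i) ∧ RL t (rep i) ∧
      D.lab i = 0 ∧ D.hl i = false ∧ D.hr i = false) ∨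
    (∃ F, Cons t F ∧ rep i = pathC t true (F.headD [] ++ [false]) ∧ LL t (rep i) ∧
      RL t (pathC t false (F.getLastD [] ++ [true])) ∧
      D.lab i = F.length - 1 ∧ D.hl i = false ∧ D.hr i = false) ∨
    (∃ v w, both t v = true ∧ rep i = pathC t true (v ++ [false]) ∧ LL t (rep i) ∧
      (∀ n, ∃ p, Q v w n p = true) ∧ D.lab i = 0 ∧ D.hl i = false ∧ D.hr i = true) ∨
    (∃ v w, both t v = true ∧ rep i = pathC t false (v ++ [true]) ∧ RL t (rep i) ∧
      (∀ n, ∃ p, Q' v w n p = true) ∧ D.lab i = 0 ∧ D.hl i = true ∧ D.hr i = false)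
  ex0 : ∀ n, ∃ i, n ≤ i ∧ D.Real i ∧ rep i = r0
  ex1 : ∀ n, ∃ i, n ≤ i ∧ D.Real i ∧ rep i = r1
  ex2 : ∀ f, Computable f → IsPath t f → LL t f → RL t f → ∀ n, ∃ i, n ≤ i ∧ D.Real i ∧ rep i = f
  ex3 : ∀ F, Cons t F → LL t (pathC t true (F.headD [] ++ [false])) →
    RL t (pathC t false (F.getLastD [] ++ [true])) →
    ∀ n, ∃ i, n ≤ i ∧ D.Real i ∧ rep i = pathC t true (F.headD [] ++ [false])
  ex4 : ∀ v w, both t v = true → LL t (pathC t true (v ++ [false])) →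
    (∀ n, ∃ p, Q v w n p = true) →
    ∀ n, ∃ i, n ≤ i ∧ D.Real i ∧ rep i = pathC t true (v ++ [false])
  ex5 : ∀ v w, both t v = true → RL t (pathC t false (v ++ [true])) →
    (∀ n, ∃ p, Q' v w n p = true) →
    ∀ n, ∃ i, n ≤ i ∧ D.Real i ∧ rep i = pathC t false (v ++ [true])

/-- (S*): the certificates of the infinite blocks. -/
structure Cert (t : List Bool → Bool) (Q Q' : List Bool → ℕ → ℕ → ℕ → Bool) : Prop where
  up : ∀ v, ∀ x : Pth t, both t v = true → dg x = pathC t true (v ++ [false]) → LLim x →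
    (UpInf x ↔ ∃ w, ∀ n, ∃ p, Q v w n p = true)
  down : ∀ v, ∀ x : Pth t, both t v = true → dg x = pathC t false (v ++ [true]) → RLim x →
    (DnInf x ↔ ∃ w, ∀ n, ∃ p, Q' v w n p = true)

theorem ll_iff (ht : IsTree t) {x : Pth t} : LL t (dg x) ↔ LLim x := (lLim_iff ht).symm

theorem rl_iff (ht : IsTree t) {x : Pth t} : RL t (dg x) ↔ RLim x := (rLim_iff ht).symm

/-- The start with a given path. -/
theorem good_of_spec (ht : IsTree t) (hpac : ∀ f, IsPath t f → Computable f)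
    {Q Q' : List Bool → ℕ → ℕ → ℕ → Bool} (hQ : Cert t Q Q') {bot top : Starts (Pth t)}
    (hbot : ∀ m, bot ≤ m) (htop : ∀ m, m ≤ top) (hlt : bot < top)
    {D : Data} {rep : ℕ → ℕ → Bool}
    (S : Spec t Q Q' (dg bot.1) (dg top.1) (labS bot) (labS top) (hrS bot) (hlS top) D rep) :
    ∃ ρ : ℕ → Starts (Pth t), D.Good (Starts (Pth t)) ρ labS hlS hrS := by
  classical
  have hne : Nonempty (Pth t) := nonempty_path ht
  obtain ⟨hlub, hglb, hnb, hrn, hlp, _⟩ := starts_decomp (X := Pth t) exists_lub exists_glb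
  have hbl : hlS bot = false := by
    cases h : hlS bot
    · rfl
    · obtain ⟨m', h1, _⟩ := hlp bot h
      exact absurd (hbot m') (not_le.2 h1.lt)
  have htr : hrS top = false := by
    cases h : hrS top
    · rfl
    · obtain ⟨m', h1, _⟩ := hrn top h
      exact absurd (htop m') (not_le.2 h1.lt)
  have main : ∀ i, D.Real i → ∃ m : Starts (Pth t), dg m.1 = rep i ∧ D.lab i = labS m ∧
      D.hl i = hlS m ∧ D.hr i = hrS m := by
    intro i hi
    rcases S.kinds i hi with h | h | h | h | h | h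
    · exact ⟨bot, h.1.symm, h.2.1, h.2.2.1.trans hbl.symm, h.2.2.2⟩
    · exact ⟨top, h.1.symm, h.2.1, h.2.2.1, h.2.2.2.trans htr.symm⟩
    · obtain ⟨h1, h2, h3, h4, h5, h6⟩ := h
      have g2 : LLim (mkP (rep i) h1 : Pth t) := (ll_iff ht).1 h2
      have g3 : RLim (mkP (rep i) h1 : Pth t) := (rl_iff ht).1 h3
      obtain ⟨k1, k2, k3⟩ := kind2 (m := ⟨_, Or.inr (Or.inl g2)⟩) g2 g3
      exact ⟨⟨_, Or.inr (Or.inl g2)⟩, rfl, by rw [h4, k1], by rw [h5, k2], by rw [h6, k3]⟩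
    · obtain ⟨F, hF, h1, h2, h3, h4, h5, h6⟩ := h
      obtain ⟨y, hy, hy0, hyn⟩ := cons_chain ht F hF
      obtain ⟨n, hn⟩ : ∃ n, F.length = n + 1 :=
        ⟨F.length - 1, by have := List.length_pos_iff.2 hF.1; omega⟩
      rw [hn] at hy hyn
      have g2 : LLim (y 0) := by
        rw [← ll_iff ht, hy0, ← h1]
        exact h2
      have g3 : RLim (y (n + 1)) := by
        rw [← rl_iff ht, hyn]
        exact h3
      obtain ⟨k1, k2, k3⟩ := kind3 (m := ⟨y 0, Or.inr (Or.inl g2)⟩) hy rfl g2 g3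
      refine ⟨⟨y 0, Or.inr (Or.inl g2)⟩, by rw [hy0, h1], ?_, by rw [h5, k2], by rw [h6, k3]⟩
      rw [h4, k1, hn]
      omega
    · obtain ⟨v, w, h1, h2, h3, h4, h5, h6, h7⟩ := h
      have hp : IsPath t (rep i) := by
        rw [h2]
        exact pathC_isPath ht (child h1 false)
      have g2 : LLim (mkP (rep i) hp : Pth t) := (ll_iff ht).1 h3
      have g3 : UpInf (mkP (rep i) hp : Pth t) := (hQ.up v (mkP (rep i) hp) h1 h2 g2).2 ⟨w, h4⟩
      obtain ⟨k1, k2, k3⟩ := kind4 (m := ⟨_, Or.inr (Or.inl g2)⟩) g2 g3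
      exact ⟨⟨_, Or.inr (Or.inl g2)⟩, rfl, by rw [h5, k1], by rw [h6, k2], by rw [h7, k3]⟩
    · obtain ⟨v, w, h1, h2, h3, h4, h5, h6, h7⟩ := h
      have hp : IsPath t (rep i) := by
        rw [h2]
        exact pathC_isPath ht (child h1 true)
      have g2 : RLim (mkP (rep i) hp : Pth t) := (rl_iff ht).1 h3
      have g3 : DnInf (mkP (rep i) hp : Pth t) := (hQ.down v (mkP (rep i) hp) h1 h2 g2).2 ⟨w, h4⟩
      have gs : Start (mkP (rep i) hp : Pth t) := Or.inr (Or.inr ⟨Or.inl g2, g3⟩)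
      obtain ⟨k1, k2, k3⟩ := kind5 (m := ⟨_, gs⟩) g2 g3
      exact ⟨⟨_, gs⟩, rfl, by rw [h5, k1], by rw [h6, k2], by rw [h7, k3]⟩
  refine ⟨fun i => if h : D.Real i then (main i h).choose else bot, ?_⟩
  set ρ : ℕ → Starts (Pth t) := fun i => if h : D.Real i then (main i h).choose else bot with hρ
  have hρs : ∀ i, D.Real i → dg (ρ i).1 = rep i ∧ D.lab i = labS (ρ i) ∧
      D.hl i = hlS (ρ i) ∧ D.hr i = hrS (ρ i) := by
    intro i hi
    simp only [hρ, dif_pos hi]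
    exact (main i hi).choose_spec
  have hρe : ∀ i, D.Real i → ∀ m : Starts (Pth t), rep i = dg m.1 → ρ i = m := by
    intro i hi m hm
    apply Subtype.ext
    apply dg_inj
    rw [(hρs i hi).1, hm]
  have hlt' : ∀ i j, D.Real i → D.Real j → (ρ i < ρ j ↔ tw true (rep i) (rep j)) := by
    intro i j hi hj
    rw [← (hρs i hi).1, ← (hρs j hj).1, ← lt_iff_tw]
    exact Iff.rfl
  constructor
  · constructor
    · exact S.cmono
    · intro i j s hi hj h
      exact (hlt' i j hi hj).2 (S.lt_sound i j s hi hj h)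
    · intro i j hi hj h
      exact S.lt_complete i j hi hj ((hlt' i j hi hj).1 h)
    · exact fun i hi => (hρs i hi).2.1
    · exact fun i hi => (hρs i hi).2.2.1
    · exact fun i hi => (hρs i hi).2.2.2
    · exact hlub
    · exact hglb
    · exact hnb
    · exact hrn
    · exact hlp
  · intro m n
    by_cases hb : ∀ y, m ≤ y
    · obtain ⟨i, h1, h2, h3⟩ := S.ex0 n
      exact ⟨i, h1, h2, hρe i h2 m (by rw [h3, le_antisymm (hb bot) (hbot m)])⟩
    by_cases htp : ∀ y, y ≤ m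
    · obtain ⟨i, h1, h2, h3⟩ := S.ex1 n
      exact ⟨i, h1, h2, hρe i h2 m (by rw [h3, le_antisymm (htp top) (htop m)])⟩
    rcases classify m hb htp with ⟨h1, h2⟩ | ⟨h1, l, y, hy0, hy, h2⟩ | ⟨h1, h2⟩ | ⟨h1, h2⟩
    · obtain ⟨i, g1, g2, g3⟩ := S.ex2 (dg m.1) (hpac _ (dg_path _)) (dg_path _)
        ((ll_iff ht).2 h1) ((rl_iff ht).2 h2) n
      exact ⟨i, g1, g2, hρe i g2 m g3⟩
    · obtain ⟨F, hF, hl, e0, e1⟩ := chain_cons ht l y hy
      rw [hy0] at e0
      obtain ⟨i, g1, g2, g3⟩ := S.ex3 F hF (by rw [← e0]; exact (ll_iff ht).2 h1)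
        (by rw [← e1]; exact (rl_iff ht).2 h2) n
      exact ⟨i, g1, g2, hρe i g2 m (by rw [g3, e0])⟩
    · obtain ⟨z, hz⟩ := h2.succ
      obtain ⟨v, hv, e0, _⟩ := (covBy_iff ht).1 hz
      obtain ⟨w, hw⟩ := (hQ.up v m.1 hv e0 h1).1 h2
      obtain ⟨i, g1, g2, g3⟩ := S.ex4 v w hv (by rw [← e0]; exact (ll_iff ht).2 h1) hw n
      exact ⟨i, g1, g2, hρe i g2 m (by rw [g3, e0])⟩
    · obtain ⟨z, hz⟩ := h2.pred
      obtain ⟨v, hv, _, e0⟩ := (covBy_iff ht).1 hz
      obtain ⟨w, hw⟩ := (hQ.down v m.1 hv e0 h1).1 h2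
      obtain ⟨i, g1, g2, g3⟩ := S.ex5 v w hv (by rw [← e0]; exact (rl_iff ht).2 h1) hw n
      exact ⟨i, g1, g2, hρe i g2 m (by rw [g3, e0])⟩
  · exact ⟨bot, top, hlt⟩

end Pool.Agent.Lib.MP_0f5a21_lc.H
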