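import Pool.Agent.Lib.MP_0f5a21_lc.Comp
import Pool.Agent.Lib.MP_0f5a21_lc.H.Spec

/-!
Theorem H, part C3: the marker data of a tree (`data`), their computability (`data_comp`), the
meaning of the counters (`data_real`) and of the comparisons (`data_lt_sound`, `data_lt_complete`),
and the specification `Spec` (`data_spec`, `exists_spec`).
-/

set_option autoImplicit false

namespace Pool.Agent.Lib.MP_0f5a21_lc.H

open Encodable
open Nat.Partrec (Code)

namespace C3

/-! ### Bounded search -/

/-- bounded existential quantifier -/
def bex (P : ℕ → Bool) : ℕ → Bool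
  | 0 => false
  | n + 1 => bex P n || P n

theorem bex_iff {P : ℕ → Bool} {n : ℕ} : bex P n = true ↔ ∃ k, k < n ∧ P k = true := by
  induction n with
  | zero =>
    constructor
    · intro h; cases h
    · rintro ⟨k, hk, _⟩; omega
  | succ n ih =>
    unfold bex
    rw [Bool.or_eq_true, ih]
    constructor
    · rintro (⟨k, hk, h⟩ | h)
      · exact ⟨k, by omega, h⟩
      · exact ⟨n, by omega, h⟩
    · rintro ⟨k, hk, h⟩
      rcases Nat.lt_or_ge k n with h1 | h1
      · exact Or.inl ⟨k, h1, h⟩
      · have : k = n := by omega
        subst this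
        exact Or.inr h

/-- bounded universal quantifier -/
def bal (P : ℕ → Bool) : ℕ → Bool
  | 0 => true
  | n + 1 => bal P n && P n

theorem bal_iff {P : ℕ → Bool} {n : ℕ} : bal P n = true ↔ ∀ k, k < n → P k = true := by
  induction n with
  | zero =>
    constructor
    · intro _ k hk; omega
    · intro _; rfl
  | succ n ih =>
    unfold bal
    rw [Bool.and_eq_true, ih]
    constructor
    · rintro ⟨h1, h2⟩ k hk
      rcases Nat.lt_or_ge k n with h3 | h3
      · exact h1 k h3
      · have : k = n := by omega
        subst this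
        exact h2
    · intro h
      exact ⟨fun k hk => h k (by omega), h n (by omega)⟩

/-- the length of the initial run of `P` below `n` -/
def cnt (P : ℕ → Bool) : ℕ → ℕ
  | 0 => 0
  | n + 1 => bif decide (cnt P n = n) && P n then n + 1 else cnt P n

theorem le_cnt {P : ℕ → Bool} {n : ℕ} : ∀ {m : ℕ}, m ≤ cnt P n ↔ m ≤ n ∧ ∀ k, k < m → P k = true := by
  induction n with
  | zero =>
    intro m
    constructor
    · intro h
      have h1 : m ≤ 0 := h
      exact ⟨h1, fun k hk => by omega⟩
    · intro h; exact h.1
  | succ n ih =>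
    intro m
    have e : cnt P (n + 1) = bif decide (cnt P n = n) && P n then n + 1 else cnt P n := rfl
    rw [e]
    by_cases hc : cnt P n = n ∧ P n = true
    · have h1 : (decide (cnt P n = n) && P n) = true := by
        rw [Bool.and_eq_true, decide_eq_true_eq]; exact hc
      rw [h1, cond_true]
      constructor
      · intro h
        refine ⟨h, fun k hk => ?_⟩
        rcases Nat.lt_or_ge k n with h3 | h3
        · exact ((ih (m := n)).1 (le_of_eq hc.1.symm)).2 k h3
        · have : k = n := by omega
          subst this
          exact hc.2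
      · intro h; exact h.1
    · have h1 : (decide (cnt P n = n) && P n) = false := by
        rw [← Bool.not_eq_true, Bool.and_eq_true, decide_eq_true_eq]; exact hc
      rw [h1, cond_false, ih]
      constructor
      · rintro ⟨h2, h3⟩; exact ⟨by omega, h3⟩
      · rintro ⟨h2, h3⟩
        refine ⟨?_, h3⟩
        by_contra hcon
        have hm : m = n + 1 := by omega
        subst hm
        apply hc
        have h4 : n ≤ cnt P n := ih.2 ⟨le_refl _, fun k hk => h3 k (by omega)⟩
        have h5 := (ih.1 (le_refl (cnt P n))).1
        exact ⟨by omega, h3 n (by omega)⟩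

/-! ### Computability tools -/

section comp

variable {α : Type} [Primcodable α]

theorem comp_or {f g : α → Bool} (hf : Computable f) (hg : Computable g) :
    Computable fun a => f a || g a :=
  Primrec.or.to_comp.comp hf hg

theorem comp_le {f g : α → ℕ} (hf : Computable f) (hg : Computable g) :
    Computable fun a => decide (f a ≤ g a) :=
  Primrec.nat_le.decide.to_comp.comp hf hg

theorem comp_bex {P : α → ℕ → Bool} (hP : Computable₂ P) : Computable₂ fun a n => bex (P a) n := by
  have h := Computable.nat_rec (α := α × ℕ) (σ := Bool)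
    (f := fun p => p.2) (g := fun _ => false)
    (h := fun p q => q.2 || P p.1 q.1)
    Computable.snd (Computable.const false)
    (comp_or (Computable.snd.comp Computable.snd)
      (hP.comp (Computable.fst.comp Computable.fst) (Computable.fst.comp Computable.snd))).to₂
  suffices h' : Computable fun p : α × ℕ => bex (P p.1) p.2 from h'.to₂
  refine h.of_eq fun p => ?_
  obtain ⟨a, m⟩ := p
  show _ = bex (P a) m
  induction m with
  | zero => rfl
  | succ m ih =>
    show (_ || P a m) = (bex (P a) m || P a m)
    rw [← ih]

theorem comp_bal {P : α → ℕ → Bool} (hP : Computable₂ P) : Computable₂ fun a n => bal (P a) n := by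
  have h := Computable.nat_rec (α := α × ℕ) (σ := Bool)
    (f := fun p => p.2) (g := fun _ => true)
    (h := fun p q => q.2 && P p.1 q.1)
    Computable.snd (Computable.const true)
    (comp_and (Computable.snd.comp Computable.snd)
      (hP.comp (Computable.fst.comp Computable.fst) (Computable.fst.comp Computable.snd))).to₂
  suffices h' : Computable fun p : α × ℕ => bal (P p.1) p.2 from h'.to₂
  refine h.of_eq fun p => ?_
  obtain ⟨a, m⟩ := p
  show _ = bal (P a) m
  induction m with
  | zero => rfl
  | succ m ih =>
    show (_ && P a m) = (bal (P a) m && P a m)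
    rw [← ih]

theorem comp_cnt {P : α → ℕ → Bool} (hP : Computable₂ P) : Computable₂ fun a n => cnt (P a) n := by
  have h := Computable.nat_rec (α := α × ℕ) (σ := ℕ)
    (f := fun p => p.2) (g := fun _ => 0)
    (h := fun p q => bif decide (q.2 = q.1) && P p.1 q.1 then Nat.succ q.1 else q.2)
    Computable.snd (Computable.const 0)
    (Computable.cond
      (comp_and (comp_beq (Computable.snd.comp Computable.snd) (Computable.fst.comp Computable.snd))
        (hP.comp (Computable.fst.comp Computable.fst) (Computable.fst.comp Computable.snd)))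
      (Computable.succ.comp (Computable.fst.comp Computable.snd))
      (Computable.snd.comp Computable.snd)).to₂
  suffices h' : Computable fun p : α × ℕ => cnt (P p.1) p.2 from h'.to₂
  refine h.of_eq fun p => ?_
  obtain ⟨a, m⟩ := p
  show _ = cnt (P a) m
  induction m with
  | zero => rfl
  | succ m ih =>
    have e : cnt (P a) (m + 1) =
      bif decide (cnt (P a) m = m) && P a m then m + 1 else cnt (P a) m := rfl
    rw [e, ← ih]

theorem comp_pre {f : α → ℕ → Bool} (hf : Computable₂ f) : Computable₂ fun a n => pre (f a) n := by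
  have h := Computable.nat_rec (α := α × ℕ) (σ := List Bool)
    (f := fun p => p.2) (g := fun _ => [])
    (h := fun p q => q.2 ++ [f p.1 q.1])
    Computable.snd (Computable.const [])
    (Computable.list_concat.comp (Computable.snd.comp Computable.snd)
      (hf.comp (Computable.fst.comp Computable.fst) (Computable.fst.comp Computable.snd))).to₂
  suffices h' : Computable fun p : α × ℕ => pre (f p.1) p.2 from h'.to₂
  refine h.of_eq fun p => ?_
  obtain ⟨a, m⟩ := p
  show _ = pre (f a) m
  induction m with
  | zero => exact (pre_zero _).symm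
  | succ m ih =>
    rw [pre_succ, ← ih]

end comp

/-! ### The digits of a code -/

/-- The digits among the first `n` which the code `e` gives with fuel `s`. -/
def evd (e : Code) (s : ℕ) : ℕ → List Bool
  | 0 => []
  | n + 1 => bif decide ((evd e s n).length = n) then
      (Option.casesOn (motive := fun _ => List Bool) (Code.evaln s e n) (evd e s n)
        (fun x => evd e s n ++ [decide (x = 1)]))
      else evd e s n

theorem evd_succ (e : Code) (s n : ℕ) : evd e s (n + 1) =
    bif decide ((evd e s n).length = n) then
      (Option.casesOn (motive := fun _ => List Bool) (Code.evaln s e n) (evd e s n)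
        (fun x => evd e s n ++ [decide (x = 1)]))
      else evd e s n := rfl

theorem evd_cases (e : Code) (s n : ℕ) : evd e s (n + 1) = evd e s n ∨
    ((evd e s n).length = n ∧ ∃ x, Code.evaln s e n = some x ∧
      evd e s (n + 1) = evd e s n ++ [decide (x = 1)]) := by
  rw [evd_succ]
  by_cases h : (evd e s n).length = n
  · have h1 : decide ((evd e s n).length = n) = true := decide_eq_true h
    rw [h1, cond_true]
    cases hx : Code.evaln s e n with
    | none => left; rfl
    | some x => right; exact ⟨h, x, rfl, rfl⟩
  · have h1 : decide ((evd e s n).length = n) = false := decide_eq_false h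
    rw [h1, cond_false]
    left; rfl

theorem evd_length_le (e : Code) (s n : ℕ) : (evd e s n).length ≤ n := by
  induction n with
  | zero => exact le_refl _
  | succ n ih =>
    rcases evd_cases e s n with h | ⟨h, x, _, h2⟩
    · rw [h]; omega
    · rw [h2, len_append]; omega

theorem evd_spec (e : Code) (s n : ℕ) : ∀ k, k < (evd e s n).length →
    ∃ x, Code.evaln s e k = some x ∧ (evd e s n)[k]? = some (decide (x = 1)) := by
  induction n with
  | zero => intro k hk; exact absurd hk (Nat.not_lt_zero k)
  | succ n ih =>
    intro k hk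
    rcases evd_cases e s n with h | ⟨h, x, h1, h2⟩
    · rw [h] at hk ⊢
      exact ih k hk
    · rw [h2, len_append] at hk
      rw [h2]
      rcases Nat.lt_or_ge k (evd e s n).length with h3 | h3
      · rw [List.getElem?_append_left h3]
        exact ih k h3
      · have h4 : k = (evd e s n).length := by omega
        refine ⟨x, ?_, ?_⟩
        · rw [h4, h]; exact h1
        · rw [h4, List.getElem?_append_right (le_refl _)]
          simp

theorem evd_long (e : Code) (s m : ℕ) (h : ∀ k, k < m → ∃ x, Code.evaln s e k = some x) :
    ∀ n, m ≤ n → m ≤ (evd e s n).length := by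
  induction m with
  | zero => intro n _; exact Nat.zero_le _
  | succ m ihm =>
    intro n
    induction n with
    | zero => intro hn; omega
    | succ n ih =>
      intro hn
      rcases Nat.lt_or_ge m n with h1 | h1
      · have h2 := ih (by omega)
        rcases evd_cases e s n with h3 | ⟨h3, x, h4, h5⟩
        · rw [h3]; exact h2
        · rw [h5, len_append]; omega
      · have hmn : m = n := by omega
        subst hmn
        have h2 := ihm (fun k hk => h k (by omega)) m (le_refl _)
        have h3 := evd_length_le e s m
        have h4 : (evd e s m).length = m := by omega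
        obtain ⟨x, hx⟩ := h m (by omega)
        rw [evd_succ]
        have h5 : decide ((evd e s m).length = m) = true := decide_eq_true h4
        rw [h5, cond_true, hx]
        show m + 1 ≤ (evd e s m ++ [decide (x = 1)]).length
        rw [len_append]; omega

open Classical in
/-- The sequence of a code. -/
noncomputable def rp (e : Code) (n : ℕ) : Bool := decide (1 ∈ e.eval n)

theorem evd_eq (e : Code) (s n : ℕ) : evd e s n = pre (rp e) (evd e s n).length := by
  apply List.ext_getElem?
  intro k
  rcases Nat.lt_or_ge k (evd e s n).length with h | h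
  · rw [pre_get _ h]
    obtain ⟨x, hx, h2⟩ := evd_spec e s n k h
    rw [h2]
    congr 1
    unfold rp
    have h3 : x ∈ e.eval k := Code.evaln_sound hx
    rw [decide_eq_decide]
    constructor
    · rintro rfl; exact h3
    · intro h4; exact Part.mem_unique h3 h4
  · rw [List.getElem?_eq_none h, List.getElem?_eq_none (by rw [pre_length]; exact h)]

theorem evd_complete (e : Code) (hdom : ∀ n, (e.eval n).Dom) (N : ℕ) :
    ∃ s0, ∀ s, s0 ≤ s → N ≤ (evd e s s).length := by
  have h1 : ∃ s0, ∀ s, s0 ≤ s → ∀ k, k < N → ∃ x, Code.evaln s e k = some x := by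
    induction N with
    | zero => exact ⟨0, fun s _ k hk => by omega⟩
    | succ N ih =>
      obtain ⟨s0, hs0⟩ := ih
      obtain ⟨s1, hs1⟩ := Code.evaln_complete.1 (Part.get_mem (hdom N))
      refine ⟨max s0 s1, fun s hs k hk => ?_⟩
      rcases Nat.lt_or_ge k N with h2 | h2
      · exact hs0 s ((le_max_left _ _).trans hs) k h2
      · have h3 : k = N := by omega
        subst h3
        exact ⟨_, Code.evaln_mono ((le_max_right _ _).trans hs) hs1⟩
  obtain ⟨s0, hs0⟩ := h1
  exact ⟨max s0 N, fun s hs => evd_long e s N (hs0 s ((le_max_left _ _).trans hs)) s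
    ((le_max_right _ _).trans hs)⟩

/-- The step of the recursion of `evd`. -/
def evs (p : Code × ℕ) (n : ℕ) (σ : List Bool) : List Bool :=
  bif decide (σ.length = n) then
    (Option.casesOn (motive := fun _ => List Bool) (Code.evaln p.2 p.1 n) σ
      (fun x => σ ++ [decide (x = 1)]))
  else σ

theorem evd_evs (e : Code) (s n : ℕ) : evd e s (n + 1) = evs (e, s) n (evd e s n) := rfl

theorem comp_evs : Computable fun z : (Code × ℕ) × (ℕ × List Bool) => evs z.1 z.2.1 z.2.2 := by
  have h2 : Computable fun z : (Code × ℕ) × (ℕ × List Bool) => z.2.2 :=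
    Computable.snd.comp Computable.snd
  have h1 : Computable fun z : (Code × ℕ) × (ℕ × List Bool) => z.2.1 :=
    Computable.fst.comp Computable.snd
  have he : Computable fun z : (Code × ℕ) × (ℕ × List Bool) => z.1.1 :=
    Computable.fst.comp Computable.fst
  have hs : Computable fun z : (Code × ℕ) × (ℕ × List Bool) => z.1.2 :=
    Computable.snd.comp Computable.fst
  have h3 : Computable fun z : (Code × ℕ) × (ℕ × List Bool) => ((z.1.2, z.1.1), z.2.1) :=
    Computable.pair (Computable.pair hs he) h1
  have h4 : Computable fun a : (ℕ × Code) × ℕ => Code.evaln a.1.1 a.1.2 a.2 :=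
    Code.primrec_evaln.to_comp
  have hev : Computable fun z : (Code × ℕ) × (ℕ × List Bool) => Code.evaln z.1.2 z.1.1 z.2.1 :=
    Computable.comp (f := fun a : (ℕ × Code) × ℕ => Code.evaln a.1.1 a.1.2 a.2)
      (g := fun z : (Code × ℕ) × (ℕ × List Bool) => ((z.1.2, z.1.1), z.2.1)) h4 h3
  have hc : Computable fun z : (Code × ℕ) × (ℕ × List Bool) =>
      (Option.casesOn (motive := fun _ => List Bool) (Code.evaln z.1.2 z.1.1 z.2.1) z.2.2
        (fun x => z.2.2 ++ [decide (x = 1)])) :=
    Computable.option_casesOn
      (o := fun z : (Code × ℕ) × (ℕ × List Bool) => Code.evaln z.1.2 z.1.1 z.2.1)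
      (f := fun z => z.2.2) (g := fun z x => z.2.2 ++ [decide (x = 1)])
      hev h2
      (Computable.list_concat.comp (h2.comp Computable.fst)
        (comp_beq Computable.snd (Computable.const 1))).to₂
  have hb : Computable fun z : (Code × ℕ) × (ℕ × List Bool) => decide (z.2.2.length = z.2.1) :=
    comp_beq (Computable.list_length.comp h2) h1
  unfold evs
  exact Computable.cond hb hc h2

theorem comp_evd : Computable fun p : (Code × ℕ) × ℕ => evd p.1.1 p.1.2 p.2 := by
  have h5 : Computable fun z : ((Code × ℕ) × ℕ) × (ℕ × List Bool) => evs z.1.1 z.2.1 z.2.2 :=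
    Computable.comp (f := fun z : (Code × ℕ) × (ℕ × List Bool) => evs z.1 z.2.1 z.2.2)
      (g := fun z : ((Code × ℕ) × ℕ) × (ℕ × List Bool) => (z.1.1, z.2)) comp_evs
      (Computable.pair (Computable.fst.comp Computable.fst) Computable.snd)
  have h := Computable.nat_rec (α := (Code × ℕ) × ℕ) (σ := List Bool)
    (f := fun p => p.2) (g := fun _ => []) (h := fun p q => evs p.1 q.1 q.2)
    Computable.snd (Computable.const []) h5.to₂
  refine h.of_eq fun p => ?_
  obtain ⟨⟨e, s⟩, m⟩ := p
  show _ = evd e s m
  induction m with
  | zero => rfl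
  | succ m ih =>
    rw [evd_evs, ← ih]

/-! ### Markers -/

/-- kind, code, list of nodes -/
abbrev Inf : Type := ℕ × (Code × List (List Bool))

/-- The marker of an index. -/
def info (i : ℕ) : Inf := (decode (α := Inf) i.unpair.2).getD (6, (Code.zero, []))

theorem info_surj (x : Inf) (n : ℕ) : ∃ i, n ≤ i ∧ info i = x := by
  refine ⟨Nat.pair n (encode x), Nat.left_le_pair _ _, ?_⟩
  unfold info
  rw [Nat.unpair_pair, encodek]
  rfl

theorem comp_info : Computable info :=
  Computable.option_getD
    (Computable.decode.comp (Computable.snd.comp Computable.unpair)) (Computable.const _)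

/-- Fixed information: the paths, labels and hard sides of the bottom and the top marker, and the
certificates of the infinite blocks. -/
structure Par where
  p0 : ℕ → Bool
  p1 : ℕ → Bool
  l0 : ℕ
  l1 : ℕ
  h0 : Bool
  h1 : Bool
  Q : List Bool → ℕ → ℕ → ℕ → Bool
  Q' : List Bool → ℕ → ℕ → ℕ → Bool

/-- The `k`-th node of a list. -/
def G (F : List (List Bool)) (k : ℕ) : List Bool := (F[k]?).getD []

/-- The first path of a list of branching nodes. -/
def fp (t : List Bool → Bool) (F : List (List Bool)) : ℕ → Bool := pathC t true (G F 0 ++ [false])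

/-- The last path of a list of branching nodes. -/
def lp (t : List Bool → Bool) (F : List (List Bool)) : ℕ → Bool :=
  pathC t false (G F (F.length - 1) ++ [true])

/-- The path right of a branching node. -/
def qp (t : List Bool → Bool) (F : List (List Bool)) : ℕ → Bool := pathC t false (G F 0 ++ [true])

/-- A branching between the levels `m` and `N` at which `f` goes to `b`. -/
def Br (t : List Bool → Bool) (b : Bool) (f : ℕ → Bool) (m N : ℕ) : Bool :=
  bex (fun k => decide (m ≤ k) && (both t (pre f k) && decide (f k = b))) N

/-- The nodes are branching and consecutive, up to level `m`. -/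
def Cn (t : List Bool → Bool) (F : List (List Bool)) (m : ℕ) : Bool :=
  decide (1 ≤ F.length) && bal (fun k => both t (G F k) && (decide (F.length ≤ k + 1) ||
    decide (pre (pathC t false (G F k ++ [true])) m =
      pre (pathC t true (G F (k + 1) ++ [false])) m))) F.length

/-- The certificate is confirmed up to `m` by stage `s`. -/
def QQ (Q : List Bool → ℕ → ℕ → ℕ → Bool) (F : List (List Bool)) (m s : ℕ) : Bool :=
  bex (fun r => Q (G F 0) (G F 1).length m r) s

/-- The known digits of the representative. -/
def dig (t : List Bool → Bool) (p : Par) (x : Inf) (s : ℕ) : List Bool :=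
  bif decide (x.1 = 0) then pre p.p0 s else
  bif decide (x.1 = 1) then pre p.p1 s else
  bif decide (x.1 = 2) then evd x.2.1 s s else
  bif decide (x.1 = 5) then pre (qp t x.2.2) s else pre (fp t x.2.2) s

/-- The representative. -/
noncomputable def rep (t : List Bool → Bool) (p : Par) (x : Inf) : ℕ → Bool :=
  if x.1 = 0 then p.p0 else if x.1 = 1 then p.p1 else if x.1 = 2 then rp x.2.1 else
  if x.1 = 5 then qp t x.2.2 else fp t x.2.2

/-- The requirements. -/
def req (t : List Bool → Bool) (p : Par) (x : Inf) (m s : ℕ) : Bool :=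
  bif decide (x.1 = 0) then true else
  bif decide (x.1 = 1) then true else
  bif decide (x.1 = 2) then t (evd x.2.1 s s) &&
    (Br t true (ext (evd x.2.1 s s)) m (evd x.2.1 s s).length &&
      Br t false (ext (evd x.2.1 s s)) m (evd x.2.1 s s).length) else
  bif decide (x.1 = 3) then Cn t x.2.2 m &&
    (Br t true (fp t x.2.2) m s && Br t false (lp t x.2.2) m s) else
  bif decide (x.1 = 4) then both t (G x.2.2 0) &&
    (Br t true (fp t x.2.2) m s && QQ p.Q x.2.2 m s) else
  bif decide (x.1 = 5) then both t (G x.2.2 0) &&
    (Br t false (qp t x.2.2) m s && QQ p.Q' x.2.2 m s) else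
  false

/-- The comparison of two lists of digits. -/
def ltd (σ τ : List Bool) : Bool :=
  decide (cmp (ext σ) (ext τ) (min σ.length τ.length) = some true)

theorem ltd_iff {σ τ : List Bool} : ltd σ τ = true ↔
    cmp (ext σ) (ext τ) (min σ.length τ.length) = some true := by
  unfold ltd
  exact decide_eq_true_iff

/-- the counters -/
def cF (t : List Bool → Bool) (p : Par) (i s : ℕ) : ℕ :=
  cnt (fun m => bex (fun r => req t p (info i) m r) (s + 1)) s

/-- the comparisons -/
def ltF (t : List Bool → Bool) (p : Par) (i j s : ℕ) : Bool :=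
  ltd (dig t p (info i) s) (dig t p (info j) s)

/-- the labels -/
def labF (p : Par) (i : ℕ) : ℕ :=
  bif decide ((info i).1 = 0) then p.l0 else bif decide ((info i).1 = 1) then p.l1 else
    bif decide ((info i).1 = 3) then (info i).2.2.length - 1 else 0

/-- the hard left sides -/
def hlF (p : Par) (i : ℕ) : Bool :=
  bif decide ((info i).1 = 0) then false else bif decide ((info i).1 = 1) then p.h1 else
    decide ((info i).1 = 5)

/-- the hard right sides -/
def hrF (p : Par) (i : ℕ) : Bool :=
  bif decide ((info i).1 = 0) then p.h0 else bif decide ((info i).1 = 1) then false else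
    decide ((info i).1 = 4)

/-- The marker data of a tree. -/
def data (t : List Bool → Bool) (p : Par) : Data where
  c := cF t p
  lt := ltF t p
  lab := labF p
  hl := hlF p
  hr := hrF p

theorem data_c (t : List Bool → Bool) (p : Par) : (data t p).c = cF t p := by
  unfold data; rfl

theorem data_lt (t : List Bool → Bool) (p : Par) : (data t p).lt = ltF t p := by
  unfold data; rfl

theorem data_lab (t : List Bool → Bool) (p : Par) : (data t p).lab = labF p := by
  unfold data; rfl

theorem data_hl (t : List Bool → Bool) (p : Par) : (data t p).hl = hlF p := by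
  unfold data; rfl

theorem data_hr (t : List Bool → Bool) (p : Par) : (data t p).hr = hrF p := by
  unfold data; rfl

theorem ltF_iff (t : List Bool → Bool) (p : Par) (i j s : ℕ) : ltF t p i j s = true ↔
    cmp (ext (dig t p (info i) s)) (ext (dig t p (info j) s))
      (min (dig t p (info i) s).length (dig t p (info j) s).length) = some true := by
  unfold ltF
  exact ltd_iff

/-! ### Computability -/

section comp

variable {α : Type} [Primcodable α] {t : List Bool → Bool}

theorem comp_G {F : α → List (List Bool)} {k : α → ℕ} (hF : Computable F) (hk : Computable k) :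
    Computable fun a => G (F a) (k a) :=
  Computable.option_getD (Computable.list_getElem?.comp hF hk) (Computable.const [])

theorem comp_path (ht : Computable t) {v : α → List Bool} (b : Bool) (hv : Computable v) :
    Computable₂ fun a n => pathC t b (v a) n :=
  ((comp_pathC ht).comp (Computable.pair (Computable.const b) (hv.comp Computable.fst))
    Computable.snd).to₂

theorem comp_app {v : α → List Bool} (hv : Computable v) (b : Bool) :
    Computable fun a => v a ++ [b] :=
  Computable.list_concat.comp hv (Computable.const b)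

theorem comp_fp (ht : Computable t) {F : α → List (List Bool)} (hF : Computable F) :
    Computable₂ fun a n => fp t (F a) n :=
  comp_path ht true (comp_app (comp_G hF (Computable.const 0)) false)

theorem comp_sub1 {f : α → ℕ} (hf : Computable f) : Computable fun a => f a - 1 :=
  Primrec.nat_sub.to_comp.comp hf (Computable.const 1)

theorem comp_lp (ht : Computable t) {F : α → List (List Bool)} (hF : Computable F) :
    Computable₂ fun a n => lp t (F a) n :=
  comp_path ht false (comp_app (comp_G hF (comp_sub1 (Computable.list_length.comp hF))) true)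

theorem comp_qp (ht : Computable t) {F : α → List (List Bool)} (hF : Computable F) :
    Computable₂ fun a n => qp t (F a) n :=
  comp_path ht false (comp_app (comp_G hF (Computable.const 0)) true)

theorem comp_Br (ht : Computable t) (b : Bool) {f : α → ℕ → Bool} (hf : Computable₂ f)
    {m N : α → ℕ} (hm : Computable m) (hN : Computable N) :
    Computable fun a => Br t b (f a) (m a) (N a) := by
  have h : Computable₂ fun (a : α) (k : ℕ) =>
      decide (m a ≤ k) && (both t (pre (f a) k) && decide (f a k = b)) :=
    (comp_and (comp_le (hm.comp Computable.fst) Computable.snd)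
      (comp_and ((comp_both ht).comp ((comp_pre hf).comp Computable.fst Computable.snd))
        (comp_beq (hf.comp Computable.fst Computable.snd) (Computable.const b)))).to₂
  exact (comp_bex h).comp Computable.id hN

theorem comp_Cn (ht : Computable t) {F : α → List (List Bool)} (hF : Computable F)
    {m : α → ℕ} (hm : Computable m) : Computable fun a => Cn t (F a) (m a) := by
  have hF' : Computable fun q : α × ℕ => F q.1 := hF.comp Computable.fst
  have hm' : Computable fun q : α × ℕ => m q.1 := hm.comp Computable.fst
  have hk : Computable fun q : α × ℕ => q.2 := Computable.snd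
  have hk1 : Computable fun q : α × ℕ => q.2 + 1 := Computable.succ.comp Computable.snd
  have h1 : Computable fun q : α × ℕ => pre (pathC t false (G (F q.1) q.2 ++ [true])) (m q.1) :=
    (comp_pre (comp_path ht false (comp_app (comp_G hF' hk) true))).comp Computable.id hm'
  have h2 : Computable fun q : α × ℕ =>
      pre (pathC t true (G (F q.1) (q.2 + 1) ++ [false])) (m q.1) :=
    (comp_pre (comp_path ht true (comp_app (comp_G hF' hk1) false))).comp Computable.id hm'
  have h : Computable₂ fun (a : α) (k : ℕ) => both t (G (F a) k) &&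
      (decide ((F a).length ≤ k + 1) ||
        decide (pre (pathC t false (G (F a) k ++ [true])) (m a) =
          pre (pathC t true (G (F a) (k + 1) ++ [false])) (m a))) :=
    (comp_and ((comp_both ht).comp (comp_G hF' hk))
      (comp_or (comp_le (Computable.list_length.comp hF') hk1) (comp_beq h1 h2))).to₂
  exact comp_and (comp_le (Computable.const 1) (Computable.list_length.comp hF))
    ((comp_bal h).comp Computable.id (Computable.list_length.comp hF))

/-- Computability of a certificate. -/
def CompQ (Q : List Bool → ℕ → ℕ → ℕ → Bool) : Prop :=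
  Computable fun x : ((List Bool × ℕ) × ℕ) × ℕ => Q x.1.1.1 x.1.1.2 x.1.2 x.2

theorem comp_QQ {Q : List Bool → ℕ → ℕ → ℕ → Bool} (hQ : CompQ Q)
    {F : α → List (List Bool)} {m s : α → ℕ} (hF : Computable F) (hm : Computable m)
    (hs : Computable s) : Computable fun a => QQ Q (F a) (m a) (s a) := by
  have hF' : Computable fun q : α × ℕ => F q.1 := hF.comp Computable.fst
  have h1 : Computable fun q : α × ℕ =>
      (((G (F q.1) 0, (G (F q.1) 1).length), m q.1), q.2) :=
    Computable.pair (Computable.pair (Computable.pair (comp_G hF' (Computable.const 0))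
      (Computable.list_length.comp (comp_G hF' (Computable.const 1))))
      (hm.comp Computable.fst)) Computable.snd
  have h : Computable₂ fun (a : α) (r : ℕ) => Q (G (F a) 0) (G (F a) 1).length (m a) r :=
    (Computable.comp (f := fun x : ((List Bool × ℕ) × ℕ) × ℕ => Q x.1.1.1 x.1.1.2 x.1.2 x.2)
      (g := fun q : α × ℕ => (((G (F q.1) 0, (G (F q.1) 1).length), m q.1), q.2)) hQ h1).to₂
  exact (comp_bex h).comp Computable.id hs

theorem comp_evd' {e : α → Code} {s : α → ℕ} (he : Computable e) (hs : Computable s) :
    Computable fun a => evd (e a) (s a) (s a) :=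
  comp_evd.comp (Computable.pair (Computable.pair he hs) hs)

theorem comp_dig (ht : Computable t) {p : Par} (h0 : Computable p.p0) (h1 : Computable p.p1)
    {x : α → Inf} {s : α → ℕ} (hx : Computable x) (hs : Computable s) :
    Computable fun a => dig t p (x a) (s a) := by
  have hk : Computable fun a => (x a).1 := Computable.fst.comp hx
  have he : Computable fun a => (x a).2.1 := Computable.fst.comp (Computable.snd.comp hx)
  have hF : Computable fun a => (x a).2.2 := Computable.snd.comp (Computable.snd.comp hx)
  have hp0 : Computable₂ fun (_ : α) (n : ℕ) => p.p0 n := (h0.comp Computable.snd).to₂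
  have hp1 : Computable₂ fun (_ : α) (n : ℕ) => p.p1 n := (h1.comp Computable.snd).to₂
  exact Computable.cond (comp_beq hk (Computable.const 0))
    ((comp_pre hp0).comp Computable.id hs)
    (Computable.cond (comp_beq hk (Computable.const 1))
      ((comp_pre hp1).comp Computable.id hs)
      (Computable.cond (comp_beq hk (Computable.const 2)) (comp_evd' he hs)
        (Computable.cond (comp_beq hk (Computable.const 5))
          ((comp_pre (comp_qp ht hF)).comp Computable.id hs)
          ((comp_pre (comp_fp ht hF)).comp Computable.id hs))))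

theorem comp_req (ht : Computable t) {p : Par} (hQ : CompQ p.Q) (hQ' : CompQ p.Q') {x : α → Inf} {m s : α → ℕ} (hx : Computable x)
    (hm : Computable m) (hs : Computable s) : Computable fun a => req t p (x a) (m a) (s a) := by
  have hk : Computable fun a => (x a).1 := Computable.fst.comp hx
  have he : Computable fun a => (x a).2.1 := Computable.fst.comp (Computable.snd.comp hx)
  have hF : Computable fun a => (x a).2.2 := Computable.snd.comp (Computable.snd.comp hx)
  have hev := comp_evd' he hs
  have hex : Computable₂ fun (a : α) (n : ℕ) => ext (evd (x a).2.1 (s a) (s a)) n :=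
    (comp_ext.comp (hev.comp Computable.fst) Computable.snd).to₂
  have hlen := Computable.list_length.comp hev
  exact Computable.cond (comp_beq hk (Computable.const 0)) (Computable.const true)
    (Computable.cond (comp_beq hk (Computable.const 1)) (Computable.const true)
      (Computable.cond (comp_beq hk (Computable.const 2))
        (comp_and (ht.comp hev) (comp_and (comp_Br ht true hex hm hlen)
          (comp_Br ht false hex hm hlen)))
        (Computable.cond (comp_beq hk (Computable.const 3))
          (comp_and (comp_Cn ht hF hm) (comp_and (comp_Br ht true (comp_fp ht hF) hm hs)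
            (comp_Br ht false (comp_lp ht hF) hm hs)))
          (Computable.cond (comp_beq hk (Computable.const 4))
            (comp_and ((comp_both ht).comp (comp_G hF (Computable.const 0)))
              (comp_and (comp_Br ht true (comp_fp ht hF) hm hs) (comp_QQ hQ hF hm hs)))
            (Computable.cond (comp_beq hk (Computable.const 5))
              (comp_and ((comp_both ht).comp (comp_G hF (Computable.const 0)))
                (comp_and (comp_Br ht false (comp_qp ht hF) hm hs) (comp_QQ hQ' hF hm hs)))
              (Computable.const false))))))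

theorem comp_ltd {σ τ : α → List Bool} (hσ : Computable σ) (hτ : Computable τ) :
    Computable fun a => ltd (σ a) (τ a) := by
  have h1 : Computable₂ fun (a : α) (n : ℕ) => ext (σ a) n :=
    (comp_ext.comp (hσ.comp Computable.fst) Computable.snd).to₂
  have h2 : Computable₂ fun (a : α) (n : ℕ) => ext (τ a) n :=
    (comp_ext.comp (hτ.comp Computable.fst) Computable.snd).to₂
  have h3 : Computable fun a => min (σ a).length (τ a).length :=
    Primrec.nat_min.to_comp.comp (Computable.list_length.comp hσ) (Computable.list_length.comp hτ)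
  exact comp_beq ((comp_cmp h1 h2).comp Computable.id h3) (Computable.const (some true))

end comp

variable {t : List Bool → Bool}

/-- The data are computable. -/
theorem data_comp (ht : Computable t) {p : Par} (h0 : Computable p.p0) (h1 : Computable p.p1)
    (hQ : CompQ p.Q) (hQ' : CompQ p.Q') :
    (data t p).Comp where
  c := by
    have h2 : Computable₂ fun (q : (ℕ × ℕ) × ℕ) (r : ℕ) => req t p (info q.1.1) q.2 r :=
      (comp_req ht hQ hQ' (comp_info.comp (Computable.fst.comp (Computable.fst.comp Computable.fst)))
        (Computable.snd.comp Computable.fst) Computable.snd).to₂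
    have h3 : Computable₂ fun (q : ℕ × ℕ) (m : ℕ) =>
        bex (fun r => req t p (info q.1) m r) (q.2 + 1) :=
      ((comp_bex h2).comp Computable.id
        (Computable.succ.comp (Computable.snd.comp Computable.fst))).to₂
    have h4 : Computable fun q : ℕ × ℕ => cF t p q.1 q.2 := by
      unfold cF
      exact (comp_cnt h3).comp Computable.id Computable.snd
    rw [data_c]
    exact h4
  lt := by
    have hi : Computable fun q : (ℕ × ℕ) × ℕ => info q.1.1 :=
      comp_info.comp (Computable.fst.comp Computable.fst)
    have hj : Computable fun q : (ℕ × ℕ) × ℕ => info q.1.2 :=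
      comp_info.comp (Computable.snd.comp Computable.fst)
    have h4 : Computable fun q : (ℕ × ℕ) × ℕ => ltF t p q.1.1 q.1.2 q.2 := by
      unfold ltF
      exact comp_ltd (comp_dig ht h0 h1 hi Computable.snd) (comp_dig ht h0 h1 hj Computable.snd)
    rw [data_lt]
    exact h4
  lab := by
    have hk : Computable fun i => (info i).1 := Computable.fst.comp comp_info
    have hF : Computable fun i => (info i).2.2 := Computable.snd.comp (Computable.snd.comp comp_info)
    exact Computable.cond (comp_beq hk (Computable.const 0)) (Computable.const _)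
      (Computable.cond (comp_beq hk (Computable.const 1)) (Computable.const _)
        (Computable.cond (comp_beq hk (Computable.const 3))
          (comp_sub1 (Computable.list_length.comp hF)) (Computable.const 0)))
  hl := by
    have hk : Computable fun i => (info i).1 := Computable.fst.comp comp_info
    exact Computable.cond (comp_beq hk (Computable.const 0)) (Computable.const _)
      (Computable.cond (comp_beq hk (Computable.const 1)) (Computable.const _)
        (comp_beq hk (Computable.const 5)))
  hr := by
    have hk : Computable fun i => (info i).1 := Computable.fst.comp comp_info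
    exact Computable.cond (comp_beq hk (Computable.const 0)) (Computable.const _)
      (Computable.cond (comp_beq hk (Computable.const 1)) (Computable.const _)
        (comp_beq hk (Computable.const 4)))

/-! ### Meaning -/

/-- The nodes of the list are branching and consecutive. -/
def Consec (t : List Bool → Bool) (F : List (List Bool)) : Prop :=
  1 ≤ F.length ∧ (∀ k, k < F.length → both t (G F k) = true) ∧ ∀ k, k + 1 < F.length →
    pathC t false (G F k ++ [true]) = pathC t true (G F (k + 1) ++ [false])

/-- The condition under which a marker is real. -/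
def Cond (t : List Bool → Bool) (p : Par) (x : Inf) : Prop :=
  x.1 = 0 ∨ x.1 = 1 ∨
  (x.1 = 2 ∧ (∀ n, (x.2.1.eval n).Dom) ∧ IsPath t (rp x.2.1) ∧ InfBr t true (rp x.2.1) ∧
    InfBr t false (rp x.2.1)) ∨
  (x.1 = 3 ∧ Consec t x.2.2 ∧ InfBr t true (fp t x.2.2) ∧ InfBr t false (lp t x.2.2)) ∨
  (x.1 = 4 ∧ both t (G x.2.2 0) = true ∧ InfBr t true (fp t x.2.2) ∧
    ∀ m, ∃ r, p.Q (G x.2.2 0) (G x.2.2 1).length m r = true) ∨
  (x.1 = 5 ∧ both t (G x.2.2 0) = true ∧ InfBr t false (qp t x.2.2) ∧
    ∀ m, ∃ r, p.Q' (G x.2.2 0) (G x.2.2 1).length m r = true)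

theorem br_iff {b : Bool} {f : ℕ → Bool} {m N : ℕ} : Br t b f m N = true ↔
    ∃ k, m ≤ k ∧ k < N ∧ both t (pre f k) = true ∧ f k = b := by
  unfold Br
  rw [bex_iff]
  constructor
  · rintro ⟨k, hk, h⟩
    rw [Bool.and_eq_true, Bool.and_eq_true, decide_eq_true_eq, decide_eq_true_eq] at h
    exact ⟨k, h.1, hk, h.2.1, h.2.2⟩
  · rintro ⟨k, h1, h2, h3, h4⟩
    refine ⟨k, h2, ?_⟩
    rw [Bool.and_eq_true, Bool.and_eq_true, decide_eq_true_eq, decide_eq_true_eq]
    exact ⟨h1, h3, h4⟩

theorem br_mono {b : Bool} {f : ℕ → Bool} {m N N' : ℕ} (h : Br t b f m N = true) (hN : N ≤ N') :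
    Br t b f m N' = true := by
  rw [br_iff] at h ⊢
  obtain ⟨k, h1, h2, h3⟩ := h
  exact ⟨k, h1, by omega, h3⟩

theorem infBr_of_br {b : Bool} {f : ℕ → Bool} (h : ∀ m, ∃ N, Br t b f m N = true) :
    InfBr t b f := by
  intro m
  obtain ⟨N, hN⟩ := h m
  obtain ⟨k, h1, _, h3, h4⟩ := br_iff.1 hN
  exact ⟨k, h1, h3, h4⟩

theorem br_of_infBr {b : Bool} {f : ℕ → Bool} (h : InfBr t b f) (m : ℕ) :
    ∃ N, Br t b f m N = true := by
  obtain ⟨k, h1, h2, h3⟩ := h m
  exact ⟨k + 1, br_iff.2 ⟨k, h1, by omega, h2, h3⟩⟩

theorem cn_iff {F : List (List Bool)} {m : ℕ} : Cn t F m = true ↔ 1 ≤ F.length ∧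
    (∀ k, k < F.length → both t (G F k) = true) ∧ ∀ k, k + 1 < F.length →
    pre (pathC t false (G F k ++ [true])) m = pre (pathC t true (G F (k + 1) ++ [false])) m := by
  unfold Cn
  rw [Bool.and_eq_true, decide_eq_true_eq, bal_iff]
  constructor
  · rintro ⟨h1, h2⟩
    refine ⟨h1, fun k hk => ?_, fun k hk => ?_⟩
    · have := h2 k hk
      rw [Bool.and_eq_true] at this
      exact this.1
    · have := h2 k (by omega)
      rw [Bool.and_eq_true, Bool.or_eq_true, decide_eq_true_eq, decide_eq_true_eq] at this
      rcases this.2 with h3 | h3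
      · omega
      · exact h3
  · rintro ⟨h1, h2, h3⟩
    refine ⟨h1, fun k hk => ?_⟩
    rw [Bool.and_eq_true, Bool.or_eq_true, decide_eq_true_eq, decide_eq_true_eq]
    refine ⟨h2 k hk, ?_⟩
    rcases Nat.lt_or_ge (k + 1) F.length with h4 | h4
    · exact Or.inr (h3 k h4)
    · exact Or.inl h4

theorem consec_iff {F : List (List Bool)} : Consec t F ↔ ∀ m, Cn t F m = true := by
  constructor
  · rintro ⟨h1, h2, h3⟩ m
    exact cn_iff.2 ⟨h1, h2, fun k hk => by rw [h3 k hk]⟩
  · intro h
    have h0 := cn_iff.1 (h 0)
    refine ⟨h0.1, h0.2.1, fun k hk => ?_⟩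
    funext n
    exact agree_of_pre ((cn_iff.1 (h (n + 1))).2.2 k hk) n (by omega)

theorem down_pre (ht : IsTree t) {f : ℕ → Bool} {n m : ℕ} (h : t (pre f m) = true) (hn : n ≤ m) :
    t (pre f n) = true := by
  induction m, hn using Nat.le_induction with
  | base => exact h
  | succ m _ ih =>
    rw [pre_succ] at h
    exact ih (ht.down _ _ h)

theorem ext_evd (e : Code) (s n : ℕ) {k : ℕ} (hk : k < (evd e s n).length) :
    ext (evd e s n) k = rp e k := by
  conv_lhs => rw [evd_eq e s n]
  exact ext_pre _ hk

theorem pre_ext_evd (e : Code) (s n : ℕ) {k : ℕ} (hk : k ≤ (evd e s n).length) :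
    pre (ext (evd e s n)) k = pre (rp e) k :=
  pre_eq_of (fun _ hi => ext_evd e s n (by omega))

theorem br_ext {e : Code} {s n m : ℕ} {b : Bool} :
    Br t b (ext (evd e s n)) m (evd e s n).length = Br t b (rp e) m (evd e s n).length := by
  rw [Bool.eq_iff_iff, br_iff, br_iff]
  constructor
  · rintro ⟨k, h1, h2, h3, h4⟩
    rw [pre_ext_evd e s n h2.le] at h3
    rw [ext_evd e s n h2] at h4
    exact ⟨k, h1, h2, h3, h4⟩
  · rintro ⟨k, h1, h2, h3, h4⟩
    refine ⟨k, h1, h2, ?_, ?_⟩
    · rw [pre_ext_evd e s n h2.le]; exact h3
    · rw [ext_evd e s n h2]; exact h4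

theorem req_0 (p : Par) (e : Code) (F : List (List Bool)) (m s : ℕ) :
    req t p (0, e, F) m s = true := rfl

theorem req_1 (p : Par) (e : Code) (F : List (List Bool)) (m s : ℕ) :
    req t p (1, e, F) m s = true := rfl

theorem req_2 (p : Par) (e : Code) (F : List (List Bool)) (m s : ℕ) :
    req t p (2, e, F) m s = (t (evd e s s) &&
    (Br t true (ext (evd e s s)) m (evd e s s).length &&
      Br t false (ext (evd e s s)) m (evd e s s).length)) := rfl

theorem req_3 (p : Par) (e : Code) (F : List (List Bool)) (m s : ℕ) :
    req t p (3, e, F) m s = (Cn t F m && (Br t true (fp t F) m s && Br t false (lp t F) m s)) := rfl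

theorem req_4 (p : Par) (e : Code) (F : List (List Bool)) (m s : ℕ) :
    req t p (4, e, F) m s =
      (both t (G F 0) && (Br t true (fp t F) m s && QQ p.Q F m s)) := rfl

theorem req_5 (p : Par) (e : Code) (F : List (List Bool)) (m s : ℕ) :
    req t p (5, e, F) m s =
      (both t (G F 0) && (Br t false (qp t F) m s && QQ p.Q' F m s)) := rfl

theorem req_6 (p : Par) {k : ℕ} (hk : 5 < k) (e : Code) (F : List (List Bool)) (m s : ℕ) :
    req t p (k, e, F) m s = false := by
  have e0 : decide (k = 0) = false := decide_eq_false (by omega)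
  have e1 : decide (k = 1) = false := decide_eq_false (by omega)
  have e2 : decide (k = 2) = false := decide_eq_false (by omega)
  have e3 : decide (k = 3) = false := decide_eq_false (by omega)
  have e4 : decide (k = 4) = false := decide_eq_false (by omega)
  have e5 : decide (k = 5) = false := decide_eq_false (by omega)
  unfold req
  simp only [e0, e1, e2, e3, e4, e5, cond_false]

theorem req_iff (ht : IsTree t) {p : Par} {x : Inf} :
    (∀ m, ∃ s, req t p x m s = true) ↔ Cond t p x := by
  obtain ⟨kd, e, F⟩ := x
  rcases Nat.lt_or_ge 5 kd with hk | hk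
  · constructor
    · intro h
      obtain ⟨s, hs⟩ := h 0
      rw [req_6 p hk] at hs
      cases hs
    · intro h
      exfalso
      unfold Cond at h
      rcases h with h | h | h | h | h | h
      · replace h : kd = 0 := h
        omega
      · replace h : kd = 1 := h
        omega
      · replace h : kd = 2 := h.1
        omega
      · replace h : kd = 3 := h.1
        omega
      · replace h : kd = 4 := h.1
        omega
      · replace h : kd = 5 := h.1
        omega
  · interval_cases kd
    · exact ⟨fun _ => Or.inl rfl, fun _ m => ⟨0, rfl⟩⟩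
    · exact ⟨fun _ => Or.inr (Or.inl rfl), fun _ m => ⟨0, rfl⟩⟩
    · -- kind 2
      constructor
      · intro h
        have h' : ∀ m, ∃ s, t (evd e s s) = true ∧ Br t true (rp e) m (evd e s s).length = true ∧
            Br t false (rp e) m (evd e s s).length = true := by
          intro m
          obtain ⟨s, hs⟩ := h m
          rw [req_2, Bool.and_eq_true, Bool.and_eq_true, br_ext, br_ext] at hs
          exact ⟨s, hs.1, hs.2.1, hs.2.2⟩
        refine Or.inr (Or.inr (Or.inl ⟨rfl, ?_, ?_, ?_, ?_⟩))
        · intro n
          obtain ⟨s, _, h2, _⟩ := h' n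
          obtain ⟨k, h3, h4, _⟩ := br_iff.1 h2
          obtain ⟨x, hx, _⟩ := evd_spec e s s n (by omega)
          exact Part.dom_iff_mem.2 ⟨x, Code.evaln_sound hx⟩
        · intro n
          obtain ⟨s, h1, h2, _⟩ := h' n
          obtain ⟨k, h3, h4, _⟩ := br_iff.1 h2
          rw [evd_eq e s s] at h1
          exact down_pre ht h1 (by omega)
        · apply infBr_of_br
          intro m
          obtain ⟨s, _, h2, _⟩ := h' m
          exact ⟨_, h2⟩
        · apply infBr_of_br
          intro m
          obtain ⟨s, _, _, h3⟩ := h' m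
          exact ⟨_, h3⟩
      · rintro (h | h | h | h | h | h)
        · cases h
        · cases h
        · obtain ⟨_, hdom, hpath, hl, hr⟩ := h
          intro m
          obtain ⟨N1, hN1⟩ := br_of_infBr hl m
          obtain ⟨N2, hN2⟩ := br_of_infBr hr m
          obtain ⟨s0, hs0⟩ := evd_complete e hdom (max N1 N2)
          have hlen := hs0 s0 (le_refl _)
          refine ⟨s0, ?_⟩
          rw [req_2, Bool.and_eq_true, Bool.and_eq_true, br_ext, br_ext]
          refine ⟨?_, br_mono hN1 ((le_max_left _ _).trans hlen),
            br_mono hN2 ((le_max_right _ _).trans hlen)⟩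
          rw [evd_eq e s0 s0]
          exact hpath _
        · cases h.1
        · cases h.1
        · cases h.1
    · -- kind 3
      constructor
      · intro h
        have h' : ∀ m, ∃ s, Cn t F m = true ∧ Br t true (fp t F) m s = true ∧
            Br t false (lp t F) m s = true := by
          intro m
          obtain ⟨s, hs⟩ := h m
          rw [req_3, Bool.and_eq_true, Bool.and_eq_true] at hs
          exact ⟨s, hs.1, hs.2.1, hs.2.2⟩
        refine Or.inr (Or.inr (Or.inr (Or.inl ⟨rfl, consec_iff.2 (fun m => ?_),
          infBr_of_br (fun m => ?_), infBr_of_br (fun m => ?_)⟩)))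
        · obtain ⟨s, hs⟩ := h' m
          exact hs.1
        · obtain ⟨s, hs⟩ := h' m
          exact ⟨s, hs.2.1⟩
        · obtain ⟨s, hs⟩ := h' m
          exact ⟨s, hs.2.2⟩
      · rintro (h | h | h | h | h | h)
        · cases h
        · cases h
        · cases h.1
        · obtain ⟨_, hc, hl, hr⟩ := h
          intro m
          obtain ⟨N1, hN1⟩ := br_of_infBr hl m
          obtain ⟨N2, hN2⟩ := br_of_infBr hr m
          refine ⟨max N1 N2, ?_⟩
          rw [req_3, Bool.and_eq_true, Bool.and_eq_true]
          exact ⟨consec_iff.1 hc m, br_mono hN1 (le_max_left _ _),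
            br_mono hN2 (le_max_right _ _)⟩
        · cases h.1
        · cases h.1
    · -- kind 4
      constructor
      · intro h
        have h' : ∀ m, ∃ s, both t (G F 0) = true ∧ Br t true (fp t F) m s = true ∧
            QQ p.Q F m s = true := by
          intro m
          obtain ⟨s, hs⟩ := h m
          rw [req_4, Bool.and_eq_true, Bool.and_eq_true] at hs
          exact ⟨s, hs.1, hs.2.1, hs.2.2⟩
        refine Or.inr (Or.inr (Or.inr (Or.inr (Or.inl ⟨rfl, ?_, infBr_of_br (fun m => ?_), fun m => ?_⟩))))
        · obtain ⟨s, hs⟩ := h' 0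
          exact hs.1
        · obtain ⟨s, hs⟩ := h' m
          exact ⟨s, hs.2.1⟩
        · obtain ⟨s, hs⟩ := h' m
          obtain ⟨r, _, hr⟩ := bex_iff.1 hs.2.2
          exact ⟨r, hr⟩
      · rintro (h | h | h | h | h | h)
        · cases h
        · cases h
        · cases h.1
        · cases h.1
        · obtain ⟨_, hb, hl, hq⟩ := h
          intro m
          obtain ⟨N1, hN1⟩ := br_of_infBr hl m
          obtain ⟨r, hr⟩ := hq m
          refine ⟨max N1 (r + 1), ?_⟩
          rw [req_4, Bool.and_eq_true, Bool.and_eq_true]
          exact ⟨hb, br_mono hN1 (le_max_left _ _),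
            bex_iff.2 ⟨r, lt_of_lt_of_le (Nat.lt_succ_self r) (le_max_right _ _), hr⟩⟩
        · cases h.1
    · -- kind 5
      constructor
      · intro h
        have h' : ∀ m, ∃ s, both t (G F 0) = true ∧ Br t false (qp t F) m s = true ∧
            QQ p.Q' F m s = true := by
          intro m
          obtain ⟨s, hs⟩ := h m
          rw [req_5, Bool.and_eq_true, Bool.and_eq_true] at hs
          exact ⟨s, hs.1, hs.2.1, hs.2.2⟩
        refine Or.inr (Or.inr (Or.inr (Or.inr (Or.inr ⟨rfl, ?_, infBr_of_br (fun m => ?_), fun m => ?_⟩))))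
        · obtain ⟨s, hs⟩ := h' 0
          exact hs.1
        · obtain ⟨s, hs⟩ := h' m
          exact ⟨s, hs.2.1⟩
        · obtain ⟨s, hs⟩ := h' m
          obtain ⟨r, _, hr⟩ := bex_iff.1 hs.2.2
          exact ⟨r, hr⟩
      · rintro (h | h | h | h | h | h)
        · cases h
        · cases h
        · cases h.1
        · cases h.1
        · cases h.1
        · obtain ⟨_, hb, hl, hq⟩ := h
          intro m
          obtain ⟨N1, hN1⟩ := br_of_infBr hl m
          obtain ⟨r, hr⟩ := hq m
          refine ⟨max N1 (r + 1), ?_⟩
          rw [req_5, Bool.and_eq_true, Bool.and_eq_true]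
          exact ⟨hb, br_mono hN1 (le_max_left _ _),
            bex_iff.2 ⟨r, lt_of_lt_of_le (Nat.lt_succ_self r) (le_max_right _ _), hr⟩⟩

/-- The counters are monotone. -/
theorem data_cmono (p : Par) (i : ℕ) : Monotone ((data t p).c i) := by
  intro s s' hs
  rw [data_c]
  show cnt _ s ≤ cnt _ s'
  have h := (le_cnt (P := fun m => bex (fun r => req t p (info i) m r) (s + 1)) (n := s)
    (m := cnt (fun m => bex (fun r => req t p (info i) m r) (s + 1)) s)).1 (le_refl _)
  refine le_cnt.2 ⟨h.1.trans hs, fun k hk => ?_⟩
  have h1 := bex_iff.1 (h.2 k hk)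
  obtain ⟨r, hr, hr2⟩ := h1
  exact bex_iff.2 ⟨r, by omega, hr2⟩

/-- The real indices. -/
theorem data_real (ht : IsTree t) (p : Par) (i : ℕ) :
    (data t p).Real i ↔ Cond t p (info i) := by
  rw [← req_iff ht]
  constructor
  · intro h m
    obtain ⟨s, hs⟩ := h (m + 1)
    have h1 := (le_cnt.1 hs).2 m (by omega)
    obtain ⟨r, _, hr⟩ := bex_iff.1 h1
    exact ⟨r, hr⟩
  · intro h n
    have h1 : ∃ s, ∀ m, m < n → ∃ r, r < s ∧ req t p (info i) m r = true := by
      induction n with
      | zero => exact ⟨0, fun m hm => by omega⟩
      | succ n ih =>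
        obtain ⟨s, hs⟩ := ih
        obtain ⟨r, hr⟩ := h n
        refine ⟨max s (r + 1), fun m hm => ?_⟩
        rcases Nat.lt_or_ge m n with h2 | h2
        · obtain ⟨r', h3, h4⟩ := hs m h2
          exact ⟨r', lt_of_lt_of_le h3 (le_max_left _ _), h4⟩
        · have h3 : m = n := by omega
          subst h3
          exact ⟨r, lt_of_lt_of_le (Nat.lt_succ_self r) (le_max_right _ _), hr⟩
    obtain ⟨s, hs⟩ := h1
    refine ⟨max s n, le_cnt.2 ⟨le_max_right _ _, fun k hk => ?_⟩⟩
    obtain ⟨r, h2, h3⟩ := hs k hk
    refine bex_iff.2 ⟨r, ?_, h3⟩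
    exact lt_of_lt_of_le h2 ((le_max_left _ _).trans (Nat.le_succ _))

theorem dig_eq (t : List Bool → Bool) (p : Par) (x : Inf) (s : ℕ) :
    dig t p x s = pre (rep t p x) (dig t p x s).length := by
  unfold dig rep
  by_cases h0 : x.1 = 0
  · simp only [h0, decide_true, cond_true, if_true, pre_length]
  · by_cases h1 : x.1 = 1
    · simp [h1, pre_length]
    · by_cases h2 : x.1 = 2
      · simp only [h2]
        exact evd_eq x.2.1 s s
      · by_cases h5 : x.1 = 5
        · simp [h5, pre_length]
        · simp [h0, h1, h2, h5, pre_length]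

theorem dig_long (p : Par) {x : Inf} (h : Cond t p x) (N : ℕ) :
    ∃ s0, ∀ s, s0 ≤ s → N ≤ (dig t p x s).length := by
  by_cases h2 : x.1 = 2
  · have hdom : ∀ n, (x.2.1.eval n).Dom := by
      rcases h with h | h | h | h | h | h
      · omega
      · omega
      · exact h.2.1
      · have := h.1; omega
      · have := h.1; omega
      · have := h.1; omega
    obtain ⟨s0, hs0⟩ := evd_complete x.2.1 hdom N
    refine ⟨s0, fun s hs => ?_⟩
    unfold dig
    simp only [h2]
    exact hs0 s hs
  · refine ⟨N, fun s hs => ?_⟩
    have h3 : (dig t p x s).length = s := by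
      unfold dig
      by_cases h0 : x.1 = 0
      · simp [h0, pre_length]
      · by_cases h1 : x.1 = 1
        · simp [h1, pre_length]
        · by_cases h5 : x.1 = 5
          · simp [h5, pre_length]
          · simp [h0, h1, h2, h5, pre_length]
    omega

/-- The comparisons are right. -/
theorem data_lt_sound (p : Par) {i j s : ℕ} (h : (data t p).lt i j s = true) :
    tw true (rep t p (info i)) (rep t p (info j)) := by
  rw [data_lt, ltF_iff] at h
  have h1 := h
  obtain ⟨k, hk, h2, h3, h4⟩ := cmp_true.1 h1
  have hki : k < (dig t p (info i) s).length := lt_of_lt_of_le hk (min_le_left _ _)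
  have hkj : k < (dig t p (info j) s).length := lt_of_lt_of_le hk (min_le_right _ _)
  have ei : ∀ l, l ≤ k → ext (dig t p (info i) s) l = rep t p (info i) l := by
    intro l hl
    conv_lhs => rw [dig_eq t p (info i) s]
    exact ext_pre _ (by omega)
  have ej : ∀ l, l ≤ k → ext (dig t p (info j) s) l = rep t p (info j) l := by
    intro l hl
    conv_lhs => rw [dig_eq t p (info j) s]
    exact ext_pre _ (by omega)
  refine ⟨k, fun l hl => ?_, ?_, ?_⟩
  · rw [← ei l hl.le, ← ej l hl.le]
    exact h2 l hl
  · rw [← ei k (le_refl _)]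
    exact h3
  · rw [← ej k (le_refl _)]
    exact h4

/-- Every difference of the representatives of real markers is found. -/
theorem data_lt_complete (p : Par) {i j : ℕ} (hi : Cond t p (info i)) (hj : Cond t p (info j))
    (h : tw true (rep t p (info i)) (rep t p (info j))) :
    ∃ s0, ∀ s, s0 ≤ s → (data t p).lt i j s = true := by
  obtain ⟨k, h1, h2, h3⟩ := h
  obtain ⟨s1, hs1⟩ := dig_long p hi (k + 1)
  obtain ⟨s2, hs2⟩ := dig_long p hj (k + 1)
  refine ⟨max s1 s2, fun s hs => ?_⟩
  have hki := hs1 s ((le_max_left _ _).trans hs)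
  have hkj := hs2 s ((le_max_right _ _).trans hs)
  have ei : ∀ l, l ≤ k → ext (dig t p (info i) s) l = rep t p (info i) l := by
    intro l hl
    conv_lhs => rw [dig_eq t p (info i) s]
    exact ext_pre _ (by omega)
  have ej : ∀ l, l ≤ k → ext (dig t p (info j) s) l = rep t p (info j) l := by
    intro l hl
    conv_lhs => rw [dig_eq t p (info j) s]
    exact ext_pre _ (by omega)
  rw [data_lt, ltF_iff, cmp_true]
  refine ⟨k, lt_min (by omega) (by omega), fun l hl => ?_, ?_, ?_⟩
  · rw [ei l hl.le, ej l hl.le]
    exact h1 l hl
  · rw [ei k (le_refl _)]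
    exact h2
  · rw [ej k (le_refl _)]
    exact h3

/-- A computable sequence has a code. -/
theorem exists_rp {f : ℕ → Bool} (hf : Computable f) :
    ∃ e : Code, (∀ n, (e.eval n).Dom) ∧ rp e = f := by
  have h1 : Nat.Partrec fun n : ℕ => Part.some (encode (f n)) := by
    have h2 : Computable fun n : ℕ => encode (f n) := Computable.encode.comp hf
    exact Partrec.nat_iff.1 h2.partrec
  obtain ⟨e, he⟩ := Code.exists_code.1 h1
  have he' : ∀ n, e.eval n = Part.some (encode (f n)) := fun n => congrFun he n
  refine ⟨e, fun n => ?_, ?_⟩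
  · rw [he' n]; trivial
  · funext n
    unfold rp
    rw [he' n]
    cases hfn : f n
    · simp
    · simp

theorem G_eq {F : List (List Bool)} {k : ℕ} (hk : k < F.length) : G F k = F[k] := by
  unfold G
  rw [List.getElem?_eq_getElem hk]
  rfl

theorem G_head (F : List (List Bool)) : F.headD [] = G F 0 := by
  cases F with
  | nil => rfl
  | cons a l => rfl

theorem G_last (F : List (List Bool)) : F.getLastD [] = G F (F.length - 1) := by
  unfold G
  rw [List.getLastD_eq_getLast?, List.getLast?_eq_getElem?]

theorem consec_cons {F : List (List Bool)} : Consec t F ↔ Cons t F := by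
  unfold Consec Cons
  rw [List.isChain_iff_getElem]
  constructor
  · rintro ⟨h1, h2, h3⟩
    refine ⟨fun hc => ?_, fun v hv => ?_, fun k hk => ?_⟩
    · rw [hc] at h1
      exact absurd h1 (by decide)
    · obtain ⟨k, hk, rfl⟩ := List.mem_iff_getElem.1 hv
      rw [← G_eq hk]
      exact h2 k hk
    · have := h3 k hk
      rw [G_eq (by omega), G_eq hk] at this
      exact this
  · rintro ⟨h1, h2, h3⟩
    refine ⟨List.length_pos_iff.2 h1, fun k hk => ?_, fun k hk => ?_⟩
    · rw [G_eq hk]
      exact h2 _ (List.getElem_mem hk)
    · rw [G_eq (by omega), G_eq hk]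
      exact h3 k hk

theorem rep_0 (p : Par) (y : Code × List (List Bool)) : rep t p (0, y) = p.p0 := rfl

theorem rep_1 (p : Par) (y : Code × List (List Bool)) : rep t p (1, y) = p.p1 := rfl

theorem rep_2 (p : Par) (y : Code × List (List Bool)) : rep t p (2, y) = rp y.1 := rfl

theorem rep_3 (p : Par) (y : Code × List (List Bool)) : rep t p (3, y) = fp t y.2 := rfl

theorem rep_4 (p : Par) (y : Code × List (List Bool)) : rep t p (4, y) = fp t y.2 := rfl

theorem rep_5 (p : Par) (y : Code × List (List Bool)) : rep t p (5, y) = qp t y.2 := rfl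

theorem lab_of {p : Par} {i k : ℕ} {y : Code × List (List Bool)} (h : info i = (k, y)) :
    labF p i = bif decide (k = 0) then p.l0 else bif decide (k = 1) then p.l1 else
    bif decide (k = 3) then y.2.length - 1 else 0 := by
  unfold labF
  rw [h]

theorem hl_of {p : Par} {i k : ℕ} {y : Code × List (List Bool)} (h : info i = (k, y)) :
    hlF p i = bif decide (k = 0) then false else bif decide (k = 1) then p.h1 else
    decide (k = 5) := by
  unfold hlF
  rw [h]

theorem hr_of {p : Par} {i k : ℕ} {y : Code × List (List Bool)} (h : info i = (k, y)) :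
    hrF p i = bif decide (k = 0) then p.h0 else bif decide (k = 1) then false else
    decide (k = 4) := by
  unfold hrF
  rw [h]

/-- The data satisfy the specification. -/
theorem data_spec (ht : IsTree t) (p : Par) :
    Spec t p.Q p.Q' p.p0 p.p1 p.l0 p.l1 p.h0 p.h1 (data t p) (fun i => rep t p (info i)) where
  cmono := data_cmono p
  lt_sound := fun _ _ _ _ _ h => data_lt_sound p h
  lt_complete := fun i j hi hj h =>
    data_lt_complete p ((data_real ht p i).1 hi) ((data_real ht p j).1 hj) h
  kinds := by
    intro i hi
    have hc := (data_real ht p i).1 hi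
    rw [data_lab, data_hl, data_hr]
    obtain ⟨⟨k, y⟩, hx⟩ : ∃ x, info i = x := ⟨_, rfl⟩
    rw [hx] at hc ⊢
    rw [lab_of hx, hl_of hx, hr_of hx]
    rcases hc with h | h | h | h | h | h
    · replace h : k = 0 := h
      subst h
      exact Or.inl ⟨rfl, rfl, rfl, rfl⟩
    · replace h : k = 1 := h
      subst h
      exact Or.inr (Or.inl ⟨rfl, rfl, rfl, rfl⟩)
    · obtain ⟨h0, _, h1, h2, h3⟩ := h
      replace h0 : k = 2 := h0
      subst h0
      exact Or.inr (Or.inr (Or.inl ⟨h1, h2, h3, rfl, rfl, rfl⟩))
    · obtain ⟨h0, h1, h2, h3⟩ := h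
      replace h0 : k = 3 := h0
      subst h0
      refine Or.inr (Or.inr (Or.inr (Or.inl ⟨y.2, consec_cons.1 h1, ?_, h2, ?_, rfl, rfl, rfl⟩)))
      · rw [G_head]; rfl
      · rw [G_last]; exact h3
    · obtain ⟨h0, h1, h2, h3⟩ := h
      replace h0 : k = 4 := h0
      subst h0
      exact Or.inr (Or.inr (Or.inr (Or.inr (Or.inl
        ⟨G y.2 0, (G y.2 1).length, h1, rfl, h2, h3, rfl, rfl, rfl⟩))))
    · obtain ⟨h0, h1, h2, h3⟩ := h
      replace h0 : k = 5 := h0
      subst h0
      exact Or.inr (Or.inr (Or.inr (Or.inr (Or.inr
        ⟨G y.2 0, (G y.2 1).length, h1, rfl, h2, h3, rfl, rfl, rfl⟩))))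
  ex0 := by
    intro n
    obtain ⟨i, hi, hx⟩ := info_surj (0, (Code.zero, [])) n
    refine ⟨i, hi, (data_real ht p i).2 ?_, ?_⟩
    · rw [hx]; exact Or.inl rfl
    · show rep t p (info i) = p.p0
      rw [hx]; rfl
  ex1 := by
    intro n
    obtain ⟨i, hi, hx⟩ := info_surj (1, (Code.zero, [])) n
    refine ⟨i, hi, (data_real ht p i).2 ?_, ?_⟩
    · rw [hx]; exact Or.inr (Or.inl rfl)
    · show rep t p (info i) = p.p1
      rw [hx]; rfl
  ex2 := by
    intro f hf h1 h2 h3 n
    obtain ⟨e, hdom, he⟩ := exists_rp hf
    obtain ⟨i, hi, hx⟩ := info_surj (2, (e, [])) n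
    refine ⟨i, hi, (data_real ht p i).2 ?_, ?_⟩
    · rw [hx]
      refine Or.inr (Or.inr (Or.inl ⟨rfl, hdom, ?_, ?_, ?_⟩))
      · show IsPath t (rp e)
        rw [he]; exact h1
      · show InfBr t true (rp e)
        rw [he]; exact h2
      · show InfBr t false (rp e)
        rw [he]; exact h3
    · show rep t p (info i) = f
      rw [hx]; exact he
  ex3 := by
    intro F hF h1 h2 n
    obtain ⟨i, hi, hx⟩ := info_surj (3, (Code.zero, F)) n
    rw [G_head] at h1
    rw [G_last] at h2
    refine ⟨i, hi, (data_real ht p i).2 ?_, ?_⟩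
    · rw [hx]
      exact Or.inr (Or.inr (Or.inr (Or.inl ⟨rfl, consec_cons.2 hF, h1, h2⟩)))
    · show rep t p (info i) = _
      rw [hx, G_head]; rfl
  ex4 := by
    intro v w hv h1 h2 n
    obtain ⟨i, hi, hx⟩ := info_surj (4, (Code.zero, [v, List.replicate w false])) n
    have g0 : G [v, List.replicate w false] 0 = v := rfl
    have g1 : (G [v, List.replicate w false] 1).length = w := List.length_replicate
    refine ⟨i, hi, (data_real ht p i).2 ?_, ?_⟩
    · rw [hx]
      refine Or.inr (Or.inr (Or.inr (Or.inr (Or.inl ⟨rfl, hv, h1, ?_⟩))))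
      show ∀ m, ∃ r, p.Q (G [v, List.replicate w false] 0)
        (G [v, List.replicate w false] 1).length m r = true
      rw [g0, g1]
      exact h2
    · show rep t p (info i) = _
      rw [hx]; rfl
  ex5 := by
    intro v w hv h1 h2 n
    obtain ⟨i, hi, hx⟩ := info_surj (5, (Code.zero, [v, List.replicate w false])) n
    have g0 : G [v, List.replicate w false] 0 = v := rfl
    have g1 : (G [v, List.replicate w false] 1).length = w := List.length_replicate
    refine ⟨i, hi, (data_real ht p i).2 ?_, ?_⟩
    · rw [hx]
      refine Or.inr (Or.inr (Or.inr (Or.inr (Or.inr ⟨rfl, hv, h1, ?_⟩))))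
      show ∀ m, ∃ r, p.Q' (G [v, List.replicate w false] 0)
        (G [v, List.replicate w false] 1).length m r = true
      rw [g0, g1]
      exact h2
    · show rep t p (info i) = _
      rw [hx]; rfl

end C3

/-- C3: computable marker data of a tree. -/
theorem exists_spec {t : List Bool → Bool} (ht : IsTree t) (hc : Computable t)
    {Q Q' : List Bool → ℕ → ℕ → ℕ → Bool}
    (hQ : Computable fun x : ((List Bool × ℕ) × ℕ) × ℕ => Q x.1.1.1 x.1.1.2 x.1.2 x.2)
    (hQ' : Computable fun x : ((List Bool × ℕ) × ℕ) × ℕ => Q' x.1.1.1 x.1.1.2 x.1.2 x.2)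
    {r0 r1 : ℕ → Bool} (h0 : Computable r0) (h1 : Computable r1) (l0 l1 : ℕ) (b0 b1 : Bool) :
    ∃ (D : Data) (rep : ℕ → ℕ → Bool), D.Comp ∧ Spec t Q Q' r0 r1 l0 l1 b0 b1 D rep :=
  ⟨C3.data t ⟨r0, r1, l0, l1, b0, b1, Q, Q'⟩, _,
    C3.data_comp hc (p := ⟨r0, r1, l0, l1, b0, b1, Q, Q'⟩) h0 h1 hQ hQ',
    C3.data_spec ht ⟨r0, r1, l0, l1, b0, b1, Q, Q'⟩⟩

end Pool.Agent.Lib.MP_0f5a21_lc.H
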