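import Mathlib

/-!
Theorem H (MP_0f5a21_lc), interface file.

`Data`: counters, comparisons, labels and hard sides of the markers, all computable.
`Good`: what the marker data of a tree have to satisfy (made by part C).
`Decomp`: a linear order `L` decomposed over the order `M` of the markers.
`Run`: the construction (part A2 makes a computable one, part A1 verifies it).
-/

set_option autoImplicit false

namespace Pool.Agent.Lib.MP_0f5a21_lc.H

/-- Marker data: counter `c i s` (monotone in `s`, unbounded iff marker `i` is real), comparison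
`lt i j s`, label, hard left side, hard right side. -/
structure Data where
  c : ℕ → ℕ → ℕ
  lt : ℕ → ℕ → ℕ → Bool
  lab : ℕ → ℕ
  hl : ℕ → Bool
  hr : ℕ → Bool

/-- Marker `i` is real. -/
def Data.Real (D : Data) (i : ℕ) : Prop := ∀ n, ∃ s, n ≤ D.c i s

/-- The data are computable. -/
structure Data.Comp (D : Data) : Prop where
  c : Computable fun p : ℕ × ℕ => D.c p.1 p.2
  lt : Computable fun p : (ℕ × ℕ) × ℕ => D.lt p.1.1 p.1.2 p.2
  lab : Computable D.lab
  hl : Computable D.hl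
  hr : Computable D.hr

/-- Common part of `Good` and `BGood`. -/
structure Data.Sound (D : Data) (M : Type) [LinearOrder M] (ρ : ℕ → M)
    (lab : M → ℕ) (hl hr : M → Bool) : Prop where
  cmono : ∀ i, Monotone (D.c i)
  lt_sound : ∀ i j s, D.Real i → D.Real j → D.lt i j s = true → ρ i < ρ j
  lt_complete : ∀ i j, D.Real i → D.Real j → ρ i < ρ j → ∃ s₀, ∀ s, s₀ ≤ s → D.lt i j s = true
  lab_eq : ∀ i, D.Real i → D.lab i = lab (ρ i)
  hl_eq : ∀ i, D.Real i → D.hl i = hl (ρ i)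
  hr_eq : ∀ i, D.Real i → D.hr i = hr (ρ i)
  lub : ∀ S : Set M, S.Nonempty → ∃ m, IsLUB S m
  glb : ∀ S : Set M, S.Nonempty → ∃ m, IsGLB S m
  not_both : ∀ m, ¬ (hl m = true ∧ hr m = true)
  hr_next : ∀ m, hr m = true → ∃ m', m ⋖ m' ∧ hl m' = false
  hl_prev : ∀ m, hl m = true → ∃ m', m' ⋖ m ∧ hr m' = false

/-- What part C produces. The bottom marker of `M` has `hl = false` and the top marker `hr = false`
(this follows from `hl_prev`, `hr_next`). Every marker, also the bottom and the top one, has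
infinitely many indices. -/
structure Data.Good (D : Data) (M : Type) [LinearOrder M] (ρ : ℕ → M)
    (lab : M → ℕ) (hl hr : M → Bool) : Prop where
  sound : D.Sound M ρ lab hl hr
  surj : ∀ m n, ∃ i, n ≤ i ∧ D.Real i ∧ ρ i = m
  nontriv : ∃ m m' : M, m < m'

/-- The same with `k` base markers, which are the indices below `k`. -/
structure Data.BGood (D : Data) (k : ℕ) (M : Type) [LinearOrder M] (ρ : ℕ → M)
    (lab : M → ℕ) (hl hr : M → Bool) : Prop where
  sound : D.Sound M ρ lab hl hr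
  hk : 2 ≤ k
  base_real : ∀ i, i < k → D.Real i
  base_mono : ∀ i j, i < j → j < k → ρ i < ρ j
  bot : ∀ m, ρ 0 ≤ m
  top : ∀ m, m ≤ ρ (k - 1)
  base_soft : ∀ i, i + 1 < k → ¬ (hr (ρ i) = true ∧ hl (ρ (i + 1)) = true)
  surj : ∀ m, (∃ i, i < k ∧ ρ i = m) ∨ ∀ n, ∃ i, n ≤ i ∧ D.Real i ∧ ρ i = m

/-- A decomposition of the linear order `L` over `M`: every `x` lies at a marker
(`lo x = hi x`, exactly `lab m` elements at the marker `m`) or in the gap between two consecutive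
markers `lo x ⋖ hi x`; the gap is not empty, locally finite, and has a least element iff the right
side of `lo` is hard, a greatest one iff the left side of `hi` is hard. -/
structure Decomp (M : Type) [LinearOrder M] (lab : M → ℕ) (hl hr : M → Bool)
    (L : Type) [LinearOrder L] where
  lo : L → M
  hi : L → M
  cov : ∀ x, hi x = lo x ∨ lo x ⋖ hi x
  order : ∀ x y, (lo x ≠ lo y ∨ hi x ≠ hi y) → (x < y ↔ hi x ≤ lo y)
  fin : ∀ m, {x | lo x = m ∧ hi x = m}.Finite
  card : ∀ m, {x | lo x = m ∧ hi x = m}.ncard = lab m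
  ne : ∀ m m', m ⋖ m' → ∃ x, lo x = m ∧ hi x = m'
  locfin : ∀ m m', m ⋖ m' → ∀ x y, lo x = m → hi x = m' → lo y = m → hi y = m' →
    (Set.Icc x y).Finite
  least : ∀ m m', m ⋖ m' → (hr m = true ↔
    ∃ x, (lo x = m ∧ hi x = m') ∧ ∀ y, lo y = m → hi y = m' → x ≤ y)
  greatest : ∀ m m', m ⋖ m' → (hl m' = true ↔
    ∃ x, (lo x = m ∧ hi x = m') ∧ ∀ y, lo y = m → hi y = m' → y ≤ x)

/-- `L` has a computable presentation. -/
def Presentable (L : Type) [LinearOrder L] : Prop :=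
  ∃ D : Set ℕ, ∃ R : ℕ → ℕ → Prop,
    ComputablePred (fun n : ℕ => n ∈ D) ∧
    ComputablePred (fun p : ℕ × ℕ => R p.1 p.2) ∧
    ∃ e : {n : ℕ // n ∈ D} ≃ L, ∀ a b : {n : ℕ // n ∈ D}, (R a.1 b.1 ↔ e a < e b)

/-! ### The construction -/

/-- Stages `s` and `t` agree on the first `n` bits. -/
def Agree (b : ℕ → ℕ → Bool) (s t n : ℕ) : Prop := ∀ j, j < n → b s j = b t j

/-- Stage `u` is to the left of the first `n` bits of stage `s`. -/
def LeftOf (b : ℕ → ℕ → Bool) (u s n : ℕ) : Prop :=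
  ∃ j, j < n ∧ Agree b u s j ∧ b u j = true ∧ b s j = false

/-- The pointer `a` of node `i` of stage `s` is retained from an earlier stage. -/
def Retained (b : ℕ → ℕ → Bool) (P : ℕ → ℕ → Option ℚ) (s i : ℕ) (a : ℚ) : Prop :=
  ∃ t, t < s ∧ Agree b s t (i + 1) ∧ (∀ j, j < i → P t j = P s j) ∧ P t i = some a ∧
    ∀ u, t < u → u < s → ¬ LeftOf b u s i

/-- Node `i` gets a new pointer at stage `s`. -/
def New (b : ℕ → ℕ → Bool) (P : ℕ → ℕ → Option ℚ) (s i : ℕ) : Prop :=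
  ∃ a, P s i = some a ∧ ¬ Retained b P s i a

/-- `j₁`, `j₂` (pointers `a₁ < a₂`) are the neighbours of marker `i` among the active markers
`j < i` of stage `s`, and `i` is compared with all of them. -/
def Nbrs (D : Data) (P : ℕ → ℕ → Option ℚ) (s i j₁ j₂ : ℕ) (a₁ a₂ : ℚ) : Prop :=
  j₁ < i ∧ j₂ < i ∧ P s j₁ = some a₁ ∧ P s j₂ = some a₂ ∧ a₁ < a₂ ∧
  ∀ j, j < i → ∀ x, P s j = some x →
    (x ≤ a₁ ∧ D.lt j i s = true ∧ D.lt i j s = false) ∨
    (a₂ ≤ x ∧ D.lt i j s = true ∧ D.lt j i s = false)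

/-- `i` may be placed between `j₁` and `j₂`. -/
def Soft (D : Data) (i j₁ j₂ : ℕ) : Prop :=
  ¬ (D.hr j₁ = true ∧ D.hl i = true) ∧ ¬ (D.hr i = true ∧ D.hl j₂ = true)

/-- The new position. -/
def spot (D : Data) (s j₁ j₂ : ℕ) (a₁ a₂ : ℚ) : ℚ :=
  if D.hr j₁ = true ∨ (D.hl j₂ = false ∧ j₂ < j₁) then a₂ - 1 / 2 ^ (3 * s + 1)
  else a₁ + 1 / 2 ^ (3 * s + 1)

/-- Marker `i` can be placed at `a` at stage `s`. -/
def Place (D : Data) (P : ℕ → ℕ → Option ℚ) (s i : ℕ) (a : ℚ) : Prop :=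
  ∃ j₁ j₂ a₁ a₂, Nbrs D P s i j₁ j₂ a₁ a₂ ∧ Soft D i j₁ j₂ ∧ a = spot D s j₁ j₂ a₁ a₂

/-- A run of the construction: `b s i` is the bit of node `i` at stage `s`, `P s i` its pointer. -/
structure Run (D : Data) (k : ℕ) (b : ℕ → ℕ → Bool) (P : ℕ → ℕ → Option ℚ) : Prop where
  base_b : ∀ s i, i < k → b s i = true
  base_P : ∀ s i, i < k → P s i = some ((i : ℚ) + 1)
  vis : ∀ s i, k ≤ i → (b s i = true ↔
    i < s ∧ ∀ t, t < s → Agree b s t i → b t i = true → D.c i t < D.c i s)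
  off : ∀ s i, b s i = false → P s i = none
  keep : ∀ s i a, k ≤ i → b s i = true → Retained b P s i a → P s i = some a
  wait : ∀ s i, k ≤ i → b s i = true → (∀ a, ¬ Retained b P s i a) →
    (∃ j, j < i ∧ New b P s j) → P s i = none
  put : ∀ s i a, k ≤ i → b s i = true → (∀ a, ¬ Retained b P s i a) →
    (∀ j, j < i → ¬ New b P s j) → (P s i = some a ↔ Place D P s i a)

/-- The atoms of a run: position and label. -/
inductive IsAtom (D : Data) (k : ℕ) (P : ℕ → ℕ → Option ℚ) : ℚ → ℕ → Prop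
  | ptr (s i : ℕ) (a : ℚ) (h : P s i = some a) : IsAtom D k P a (D.lab i)
  | jl (s i : ℕ) (a : ℚ) (h : P s i = some a) (hi : i ≠ 0) (hh : D.hl i = false) :
      IsAtom D k P (a - 1 / 2 ^ (3 * s + 3)) 1
  | jr (s i : ℕ) (a : ℚ) (h : P s i = some a) (hi : i + 1 ≠ k) (hh : D.hr i = false) :
      IsAtom D k P (a + 1 / 2 ^ (3 * s + 3)) 1

/-- The linear order which the run builds: every atom is replaced by as many points as its label
says. -/
def Pts (D : Data) (k : ℕ) (P : ℕ → ℕ → Option ℚ) : Set (ℚ ×ₗ ℕ) :=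
  {x | ∃ n, IsAtom D k P (ofLex x).1 n ∧ (ofLex x).2 < n}

/-- The dyadic rational of a pair. -/
def val (p : ℕ × ℕ) : ℚ := (p.1 : ℚ) / 2 ^ p.2

end Pool.Agent.Lib.MP_0f5a21_lc.H
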