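import Pool.Agent.Lib.MP_0f5a21_lc.H.NodeComp60

/-!
Theorem H, module A2, third part: the recursion equation in terms of the notions of `Run`.
-/

set_option autoImplicit false

namespace Pool.Agent.Lib.MP_0f5a21_lc.H

namespace A2

/-- The bits. -/
def bb (D : Data) (k s i : ℕ) : Bool := (rec D k s i).1

/-- The pointers (codes). -/
def qq (D : Data) (k s i : ℕ) : Option (ℕ × ℕ) := (rec D k s i).2.1

/-- The pointers. -/
def pp (D : Data) (k s i : ℕ) : Option ℚ := (qq D k s i).map val

/-- The flags: the pointer is new. -/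
def fl (D : Data) (k s i : ℕ) : Bool := (rec D k s i).2.2

variable {D : Data} {k s i t n u j j₁ j₂ : ℕ}

theorem agree_iff : agreeB (rec D k) (rec D k s) t n = true ↔ Agree (bb D k) s t n := by
  unfold agreeB Agree bb
  rw [ballB_iff]
  simp only [beq_iff_eq]
  exact ⟨fun h j hj => (h j hj).symm, fun h j hj => (h j hj).symm⟩

theorem left_iff : leftB (rec D k) (rec D k s) u n = true ↔ LeftOf (bb D k) u s n := by
  unfold leftB LeftOf
  rw [bexB_iff]
  simp only [Bool.and_eq_true, agree_iff, Bool.not_eq_true']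
  constructor
  · rintro ⟨j, hj, h1, h2, h3⟩
    exact ⟨j, hj, fun l hl => (h1 l hl).symm, h2, h3⟩
  · rintro ⟨j, hj, h1, h2, h3⟩
    exact ⟨j, hj, fun l hl => (h1 l hl).symm, h2, h3⟩

theorem act_iff : act (rec D k s) j = true ↔ ∃ q, qq D k s j = some q := by
  unfold act
  rw [Option.isSome_iff_exists]
  rfl

theorem pv_eq {q : ℕ × ℕ} (h : qq D k s j = some q) : pv (rec D k s) j = q := by
  unfold pv
  have : (rec D k s j).2.1 = some q := h
  rw [this]; rfl

theorem pp_some {a : ℚ} : pp D k s j = some a ↔ ∃ q, qq D k s j = some q ∧ val q = a := by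
  unfold pp
  rw [Option.map_eq_some_iff]

theorem eqP_iff : eqP (rec D k) (rec D k s) t j = true ↔ pp D k t j = pp D k s j := by
  unfold eqP
  cases h1 : qq D k t j with
  | none =>
    have ha : act (rec D k t) j = false := by
      rw [← Bool.not_eq_true, act_iff, h1]; simp
    cases h2 : qq D k s j with
    | none =>
      have hb : act (rec D k s) j = false := by
        rw [← Bool.not_eq_true, act_iff, h2]; simp
      simp [ha, hb, pp, h1, h2]
    | some q =>
      have hb : act (rec D k s) j = true := by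
        rw [act_iff]; exact ⟨q, h2⟩
      simp [ha, hb, pp, h1, h2]
  | some p =>
    have ha : act (rec D k t) j = true := by
      rw [act_iff]; exact ⟨p, h1⟩
    cases h2 : qq D k s j with
    | none =>
      have hb : act (rec D k s) j = false := by
        rw [← Bool.not_eq_true, act_iff, h2]; simp
      simp [ha, hb, pp, h1, h2]
    | some q =>
      have hb : act (rec D k s) j = true := by
        rw [act_iff]; exact ⟨q, h2⟩
      rw [pv_eq h1, pv_eq h2]
      simp [ha, hb, pp, h1, h2, eqV_iff]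

/-- The pointer of `i` at stage `t` is available at stage `s`. -/
def RT (D : Data) (k s i t : ℕ) : Prop :=
  Agree (bb D k) s t i ∧ bb D k t i = true ∧ (∀ j, j < i → pp D k t j = pp D k s j) ∧
  (∃ a, pp D k t i = some a) ∧ ∀ u, t < u → u < s → ¬ LeftOf (bb D k) u s i

theorem ret_iff : retB (rec D k) (rec D k s) s i t = true ↔ RT D k s i t := by
  unfold retB RT
  simp only [Bool.and_eq_true, agree_iff, ballB_iff, eqP_iff, act_iff, Bool.or_eq_true,
    Bool.not_eq_true', decide_eq_false_iff_not]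
  constructor
  · rintro ⟨h1, h2, h3, ⟨q, h4⟩, h5⟩
    refine ⟨h1, h2, h3, ⟨val q, pp_some.2 ⟨q, h4, rfl⟩⟩, ?_⟩
    intro u hu1 hu2 hl
    rcases h5 u hu2 with h | h
    · exact h hu1
    · rw [← left_iff, h] at hl
      exact absurd hl (by simp)
  · rintro ⟨h1, h2, h3, ⟨a, h4⟩, h5⟩
    obtain ⟨q, h4, -⟩ := pp_some.1 h4
    refine ⟨h1, h2, h3, ⟨q, h4⟩, ?_⟩
    intro u hu
    by_cases htu : t < u
    · right
      rw [← Bool.not_eq_true, left_iff]
      exact h5 u htu hu
    · exact Or.inl htu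

theorem bit_iff : bitB D (rec D k) (rec D k s) s i = true ↔
    (i < s ∧ ∀ t, t < s → Agree (bb D k) s t i → bb D k t i = true → D.c i t < D.c i s) := by
  unfold bitB
  simp only [Bool.and_eq_true, decide_eq_true_eq, ballB_iff, Bool.or_eq_true, Bool.not_eq_true']
  refine and_congr_right fun _ => ?_
  refine forall_congr' fun t => forall_congr' fun _ => ?_
  rw [← agree_iff (D := D) (k := k)]
  cases agreeB (rec D k) (rec D k s) t i <;> cases h : (rec D k t i).1 <;> simp [bb, h]

/-- Neighbours and softness. -/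
def NB (D : Data) (k s i j₁ j₂ : ℕ) : Prop :=
  (∃ a₁ a₂, Nbrs D (pp D k) s i j₁ j₂ a₁ a₂) ∧ Soft D i j₁ j₂

theorem nb_iff (h₁ : j₁ < i) (h₂ : j₂ < i) :
    nbB D (rec D k s) s i j₁ j₂ = true ↔ NB D k s i j₁ j₂ := by
  unfold nbB NB Soft
  simp only [Bool.and_eq_true, ballB_iff, act_iff, Bool.or_eq_true, Bool.not_eq_true',
    ltV_iff, leV_iff]
  constructor
  · rintro ⟨⟨⟨q₁, hq₁⟩, ⟨q₂, hq₂⟩, hlt⟩, hall, hs1, hs2⟩
    rw [pv_eq hq₁, pv_eq hq₂] at hlt
    refine ⟨⟨val q₁, val q₂, h₁, h₂, pp_some.2 ⟨q₁, hq₁, rfl⟩, pp_some.2 ⟨q₂, hq₂, rfl⟩, hlt, ?_⟩,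
      ?_, ?_⟩
    · intro j hj x hx
      obtain ⟨q, hq, rfl⟩ := pp_some.1 hx
      have hact : act (rec D k s) j = true := act_iff.2 ⟨q, hq⟩
      have := hall j hj
      rw [hact, pv_eq hq, pv_eq hq₁, pv_eq hq₂] at this
      rcases this with h | ⟨h, h', h''⟩ | ⟨h, h', h''⟩
      · exact absurd h (by simp)
      · exact Or.inl ⟨h, h', h''⟩
      · exact Or.inr ⟨h, h', h''⟩
    · rintro ⟨h, h'⟩
      rw [h, h'] at hs1
      exact absurd hs1 (by simp)
    · rintro ⟨h, h'⟩
      rw [h, h'] at hs2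
      exact absurd hs2 (by simp)
  · rintro ⟨⟨a₁, a₂, -, -, hp₁, hp₂, hlt, hall⟩, hs1, hs2⟩
    obtain ⟨q₁, hq₁, rfl⟩ := pp_some.1 hp₁
    obtain ⟨q₂, hq₂, rfl⟩ := pp_some.1 hp₂
    refine ⟨⟨⟨q₁, hq₁⟩, ⟨q₂, hq₂⟩, ?_⟩, ?_, ?_, ?_⟩
    · rw [pv_eq hq₁, pv_eq hq₂]; exact hlt
    · intro j hj
      cases hq : qq D k s j with
      | none =>
        left
        rw [← Bool.not_eq_true, act_iff, hq]; simp
      | some q =>
        rw [pv_eq hq, pv_eq hq₁, pv_eq hq₂]
        rcases hall j hj (val q) (pp_some.2 ⟨q, hq, rfl⟩) with h | h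
        · exact Or.inr (Or.inl h)
        · exact Or.inr (Or.inr h)
    · rw [← Bool.not_eq_true, Bool.and_eq_true]; exact hs1
    · rw [← Bool.not_eq_true, Bool.and_eq_true]; exact hs2

theorem rec_base (h : i < k) : rec D k s i = (true, some (i + 1, 0), false) := by
  rw [rec_eq]
  unfold nodeF
  simp [h]

theorem bb_base (h : i < k) : bb D k s i = true := by
  unfold bb; rw [rec_base h]

theorem qq_base (h : i < k) : qq D k s i = some (i + 1, 0) := by
  unfold qq; rw [rec_base h]

theorem fl_base (h : i < k) : fl D k s i = false := by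
  unfold fl; rw [rec_base h]

theorem val_base (i : ℕ) : val (i + 1, 0) = (i : ℚ) + 1 := by
  unfold val; push_cast; simp

theorem pp_base (h : i < k) : pp D k s i = some ((i : ℚ) + 1) :=
  pp_some.2 ⟨_, qq_base h, val_base i⟩

/-- The four cases at a visible node. -/
theorem rec_cases (h : k ≤ i) :
    (bb D k s i = false ∧ bitB D (rec D k) (rec D k s) s i = false ∧ qq D k s i = none ∧
      fl D k s i = false) ∨
    (bb D k s i = true ∧ bitB D (rec D k) (rec D k s) s i = true ∧
      ((∃ t, t < s ∧ RT D k s i t ∧ qq D k s i = qq D k t i ∧ fl D k s i = false) ∨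
       ((∀ t, t < s → ¬ RT D k s i t) ∧
        (((∃ j, j < i ∧ fl D k s j = true) ∧ qq D k s i = none ∧ fl D k s i = false) ∨
         ((∀ j, j < i → fl D k s j = false) ∧
          ((∃ j₁ j₂, j₁ < i ∧ j₂ < i ∧ NB D k s i j₁ j₂ ∧
              qq D k s i = some (spotB D (rec D k s) s j₁ j₂) ∧ fl D k s i = true) ∨
           ((∀ j₁ j₂, j₁ < i → j₂ < i → ¬ NB D k s i j₁ j₂) ∧ qq D k s i = none ∧
              fl D k s i = false))))))) := by
  unfold bb fl qq
  have he := rec_eq D k s i
  unfold nodeF at he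
  have hik : decide (i < k) = false := by simp [h]
  rw [hik] at he
  cases hb : bitB D (rec D k) (rec D k s) s i with
  | false =>
    left
    rw [hb] at he
    simp only [cond_false] at he
    rw [he]
    exact ⟨rfl, rfl, rfl, rfl⟩
  | true =>
    right
    rw [hb] at he
    simp only [cond_false, cond_true] at he
    cases hr : bexB s (retB (rec D k) (rec D k s) s i) with
    | true =>
      rw [hr] at he
      simp only [cond_true] at he
      obtain ⟨h1, h2⟩ := findB_spec (bexB_iff.1 hr)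
      rw [he]
      exact ⟨rfl, rfl, Or.inl ⟨_, h1, ret_iff.1 h2, rfl, rfl⟩⟩
    | false =>
      rw [hr] at he
      simp only [cond_false] at he
      have hnr : ∀ t, t < s → ¬ RT D k s i t := by
        intro t ht hrt
        have : bexB s (retB (rec D k) (rec D k s) s i) = true :=
          bexB_iff.2 ⟨t, ht, ret_iff.2 hrt⟩
        rw [hr] at this
        exact absurd this (by simp)
      cases hn : bexB i (fun j => (rec D k s j).2.2) with
      | true =>
        rw [hn] at he
        simp only [cond_true] at he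
        rw [he]
        exact ⟨rfl, rfl, Or.inr ⟨hnr, Or.inl ⟨bexB_iff.1 hn, rfl, rfl⟩⟩⟩
      | false =>
        rw [hn] at he
        simp only [cond_false] at he
        have hnn : ∀ j, j < i → (rec D k s j).2.2 = false := by
          intro j hj
          rw [← Bool.not_eq_true]
          intro hc
          have : bexB i (fun j => (rec D k s j).2.2) = true := bexB_iff.2 ⟨j, hj, hc⟩
          rw [hn] at this
          exact absurd this (by simp)
        cases hz : bexB i (fun j₁ => bexB i (nbB D (rec D k s) s i j₁)) with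
        | true =>
          rw [hz] at he
          simp only [cond_true] at he
          obtain ⟨h1, h2⟩ := findB_spec (bexB_iff.1 hz)
          obtain ⟨h3, h4⟩ := findB_spec (bexB_iff.1 h2)
          rw [he]
          exact ⟨rfl, rfl, Or.inr ⟨hnr, Or.inr ⟨hnn, Or.inl ⟨J1 D (rec D k s) s i,
            J2 D (rec D k s) s i, h1, h3, (nb_iff h1 h3).1 h4, rfl, rfl⟩⟩⟩⟩
        | false =>
          rw [hz] at he
          simp only [cond_false] at he
          rw [he]
          refine ⟨rfl, rfl, Or.inr ⟨hnr, Or.inr ⟨hnn, Or.inr ⟨?_, rfl, rfl⟩⟩⟩⟩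
          intro j₁ j₂ h1 h2 hc
          have : bexB i (fun j₁ => bexB i (nbB D (rec D k s) s i j₁)) = true :=
            bexB_iff.2 ⟨j₁, h1, bexB_iff.2 ⟨j₂, h2, (nb_iff h1 h2).2 hc⟩⟩
          rw [hz] at this
          exact absurd this (by simp)

/-! ### Retained pointers -/

theorem agree_trans {b : ℕ → ℕ → Bool} {s t u n : ℕ} (h : Agree b s t n) (h' : Agree b s u n) :
    Agree b t u n := fun j hj => (h j hj).symm.trans (h' j hj)

theorem leftOf_congr {b : ℕ → ℕ → Bool} {s t u n : ℕ} (h : Agree b s t n)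
    (hl : LeftOf b u t n) : LeftOf b u s n := by
  obtain ⟨j, hj, h1, h2, h3⟩ := hl
  refine ⟨j, hj, fun l hl => (h1 l hl).trans (h l (by omega)).symm, h2, ?_⟩
  rw [h j hj]; exact h3

theorem retained_of_RT {a : ℚ} (hb : bb D k s i = true) (ht : t < s) (h : RT D k s i t)
    (ha : pp D k t i = some a) : Retained (bb D k) (pp D k) s i a := by
  obtain ⟨h1, h2, h3, -, h5⟩ := h
  refine ⟨t, ht, ?_, h3, ha, h5⟩
  intro j hj
  rcases Nat.lt_succ_iff_lt_or_eq.1 hj with h | rfl
  · exact h1 j h
  · rw [hb, h2]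

theorem RT_of_retained {a : ℚ} (hb : bb D k s i = true)
    (h : Retained (bb D k) (pp D k) s i a) :
    ∃ t, t < s ∧ RT D k s i t ∧ pp D k t i = some a := by
  obtain ⟨t, ht, h1, h3, h4, h5⟩ := h
  refine ⟨t, ht, ⟨fun j hj => h1 j (by omega), ?_, h3, ⟨a, h4⟩, h5⟩, h4⟩
  rw [← h1 i (by omega)]; exact hb

theorem RT_sub {t t' : ℕ} (hts : t' < s) (h : RT D k s i t)
    (h' : RT D k s i t') : RT D k t' i t := by
  obtain ⟨h1, h2, h3, h4, h5⟩ := h
  obtain ⟨h1', h2', h3', h4', h5'⟩ := h'
  refine ⟨agree_trans h1' h1, h2, fun j hj => (h3 j hj).trans (h3' j hj).symm, h4, ?_⟩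
  intro u hu1 hu2 hl
  exact h5 u hu1 (by omega) (leftOf_congr h1' hl)

/-- Retained pointers are kept. -/
theorem keep_all (hk : k ≤ i) : ∀ s, bb D k s i = true → ∀ t, t < s → RT D k s i t →
    pp D k s i = pp D k t i := by
  intro s
  induction s using Nat.strong_induction_on with
  | _ s ih =>
    intro hb t ht hrt
    rcases rec_cases (D := D) (s := s) hk with ⟨h, -⟩ | ⟨-, -, h | ⟨h, -⟩⟩
    · rw [hb] at h; exact absurd h (by simp)
    · obtain ⟨t', ht', hrt', hq, -⟩ := h
      have hp : pp D k s i = pp D k t' i := by unfold pp; rw [hq]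
      rw [hp]
      rcases lt_trichotomy t t' with h1 | rfl | h1
      · exact ih t' ht' hrt'.2.1 t h1 (RT_sub ht' hrt hrt')
      · rfl
      · exact (ih t ht hrt.2.1 t' h1 (RT_sub ht hrt' hrt)).symm
    · exact absurd hrt (h t ht)

theorem keep_ret {a : ℚ} (hk : k ≤ i) (hb : bb D k s i = true)
    (h : Retained (bb D k) (pp D k) s i a) : pp D k s i = some a := by
  obtain ⟨t, ht, hrt, ha⟩ := RT_of_retained hb h
  rw [keep_all hk s hb t ht hrt, ha]

theorem no_RT (hb : bb D k s i = true)
    (h : ∀ a, ¬ Retained (bb D k) (pp D k) s i a) (ht : t < s) : ¬ RT D k s i t := by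
  intro hrt
  obtain ⟨a, ha⟩ := hrt.2.2.2.1
  exact h a (retained_of_RT hb ht hrt ha)

theorem no_retained (hb : bb D k s i = true) (h : ∀ t, t < s → ¬ RT D k s i t) (a : ℚ) :
    ¬ Retained (bb D k) (pp D k) s i a := by
  intro hr
  obtain ⟨t, ht, hrt, -⟩ := RT_of_retained hb hr
  exact h t ht hrt

theorem base_retained (h : i < k) (hs : 0 < s) :
    Retained (bb D k) (pp D k) s i ((i : ℚ) + 1) := by
  refine ⟨s - 1, by omega, ?_, ?_, pp_base h, ?_⟩
  · intro j hj
    rw [bb_base (by omega), bb_base (by omega)]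
  · intro j hj
    rw [pp_base (by omega), pp_base (by omega)]
  · intro u hu1 hu2
    omega

theorem new_iff (hs : 0 < s) : New (bb D k) (pp D k) s i ↔ fl D k s i = true := by
  rcases lt_or_ge i k with hik | hik
  · rw [fl_base hik]
    constructor
    · rintro ⟨a, ha, hn⟩
      rw [pp_base hik] at ha
      obtain rfl : ((i : ℚ) + 1) = a := by simpa using ha
      exact absurd (base_retained hik hs) hn
    · intro h
      exact absurd h (by simp)
  · have hnone : qq D k s i = none → fl D k s i = false →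
        (New (bb D k) (pp D k) s i ↔ fl D k s i = true) := by
      intro hq hf
      rw [hf]
      constructor
      · rintro ⟨a, ha, -⟩
        obtain ⟨q, hq', -⟩ := pp_some.1 ha
        rw [hq] at hq'
        exact absurd hq' (by simp)
      · intro h
        exact absurd h (by simp)
    rcases rec_cases (D := D) (s := s) hik with ⟨-, -, hq, hf⟩ | ⟨hb, -, h | ⟨hnr, h | ⟨-, h | h⟩⟩⟩
    · exact hnone hq hf
    · obtain ⟨t, ht, hrt, hq, hf⟩ := h
      rw [hf]
      constructor
      · rintro ⟨a, ha, hn⟩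
        exfalso
        apply hn
        refine retained_of_RT hb ht hrt ?_
        rw [← ha]
        unfold pp
        rw [hq]
      · intro h
        exact absurd h (by simp)
    · exact hnone h.2.1 h.2.2
    · obtain ⟨j₁, j₂, -, -, -, hq, hf⟩ := h
      rw [hf]
      refine ⟨fun _ => rfl, fun _ => ⟨_, pp_some.2 ⟨_, hq, rfl⟩, no_retained hb hnr _⟩⟩
    · exact hnone h.2.1 h.2.2

/-! ### Granularity -/

theorem val_dn {p : ℕ × ℕ} {m : ℕ} (hp : p.2 ≤ m) (h : 1 ≤ p.1) :
    val (dn p m) = val p - 1 / 2 ^ m := by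
  obtain ⟨c, rfl⟩ := Nat.exists_eq_add_of_le hp
  unfold val dn
  have h1 : 1 ≤ p.1 * 2 ^ (p.2 + c - p.2) := Nat.mul_pos h (by positivity)
  simp only
  rw [Nat.cast_sub h1]
  have h2 : p.2 + c - p.2 = c := by omega
  rw [h2]
  push_cast
  rw [pow_add]
  field_simp

theorem val_up {p : ℕ × ℕ} {m : ℕ} (hp : p.2 ≤ m) :
    val (up p m) = val p + 1 / 2 ^ m := by
  obtain ⟨c, rfl⟩ := Nat.exists_eq_add_of_le hp
  unfold val up
  have h2 : p.2 + c - p.2 = c := by omega
  simp only
  rw [h2]
  push_cast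
  rw [pow_add]
  field_simp

theorem val_gap {p q : ℕ × ℕ} {m : ℕ} (hp : p.2 ≤ m) (hq : q.2 ≤ m) (h : val p < val q) :
    val p + 1 / 2 ^ m ≤ val q := by
  obtain ⟨c, hc⟩ := Nat.exists_eq_add_of_le hp
  obtain ⟨d, hd⟩ := Nat.exists_eq_add_of_le hq
  have e1 : val p = ((p.1 * 2 ^ c : ℕ) : ℚ) / 2 ^ m := by
    unfold val; push_cast; rw [hc, pow_add]; field_simp
  have e2 : val q = ((q.1 * 2 ^ d : ℕ) : ℚ) / 2 ^ m := by
    unfold val; push_cast; rw [hd, pow_add]; field_simp
  rw [e1, e2] at h ⊢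
  have hpos : (0 : ℚ) < 2 ^ m := by positivity
  rw [div_lt_div_iff_of_pos_right hpos] at h
  rw [← add_div, div_le_div_iff_of_pos_right hpos]
  exact_mod_cast h

end A2

end Pool.Agent.Lib.MP_0f5a21_lc.H
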