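import Pool.Agent.Lib.MP_0f5a21_lc.H.Paths

/-!
Theorem H, part C2: density of the isolated paths of a PAC tree; the hypotheses on the blocks of
the order of the isolated points in terms of chains of successors.
-/

set_option autoImplicit false

namespace Pool.Agent.Lib.MP_0f5a21_lc.H

/-! ### Density of isolated paths -/

/-- Countably many computable sequences. -/
theorem countable_computable : Set.Countable {f : ℕ → Bool | Computable f} := by
  have h : ∀ f : {f : ℕ → Bool // Computable f}, ∃ c : Nat.Partrec.Code,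
      ∀ n, c.eval n = Part.some (Encodable.encode (f.1 n)) := by
    intro f
    have h1 : Nat.Partrec fun n : ℕ => Part.some (Encodable.encode (f.1 n)) := by
      have h2 : Computable fun n : ℕ => Encodable.encode (f.1 n) :=
        Computable.encode.comp f.2
      exact Partrec.nat_iff.1 h2.partrec
    obtain ⟨c, hc⟩ := Nat.Partrec.Code.exists_code.1 h1
    exact ⟨c, fun n => congrFun hc n⟩
  choose c hc using h
  have hinj : Function.Injective c := by
    intro f g hfg
    apply Subtype.ext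
    funext n
    have h1 := hc f n
    rw [hfg, hc g n] at h1
    exact (Encodable.encode_injective (Part.some_inj.1 h1)).symm
  exact (Set.countable_coe_iff).1 (Function.Injective.countable hinj)

variable {t : List Bool → Bool}

/-- Every node of a PAC tree has an isolated path above it. -/
theorem density (ht : IsTree t) (hpac : ∀ f, IsPath t f → Computable f) {v : List Bool}
    (hv : t v = true) : ∃ f : Pth t, Isol f ∧ pre (dg f) v.length = v := by
  have hc : Set.Countable {f : ℕ → Bool | IsPath t f} :=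
    countable_computable.mono (fun f hf => hpac f hf)
  have hne : {f : ℕ → Bool | IsPath t f}.Nonempty := by
    obtain ⟨g, hg, _⟩ := exists_path ht hv
    exact ⟨g, hg⟩
  obtain ⟨S, hS⟩ := hc.exists_eq_range hne
  have hlist : ∀ f, IsPath t f → (∀ a, ∃ n, a ≤ n ∧ both t (pre f n) = true) → ∃ k, S k = f := by
    intro f hf _
    have : f ∈ Set.range S := by rw [← hS]; exact hf
    exact this
  obtain ⟨g, hg, hgv⟩ := exists_path ht hv
  by_cases hq : ∃ a, Quiet t g a
  · exact ⟨mkP g hg, (isol_iff_quiet ht).2 hq, hgv⟩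
  · have hinf : ∀ a, ∃ n, a ≤ n ∧ both t (pre g n) = true := by
      intro a
      by_contra hcon
      apply hq
      refine ⟨a, fun n hn => ?_⟩
      cases hb : both t (pre g n)
      · rfl
      · exact absurd ⟨n, hn, hb⟩ hcon
    obtain ⟨n, hn, hb⟩ := hinf v.length
    let c : Bool := S (ctr t S g n) n
    let σ : List Bool := pre g n ++ [c]
    have hσt : t σ = true := child hb c
    have hlen : σ.length = n + 1 := by
      show (pre g n ++ [c]).length = n + 1
      rw [len_append, pre_length]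
    have hσe := pre_ext σ
    rw [hlen] at hσe
    have hσe2 : pre (ext σ) n = pre g n ∧ ext σ n = c := by
      have h1 : pre (ext σ) ((pre g n).length + 1) = pre g n ++ [c] := by
        rw [pre_length]; exact hσe
      have h2 := pre_append.1 h1
      rw [pre_length] at h2
      exact h2
    have hname : isName t S σ = true := by
      unfold isName
      rw [hσt, hlen, Bool.true_and, nameAt_succ, hσe2.1, hb, Bool.true_and, hσe2.2,
        ctr_congr S (agree_of_pre hσe2.1)]
      exact beq_self_eq_true c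
    have hpath := pathN_isPath S ht hσt
    have hquiet := pathN_quiet S ht hlist hname
    refine ⟨mkP (pathN t S σ) hpath, (isol_iff_quiet ht).2 hquiet, ?_⟩
    have h1 := pathN_pre0 (t := t) S σ
    have h2 : pre (pathN t S σ) ((pre g n).length + 1) = pre g n ++ [c] := by
      rw [pre_length, ← hlen]; exact h1
    have h3 := (pre_append.1 h2).1
    rw [pre_length] at h3
    show pre (pathN t S σ) v.length = v
    conv_rhs => rw [← hgv]
    apply pre_eq_of
    intro i hi
    exact agree_of_pre h3 i (by omega)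

/-! ### Density in an order -/

/-- Isolated points are dense at the left limits. -/
def DenseL (X : Type) [LinearOrder X] : Prop :=
  ∀ x y : X, LLim x → y < x → ∃ z, Isol z ∧ y < z ∧ z < x

/-- Isolated points are dense at the right limits. -/
def DenseR (X : Type) [LinearOrder X] : Prop :=
  ∀ x y : X, RLim x → x < y → ∃ z, Isol z ∧ x < z ∧ z < y

theorem denseL_pth (ht : IsTree t) (hpac : ∀ f, IsPath t f → Computable f) : DenseL (Pth t) := by
  intro x y hx hy
  obtain ⟨k, h1, h2, h3⟩ := lt_iff.1 hy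
  obtain ⟨m, hm, hb, hxm⟩ := (lLim_iff ht).1 hx (k + 1)
  obtain ⟨z, hz, hzp⟩ := density ht hpac (child hb false)
  rw [len_append] at hzp
  have h4 := pre_append.1 hzp
  rw [pre_length] at h4
  have h5 := agree_of_pre h4.1
  refine ⟨z, hz, lt_iff.2 ⟨k, fun i hi => (h1 i hi).trans (h5 i (by omega)).symm, h2, ?_⟩,
    lt_iff.2 ⟨m, h5, h4.2, hxm⟩⟩
  rw [h5 k (by omega)]
  exact h3

theorem denseR_pth (ht : IsTree t) (hpac : ∀ f, IsPath t f → Computable f) : DenseR (Pth t) := by
  intro x y hx hy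
  obtain ⟨k, h1, h2, h3⟩ := lt_iff.1 hy
  obtain ⟨m, hm, hb, hxm⟩ := (rLim_iff ht).1 hx (k + 1)
  obtain ⟨z, hz, hzp⟩ := density ht hpac (child hb true)
  rw [len_append] at hzp
  have h4 := pre_append.1 hzp
  rw [pre_length] at h4
  have h5 := agree_of_pre h4.1
  refine ⟨z, hz, lt_iff.2 ⟨m, fun i hi => (h5 i hi).symm, hxm, h4.2⟩,
    lt_iff.2 ⟨k, fun i hi => (h5 i (by omega)).trans (h1 i hi), ?_, h3⟩⟩
  rw [h5 k (by omega)]
  exact h2

/-! ### Duality -/

section general

variable {X : Type} [LinearOrder X]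

theorem lLim_dual {x : X} : LLim (OrderDual.toDual x) ↔ RLim x := by
  unfold LLim RLim
  constructor
  · rintro ⟨⟨y, hy⟩, h⟩
    refine ⟨⟨OrderDual.ofDual y, hy⟩, ?_⟩
    rintro ⟨z, hz⟩
    exact h ⟨OrderDual.toDual z, hz.toDual⟩
  · rintro ⟨⟨y, hy⟩, h⟩
    refine ⟨⟨OrderDual.toDual y, hy⟩, ?_⟩
    rintro ⟨z, hz⟩
    exact h ⟨OrderDual.ofDual z, hz.ofDual⟩

theorem rLim_dual {x : X} : RLim (OrderDual.toDual x) ↔ LLim x := by
  unfold LLim RLim
  constructor
  · rintro ⟨⟨y, hy⟩, h⟩
    refine ⟨⟨OrderDual.ofDual y, hy⟩, ?_⟩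
    rintro ⟨z, hz⟩
    exact h ⟨OrderDual.toDual z, hz.toDual⟩
  · rintro ⟨⟨y, hy⟩, h⟩
    refine ⟨⟨OrderDual.toDual y, hy⟩, ?_⟩
    rintro ⟨z, hz⟩
    exact h ⟨OrderDual.ofDual z, hz.ofDual⟩

theorem isol_dual {x : X} : Isol (OrderDual.toDual x) ↔ Isol x := by
  unfold Isol
  rw [lLim_dual, rLim_dual]
  exact and_comm

theorem upChain_dual {x : X} {n : ℕ} : UpChain (OrderDual.toDual x) n ↔ DownChain x n := by
  constructor
  · rintro ⟨y, h0, h⟩
    exact ⟨fun i => OrderDual.ofDual (y i), h0, fun i hi => (h i hi).ofDual⟩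
  · rintro ⟨y, h0, h⟩
    exact ⟨fun i => OrderDual.toDual (y i), h0, fun i hi => (h i hi).toDual⟩

theorem denseL_dual (h : DenseR X) : DenseL Xᵒᵈ := by
  intro x y hx hy
  obtain ⟨z, h1, h2, h3⟩ := h (OrderDual.ofDual x) (OrderDual.ofDual y) (lLim_dual.1 hx) hy
  exact ⟨OrderDual.toDual z, isol_dual.2 h1, h3, h2⟩

theorem denseR_dual (h : DenseL X) : DenseR Xᵒᵈ := by
  intro x y hx hy
  obtain ⟨z, h1, h2, h3⟩ := h (OrderDual.ofDual x) (OrderDual.ofDual y) (rLim_dual.1 hx) hy
  exact ⟨OrderDual.toDual z, isol_dual.2 h1, h3, h2⟩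

/-! ### Chains -/

theorem UpChain.mono {x : X} {m n : ℕ} (h : UpChain x n) (hmn : m ≤ n) : UpChain x m := by
  obtain ⟨y, h0, h1⟩ := h
  exact ⟨y, h0, fun i hi => h1 i (by omega)⟩

theorem UpChain.cons {x a : X} {n : ℕ} (hxa : x ⋖ a) (h : UpChain a n) : UpChain x (n + 1) := by
  obtain ⟨y, h0, h1⟩ := h
  refine ⟨fun i => Nat.casesOn i x y, rfl, fun i hi => ?_⟩
  cases i with
  | zero =>
    show x ⋖ y 0
    rw [h0]; exact hxa
  | succ i => exact h1 i (by omega)

theorem chain_le {y : ℕ → X} {n : ℕ} (h : ∀ i, i < n → y i ⋖ y (i + 1)) :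
    ∀ j, j ≤ n → ∀ i, i < j → y i < y j := by
  intro j
  induction j with
  | zero => intro _ i hi; omega
  | succ j ih =>
    intro hj i hi
    have h1 := (h j (by omega)).lt
    rcases Nat.lt_or_ge i j with h2 | h2
    · exact (ih (by omega) i h2).trans h1
    · have : i = j := by omega
      rw [this]; exact h1

theorem chain_mem {y : ℕ → X} {n : ℕ} (h : ∀ i, i < n → y i ⋖ y (i + 1)) :
    ∀ j, j ≤ n → ∀ z, y 0 ≤ z → z ≤ y j → ∃ i, i ≤ j ∧ z = y i := by
  intro j
  induction j with
  | zero => intro _ z h1 h2; exact ⟨0, le_refl _, le_antisymm h2 h1⟩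
  | succ j ih =>
    intro hj z h1 h2
    rcases lt_or_eq_of_le h2 with h3 | h3
    · have h4 : z ≤ y j := by
        by_contra hc
        push Not at hc
        exact (h j (by omega)).2 hc h3
      obtain ⟨i, hi, h5⟩ := ih (by omega) z h1 h4
      exact ⟨i, by omega, h5⟩
    · exact ⟨j + 1, le_refl _, h3⟩

theorem chain_finite {y : ℕ → X} {n : ℕ} (h : ∀ i, i < n → y i ⋖ y (i + 1)) {j : ℕ}
    (hj : j ≤ n) : (Set.Icc (y 0) (y j)).Finite := by
  refine ((Set.finite_Iic j).image y).subset ?_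
  rintro z ⟨h1, h2⟩
  obtain ⟨i, hi, hz⟩ := chain_mem h j hj z h1 h2
  exact ⟨i, hi, hz.symm⟩

theorem isol_of {a x y : X} (h1 : x ⋖ a) (h2 : a ⋖ y) : Isol a :=
  ⟨fun h => h.2 ⟨x, h1⟩, fun h => h.2 ⟨y, h2⟩⟩

/-- A finite interval with many points gives a long chain. -/
theorem upChain_of_finite (g : X) (n : ℕ) : ∀ a : X, (Set.Icc a g).Finite →
    n + 1 ≤ (Set.Icc a g).ncard → UpChain a n := by
  induction n with
  | zero => intro a _ _; exact ⟨fun _ => a, rfl, fun i hi => by omega⟩
  | succ n ih =>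
    intro a hf hc
    have hne : (Set.Ioc a g).Nonempty := by
      by_contra hcon
      rw [Set.not_nonempty_iff_eq_empty] at hcon
      have h1 : Set.Icc a g ⊆ {a} := by
        intro z hz
        rcases lt_or_eq_of_le hz.1 with h2 | h2
        · have : z ∈ Set.Ioc a g := ⟨h2, hz.2⟩
          rw [hcon] at this
          exact absurd this (Set.notMem_empty z)
        · exact h2.symm
      have h2 := Set.ncard_le_ncard h1 (Set.finite_singleton a)
      rw [Set.ncard_singleton] at h2
      omega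
    have hfin : (Set.Ioc a g).Finite := hf.subset Set.Ioc_subset_Icc_self
    obtain ⟨b, hb, hmin⟩ := Set.exists_min_image (Set.Ioc a g) id hfin hne
    have hcov : a ⋖ b := by
      refine ⟨hb.1, fun c hc1 hc2 => ?_⟩
      have := hmin c ⟨hc1, hc2.le.trans hb.2⟩
      exact absurd hc2 (not_lt.2 this)
    have hsub : Set.Icc a g ⊆ insert a (Set.Icc b g) := by
      intro z hz
      rcases lt_or_eq_of_le hz.1 with h2 | h2
      · exact Or.inr ⟨hmin z ⟨h2, hz.2⟩, hz.2⟩
      · exact Or.inl h2.symm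
    have hfb : (Set.Icc b g).Finite := hf.subset (Set.Icc_subset_Icc_left hb.1.le)
    have h3 := Set.ncard_le_ncard hsub (hfb.insert a)
    have h4 := Set.ncard_insert_le a (Set.Icc b g)
    exact UpChain.cons hcov (ih b hfb (by omega))

/-! ### Blocks -/

/-- Isolated points between `a` and `b`. -/
def Bt (a b : X) : Set X := {h | Isol h ∧ a ≤ h ∧ h ≤ b}

/-- Isolated points right of `f` at finite distance. -/
def RBl (f : X) : Set X := {g | Isol g ∧ f < g ∧ (Bt f g).Finite}

/-- Isolated points left of `f` at finite distance. -/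
def LBl (f : X) : Set X := {g | Isol g ∧ g < f ∧ (Bt g f).Finite}

/-- The block of `f`. -/
def Bl (f : X) : Set X := {g | Isol g ∧ (Bt f g).Finite ∧ (Bt g f).Finite}

variable (X) in
/-- No block has type omega or reversed omega. -/
def HypA : Prop := ∀ f : X, Isol f → ((RBl f).Infinite ↔ (LBl f).Infinite)

variable (X) in
/-- The finite blocks have at most `K` elements. -/
def HypB (K : ℕ) : Prop := ∀ f : X, Isol f → (Bl f).Infinite ∨ (Bl f).ncard ≤ K

theorem bt_dual {a b : X} : Bt (OrderDual.toDual a) (OrderDual.toDual b) =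
    OrderDual.ofDual ⁻¹' (Bt b a) := by
  ext z
  constructor
  · rintro ⟨h1, h2, h3⟩
    exact ⟨(isol_dual (x := OrderDual.ofDual z)).1 h1, h3, h2⟩
  · rintro ⟨h1, h2, h3⟩
    exact ⟨(isol_dual (x := OrderDual.ofDual z)).2 h1, h3, h2⟩

theorem preimage_finite {S : Set X} : (OrderDual.ofDual ⁻¹' S : Set Xᵒᵈ).Finite ↔ S.Finite :=
  ⟨fun h => (h.image OrderDual.ofDual).subset (fun x hx => ⟨OrderDual.toDual x, hx, rfl⟩),
    fun h => h.preimage (OrderDual.ofDual.injective.injOn)⟩

theorem rBl_dual {f : X} : RBl (OrderDual.toDual f) = OrderDual.ofDual ⁻¹' (LBl f) := by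
  ext z
  constructor
  · rintro ⟨h1, h2, h3⟩
    refine ⟨(isol_dual (x := OrderDual.ofDual z)).1 h1, h2, ?_⟩
    have : (Bt (OrderDual.toDual f) (OrderDual.toDual (OrderDual.ofDual z))).Finite := h3
    rw [bt_dual, preimage_finite] at this
    exact this
  · rintro ⟨h1, h2, h3⟩
    refine ⟨(isol_dual (x := OrderDual.ofDual z)).2 h1, h2, ?_⟩
    show (Bt (OrderDual.toDual f) (OrderDual.toDual (OrderDual.ofDual z))).Finite
    rw [bt_dual, preimage_finite]
    exact h3

theorem lBl_dual {f : X} : LBl (OrderDual.toDual f) = OrderDual.ofDual ⁻¹' (RBl f) := by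
  ext z
  constructor
  · rintro ⟨h1, h2, h3⟩
    refine ⟨(isol_dual (x := OrderDual.ofDual z)).1 h1, h2, ?_⟩
    have : (Bt (OrderDual.toDual (OrderDual.ofDual z)) (OrderDual.toDual f)).Finite := h3
    rw [bt_dual, preimage_finite] at this
    exact this
  · rintro ⟨h1, h2, h3⟩
    refine ⟨(isol_dual (x := OrderDual.ofDual z)).2 h1, h2, ?_⟩
    show (Bt (OrderDual.toDual (OrderDual.ofDual z)) (OrderDual.toDual f)).Finite
    rw [bt_dual, preimage_finite]
    exact h3

theorem bl_dual {f : X} : Bl (OrderDual.toDual f) = OrderDual.ofDual ⁻¹' (Bl f) := by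
  ext z
  constructor
  · rintro ⟨h1, h2, h3⟩
    have h2' : (Bt (OrderDual.toDual f) (OrderDual.toDual (OrderDual.ofDual z))).Finite := h2
    have h3' : (Bt (OrderDual.toDual (OrderDual.ofDual z)) (OrderDual.toDual f)).Finite := h3
    rw [bt_dual, preimage_finite] at h2' h3'
    exact ⟨(isol_dual (x := OrderDual.ofDual z)).1 h1, h3', h2'⟩
  · rintro ⟨h1, h2, h3⟩
    refine ⟨(isol_dual (x := OrderDual.ofDual z)).2 h1, ?_, ?_⟩
    · show (Bt (OrderDual.toDual f) (OrderDual.toDual (OrderDual.ofDual z))).Finite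
      rw [bt_dual, preimage_finite]
      exact h3
    · show (Bt (OrderDual.toDual (OrderDual.ofDual z)) (OrderDual.toDual f)).Finite
      rw [bt_dual, preimage_finite]
      exact h2

theorem hypA_dual (h : HypA X) : HypA Xᵒᵈ := by
  intro f hf
  have h1 := h (OrderDual.ofDual f) (isol_dual.1 hf)
  have e1 : RBl f = OrderDual.ofDual ⁻¹' (LBl (OrderDual.ofDual f)) :=
    rBl_dual (f := OrderDual.ofDual f)
  have e2 : LBl f = OrderDual.ofDual ⁻¹' (RBl (OrderDual.ofDual f)) :=
    lBl_dual (f := OrderDual.ofDual f)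
  rw [e1, e2]
  unfold Set.Infinite at *
  rw [preimage_finite, preimage_finite]
  exact h1.symm

theorem hypB_dual {K : ℕ} (h : HypB X K) : HypB Xᵒᵈ K := by
  intro f hf
  have h1 := h (OrderDual.ofDual f) (isol_dual.1 hf)
  have e1 : Bl f = OrderDual.ofDual ⁻¹' (Bl (OrderDual.ofDual f)) :=
    bl_dual (f := OrderDual.ofDual f)
  rw [e1]
  rcases h1 with h1 | h1
  · left
    unfold Set.Infinite at *
    rw [preimage_finite]
    exact h1
  · right
    have : (OrderDual.ofDual ⁻¹' (Bl (OrderDual.ofDual f)) : Set Xᵒᵈ).ncard =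
        (Bl (OrderDual.ofDual f)).ncard :=
      Set.ncard_preimage_of_injective_subset_range OrderDual.ofDual.injective
        (by rw [OrderDual.ofDual.surjective.range_eq]; exact Set.subset_univ _)
    rw [this]
    exact h1

/-! ### The left limits -/

/-- Between a point and a left limit there are infinitely many isolated points. -/
theorem inf_left (hd : DenseL X) {x y : X} (hx : LLim x) (hy : y < x) :
    {h | Isol h ∧ y < h ∧ h < x}.Infinite := by
  intro hf
  obtain ⟨z0, h1, h2, h3⟩ := hd x y hx hy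
  obtain ⟨m, hm, hmax⟩ := Set.exists_max_image {h | Isol h ∧ y < h ∧ h < x} id hf
    ⟨z0, h1, h2, h3⟩
  obtain ⟨z, h4, h5, h6⟩ := hd x m hx hm.2.2
  have := hmax z ⟨h4, hm.2.1.trans h5, h6⟩
  exact absurd h5 (not_lt.2 this)

theorem inf_right (hd : DenseR X) {x y : X} (hx : RLim x) (hy : x < y) :
    {h | Isol h ∧ x < h ∧ h < y}.Infinite := by
  intro hf
  obtain ⟨z0, h1, h2, h3⟩ := hd x y hx hy
  obtain ⟨m, hm, hmin⟩ := Set.exists_min_image {h | Isol h ∧ x < h ∧ h < y} id hf
    ⟨z0, h1, h2, h3⟩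
  obtain ⟨z, h4, h5, h6⟩ := hd x m hx hm.2.1
  have := hmin z ⟨h4, h5, h6.trans hm.2.2⟩
  exact absurd h6 (not_lt.2 this)

/-- Left of the successor of a left limit there is no isolated point at finite distance. -/
theorem left_inf (hd : DenseL X) {x a g : X} (hx : LLim x) (hxa : x ⋖ a) (hg : Isol g)
    (hga : g < a) : (Bt g a).Infinite := by
  have h1 : g ≤ x := by
    by_contra hc
    push Not at hc
    exact hxa.2 hc hga
  have h2 : g ≠ x := by
    rintro rfl
    exact hg.1 hx
  have h3 : g < x := lt_of_le_of_ne h1 h2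
  refine (inf_left hd hx h3).mono ?_
  rintro z ⟨h4, h5, h6⟩
  exact ⟨h4, h5.le, (h6.trans hxa.lt).le⟩

/-- Finitely many isolated points between: the interval is finite. -/
theorem icc_finite (hl : DenseL X) (hr : DenseR X) {a g : X} (h : (Bt a g).Finite) :
    (Set.Icc a g).Finite := by
  refine ((h.insert g).insert a).subset ?_
  rintro z ⟨h1, h2⟩
  rcases lt_or_eq_of_le h1 with h3 | h3
  · rcases lt_or_eq_of_le h2 with h4 | h4
    · right; right
      refine ⟨⟨fun hz => ?_, fun hz => ?_⟩, h1, h2⟩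
      · exact inf_left hl hz h3 (h.subset (fun w hw => ⟨hw.1, hw.2.1.le, (hw.2.2.trans h4).le⟩))
      · exact inf_right hr hz h4 (h.subset (fun w hw => ⟨hw.1, (h3.trans hw.2.1).le, hw.2.2.le⟩))
    · right; left; exact h4
  · left; exact h3.symm

theorem hypA_up (hl : DenseL X) (h : HypA X) (x : X) (hx : LLim x) : ∃ n, ¬ UpChain x n := by
  by_contra hc
  push Not at hc
  obtain ⟨y, h0, h1⟩ := hc 2
  have hxa : x ⋖ y 1 := by
    have := h1 0 (by omega)
    rw [h0] at this
    exact this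
  have ha : Isol (y 1) := isol_of hxa (h1 1 (by omega))
  have hL : LBl (y 1) = ∅ := by
    rw [Set.eq_empty_iff_forall_notMem]
    rintro g ⟨h2, h3, h4⟩
    exact left_inf hl hx hxa h2 h3 h4
  have hfin : (RBl (y 1)).Finite := by
    by_contra hcon
    have := (h (y 1) ha).1 hcon
    rw [hL] at this
    exact this Set.finite_empty
  obtain ⟨z, z0, z1⟩ := hc ((RBl (y 1)).ncard + 4)
  have hz1 : z 1 = y 1 := by
    have h2 := z1 0 (by omega)
    rw [z0] at h2
    exact CovBy.unique_right h2 hxa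
  have hlt := chain_le z1
  have hsub : z '' (Set.Icc 2 ((RBl (y 1)).ncard + 2)) ⊆ RBl (y 1) := by
    rintro _ ⟨i, hi, rfl⟩
    obtain ⟨j, rfl⟩ : ∃ j, i = j + 2 := ⟨i - 2, by have := hi.1; omega⟩
    have hi2 := hi.2
    refine ⟨?_, ?_, ?_⟩
    · exact isol_of (z1 (j + 1) (by omega)) (z1 (j + 2) (by omega))
    · rw [← hz1]
      exact hlt (j + 2) (by omega) 1 (by omega)
    · rw [← hz1]
      have h3 := chain_finite (y := fun i => z (i + 1)) (n := (RBl (y 1)).ncard + 3)
        (fun i hi => z1 (i + 1) (by omega)) (j := j + 1) (by omega)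
      exact h3.subset (fun w hw => ⟨hw.2.1, hw.2.2⟩)
  have hcard := Set.ncard_le_ncard hsub hfin
  have hinj : Set.InjOn z (Set.Icc 2 ((RBl (y 1)).ncard + 2)) := by
    intro i hi j hj hij
    have hi2 := hi.2
    have hj2 := hj.2
    rcases Nat.lt_trichotomy i j with h5 | h5 | h5
    · exact absurd hij (hlt j (by omega) i h5).ne
    · exact h5
    · exact absurd hij.symm (hlt i (by omega) j h5).ne
  rw [hinj.ncard_image] at hcard
  have h6 : (Set.Icc 2 ((RBl (y 1)).ncard + 2)).ncard = (RBl (y 1)).ncard + 1 := by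
    rw [Set.ncard_eq_toFinset_card', Set.toFinset_Icc, Nat.card_Icc]
    omega
  omega

theorem hypB_up (hl : DenseL X) (hr : DenseR X) {K : ℕ} (h : HypB X K) (x : X) (hx : LLim x)
    (hu : UpChain x (K + 2)) (n : ℕ) : UpChain x n := by
  obtain ⟨z, z0, z1⟩ := hu
  have hxa : x ⋖ z 1 := by
    have := z1 0 (by omega)
    rw [z0] at this
    exact this
  have hlt := chain_le z1
  have ha : Isol (z 1) := isol_of hxa (z1 1 (by omega))
  have hge : ∀ g ∈ Bl (z 1), z 1 ≤ g := by
    rintro g ⟨h2, h3, h4⟩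
    by_contra hcon
    push Not at hcon
    exact left_inf hl hx hxa h2 hcon h4
  have hsub : z '' (Set.Icc 1 (K + 1)) ⊆ Bl (z 1) := by
    rintro _ ⟨i, hi, rfl⟩
    obtain ⟨j, rfl⟩ : ∃ j, i = j + 1 := ⟨i - 1, by have := hi.1; omega⟩
    have hi2 := hi.2
    have h3 := chain_finite (y := fun i => z (i + 1)) (n := K + 1)
        (fun i hi => z1 (i + 1) (by omega)) (j := j) (by omega)
    refine ⟨isol_of (z1 j (by omega)) (z1 (j + 1) (by omega)),
      h3.subset (fun w hw => ⟨hw.2.1, hw.2.2⟩), ?_⟩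
    have h4 : z 1 ≤ z (j + 1) := by
      rcases Nat.eq_zero_or_pos j with h5 | h5
      · rw [h5]
      · exact (hlt (j + 1) (by omega) 1 (by omega)).le
    refine (Set.finite_singleton (z 1)).subset ?_
    rintro w ⟨_, h5, h6⟩
    exact le_antisymm h6 (h4.trans h5)
  have hinf : (Bl (z 1)).Infinite := by
    rcases h (z 1) ha with h1 | h1
    · exact h1
    · intro hfin
      have hcard := Set.ncard_le_ncard hsub hfin
      have hinj : Set.InjOn z (Set.Icc 1 (K + 1)) := by
        intro i hi j hj hij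
        have hi2 := hi.2
        have hj2 := hj.2
        rcases Nat.lt_trichotomy i j with h5 | h5 | h5
        · exact absurd hij (hlt j (by omega) i h5).ne
        · exact h5
        · exact absurd hij.symm (hlt i (by omega) j h5).ne
      rw [hinj.ncard_image] at hcard
      have h6 : (Set.Icc 1 (K + 1)).ncard = K + 1 := by
        rw [Set.ncard_eq_toFinset_card', Set.toFinset_Icc, Nat.card_Icc]
        omega
      omega
  obtain ⟨F, hF, hFc⟩ := hinf.exists_subset_card_eq (n + 1)
  have hFne : F.Nonempty := by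
    rw [← Finset.card_pos, hFc]; omega
  obtain ⟨g, hg, hmax⟩ := F.exists_max_image id hFne
  have hfin : (Set.Icc (z 1) g).Finite := icc_finite hl hr (hF hg).2.1
  have hsub2 : (F : Set X) ⊆ Set.Icc (z 1) g := fun w hw => ⟨hge w (hF hw), hmax w hw⟩
  have hcard := Set.ncard_le_ncard hsub2 hfin
  rw [Set.ncard_coe_finset, hFc] at hcard
  exact (UpChain.cons hxa (upChain_of_finite g n (z 1) hfin hcard)).mono (by omega)

theorem hypA_down (hr : DenseR X) (h : HypA X) (x : X) (hx : RLim x) :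
    ∃ n, ¬ DownChain x n := by
  obtain ⟨n, hn⟩ := hypA_up (denseL_dual hr) (hypA_dual h) (OrderDual.toDual x) (lLim_dual.2 hx)
  exact ⟨n, fun hc => hn (upChain_dual.2 hc)⟩

theorem hypB_down (hl : DenseL X) (hr : DenseR X) {K : ℕ} (h : HypB X K) (x : X) (hx : RLim x)
    (hu : DownChain x (K + 2)) (n : ℕ) : DownChain x n :=
  upChain_dual.1 (hypB_up (denseL_dual hr) (denseR_dual hl) (hypB_dual h) (OrderDual.toDual x)
    (lLim_dual.2 hx) (upChain_dual.2 hu) n)

/-! ### The hypotheses on the order of the isolated points itself -/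

theorem image_Icc (f g : {x : X // Isol x}) :
    Subtype.val '' (Set.Icc f g) = Bt f.1 g.1 := by
  ext z
  constructor
  · rintro ⟨w, ⟨h1, h2⟩, rfl⟩
    exact ⟨w.2, h1, h2⟩
  · rintro ⟨h0, h1, h2⟩
    exact ⟨⟨z, h0⟩, ⟨h1, h2⟩, rfl⟩

theorem finite_Icc_iff (f g : {x : X // Isol x}) :
    (Set.Icc f g).Finite ↔ (Bt f.1 g.1).Finite := by
  rw [← image_Icc, Set.finite_image_iff Subtype.val_injective.injOn]

/-- (a) in the order `L` of the isolated points -/
theorem hypA_of (h : ∀ f : {x : X // Isol x},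
    ({g : {x : X // Isol x} | f < g ∧ (Set.Icc f g).Finite}.Infinite ↔
      {g : {x : X // Isol x} | g < f ∧ (Set.Icc g f).Finite}.Infinite)) : HypA X := by
  intro f hf
  have h1 := h ⟨f, hf⟩
  have e1 : Subtype.val '' {g : {x : X // Isol x} | ⟨f, hf⟩ < g ∧ (Set.Icc ⟨f, hf⟩ g).Finite} =
      RBl f := by
    ext z
    constructor
    · rintro ⟨w, ⟨h2, h3⟩, rfl⟩
      exact ⟨w.2, h2, (finite_Icc_iff _ _).1 h3⟩
    · rintro ⟨h0, h2, h3⟩
      exact ⟨⟨z, h0⟩, ⟨h2, (finite_Icc_iff _ _).2 h3⟩, rfl⟩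
  have e2 : Subtype.val '' {g : {x : X // Isol x} | g < ⟨f, hf⟩ ∧ (Set.Icc g ⟨f, hf⟩).Finite} =
      LBl f := by
    ext z
    constructor
    · rintro ⟨w, ⟨h2, h3⟩, rfl⟩
      exact ⟨w.2, h2, (finite_Icc_iff _ _).1 h3⟩
    · rintro ⟨h0, h2, h3⟩
      exact ⟨⟨z, h0⟩, ⟨h2, (finite_Icc_iff _ _).2 h3⟩, rfl⟩
  rw [← e1, ← e2, Set.infinite_image_iff Subtype.val_injective.injOn,
    Set.infinite_image_iff Subtype.val_injective.injOn]
  exact h1

/-- (b) in the order `L` of the isolated points -/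
theorem hypB_of {K : ℕ} (h : ∀ f : {x : X // Isol x},
    {g : {x : X // Isol x} | (Set.Icc f g).Finite ∧ (Set.Icc g f).Finite}.Infinite ∨
      {g : {x : X // Isol x} | (Set.Icc f g).Finite ∧ (Set.Icc g f).Finite}.ncard ≤ K) :
    HypB X K := by
  intro f hf
  have h1 := h ⟨f, hf⟩
  have e1 : Subtype.val '' {g : {x : X // Isol x} |
      (Set.Icc ⟨f, hf⟩ g).Finite ∧ (Set.Icc g ⟨f, hf⟩).Finite} = Bl f := by
    ext z
    constructor
    · rintro ⟨w, ⟨h2, h3⟩, rfl⟩
      exact ⟨w.2, (finite_Icc_iff _ _).1 h2, (finite_Icc_iff _ _).1 h3⟩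
    · rintro ⟨h0, h2, h3⟩
      exact ⟨⟨z, h0⟩, ⟨(finite_Icc_iff _ _).2 h2, (finite_Icc_iff _ _).2 h3⟩, rfl⟩
  rw [← e1, Set.infinite_image_iff Subtype.val_injective.injOn,
    Set.ncard_image_of_injective _ Subtype.val_injective]
  exact h1

end general

/-! ### The trees -/

/-- (a*) -/
theorem starA (ht : IsTree t) (hpac : ∀ f, IsPath t f → Computable f) (h : HypA (Pth t)) :
    (∀ x : Pth t, LLim x → ∃ n, ¬ UpChain x n) ∧
      ∀ x : Pth t, RLim x → ∃ n, ¬ DownChain x n :=
  ⟨hypA_up (denseL_pth ht hpac) h, hypA_down (denseR_pth ht hpac) h⟩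

/-- (b*) -/
theorem starB (ht : IsTree t) (hpac : ∀ f, IsPath t f → Computable f) {K : ℕ}
    (h : HypB (Pth t) K) :
    (∀ x : Pth t, LLim x → UpChain x (K + 2) → ∀ n, UpChain x n) ∧
      ∀ x : Pth t, RLim x → DownChain x (K + 2) → ∀ n, DownChain x n :=
  ⟨hypB_up (denseL_pth ht hpac) (denseR_pth ht hpac) h,
    hypB_down (denseL_pth ht hpac) (denseR_pth ht hpac) h⟩

end Pool.Agent.Lib.MP_0f5a21_lc.H
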