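import Pool.Agent.Lib.MP_0f5a21_lc.H.Defs

/-!
Part B of Theorem H: two linear orders with a decomposition over the same marked linear order `M`
are isomorphic.
-/

set_option autoImplicit false

namespace Pool.Agent.Lib.MP_0f5a21_lc.H

section fibres

theorem iso_int {ι : Type} [LinearOrder ι] [Nonempty ι] (hfin : ∀ a b : ι, (Set.Icc a b).Finite)
    (hmax : ∀ a : ι, ∃ b, a < b) (hmin : ∀ a : ι, ∃ b, b < a) : Nonempty (ι ≃o ℤ) := by
  classical
  let _ : LocallyFiniteOrder ι := LocallyFiniteOrder.ofFiniteIcc hfin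
  let _ : SuccOrder ι := LinearLocallyFiniteOrder.succOrder ι
  let _ : PredOrder ι := LinearLocallyFiniteOrder.predOrder ι
  have _ : NoMaxOrder ι := ⟨hmax⟩
  have _ : NoMinOrder ι := ⟨hmin⟩
  exact ⟨orderIsoIntOfLinearSuccPredArch⟩

theorem iso_nat {ι : Type} [LinearOrder ι] [Nonempty ι] (hfin : ∀ b : ι, (Set.Iic b).Finite)
    (hmax : ∀ a : ι, ∃ b, a < b) : Nonempty (ι ≃o ℕ) := by
  classical
  let _ : LocallyFiniteOrder ι :=
    LocallyFiniteOrder.ofFiniteIcc (fun a b => (hfin b).subset fun x hx => hx.2)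
  let _ : SuccOrder ι := LinearLocallyFiniteOrder.succOrder ι
  let _ : PredOrder ι := LinearLocallyFiniteOrder.predOrder ι
  have _ : NoMaxOrder ι := ⟨hmax⟩
  have hbot : ∃ b : ι, ∀ a, b ≤ a := by
    obtain ⟨x⟩ := ‹Nonempty ι›
    obtain ⟨b, hb, hb'⟩ := Set.exists_min_image (Set.Iic x) id (hfin x) ⟨x, le_refl x⟩
    refine ⟨b, fun a => ?_⟩
    rcases le_total a x with h | h
    · exact hb' a h
    · exact le_trans hb h
  choose b hb using hbot
  let _ : OrderBot ι := { bot := b, bot_le := hb }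
  exact ⟨orderIsoNatOfLinearSuccPredArch⟩

theorem iso_nat_dual {ι : Type} [LinearOrder ι] [Nonempty ι] (hfin : ∀ b : ι, (Set.Ici b).Finite)
    (hmin : ∀ a : ι, ∃ b, b < a) : Nonempty (ι ≃o ℕᵒᵈ) := by
  have h : Nonempty (ιᵒᵈ ≃o ℕ) := by
    have _ : Nonempty ιᵒᵈ := ‹Nonempty ι›
    refine iso_nat (ι := ιᵒᵈ) (fun b => ?_) (fun a => ?_)
    · exact hfin (OrderDual.ofDual b)
    · obtain ⟨b, hb⟩ := hmin (OrderDual.ofDual a)
      exact ⟨OrderDual.toDual b, hb⟩
  obtain ⟨e⟩ := h
  exact ⟨(OrderIso.dualDual ι).trans e.dual⟩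

theorem iso_fin {ι κ : Type} [LinearOrder ι] [LinearOrder κ] [Finite ι] [Finite κ]
    (h : Nat.card ι = Nat.card κ) : Nonempty (ι ≃o κ) := by
  classical
  have _ := Fintype.ofFinite ι
  have _ := Fintype.ofFinite κ
  rw [Nat.card_eq_fintype_card, Nat.card_eq_fintype_card] at h
  exact ⟨(Fintype.orderIsoFinOfCardEq ι rfl).symm.trans
    (Fintype.orderIsoFinOfCardEq κ h.symm)⟩

theorem glue {X Y C : Type} [LinearOrder X] [LinearOrder Y] [LinearOrder C] (cX : X → C)
    (cY : Y → C) (hX : Monotone cX) (hY : Monotone cY)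
    (h : ∀ c, Nonempty ({x // cX x = c} ≃o {y // cY y = c})) : Nonempty (X ≃o Y) := by
  have e : ∀ c, {x // cX x = c} ≃o {y // cY y = c} := fun c => Classical.choice (h c)
  let f : X → Y := fun x => (e (cX x) ⟨x, rfl⟩).1
  have hf : ∀ x, cY (f x) = cX x := fun x => (e (cX x) ⟨x, rfl⟩).2
  have hmono : StrictMono f := by
    intro x y hxy
    have h1 := hX hxy.le
    rcases h1.lt_or_eq with h2 | h2
    · by_contra h3
      have h4 := hY (not_lt.1 h3)
      rw [hf, hf] at h4
      exact absurd h4 (not_le.2 h2)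
    · have key : ∀ (c d : C) (hcd : c = d) (hx : cX x = c) (hy : cX y = d),
          (e c ⟨x, hx⟩).1 < (e d ⟨y, hy⟩).1 := by
        intro c d hcd hx hy
        subst hcd
        have h5 : (e c ⟨x, hx⟩) < (e c ⟨y, hy⟩) := (e c).lt_iff_lt.2 hxy
        exact h5
      exact key (cX x) (cX y) h2 rfl rfl
  have hsurj : Function.Surjective f := by
    intro y
    obtain ⟨x, hx⟩ := (e (cY y)).surjective ⟨y, rfl⟩
    refine ⟨x.1, ?_⟩
    have key : ∀ (c : C) (hc : cX x.1 = c), (e c ⟨x.1, hc⟩).1 = (e (cX x.1) ⟨x.1, rfl⟩).1 := by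
      intro c hc
      subst hc
      rfl
    have h2 := key (cY y) x.2
    show (e (cX x.1) ⟨x.1, rfl⟩).1 = y
    rw [← h2]
    have h3 : (⟨x.1, x.2⟩ : {x // cX x = cY y}) = x := rfl
    rw [h3, hx]
  exact ⟨hmono.orderIsoOfSurjective f hsurj⟩

end fibres

section main

variable {M : Type} [LinearOrder M] {lab : M → ℕ} {hl hr : M → Bool}

/-- The cell of an element. -/
def Decomp.cell {L : Type} [LinearOrder L] (d : Decomp M lab hl hr L) (x : L) : M ×ₗ M :=
  toLex (d.lo x, d.hi x)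

theorem Decomp.cell_eq {L : Type} [LinearOrder L] (d : Decomp M lab hl hr L) {x : L} {a b : M} :
    d.cell x = toLex (a, b) ↔ d.lo x = a ∧ d.hi x = b := by
  constructor
  · intro h
    have h2 : (d.lo x, d.hi x) = (a, b) := toLex.injective h
    exact ⟨congrArg Prod.fst h2, congrArg Prod.snd h2⟩
  · rintro ⟨h1, h2⟩
    unfold Decomp.cell
    rw [h1, h2]

theorem Decomp.cell_mono {L : Type} [LinearOrder L] (d : Decomp M lab hl hr L) :
    Monotone d.cell := by
  intro x y hxy
  rcases hxy.lt_or_eq with h | h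
  · by_cases h0 : d.lo x ≠ d.lo y ∨ d.hi x ≠ d.hi y
    · have h1 := (d.order x y h0).1 h
      have h2 : d.lo x ≤ d.hi x := by
        rcases d.cov x with h3 | h3
        · exact h3.ge
        · exact h3.lt.le
      have h4 : d.lo y ≤ d.hi y := by
        rcases d.cov y with h3 | h3
        · exact h3.ge
        · exact h3.lt.le
      unfold Decomp.cell
      rw [Prod.Lex.le_iff]
      rcases (h2.trans h1).lt_or_eq with h5 | h5
      · exact Or.inl h5
      · exact Or.inr ⟨h5, h1.trans h4⟩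
    · push Not at h0
      unfold Decomp.cell
      rw [h0.1, h0.2]
  · rw [h]

/-- The order type of a region. -/
theorem Decomp.region {L : Type} [LinearOrder L] (d : Decomp M lab hl hr L) {a b : M}
    (hab : a ⋖ b) (hH : ¬ (hr a = true ∧ hl b = true)) :
    (hr a = true → Nonempty ({x // d.cell x = toLex (a, b)} ≃o ℕ)) ∧
    (hl b = true → Nonempty ({x // d.cell x = toLex (a, b)} ≃o ℕᵒᵈ)) ∧
    (¬ hr a = true → ¬ hl b = true → Nonempty ({x // d.cell x = toLex (a, b)} ≃o ℤ)) := by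
  have hmem : ∀ x : {x // d.cell x = toLex (a, b)}, d.lo x.1 = a ∧ d.hi x.1 = b :=
    fun x => d.cell_eq.1 x.2
  have hinj : Function.Injective (fun x : {x // d.cell x = toLex (a, b)} => x.1) :=
    Subtype.val_injective
  have _ : Nonempty {x // d.cell x = toLex (a, b)} := by
    obtain ⟨x, h1, h2⟩ := d.ne a b hab
    exact ⟨⟨x, d.cell_eq.2 ⟨h1, h2⟩⟩⟩
  have hup : ¬ hl b = true → ∀ x : {x // d.cell x = toLex (a, b)}, ∃ y, x < y := by
    intro h x
    by_contra h1
    push Not at h1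
    exact h ((d.greatest a b hab).2
      ⟨x.1, hmem x, fun y h2 h3 => h1 ⟨y, d.cell_eq.2 ⟨h2, h3⟩⟩⟩)
  have hdown : ¬ hr a = true → ∀ x : {x // d.cell x = toLex (a, b)}, ∃ y, y < x := by
    intro h x
    by_contra h1
    push Not at h1
    exact h ((d.least a b hab).2
      ⟨x.1, hmem x, fun y h2 h3 => h1 ⟨y, d.cell_eq.2 ⟨h2, h3⟩⟩⟩)
  have hloc : ∀ x y : {x // d.cell x = toLex (a, b)}, (Set.Icc x y).Finite := by
    intro x y
    have h := d.locfin a b hab x.1 y.1 (hmem x).1 (hmem x).2 (hmem y).1 (hmem y).2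
    exact (h.preimage hinj.injOn).subset fun z hz => hz
  refine ⟨fun h => ?_, fun h => ?_, fun h1 h2 => iso_int hloc (hup h2) (hdown h1)⟩
  · obtain ⟨x0, hx0, hx0'⟩ := (d.least a b hab).1 h
    refine iso_nat (fun x => ?_) (hup (fun h' => hH ⟨h, h'⟩))
    refine (hloc ⟨x0, d.cell_eq.2 hx0⟩ x).subset fun z hz => ⟨?_, hz⟩
    exact hx0' z.1 (hmem z).1 (hmem z).2
  · obtain ⟨x0, hx0, hx0'⟩ := (d.greatest a b hab).1 h
    refine iso_nat_dual (fun x => ?_) (hdown (fun h' => hH ⟨h', h⟩))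
    refine (hloc x ⟨x0, d.cell_eq.2 hx0⟩).subset fun z hz => ⟨hz, ?_⟩
    exact hx0' z.1 (hmem z).1 (hmem z).2

/-- Two linear orders with a decomposition over the same marked order are isomorphic. -/
theorem decomp_iso (h : ∀ m m' : M, m ⋖ m' → ¬ (hr m = true ∧ hl m' = true)) {L L' : Type}
    [LinearOrder L] [LinearOrder L'] (d : Decomp M lab hl hr L) (d' : Decomp M lab hl hr L') :
    Nonempty (L ≃o L') := by
  refine glue d.cell d'.cell d.cell_mono d'.cell_mono ?_
  intro c
  obtain ⟨⟨a, b⟩, rfl⟩ := toLex.surjective c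
  by_cases hab : a ⋖ b
  · obtain ⟨x1, x2, x3⟩ := d.region hab (h a b hab)
    obtain ⟨y1, y2, y3⟩ := d'.region hab (h a b hab)
    by_cases h1 : hr a = true
    · obtain ⟨e⟩ := x1 h1
      obtain ⟨f⟩ := y1 h1
      exact ⟨e.trans f.symm⟩
    · by_cases h2 : hl b = true
      · obtain ⟨e⟩ := x2 h2
        obtain ⟨f⟩ := y2 h2
        exact ⟨e.trans f.symm⟩
      · obtain ⟨e⟩ := x3 h1 h2
        obtain ⟨f⟩ := y3 h1 h2
        exact ⟨e.trans f.symm⟩
  · by_cases hab' : a = b
    · subst hab'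
      have hset : ∀ {Z : Type} [LinearOrder Z] (d : Decomp M lab hl hr Z),
          Finite {z // d.cell z = toLex (a, a)} ∧
          Nat.card {z // d.cell z = toLex (a, a)} = lab a := by
        intro Z _ d
        have h1 : {z | d.cell z = toLex (a, a)} = {z | d.lo z = a ∧ d.hi z = a} := by
          ext z
          exact d.cell_eq
        constructor
        · have h3 : {z | d.cell z = toLex (a, a)}.Finite := by
            rw [h1]
            exact d.fin a
          exact h3.to_subtype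
        · rw [← d.card a, ← h1]
          rfl
      obtain ⟨x1, x2⟩ := hset d
      obtain ⟨y1, y2⟩ := hset d'
      exact iso_fin (x2.trans y2.symm)
    · have hemp : ∀ {Z : Type} [LinearOrder Z] (d : Decomp M lab hl hr Z),
          IsEmpty {z // d.cell z = toLex (a, b)} := by
        intro Z _ d
        refine ⟨fun z => ?_⟩
        obtain ⟨h3, h4⟩ := d.cell_eq.1 z.2
        rcases d.cov z.1 with h | h
        · exact hab' (h3.symm.trans (h.symm.trans h4))
        · rw [h3, h4] at h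
          exact hab h
      have _ := hemp d
      have _ := hemp d'
      exact ⟨OrderIso.ofIsEmpty _ _⟩

end main

end Pool.Agent.Lib.MP_0f5a21_lc.H
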