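import Pool.Agent.Lib.MP_0f5a21_lc.H.StartsAux60

/-!
Theorem H, module C4: the starts of a complete linear order, and the decomposition of the
isolated points over the starts (`starts_decomp`).
-/

set_option autoImplicit false

namespace Pool.Agent.Lib.MP_0f5a21_lc.H

open C4

namespace C4

variable {X : Type} [LinearOrder X]

theorem hlS_iff (m : Starts X) : hlS m = true ↔ DnInf m.1 := by
  simp only [hlS, decide_eq_true_eq]; rfl

theorem hrS_iff (m : Starts X) : hrS m = true ↔ UpInf m.1 := by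
  simp only [hrS, decide_eq_true_eq]; rfl

theorem hlS_false (m : Starts X) : hlS m = false ↔ ¬ DnInf m.1 := by
  rw [← hlS_iff]; simp

theorem hrS_false (m : Starts X) : hrS m = false ↔ ¬ UpInf m.1 := by
  rw [← hrS_iff]; simp

theorem starts_lub (hlub : ∀ S : Set X, S.Nonempty → ∃ m, IsLUB S m) (S : Set (Starts X))
    (hS : S.Nonempty) : ∃ m, IsLUB S m := by
  obtain ⟨z, hz⟩ := hlub (Subtype.val '' S) (hS.image _)
  have hs : Start z := by
    by_cases h : z ∈ Subtype.val '' S
    · obtain ⟨m, -, rfl⟩ := h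
      exact m.2
    · exact start_iff.2 (Or.inl (np_of_lub hz h))
  refine ⟨⟨z, hs⟩, ?_, ?_⟩
  · intro m hm
    exact hz.1 ⟨m, hm, rfl⟩
  · intro m hm
    apply hz.2
    rintro _ ⟨s, hs, rfl⟩
    exact hm hs

theorem starts_glb [Nonempty X] (hlub : ∀ S : Set X, S.Nonempty → ∃ m, IsLUB S m)
    (hglb : ∀ S : Set X, S.Nonempty → ∃ m, IsGLB S m) (S : Set (Starts X))
    (hS : S.Nonempty) : ∃ m, IsGLB S m := by
  obtain ⟨z, hz⟩ := hglb (Subtype.val '' S) (hS.image _)
  obtain ⟨m, hm1, hm2, hm3⟩ := exists_lo hlub hglb z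
  refine ⟨⟨m, hm1⟩, ?_, ?_⟩
  · intro s hs
    exact hm2.trans (hz.1 ⟨s, hs, rfl⟩)
  · intro s hs
    apply hm3 s.1 s.2
    apply hz.2
    rintro _ ⟨t, ht, rfl⟩
    exact hs ht

theorem starts_not_both (m : Starts X) : ¬ (hlS m = true ∧ hrS m = true) := by
  rw [hlS_iff, hrS_iff]
  rintro ⟨h1, h2⟩
  obtain ⟨s, hs⟩ := h2.succ
  obtain ⟨p, hp⟩ := h1.pred
  rcases start_iff.1 m.2 with h | h
  · exact h ⟨p, hp⟩
  · exact h.1 ⟨s, hs⟩

theorem covBy_of {m m' : Starts X} (h : m.1 < m'.1)
    (hn : ∀ y, m.1 < y → y < m'.1 → ¬ Start y) : m ⋖ m' := by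
  refine ⟨h, ?_⟩
  intro c h1 h2
  exact hn c.1 h1 h2 c.2

theorem of_covBy {m m' : Starts X} (h : m ⋖ m') : m.1 < m'.1 ∧
    ∀ y, m.1 < y → y < m'.1 → ¬ Start y :=
  ⟨h.1, fun y h1 h2 hs => h.2 (show m < ⟨y, hs⟩ from h1) (show (⟨y, hs⟩ : Starts X) < m' from h2)⟩

theorem starts_hr_next (hlub : ∀ S : Set X, S.Nonempty → ∃ m, IsLUB S m) (m : Starts X)
    (h : hrS m = true) : ∃ m', m ⋖ m' ∧ hlS m' = false := by
  rw [hrS_iff] at h
  obtain ⟨z, hz1, hz2, hz3⟩ := sup_up hlub h
  refine ⟨⟨z, start_iff.2 (Or.inl hz2)⟩, covBy_of hz1 ?_, ?_⟩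
  · intro y hy1 hy2
    exact not_start_of_fin m.2 hy1 (hz3 y hy1.le hy2)
  · rw [hlS_false]
    intro hd
    exact hz2 hd.pred

theorem starts_hl_prev [Nonempty X] (hlub : ∀ S : Set X, S.Nonempty → ∃ m, IsLUB S m)
    (hglb : ∀ S : Set X, S.Nonempty → ∃ m, IsGLB S m) (m : Starts X)
    (h : hlS m = true) : ∃ m', m' ⋖ m ∧ hrS m' = false := by
  rw [hlS_iff] at h
  obtain ⟨z, hz1, hz2, hz3⟩ := inf_dn hglb h
  have hnsm : NS m.1 := by
    rcases start_iff.1 m.2 with h1 | h1
    · exact absurd h.pred h1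
    · exact h1.1
  obtain ⟨w, hw⟩ := exists_lo hlub hglb z
  have hwm : w < m.1 := lt_of_le_of_lt hw.2.1 hz1
  refine ⟨⟨w, hw.1⟩, covBy_of hwm ?_, ?_⟩
  · intro y hy1 hy2 hys
    rcases le_or_gt y z with h1 | h1
    · exact absurd (hw.2.2 y hys h1) (not_le.2 hy1)
    · have hf := hz3 y h1 hy2.le
      obtain ⟨s, hs, -⟩ := succ_of_fin hy2 hf
      obtain ⟨p, hp⟩ := ((dnInf_fin hy2.le hf).2 h).pred
      rcases start_iff.1 hys with h2 | h2
      · exact h2 ⟨p, hp⟩
      · exact h2.1 ⟨s, hs⟩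
  · rw [hrS_false]
    intro hu
    change UpInf w at hu
    rcases lo_cases hglb hw with h1 | ⟨e, he1, -, he2, he3, -⟩
    · exact hz2 ((upInf_fin hw.2.1 h1).1 hu).succ
    · exact he3 ((upInf_fin he1 he2).1 hu).succ

end C4

/-- C4: the starts of a complete linear order, and the decomposition of its isolated points. -/
theorem starts_decomp {X : Type} [LinearOrder X] [Nonempty X]
    (hlub : ∀ S : Set X, S.Nonempty → ∃ m, IsLUB S m)
    (hglb : ∀ S : Set X, S.Nonempty → ∃ m, IsGLB S m) :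
    (∀ S : Set (Starts X), S.Nonempty → ∃ m, IsLUB S m) ∧
    (∀ S : Set (Starts X), S.Nonempty → ∃ m, IsGLB S m) ∧
    (∀ m : Starts X, ¬ (hlS m = true ∧ hrS m = true)) ∧
    (∀ m : Starts X, hrS m = true → ∃ m', m ⋖ m' ∧ hlS m' = false) ∧
    (∀ m : Starts X, hlS m = true → ∃ m', m' ⋖ m ∧ hrS m' = false) ∧
    Nonempty (Decomp (Starts X) labS hlS hrS {x : X // Isol x}) := by
  classical
  refine ⟨starts_lub hlub, starts_glb hlub hglb, starts_not_both, starts_hr_next hlub,
    starts_hl_prev hlub hglb, ?_⟩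
  -- the greatest start below
  have hlo : ∀ x : X, ∃ m : Starts X, IsLo x m.1 := by
    intro x
    obtain ⟨m, hm⟩ := exists_lo hlub hglb x
    exact ⟨⟨m, hm.1⟩, hm⟩
  choose lo0 hlo0 using hlo
  have lo_uniq : ∀ (x : X) (m : Starts X), IsLo x m.1 → lo0 x = m := by
    intro x m hm
    apply le_antisymm
    · exact hm.2.2 _ (lo0 x).2 (hlo0 x).2.1
    · exact (hlo0 x).2.2 _ m.2 hm.2.1
  have hnext : ∀ x : X, ∃ m' : Starts X, (InPiece (lo0 x).1 x → m' = lo0 x) ∧
      (¬ InPiece (lo0 x).1 x → lo0 x ⋖ m' ∧ x < m'.1) := by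
    intro x
    by_cases h : InPiece (lo0 x).1 x
    · exact ⟨lo0 x, fun _ => rfl, fun hc => absurd h hc⟩
    · obtain ⟨m', h1, h2, h3⟩ := next_start hlub hglb (hlo0 x) h
      refine ⟨⟨m', h1⟩, fun hc => absurd hc h, fun _ => ⟨?_, h2⟩⟩
      refine covBy_of (lt_of_le_of_lt (hlo0 x).2.1 h2) ?_
      intro y hy1 hy2 hys
      rcases le_or_gt y x with h4 | h4
      · exact absurd ((hlo0 x).2.2 y hys h4) (not_le.2 hy1)
      · exact h3 y h4 hy2 hys
  choose hi0 hhi1 hhi2 using hnext
  -- membership in the marker region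
  have mem_mark : ∀ (m : Starts X) (x : X), (lo0 x = m ∧ hi0 x = m) ↔ InPiece m.1 x := by
    intro m x
    constructor
    · rintro ⟨h1, h2⟩
      by_contra hc
      rw [← h1] at hc
      have := (hhi2 x hc).1.1
      rw [h1, h2] at this
      exact lt_irrefl _ this
    · intro h
      have h1 : lo0 x = m := lo_uniq x m (lo_of_inPiece m.2 h)
      refine ⟨h1, ?_⟩
      have h2 : InPiece (lo0 x).1 x := by rw [h1]; exact h
      rw [hhi1 x h2, h1]
  -- membership in the gap
  have mem_gap : ∀ (m m' : Starts X), m ⋖ m' → ∀ x : X, (lo0 x = m ∧ hi0 x = m') ↔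
      (m.1 ≤ x ∧ x < m'.1 ∧ ¬ InPiece m.1 x) := by
    intro m m' hc x
    constructor
    · rintro ⟨h1, h2⟩
      have hp : ¬ InPiece (lo0 x).1 x := by
        intro h
        have := hhi1 x h
        rw [h1, h2] at this
        exact hc.1.ne this.symm
      have h3 := hhi2 x hp
      rw [h1, h2] at h3
      rw [h1] at hp
      refine ⟨?_, h3.2, hp⟩
      have := (hlo0 x).2.1
      rwa [h1] at this
    · rintro ⟨h1, h2, h3⟩
      have h4 : lo0 x = m := lo_uniq x m (isLo_of_between m.2 (of_covBy hc).2 h1 h2)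
      refine ⟨h4, ?_⟩
      have h5 : ¬ InPiece (lo0 x).1 x := by rw [h4]; exact h3
      have h6 := (hhi2 x h5).1
      rw [h4] at h6
      exact covBy_right_unique h6 hc
  have hcov : ∀ x, hi0 x = lo0 x ∨ lo0 x ⋖ hi0 x := by
    intro x
    by_cases h : InPiece (lo0 x).1 x
    · exact Or.inl (hhi1 x h)
    · exact Or.inr (hhi2 x h).1
  have lo_mono : ∀ x y : X, x ≤ y → lo0 x ≤ lo0 y := by
    intro x y h
    exact (hlo0 y).2.2 _ (lo0 x).2 ((hlo0 x).2.1.trans h)
  have lt_of_lo_lt : ∀ x y : X, lo0 x < lo0 y → x < y := by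
    intro x y h
    by_contra hc
    exact absurd (lo_mono y x (not_lt.1 hc)) (not_le.2 h)
  have gap_isol : ∀ (m m' : Starts X), m ⋖ m' → ∀ x : X, m.1 ≤ x → x < m'.1 →
      ¬ InPiece m.1 x → Isol x := by
    intro m m' hc x h1 h2 h3
    exact isol_of_gap hglb (isLo_of_between m.2 (of_covBy hc).2 h1 h2) h3
  refine ⟨⟨fun x => lo0 x.1, fun x => hi0 x.1, fun x => hcov x.1, ?_, ?_, ?_, ?_, ?_, ?_, ?_⟩⟩
  · -- order
    rintro ⟨x, hx⟩ ⟨y, hy⟩ hne
    change (lo0 x ≠ lo0 y ∨ hi0 x ≠ hi0 y) at hne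
    change x < y ↔ hi0 x ≤ lo0 y
    rcases lt_trichotomy (lo0 x) (lo0 y) with h | h | h
    · constructor
      · intro _
        rcases hcov x with h1 | h1
        · rw [h1]; exact h.le
        · by_contra hc
          exact h1.2 h (not_le.1 hc)
      · intro _
        exact lt_of_lo_lt x y h
    · have hne' : hi0 x ≠ hi0 y := hne.resolve_left (fun hc => hc h)
      by_cases hpx : InPiece (lo0 x).1 x
      · have hpy : ¬ InPiece (lo0 y).1 y := by
          intro hpy
          apply hne'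
          rw [hhi1 x hpx, hhi1 y hpy, h]
        constructor
        · intro _
          rw [hhi1 x hpx, h]
        · intro _
          by_contra hc
          apply hpy
          rw [← h]
          refine inPiece_convex hpx ?_ (not_lt.1 hc)
          rw [h]
          exact (hlo0 y).2.1
      · have hcx := (hhi2 x hpx).1
        have hpy : InPiece (lo0 y).1 y := by
          by_contra hpy
          have hcy := (hhi2 y hpy).1
          rw [h] at hcx
          exact hne' (covBy_right_unique hcx hcy)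
        constructor
        · intro hxy
          exfalso
          apply hpx
          rw [h]
          refine inPiece_convex hpy ?_ hxy.le
          rw [← h]
          exact (hlo0 x).2.1
        · intro hc
          rw [← h] at hc
          exact absurd hcx.1 (not_lt.2 hc)
    · constructor
      · intro hxy
        exact absurd (lt_of_lo_lt y x h) (not_lt.2 hxy.le)
      · intro hc
        have h1 : lo0 x ≤ hi0 x := by
          rcases hcov x with h1 | h1
          · rw [h1]
          · exact h1.1.le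
        exact absurd (h1.trans hc) (not_le.2 h)
  · -- fin
    intro m
    have h1 : {x : X | InPiece m.1 x}.Finite := by
      by_cases hu : UpInf m.1
      · refine (Set.finite_singleton m.1).subset ?_
        rintro x (h | h)
        · exact h.symm
        · exact absurd hu h.1
      · obtain ⟨e, he1, he2, he3⟩ := end_up hu
        refine he2.subset ?_
        intro x hx
        refine ⟨le_of_inPiece hx, ?_⟩
        by_contra hc
        exact not_inPiece_of_end he1 he3 (not_le.1 hc) hx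
    have h2 : {x : {x : X // Isol x} | lo0 x.1 = m ∧ hi0 x.1 = m}
        = Subtype.val ⁻¹' {x : X | InPiece m.1 x} := by
      ext x
      exact mem_mark m x.1
    change {x : {x : X // Isol x} | lo0 x.1 = m ∧ hi0 x.1 = m}.Finite
    rw [h2]
    exact h1.preimage Subtype.val_injective.injOn
  · -- card
    intro m
    unfold labS
    rw [← Set.ncard_image_of_injective _ (Subtype.val_injective (p := fun x : X => Isol x))]
    congr 1
    ext y
    constructor
    · rintro ⟨x, hx, rfl⟩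
      exact ⟨x.2, (mem_mark m x.1).1 hx⟩
    · rintro ⟨h1, h2⟩
      exact ⟨⟨y, h1⟩, (mem_mark m y).2 h2, rfl⟩
  · -- ne
    intro m m' hc
    obtain ⟨y, h1, h2, h3⟩ := gap_nonempty m.2 m'.2 (of_covBy hc).1
    exact ⟨⟨y, gap_isol m m' hc y h1.le h2 h3⟩, (mem_gap m m' hc y).2 ⟨h1.le, h2, h3⟩⟩
  · -- locfin
    rintro m m' hc ⟨x, hx⟩ ⟨y, hy⟩ h1 h2 h3 h4
    change lo0 x = m at h1
    change hi0 x = m' at h2
    change lo0 y = m at h3
    change hi0 y = m' at h4
    obtain ⟨hx1, hx2, hx3⟩ := (mem_gap m m' hc x).1 ⟨h1, h2⟩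
    have hloy : IsLo y m.1 := by rw [← h3]; exact hlo0 y
    have hfin : (Set.Icc x y).Finite := by
      rcases le_or_gt x y with hxy | hxy
      · rcases lo_cases hglb hloy with h5 | ⟨e, he1, -, he2, he3, -, he4⟩
        · exact h5.subset (Set.Icc_subset_Icc_left hx1)
        · refine he4 x ?_ hxy
          by_contra hcon
          apply hx3
          right
          refine ⟨fun hu => he3 ((upInf_fin he1 he2).1 hu).succ, hx1,
            he2.subset (Set.Icc_subset_Icc_right (not_lt.1 hcon))⟩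
      · rw [Set.Icc_eq_empty (not_le.2 hxy)]; exact Set.finite_empty
    have h6 : Set.Icc (⟨x, hx⟩ : {x : X // Isol x}) ⟨y, hy⟩ = Subtype.val ⁻¹' (Set.Icc x y) := by
      ext z
      rfl
    rw [h6]
    exact hfin.preimage Subtype.val_injective.injOn
  · -- least
    intro m m' hc
    rw [hrS_iff]
    constructor
    · intro hu
      obtain ⟨s, hs⟩ := hu.succ
      have hf : (Set.Icc m.1 s).Finite := icc_insert_right hs (by simp)
      have hlt := (of_covBy hc).1
      have hsm : s ≤ m'.1 := by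
        by_contra h
        exact hs.2 hlt (not_le.1 h)
      have hsm' : s < m'.1 := lt_of_le_of_ne hsm (by
        rintro rfl
        exact not_start_of_fin m.2 hs.1 hf m'.2)
      have hp : ¬ InPiece m.1 s := by
        rintro (h | h)
        · exact hs.1.ne h
        · exact h.1 hu
      refine ⟨⟨s, gap_isol m m' hc s hs.1.le hsm' hp⟩,
        (mem_gap m m' hc s).2 ⟨hs.1.le, hsm', hp⟩, ?_⟩
      rintro ⟨y, hy⟩ h1 h2
      obtain ⟨hy1, hy2, hy3⟩ := (mem_gap m m' hc y).1 ⟨h1, h2⟩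
      change s ≤ y
      by_contra hcon
      have h5 : m.1 < y := lt_of_le_of_ne hy1 (fun h => hy3 (Or.inl h))
      exact hs.2 h5 (not_le.1 hcon)
    · rintro ⟨⟨x, hx⟩, ⟨h1, h2⟩, h3⟩
      by_contra hu
      obtain ⟨hx1, hx2, hx3⟩ := (mem_gap m m' hc x).1 ⟨h1, h2⟩
      obtain ⟨e, he1, he2, he3⟩ := end_up hu
      have hex : e < x := by
        by_contra hcon
        exact hx3 (Or.inr ⟨hu, hx1, he2.subset (Set.Icc_subset_Icc_right (not_lt.1 hcon))⟩)
      have : ∃ y, e < y ∧ y < x := by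
        by_contra hcon
        push Not at hcon
        exact he3 ⟨x, hex, fun c h4 h5 => absurd h5 (not_lt.2 (hcon c h4))⟩
      obtain ⟨y, hy1, hy2⟩ := this
      have hp : ¬ InPiece m.1 y := not_inPiece_of_end he1 he3 hy1
      have hy3 : m.1 ≤ y := he1.trans hy1.le
      have hy4 : y < m'.1 := hy2.trans hx2
      have h6 := (mem_gap m m' hc y).2 ⟨hy3, hy4, hp⟩
      have h7 := h3 ⟨y, gap_isol m m' hc y hy3 hy4 hp⟩ h6.1 h6.2
      exact absurd hy2 (not_lt.2 h7)
  · -- greatest
    intro m m' hc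
    rw [hlS_iff]
    have hlt := (of_covBy hc).1
    constructor
    · intro hd
      obtain ⟨p, hp⟩ := hd.pred
      have hf : (Set.Icc p m'.1).Finite := icc_insert_right hp (by simp)
      have hmp : m.1 ≤ p := by
        by_contra h
        exact hp.2 (not_le.1 h) hlt
      have hnf : ¬ (Set.Icc m.1 p).Finite := by
        intro h
        exact not_start_of_fin m.2 hlt (icc_insert_right hp h) m'.2
      have hq : ¬ InPiece m.1 p := fun h => hnf (fin_of_inPiece h)
      refine ⟨⟨p, gap_isol m m' hc p hmp hp.1 hq⟩, (mem_gap m m' hc p).2 ⟨hmp, hp.1, hq⟩, ?_⟩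
      rintro ⟨y, hy⟩ h1 h2
      obtain ⟨hy1, hy2, hy3⟩ := (mem_gap m m' hc y).1 ⟨h1, h2⟩
      change y ≤ p
      by_contra hcon
      exact hp.2 (not_le.1 hcon) hy2
    · rintro ⟨⟨x, hx⟩, ⟨h1, h2⟩, h3⟩
      by_contra hd
      obtain ⟨hx1, hx2, hx3⟩ := (mem_gap m m' hc x).1 ⟨h1, h2⟩
      have hnp : NP m'.1 := (start_iff.1 m'.2).resolve_right (fun h => hd h.2)
      have : ∃ y, x < y ∧ y < m'.1 := by
        by_contra hcon
        push Not at hcon
        exact hnp ⟨x, hx2, fun c h4 h5 => absurd h5 (not_lt.2 (hcon c h4))⟩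
      obtain ⟨y, hy1, hy2⟩ := this
      have hp : ¬ InPiece m.1 y := fun h => hx3 (inPiece_convex h hx1 hy1.le)
      have hy3 : m.1 ≤ y := hx1.trans hy1.le
      have h6 := (mem_gap m m' hc y).2 ⟨hy3, hy2, hp⟩
      have h7 := h3 ⟨y, gap_isol m m' hc y hy3 hy2 hp⟩ h6.1 h6.2
      exact absurd hy1 (not_lt.2 h7)

end Pool.Agent.Lib.MP_0f5a21_lc.H
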