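import Pool.Agent.Lib.MP_0f5a21_lc.H.Paths
import Pool.Agent.Lib.MP_0f5a21_lc.H.Starts

/-!
Theorem H, module C5, first part: the kinds of the starts, their labels and hard sides.
-/

set_option autoImplicit false

namespace Pool.Agent.Lib.MP_0f5a21_lc.H

open C4

section order

variable {X : Type} [LinearOrder X]

theorem np_of_llim {x : X} (h : LLim x) : NP x := h.2

theorem ns_of_rlim {x : X} (h : RLim x) : NS x := h.2

theorem not_isol_of_llim {x : X} (h : LLim x) : ¬ Isol x := fun hc => hc.1 h

theorem not_isol_of_rlim {x : X} (h : RLim x) : ¬ Isol x := fun hc => hc.2 h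

theorem labS_zero {m : Starts X} (h : ∀ y, Isol y → ¬ InPiece m.1 y) : labS m = 0 := by
  unfold labS
  have : {y : X | Isol y ∧ InPiece m.1 y} = ∅ := by
    ext y
    simp only [Set.mem_ofPred_eq, Set.mem_empty_iff_false, iff_false, not_and]
    exact h y
  rw [this, Set.ncard_empty]

theorem inPiece_ns {x y : X} (hx : NS x) (h : InPiece x y) : x = y := by
  rcases h with h | ⟨_, h1, h2⟩
  · exact h
  · rcases h1.eq_or_lt with h3 | h3
    · exact h3
    · obtain ⟨z, hz, _⟩ := succ_of_fin h3 h2
      exact absurd ⟨z, hz⟩ hx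

theorem hl_false_of_np {m : Starts X} (h : NP m.1) : hlS m = false :=
  (hlS_false m).2 fun hc => h hc.pred

theorem hr_false_of_ns {m : Starts X} (h : NS m.1) : hrS m = false :=
  (hrS_false m).2 fun hc => h hc.succ

/-- kind 2 -/
theorem kind2 {m : Starts X} (h1 : LLim m.1) (h2 : RLim m.1) :
    labS m = 0 ∧ hlS m = false ∧ hrS m = false := by
  refine ⟨labS_zero fun y hy hp => ?_, hl_false_of_np (np_of_llim h1),
    hr_false_of_ns (ns_of_rlim h2)⟩
  rw [← inPiece_ns (ns_of_rlim h2) hp] at hy
  exact hy.1 h1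

theorem chain_le' {y : ℕ → X} {n : ℕ} (h : ∀ i, i < n → y i ⋖ y (i + 1)) {i j : ℕ} (hij : i < j)
    (hj : j ≤ n) : y i < y j := by
  induction j, hij using Nat.le_induction with
  | base => exact (h i (by omega)).lt
  | succ j hj' ih => exact (ih (by omega)).trans (h j (by omega)).lt

theorem chain_icc {y : ℕ → X} {n : ℕ} (h : ∀ i, i < n → y i ⋖ y (i + 1)) {j : ℕ} (hj : j ≤ n) :
    Set.Icc (y 0) (y j) = y '' (Set.Iic j) := by
  induction j with
  | zero =>
    ext z
    simp
    exact eq_comm
  | succ j ih =>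
    have ih' := ih (by omega)
    ext z
    constructor
    · rintro ⟨h1, h2⟩
      by_cases h3 : z ≤ y j
      · have : z ∈ y '' (Set.Iic j) := by rw [← ih']; exact ⟨h1, h3⟩
        obtain ⟨i, hi, rfl⟩ := this
        exact ⟨i, by simp only [Set.mem_Iic] at hi ⊢; omega, rfl⟩
      · refine ⟨j + 1, by simp, ?_⟩
        by_contra h4
        exact (h j (by omega)).2 (not_le.1 h3) (lt_of_le_of_ne h2 (fun h5 => h4 h5.symm))
    · rintro ⟨i, hi, rfl⟩
      simp only [Set.mem_Iic] at hi
      constructor
      · rcases Nat.eq_zero_or_pos i with h0 | h0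
        · rw [h0]
        · exact (chain_le' h h0 (by omega)).le
      · rcases Nat.eq_or_lt_of_le hi with h0 | h0
        · rw [h0]
        · exact (chain_le' h h0 (by omega)).le

theorem chain_icc_fin {y : ℕ → X} {n : ℕ} (h : ∀ i, i < n → y i ⋖ y (i + 1)) {j : ℕ}
    (hj : j ≤ n) : (Set.Icc (y 0) (y j)).Finite := by
  rw [chain_icc h hj]
  exact (Set.finite_Iic j).image _

theorem chain_not_upInf {y : ℕ → X} {n : ℕ} (h : ∀ i, i < n → y i ⋖ y (i + 1))
    (hr : NS (y n)) : ¬ UpInf (y 0) := by
  intro hc
  rcases Nat.eq_zero_or_pos n with h0 | h0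
  · subst h0
    exact hr hc.succ
  · exact hr ((upInf_fin (chain_le' h h0 le_rfl).le (chain_icc_fin h le_rfl)).1 hc).succ

/-- kind 3 -/
theorem kind3 {m : Starts X} {y : ℕ → X} {n : ℕ} (h : ∀ i, i < n + 1 → y i ⋖ y (i + 1))
    (h0 : y 0 = m.1) (h1 : LLim m.1) (h2 : RLim (y (n + 1))) :
    labS m = n ∧ hlS m = false ∧ hrS m = false := by
  have hnu : ¬ UpInf m.1 := by
    rw [← h0]
    exact chain_not_upInf h (ns_of_rlim h2)
  refine ⟨?_, hl_false_of_np (np_of_llim h1), (hrS_false m).2 hnu⟩
  have hset : {z : X | Isol z ∧ InPiece m.1 z} = (fun i => y (i + 1)) '' (Set.Iio n) := by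
    ext z
    constructor
    · rintro ⟨hz, hp⟩
      have hle : m.1 ≤ z := le_of_inPiece hp
      have hf := fin_of_inPiece hp
      have hzn : z ≤ y (n + 1) := by
        by_contra hc
        have h3 : y (n + 1) < z := not_le.1 hc
        have h4 : y 0 ≤ y (n + 1) := (chain_le' h (Nat.succ_pos n) le_rfl).le
        have hf' : (Set.Icc (y (n + 1)) z).Finite := by
          apply hf.subset
          apply Set.Icc_subset_Icc_left
          rw [← h0]
          exact h4
        obtain ⟨w, hw, _⟩ := succ_of_fin h3 hf'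
        exact ns_of_rlim h2 ⟨w, hw⟩
      have hmem : z ∈ Set.Icc (y 0) (y (n + 1)) := ⟨by rw [h0]; exact hle, hzn⟩
      rw [chain_icc h le_rfl] at hmem
      obtain ⟨i, hi, rfl⟩ := hmem
      simp only [Set.mem_Iic] at hi
      have hi0 : i ≠ 0 := by
        rintro rfl
        rw [h0] at hz
        exact hz.1 h1
      have hin : i ≠ n + 1 := by
        rintro rfl
        exact hz.2 h2
      refine ⟨i - 1, by simp only [Set.mem_Iio]; omega, ?_⟩
      show y (i - 1 + 1) = y i
      congr 1
      omega
    · rintro ⟨i, hi, rfl⟩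
      simp only [Set.mem_Iio] at hi
      constructor
      · constructor
        · intro hc
          exact np_of_llim hc ⟨y i, h i (by omega)⟩
        · intro hc
          exact ns_of_rlim hc ⟨y (i + 1 + 1), h (i + 1) (by omega)⟩
      · right
        refine ⟨hnu, ?_, ?_⟩
        · rw [← h0]
          exact (chain_le' h (Nat.succ_pos i) (by omega)).le
        · rw [← h0]
          exact chain_icc_fin h (by omega)
  unfold labS
  rw [hset, Set.InjOn.ncard_image, Set.ncard_Iio_nat]
  intro i hi j hj he
  simp only [Set.mem_Iio] at hi hj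
  simp only at he
  rcases Nat.lt_trichotomy i j with h3 | h3 | h3
  · exact absurd he (chain_le' h (show i + 1 < j + 1 by omega) (by omega)).ne
  · exact h3
  · exact absurd he (chain_le' h (show j + 1 < i + 1 by omega) (by omega)).ne'

/-- kind 4 -/
theorem kind4 {m : Starts X} (h1 : LLim m.1) (h2 : UpInf m.1) :
    labS m = 0 ∧ hlS m = false ∧ hrS m = true := by
  refine ⟨labS_zero fun y hy hp => ?_, hl_false_of_np (np_of_llim h1), (hrS_iff m).2 h2⟩
  rcases hp with h | ⟨h, _⟩
  · rw [← h] at hy
    exact hy.1 h1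
  · exact h h2

/-- kind 5 -/
theorem kind5 {m : Starts X} (h1 : RLim m.1) (h2 : DnInf m.1) :
    labS m = 0 ∧ hlS m = true ∧ hrS m = false := by
  refine ⟨labS_zero fun y hy hp => ?_, (hlS_iff m).2 h2, hr_false_of_ns (ns_of_rlim h1)⟩
  rw [← inPiece_ns (ns_of_rlim h1) hp] at hy
  exact hy.2 h1

/-- Finitely many successors: the chain of successors down to a point without successor. -/
theorem end_chain {x : X} (h : ¬ UpInf x) : ∃ n, ∃ y : ℕ → X, y 0 = x ∧
    (∀ i, i < n → y i ⋖ y (i + 1)) ∧ NS (y n) := by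
  classical
  have hex : ∃ n, ¬ UpChain x n := by
    simpa [UpInf] using h
  have h1 := Nat.find_spec hex
  have hpos : Nat.find hex ≠ 0 := fun h0 => h1 (by rw [h0]; exact upChain_zero x)
  obtain ⟨n, hn⟩ : ∃ n, Nat.find hex = n + 1 := ⟨Nat.find hex - 1, by omega⟩
  have h2 : UpChain x n := by
    by_contra hc
    exact Nat.find_min hex (show n < Nat.find hex by omega) hc
  rw [hn] at h1
  obtain ⟨y, hy0, hy⟩ := h2
  refine ⟨n, y, hy0, hy, ?_⟩
  rintro ⟨z, hz⟩
  apply h1
  refine ⟨fun i => if i ≤ n then y i else z, by simp [hy0], fun i hi => ?_⟩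
  by_cases hin : i < n
  · have e1 : i ≤ n := by omega
    have e2 : i + 1 ≤ n := by omega
    simp only [e1, e2, if_true]
    exact hy i hin
  · have e1 : i = n := by omega
    subst e1
    simp only [le_refl, if_true, show ¬ (i + 1 ≤ i) by omega, if_false]
    exact hz

/-- Classification of the starts: least, greatest, or one of the kinds 2 to 5. -/
theorem classify (m : Starts X) (hbot : ¬ ∀ y : Starts X, m ≤ y) (htop : ¬ ∀ y : Starts X, y ≤ m) :
    (LLim m.1 ∧ RLim m.1) ∨
    (LLim m.1 ∧ ∃ n, ∃ y : ℕ → X, y 0 = m.1 ∧ (∀ i, i < n + 1 → y i ⋖ y (i + 1)) ∧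
      RLim (y (n + 1))) ∨
    (LLim m.1 ∧ UpInf m.1) ∨ (RLim m.1 ∧ DnInf m.1) := by
  have hstart := m.2
  have hnb : ¬ ∀ y, m.1 ≤ y := fun h => hbot fun y => h y.1
  -- a point above everything in finite distance makes `m` the greatest start
  have hgr : ∀ e, m.1 ≤ e → (Set.Icc m.1 e).Finite → ¬ ∀ y, y ≤ e := by
    intro e he hf hall
    apply htop
    intro y
    by_contra hc
    have hlt : m.1 < y.1 := not_le.1 hc
    exact not_start_of_fin m.2 hlt (hf.subset (Set.Icc_subset_Icc_right (hall y.1))) y.2
  rcases hstart with h | h | ⟨h1, h2⟩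
  · exact absurd h hnb
  · by_cases hr : RLim m.1
    · exact Or.inl ⟨h, hr⟩
    · by_cases hu : UpInf m.1
      · exact Or.inr (Or.inr (Or.inl ⟨h, hu⟩))
      · obtain ⟨n, y, hy0, hy, hns⟩ := end_chain hu
        have hn : n ≠ 0 := by
          rintro rfl
          rw [hy0] at hns
          rcases ns_iff.1 hns with h3 | h3
          · exact hr h3
          · exact hgr m.1 le_rfl (by simp) h3
        obtain ⟨n', rfl⟩ : ∃ n', n = n' + 1 := ⟨n - 1, by omega⟩
        right
        left
        refine ⟨h, n', y, hy0, hy, ?_⟩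
        rcases ns_iff.1 hns with h3 | h3
        · exact h3
        · exfalso
          refine hgr (y (n' + 1)) ?_ ?_ h3
          · rw [← hy0]
            exact (chain_le' hy (Nat.succ_pos n') le_rfl).le
          · rw [← hy0]
            exact chain_icc_fin hy le_rfl
  · rcases h1 with h1 | h1
    · exact Or.inr (Or.inr (Or.inr ⟨h1, h2⟩))
    · exact absurd h1 (hgr m.1 le_rfl (by simp))

end order

section tree

variable {t : List Bool → Bool}

/-- Consecutive branching nodes. -/
def Cons (t : List Bool → Bool) (F : List (List Bool)) : Prop :=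
  F ≠ [] ∧ (∀ v ∈ F, both t v = true) ∧
  List.IsChain (fun v w => pathC t false (v ++ [true]) = pathC t true (w ++ [false])) F

theorem cons_chain (ht : IsTree t) : ∀ (F : List (List Bool)), Cons t F →
    ∃ y : ℕ → Pth t, (∀ i, i < F.length → y i ⋖ y (i + 1)) ∧
      dg (y 0) = pathC t true (F.headD [] ++ [false]) ∧
      dg (y F.length) = pathC t false (F.getLastD [] ++ [true]) := by
  intro F
  induction F with
  | nil =>
    intro h
    exact absurd rfl h.1
  | cons v F ih =>
    intro h
    have hbv : both t v = true := h.2.1 v (by simp)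
    have p0 : IsPath t (pathC t true (v ++ [false])) := pathC_isPath ht (child hbv false)
    have p1 : IsPath t (pathC t false (v ++ [true])) := pathC_isPath ht (child hbv true)
    cases F with
    | nil =>
      refine ⟨fun i => if i = 0 then mkP _ p0 else mkP _ p1, ?_, rfl, rfl⟩
      intro i hi
      have : i = 0 := by simpa using hi
      subst this
      exact (covBy_iff ht).2 ⟨v, hbv, rfl, rfl⟩
    | cons w F =>
      have h' : Cons t (w :: F) := by
        refine ⟨by simp, fun u hu => h.2.1 u (by simp [hu]), ?_⟩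
        exact (List.isChain_cons_cons.1 h.2.2).2
      obtain ⟨y, hy, hy0, hyn⟩ := ih h'
      have hvw : pathC t false (v ++ [true]) = pathC t true (w ++ [false]) :=
        (List.isChain_cons_cons.1 h.2.2).1
      refine ⟨fun i => if i = 0 then mkP _ p0 else y (i - 1), ?_, rfl, ?_⟩
      · intro i hi
        rcases Nat.eq_zero_or_pos i with h0 | h0
        · subst h0
          refine (covBy_iff ht).2 ⟨v, hbv, rfl, ?_⟩
          show dg (y 0) = _
          rw [hy0, hvw]
          rfl
        · have e1 : i ≠ 0 := by omega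
          simp only [e1, if_false, show i + 1 ≠ 0 by omega]
          have := hy (i - 1) (by simp only [List.length_cons] at hi ⊢; omega)
          have e2 : i - 1 + 1 = i + 1 - 1 := by omega
          rw [e2] at this
          exact this
      · have : (v :: w :: F).length ≠ 0 := by simp
        simp only [this, if_false]
        exact hyn

theorem chain_cons (ht : IsTree t) (n : ℕ) : ∀ y : ℕ → Pth t, (∀ i, i < n + 1 → y i ⋖ y (i + 1)) →
    ∃ F : List (List Bool), Cons t F ∧ F.length = n + 1 ∧
      dg (y 0) = pathC t true (F.headD [] ++ [false]) ∧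
      dg (y (n + 1)) = pathC t false (F.getLastD [] ++ [true]) := by
  induction n with
  | zero =>
    intro y hy
    obtain ⟨v, hv, h0, h1⟩ := (covBy_iff ht).1 (hy 0 (by omega))
    exact ⟨[v], ⟨by simp, by simpa using hv, by simp⟩, rfl, h0, h1⟩
  | succ n ih =>
    intro y hy
    obtain ⟨v, hv, h0, h1⟩ := (covBy_iff ht).1 (hy 0 (by omega))
    obtain ⟨F, hF, hl, g0, g1⟩ := ih (fun i => y (i + 1)) (fun i hi => hy (i + 1) (by omega))
    cases F with
    | nil => exact absurd rfl hF.1
    | cons w F =>
      refine ⟨v :: w :: F, ⟨by simp, ?_, ?_⟩, by simp at hl ⊢; exact hl, h0, g1⟩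
      · intro u hu
        rcases List.mem_cons.1 hu with hu | hu
        · rw [hu]
          exact hv
        · exact hF.2.1 u hu
      · refine List.isChain_cons_cons.2 ⟨?_, hF.2.2⟩
        rw [← h1]
        exact g0

end tree

end Pool.Agent.Lib.MP_0f5a21_lc.H
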