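import Pool.Agent.Lib.MP_0f5a21_lc.H.Sig
import Pool.Agent.Lib.MP_0f5a21_lc.H.Codes

/-!
Theorem H, last assembly.
-/

set_option autoImplicit false

namespace Pool.Agent.Lib.MP_0f5a21_lc.H

open C4

variable {t : List Bool → Bool}

/-- Certificates give a computable presentation of the order of the isolated paths. -/
theorem presentable_of_cert (ht : IsTree t) (hc : Computable t)
    (hpac : ∀ f, IsPath t f → Computable f) {Q Q' : List Bool → ℕ → ℕ → ℕ → Bool}
    (hQ : Computable fun x : ((List Bool × ℕ) × ℕ) × ℕ => Q x.1.1.1 x.1.1.2 x.1.2 x.2)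
    (hQ' : Computable fun x : ((List Bool × ℕ) × ℕ) × ℕ => Q' x.1.1.1 x.1.1.2 x.1.2 x.2)
    (hcert : Cert t Q Q') : Presentable {x : Pth t // Isol x} := by
  have hne : Nonempty (Pth t) := nonempty_path ht
  obtain ⟨hlub, hglb, hnb, hrn, hlp, ⟨d⟩⟩ := starts_decomp (X := Pth t) exists_lub exists_glb
  obtain ⟨z, hz⟩ := exists_glb (Set.univ : Set (Pth t)) Set.univ_nonempty
  have hzs : Start z := Or.inl fun y => hz.1 (Set.mem_univ y)
  have hne' : (Set.univ : Set (Starts (Pth t))).Nonempty := ⟨⟨z, hzs⟩, Set.mem_univ _⟩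
  obtain ⟨bot, hbot⟩ := hglb Set.univ hne'
  obtain ⟨top, htop⟩ := hlub Set.univ hne'
  have hb : ∀ m, bot ≤ m := fun m => hbot.1 (Set.mem_univ m)
  have htp : ∀ m, m ≤ top := fun m => htop.1 (Set.mem_univ m)
  by_cases hlt : bot < top
  · obtain ⟨D, rep, hD, hS⟩ := exists_spec ht hc hQ hQ' (hpac _ (dg_path bot.1))
      (hpac _ (dg_path top.1)) (labS bot) (labS top) (hrS bot) (hlS top)
    obtain ⟨ρ, hG⟩ := good_of_spec ht hpac hcert hb htp hlt hS
    exact good_presentable hD hG d
  · have hbt : top ≤ bot := not_lt.1 hlt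
    have hsub : ∀ m m' : Starts (Pth t), m = m' := fun m m' =>
      le_antisymm ((htp m).trans (hbt.trans (hb m'))) ((htp m').trans (hbt.trans (hb m)))
    have hfin : (Set.univ : Set {x : Pth t // Isol x}).Finite :=
      (d.fin bot).subset fun x _ => ⟨hsub _ _, hsub _ _⟩
    have : Finite {x : Pth t // Isol x} := Set.finite_univ_iff.1 hfin
    exact presentable_of_finite

/-- The order of the isolated paths in the form of the frozen statements. -/
theorem final_form (ht : IsTree t) (h : Presentable {x : Pth t // Isol x}) :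
    ∃ D : Set ℕ, ∃ R : ℕ → ℕ → Prop,
        ComputablePred (fun n : ℕ => n ∈ D) ∧
        ComputablePred (fun p : ℕ × ℕ => R p.1 p.2) ∧
        ∃ e : {n : ℕ // n ∈ D} ≃
            {f : ℕ → Bool // (∀ n : ℕ, List.ofFn (fun i : Fin n => f i) ∈ {σ | t σ = true}) ∧
              ∃ m : ℕ, ∀ g : ℕ → Bool,
                (∀ n : ℕ, List.ofFn (fun i : Fin n => g i) ∈ {σ | t σ = true}) →
                (∀ i < m, g i = f i) → g = f},
          ∀ a b : {n : ℕ // n ∈ D},
            (R a.1 b.1 ↔ ∃ k : ℕ, (∀ i < k, (e a).1 i = (e b).1 i) ∧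
              (e a).1 k = false ∧ (e b).1 k = true) := by
  obtain ⟨D, R, hD, hR, e, he⟩ := h
  refine ⟨D, R, hD, hR, e.trans
    { toFun := fun x => ⟨dg x.1, (isolPath_iff ht).2 x.2⟩
      invFun := fun f => ⟨mkP f.1 f.2.1, (isolPath_iff ht).1 f.2⟩
      left_inv := fun _ => rfl
      right_inv := fun _ => rfl }, fun a b => ?_⟩
  rw [he a b]
  exact lt_iff

end Pool.Agent.Lib.MP_0f5a21_lc.H
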