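import Pool.Agent.Lib.MP_0f5a21_lc.H.Defs

/-!
Theorem H, module A2, first part: bounded quantifiers with Boolean values, and the step of the
construction (`nodeF`), with its computability.
-/

set_option autoImplicit false

namespace Pool.Agent.Lib.MP_0f5a21_lc.H.A2

/-! ### Bounded quantifiers and search -/

/-- Bounded universal quantifier. -/
def ballB (n : ℕ) (p : ℕ → Bool) : Bool := Nat.rec true (fun i acc => acc && p i) n

/-- Bounded existential quantifier. -/
def bexB (n : ℕ) (p : ℕ → Bool) : Bool := !(ballB n fun i => !(p i))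

/-- The last `i < n` with `p i` (if there is one). -/
def findB (n : ℕ) (p : ℕ → Bool) : ℕ := Nat.rec 0 (fun i acc => bif p i then i else acc) n

theorem ballB_succ (n : ℕ) (p : ℕ → Bool) : ballB (n + 1) p = (ballB n p && p n) := rfl

theorem findB_succ (n : ℕ) (p : ℕ → Bool) :
    findB (n + 1) p = bif p n then n else findB n p := rfl

theorem ballB_iff {n : ℕ} {p : ℕ → Bool} : ballB n p = true ↔ ∀ i, i < n → p i = true := by
  induction n with
  | zero => simp [ballB]
  | succ n ih =>
    rw [ballB_succ, Bool.and_eq_true, ih]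
    constructor
    · rintro ⟨h1, h2⟩ i hi
      rcases Nat.lt_succ_iff_lt_or_eq.1 hi with h | rfl
      · exact h1 i h
      · exact h2
    · intro h
      exact ⟨fun i hi => h i (by omega), h n (by omega)⟩

theorem bexB_iff {n : ℕ} {p : ℕ → Bool} : bexB n p = true ↔ ∃ i, i < n ∧ p i = true := by
  unfold bexB
  rw [Bool.not_eq_true', ← Bool.not_eq_true, ballB_iff]
  simp

theorem findB_spec {n : ℕ} {p : ℕ → Bool} (h : ∃ i, i < n ∧ p i = true) :
    findB n p < n ∧ p (findB n p) = true := by
  induction n with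
  | zero => obtain ⟨i, hi, -⟩ := h; omega
  | succ n ih =>
    rw [findB_succ]
    by_cases hn : p n = true
    · rw [hn]; exact ⟨by simp, by simpa using hn⟩
    · have hn' : p n = false := by simpa using hn
      rw [hn']
      obtain ⟨i, hi, hp⟩ := h
      have hin : i ≠ n := by rintro rfl; exact hn hp
      have := ih ⟨i, by omega, hp⟩
      exact ⟨by simp only [cond_false]; omega, by simpa using this.2⟩

theorem ballB_congr {n : ℕ} {p q : ℕ → Bool} (h : ∀ i, i < n → p i = q i) :
    ballB n p = ballB n q := by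
  induction n with
  | zero => rfl
  | succ n ih => rw [ballB_succ, ballB_succ, ih (fun i hi => h i (by omega)), h n (by omega)]

theorem bexB_congr {n : ℕ} {p q : ℕ → Bool} (h : ∀ i, i < n → p i = q i) :
    bexB n p = bexB n q := by
  unfold bexB
  rw [ballB_congr (fun i hi => by rw [h i hi])]

theorem findB_congr {n : ℕ} {p q : ℕ → Bool} (h : ∀ i, i < n → p i = q i) :
    findB n p = findB n q := by
  induction n with
  | zero => rfl
  | succ n ih => rw [findB_succ, findB_succ, ih (fun i hi => h i (by omega)), h n (by omega)]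

section closure

variable {β : Type} [Primcodable β]

theorem c_ball {n : β → ℕ} {p : β → ℕ → Bool} (hn : Computable n)
    (hp : Computable fun q : β × ℕ => p q.1 q.2) : Computable fun x => ballB (n x) (p x) := by
  have h := Computable.nat_rec (f := n) (g := fun _ : β => true)
    (h := fun (x : β) (q : ℕ × Bool) => q.2 && p x q.1) hn (Computable.const true)
    (Computable.to₂ (f := fun w : β × (ℕ × Bool) => w.2.2 && p w.1 w.2.1)
      (Primrec.and.to_comp.comp (Computable.snd.comp Computable.snd)
        (hp.comp (Computable.fst.pair (Computable.fst.comp Computable.snd)))))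
  exact h

theorem c_not {f : β → Bool} (hf : Computable f) : Computable fun a => !(f a) :=
  Primrec.not.to_comp.comp hf

theorem c_and {f g : β → Bool} (hf : Computable f) (hg : Computable g) :
    Computable fun a => f a && g a :=
  Primrec.and.to_comp.comp hf hg

theorem c_or {f g : β → Bool} (hf : Computable f) (hg : Computable g) :
    Computable fun a => f a || g a :=
  Primrec.or.to_comp.comp hf hg

theorem c_bex {n : β → ℕ} {p : β → ℕ → Bool} (hn : Computable n)
    (hp : Computable fun q : β × ℕ => p q.1 q.2) : Computable fun x => bexB (n x) (p x) :=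
  c_not (c_ball hn (c_not hp))

theorem c_find {n : β → ℕ} {p : β → ℕ → Bool} (hn : Computable n)
    (hp : Computable fun q : β × ℕ => p q.1 q.2) : Computable fun x => findB (n x) (p x) := by
  have h := Computable.nat_rec (f := n) (g := fun _ : β => 0)
    (h := fun (x : β) (q : ℕ × ℕ) => bif p x q.1 then q.1 else q.2) hn (Computable.const 0)
    (Computable.to₂ (f := fun w : β × (ℕ × ℕ) => bif p w.1 w.2.1 then w.2.1 else w.2.2)
      (Computable.cond
        (hp.comp (Computable.fst.pair (Computable.fst.comp Computable.snd)))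
        (Computable.fst.comp Computable.snd) (Computable.snd.comp Computable.snd)))
  exact h

theorem c_lt {f g : β → ℕ} (hf : Computable f) (hg : Computable g) :
    Computable fun a => decide (f a < g a) :=
  (Primrec.nat_lt.decide.to_comp).comp hf hg

theorem c_le {f g : β → ℕ} (hf : Computable f) (hg : Computable g) :
    Computable fun a => decide (f a ≤ g a) :=
  (Primrec.nat_le.decide.to_comp).comp hf hg

theorem c_eqn {f g : β → ℕ} (hf : Computable f) (hg : Computable g) :
    Computable fun a => decide (f a = g a) :=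
  ((Primrec.eq (α := ℕ)).decide.to_comp).comp hf hg

theorem c_beq {f g : β → Bool} (hf : Computable f) (hg : Computable g) :
    Computable fun a => (f a == g a) :=
  (Primrec.beq (α := Bool)).to_comp.comp hf hg

theorem c_mul {f g : β → ℕ} (hf : Computable f) (hg : Computable g) :
    Computable fun a => f a * g a :=
  Primrec.nat_mul.to_comp.comp hf hg

theorem c_add {f g : β → ℕ} (hf : Computable f) (hg : Computable g) :
    Computable fun a => f a + g a :=
  Primrec.nat_add.to_comp.comp hf hg

theorem c_sub {f g : β → ℕ} (hf : Computable f) (hg : Computable g) :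
    Computable fun a => f a - g a :=
  Primrec.nat_sub.to_comp.comp hf hg

theorem c_pow2 {f : β → ℕ} (hf : Computable f) : Computable fun a => 2 ^ (f a) := by
  have h : Primrec₂ ((· ^ ·) : ℕ → ℕ → ℕ) := Primrec₂.unpaired'.1 Nat.Primrec.pow
  exact h.to_comp.comp (Computable.const 2) hf

end closure

/-! ### Pointers as codes -/

/-- `val p < val q`. -/
def ltV (p q : ℕ × ℕ) : Bool := decide (p.1 * 2 ^ q.2 < q.1 * 2 ^ p.2)

/-- `val p ≤ val q`. -/
def leV (p q : ℕ × ℕ) : Bool := decide (p.1 * 2 ^ q.2 ≤ q.1 * 2 ^ p.2)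

/-- `val p = val q`. -/
def eqV (p q : ℕ × ℕ) : Bool := decide (p.1 * 2 ^ q.2 = q.1 * 2 ^ p.2)

theorem ltV_iff {p q : ℕ × ℕ} : ltV p q = true ↔ val p < val q := by
  unfold ltV val
  rw [decide_eq_true_eq, div_lt_div_iff₀ (by positivity) (by positivity)]
  exact_mod_cast Iff.rfl

theorem leV_iff {p q : ℕ × ℕ} : leV p q = true ↔ val p ≤ val q := by
  unfold leV val
  rw [decide_eq_true_eq, div_le_div_iff₀ (by positivity) (by positivity)]
  exact_mod_cast Iff.rfl

theorem eqV_iff {p q : ℕ × ℕ} : eqV p q = true ↔ val p = val q := by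
  unfold eqV val
  rw [decide_eq_true_eq, div_eq_div_iff (by positivity) (by positivity)]
  exact_mod_cast Iff.rfl

/-- A record: bit, pointer, and whether the pointer is new. -/
abbrev Rec := Bool × Option (ℕ × ℕ) × Bool

/-- Read the record of node `j` from a row. -/
def rdL (L : List Rec) (j : ℕ) : Rec := (L[j]?).getD (false, none, false)

/-- Read the record of node `j` of stage `t` from the history. -/
def rd (H : List (List Rec)) (t j : ℕ) : Rec := rdL ((H[t]?).getD []) j

/-- Value of a pointer (code), with a default. -/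
def pv (g : ℕ → Rec) (j : ℕ) : ℕ × ℕ := (g j).2.1.getD (0, 0)

/-- Active. -/
def act (g : ℕ → Rec) (j : ℕ) : Bool := (g j).2.1.isSome

def agreeB (f : ℕ → ℕ → Rec) (g : ℕ → Rec) (t n : ℕ) : Bool :=
  ballB n fun j => (f t j).1 == (g j).1

def leftB (f : ℕ → ℕ → Rec) (g : ℕ → Rec) (u n : ℕ) : Bool :=
  bexB n fun j => agreeB f g u j && ((f u j).1 && !((g j).1))

/-- Equality of two optional pointers. -/
def eqP (f : ℕ → ℕ → Rec) (g : ℕ → Rec) (t j : ℕ) : Bool :=
  (act (f t) j == act g j) && (!(act g j) || eqV (pv (f t) j) (pv g j))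

def retB (f : ℕ → ℕ → Rec) (g : ℕ → Rec) (s i t : ℕ) : Bool :=
  agreeB f g t i && ((f t i).1 && ((ballB i fun j => eqP f g t j) && (act (f t) i &&
    ballB s fun u => !(decide (t < u)) || !(leftB f g u i))))

def bitB (D : Data) (f : ℕ → ℕ → Rec) (g : ℕ → Rec) (s i : ℕ) : Bool :=
  decide (i < s) && ballB s fun t =>
    !(agreeB f g t i && (f t i).1) || decide (D.c i t < D.c i s)

def nbB (D : Data) (g : ℕ → Rec) (s i j₁ j₂ : ℕ) : Bool :=
  (act g j₁ && (act g j₂ && ltV (pv g j₁) (pv g j₂))) &&
  ((ballB i fun j => !(act g j) ||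
    ((leV (pv g j) (pv g j₁) && (D.lt j i s && !(D.lt i j s))) ||
     (leV (pv g j₂) (pv g j) && (D.lt i j s && !(D.lt j i s))))) &&
  (!(D.hr j₁ && D.hl i) && !(D.hr i && D.hl j₂)))

def dn (p : ℕ × ℕ) (m : ℕ) : ℕ × ℕ := (p.1 * 2 ^ (m - p.2) - 1, m)

def up (p : ℕ × ℕ) (m : ℕ) : ℕ × ℕ := (p.1 * 2 ^ (m - p.2) + 1, m)

def spotB (D : Data) (g : ℕ → Rec) (s j₁ j₂ : ℕ) : ℕ × ℕ :=
  bif D.hr j₁ || (!(D.hl j₂) && decide (j₂ < j₁)) then dn (pv g j₂) (3 * s + 1)
  else up (pv g j₁) (3 * s + 1)

/-- First neighbour. -/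
def J1 (D : Data) (g : ℕ → Rec) (s i : ℕ) : ℕ := findB i fun j₁ => bexB i (nbB D g s i j₁)

/-- Second neighbour. -/
def J2 (D : Data) (g : ℕ → Rec) (s i : ℕ) : ℕ := findB i (nbB D g s i (J1 D g s i))

/-- The record of node `i` of stage `s`, from the earlier stages `f` and the earlier nodes `g`. -/
def nodeF (D : Data) (k s i : ℕ) (f : ℕ → ℕ → Rec) (g : ℕ → Rec) : Rec :=
  bif decide (i < k) then (true, some (i + 1, 0), false) else
  bif bitB D f g s i then
    (bif bexB s (retB f g s i) then (true, (f (findB s (retB f g s i)) i).2.1, false) else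
     bif bexB i (fun j => (g j).2.2) then (true, none, false) else
     bif bexB i (fun j₁ => bexB i (nbB D g s i j₁)) then
      (true, some (spotB D g s (J1 D g s i) (J2 D g s i)), true)
     else (true, none, false))
  else (false, none, false)

/-! ### Congruence -/

section congr

variable {D : Data} {k s i : ℕ} {f f' : ℕ → ℕ → Rec} {g g' : ℕ → Rec}

theorem agreeB_congr {t n : ℕ} (hf : f t = f' t) (hg : ∀ j, j < n → g j = g' j) :
    agreeB f g t n = agreeB f' g' t n := by
  unfold agreeB
  exact ballB_congr fun j hj => by rw [hf, hg j hj]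

theorem leftB_congr {t n : ℕ} (hf : f t = f' t) (hg : ∀ j, j < n → g j = g' j) :
    leftB f g t n = leftB f' g' t n := by
  unfold leftB
  exact bexB_congr fun j hj => by
    rw [agreeB_congr hf (fun l hl => hg l (by omega)), hf, hg j hj]

theorem retB_congr {t : ℕ} (ht : t < s) (hf : ∀ t, t < s → f t = f' t)
    (hg : ∀ j, j < i → g j = g' j) : retB f g s i t = retB f' g' s i t := by
  unfold retB
  rw [agreeB_congr (hf t ht) hg, hf t ht]
  have h1 : (ballB i fun j => eqP f g t j) = ballB i fun j => eqP f' g' t j := by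
    refine ballB_congr fun j hj => ?_
    unfold eqP act pv
    rw [hf t ht, hg j hj]
  have h2 : (ballB s fun u => !(decide (t < u)) || !(leftB f g u i)) =
      ballB s fun u => !(decide (t < u)) || !(leftB f' g' u i) := by
    refine ballB_congr fun u hu => ?_
    rw [leftB_congr (hf u hu) hg]
  rw [h1, h2]

theorem bitB_congr (hf : ∀ t, t < s → f t = f' t)
    (hg : ∀ j, j < i → g j = g' j) : bitB D f g s i = bitB D f' g' s i := by
  unfold bitB
  congr 1
  refine ballB_congr fun t ht => ?_
  rw [agreeB_congr (hf t ht) hg, hf t ht]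

theorem nbB_congr {j₁ j₂ : ℕ} (h₁ : j₁ < i) (h₂ : j₂ < i)
    (hg : ∀ j, j < i → g j = g' j) : nbB D g s i j₁ j₂ = nbB D g' s i j₁ j₂ := by
  unfold nbB act pv
  rw [hg j₁ h₁, hg j₂ h₂]
  congr 2
  refine ballB_congr fun j hj => ?_
  rw [hg j hj]

theorem bexnb_congr (hg : ∀ j, j < i → g j = g' j) {j₁ : ℕ} (h₁ : j₁ < i) :
    bexB i (nbB D g s i j₁) = bexB i (nbB D g' s i j₁) :=
  bexB_congr fun _ h₂ => nbB_congr h₁ h₂ hg

theorem J1_congr (hg : ∀ j, j < i → g j = g' j) : J1 D g s i = J1 D g' s i :=
  findB_congr fun _ h₁ => bexnb_congr hg h₁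

theorem nodeF_congr (hf : ∀ t, t < s → f t = f' t) (hg : ∀ j, j < i → g j = g' j) :
    nodeF D k s i f g = nodeF D k s i f' g' := by
  unfold nodeF
  by_cases hik : i < k
  · simp [hik]
  rw [bitB_congr hf hg]
  have h1 : bexB s (retB f g s i) = bexB s (retB f' g' s i) :=
    bexB_congr fun t ht => retB_congr ht hf hg
  have h2 : findB s (retB f g s i) = findB s (retB f' g' s i) :=
    findB_congr fun t ht => retB_congr ht hf hg
  have h3 : bexB i (fun j => (g j).2.2) = bexB i (fun j => (g' j).2.2) :=
    bexB_congr fun j hj => by rw [hg j hj]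
  have h4 : bexB i (fun j₁ => bexB i (nbB D g s i j₁)) =
      bexB i (fun j₁ => bexB i (nbB D g' s i j₁)) :=
    bexB_congr fun j₁ h₁ => bexnb_congr hg h₁
  rw [h1, h2, h3, h4]
  have h5 : bexB s (retB f' g' s i) = true →
      f (findB s (retB f' g' s i)) = f' (findB s (retB f' g' s i)) := by
    intro h
    exact hf _ (findB_spec (bexB_iff.1 h)).1
  have h6 : bexB i (fun j₁ => bexB i (nbB D g' s i j₁)) = true →
      spotB D g s (J1 D g s i) (J2 D g s i) = spotB D g' s (J1 D g' s i) (J2 D g' s i) := by
    intro h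
    have h7 := findB_spec (bexB_iff.1 h)
    have hJ1 : J1 D g' s i < i := h7.1
    have h8 := findB_spec (bexB_iff.1 h7.2)
    have hJ2 : J2 D g' s i < i := h8.1
    have h9 : J2 D g s i = J2 D g' s i := by
      unfold J2
      rw [J1_congr hg]
      exact findB_congr fun j₂ h₂ => nbB_congr hJ1 h₂ hg
    rw [h9, J1_congr hg]
    unfold spotB pv
    rw [hg _ hJ1, hg _ hJ2]
  cases hb : bexB s (retB f' g' s i) with
  | true => rw [h5 hb]; rfl
  | false =>
    cases hc : bexB i (fun j₁ => bexB i (nbB D g' s i j₁)) with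
    | true => rw [h6 hc]; rfl
    | false => rfl

end congr

end Pool.Agent.Lib.MP_0f5a21_lc.H.A2
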