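import Pool.Agent.Lib.MP_0f5a21_lc.H.Node60

/-!
Theorem H, module A2, second part: computability of the step, of the history and of the record
function `rec`, and the recursion equation.
-/

set_option autoImplicit false

namespace Pool.Agent.Lib.MP_0f5a21_lc.H.A2

section closure

variable {β : Type} [Primcodable β] {D : Data}
  {H : β → List (List Rec)} {L : β → List Rec} {s i t n u j₁ j₂ j : β → ℕ}

theorem c_rdL {L : β → List Rec} {j : β → ℕ} (hL : Computable L) (hj : Computable j) :
    Computable fun x => rdL (L x) (j x) :=
  Computable.option_getD (Computable.list_getElem?.comp hL hj) (Computable.const _)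

theorem c_rd (hH : Computable H) (ht : Computable t) (hj : Computable j) :
    Computable fun x => rd (H x) (t x) (j x) :=
  c_rdL (Computable.option_getD (Computable.list_getElem?.comp hH ht) (Computable.const _)) hj

theorem c_bit {r : β → Rec} (hr : Computable r) : Computable fun x => (r x).1 :=
  Computable.fst.comp hr

theorem c_ptr {r : β → Rec} (hr : Computable r) : Computable fun x => (r x).2.1 :=
  Computable.fst.comp (Computable.snd.comp hr)

theorem c_new {r : β → Rec} (hr : Computable r) : Computable fun x => (r x).2.2 :=
  Computable.snd.comp (Computable.snd.comp hr)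

theorem c_isSome {o : β → Option (ℕ × ℕ)} (ho : Computable o) :
    Computable fun x => (o x).isSome :=
  Primrec.option_isSome.to_comp.comp ho

theorem c_ltV {p q : β → ℕ × ℕ} (hp : Computable p) (hq : Computable q) :
    Computable fun x => ltV (p x) (q x) :=
  c_lt (c_mul (Computable.fst.comp hp) (c_pow2 (Computable.snd.comp hq)))
    (c_mul (Computable.fst.comp hq) (c_pow2 (Computable.snd.comp hp)))

theorem c_leV {p q : β → ℕ × ℕ} (hp : Computable p) (hq : Computable q) :
    Computable fun x => leV (p x) (q x) :=
  c_le (c_mul (Computable.fst.comp hp) (c_pow2 (Computable.snd.comp hq)))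
    (c_mul (Computable.fst.comp hq) (c_pow2 (Computable.snd.comp hp)))

theorem c_eqV {p q : β → ℕ × ℕ} (hp : Computable p) (hq : Computable q) :
    Computable fun x => eqV (p x) (q x) :=
  c_eqn (c_mul (Computable.fst.comp hp) (c_pow2 (Computable.snd.comp hq)))
    (c_mul (Computable.fst.comp hq) (c_pow2 (Computable.snd.comp hp)))

theorem c_actL (hL : Computable L) (hj : Computable j) :
    Computable fun x => act (rdL (L x)) (j x) :=
  c_isSome (c_ptr (c_rdL hL hj))

theorem c_actH (hH : Computable H) (ht : Computable t) (hj : Computable j) :
    Computable fun x => act (rd (H x) (t x)) (j x) :=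
  c_isSome (c_ptr (c_rd hH ht hj))

theorem c_pvL (hL : Computable L) (hj : Computable j) :
    Computable fun x => pv (rdL (L x)) (j x) :=
  Computable.option_getD (c_ptr (c_rdL hL hj)) (Computable.const _)

theorem c_pvH (hH : Computable H) (ht : Computable t) (hj : Computable j) :
    Computable fun x => pv (rd (H x) (t x)) (j x) :=
  Computable.option_getD (c_ptr (c_rd hH ht hj)) (Computable.const _)

theorem c_agree (hH : Computable H) (hL : Computable L) (ht : Computable t)
    (hn : Computable n) : Computable fun x => agreeB (rd (H x)) (rdL (L x)) (t x) (n x) :=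
  c_ball hn (c_beq
    (c_bit (c_rd (hH.comp Computable.fst) (ht.comp Computable.fst) Computable.snd))
    (c_bit (c_rdL (hL.comp Computable.fst) Computable.snd)))

theorem c_left (hH : Computable H) (hL : Computable L) (hu : Computable u)
    (hn : Computable n) : Computable fun x => leftB (rd (H x)) (rdL (L x)) (u x) (n x) :=
  c_bex hn (c_and
    (c_agree (hH.comp Computable.fst) (hL.comp Computable.fst) (hu.comp Computable.fst)
      Computable.snd)
    (c_and (c_bit (c_rd (hH.comp Computable.fst) (hu.comp Computable.fst) Computable.snd))
      (c_not (c_bit (c_rdL (hL.comp Computable.fst) Computable.snd)))))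

theorem c_eqP (hH : Computable H) (hL : Computable L) (ht : Computable t)
    (hj : Computable j) : Computable fun x => eqP (rd (H x)) (rdL (L x)) (t x) (j x) :=
  c_and (c_beq (c_actH hH ht hj) (c_actL hL hj))
    (c_or (c_not (c_actL hL hj)) (c_eqV (c_pvH hH ht hj) (c_pvL hL hj)))

theorem c_ret (hH : Computable H) (hL : Computable L) (hs : Computable s)
    (hi : Computable i) (ht : Computable t) :
    Computable fun x => retB (rd (H x)) (rdL (L x)) (s x) (i x) (t x) := by
  have h1 := c_agree hH hL ht hi
  have h2 := c_bit (c_rd hH ht hi)
  have h3 : Computable fun x => ballB (i x) fun j => eqP (rd (H x)) (rdL (L x)) (t x) j :=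
    c_ball hi (c_eqP (hH.comp Computable.fst) (hL.comp Computable.fst)
      (ht.comp Computable.fst) Computable.snd)
  have h4 := c_actH hH ht hi
  have h5 : Computable fun x => ballB (s x) fun u =>
      !(decide (t x < u)) || !(leftB (rd (H x)) (rdL (L x)) u (i x)) :=
    c_ball hs (c_or (c_not (c_lt (ht.comp Computable.fst) Computable.snd))
      (c_not (c_left (hH.comp Computable.fst) (hL.comp Computable.fst) Computable.snd
        (hi.comp Computable.fst))))
  exact c_and h1 (c_and h2 (c_and h3 (c_and h4 h5)))

theorem c_cnt (hc : D.Comp) (hi : Computable i) (ht : Computable t) :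
    Computable fun x => D.c (i x) (t x) :=
  hc.c.comp (hi.pair ht)

theorem c_cmp (hc : D.Comp) (hi : Computable i) (hj : Computable j) (ht : Computable t) :
    Computable fun x => D.lt (i x) (j x) (t x) :=
  hc.lt.comp ((hi.pair hj).pair ht)

theorem c_bitB (hc : D.Comp) (hH : Computable H) (hL : Computable L) (hs : Computable s)
    (hi : Computable i) :
    Computable fun x => bitB D (rd (H x)) (rdL (L x)) (s x) (i x) := by
  have h1 := c_lt hi hs
  have h2 : Computable fun x => ballB (s x) fun t =>
      !(agreeB (rd (H x)) (rdL (L x)) t (i x) && (rd (H x) t (i x)).1) ||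
        decide (D.c (i x) t < D.c (i x) (s x)) :=
    c_ball hs (c_or (c_not (c_and
      (c_agree (hH.comp Computable.fst) (hL.comp Computable.fst) Computable.snd
        (hi.comp Computable.fst))
      (c_bit (c_rd (hH.comp Computable.fst) Computable.snd (hi.comp Computable.fst)))))
      (c_lt (c_cnt hc (hi.comp Computable.fst) Computable.snd)
        (c_cnt hc (hi.comp Computable.fst) (hs.comp Computable.fst))))
  exact c_and h1 h2

theorem c_nb (hc : D.Comp) (hL : Computable L) (hs : Computable s)
    (hi : Computable i) (h₁ : Computable j₁) (h₂ : Computable j₂) :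
    Computable fun x => nbB D (rdL (L x)) (s x) (i x) (j₁ x) (j₂ x) := by
  have a1 := c_and (c_actL hL h₁) (c_and (c_actL hL h₂) (c_ltV (c_pvL hL h₁) (c_pvL hL h₂)))
  have hL' : Computable fun q : β × ℕ => L q.1 := hL.comp Computable.fst
  have hs' : Computable fun q : β × ℕ => s q.1 := hs.comp Computable.fst
  have hi' : Computable fun q : β × ℕ => i q.1 := hi.comp Computable.fst
  have h₁' : Computable fun q : β × ℕ => j₁ q.1 := h₁.comp Computable.fst
  have h₂' : Computable fun q : β × ℕ => j₂ q.1 := h₂.comp Computable.fst
  have hj : Computable fun q : β × ℕ => q.2 := Computable.snd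
  have a2 : Computable fun x => ballB (i x) fun j => !(act (rdL (L x)) j) ||
      ((leV (pv (rdL (L x)) j) (pv (rdL (L x)) (j₁ x)) &&
          (D.lt j (i x) (s x) && !(D.lt (i x) j (s x)))) ||
       (leV (pv (rdL (L x)) (j₂ x)) (pv (rdL (L x)) j) &&
          (D.lt (i x) j (s x) && !(D.lt j (i x) (s x))))) :=
    c_ball hi (c_or (c_not (c_actL hL' hj)) (c_or
      (c_and (c_leV (c_pvL hL' hj) (c_pvL hL' h₁'))
        (c_and (c_cmp hc hj hi' hs') (c_not (c_cmp hc hi' hj hs'))))
      (c_and (c_leV (c_pvL hL' h₂') (c_pvL hL' hj))
        (c_and (c_cmp hc hi' hj hs') (c_not (c_cmp hc hj hi' hs'))))))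
  have a3 := c_not (c_and (hc.hr.comp h₁) (hc.hl.comp hi))
  have a4 := c_not (c_and (hc.hr.comp hi) (hc.hl.comp h₂))
  exact c_and a1 (c_and a2 (c_and a3 a4))

theorem c_bexnb (hc : D.Comp) (hL : Computable L) (hs : Computable s)
    (hi : Computable i) (h₁ : Computable j₁) :
    Computable fun x => bexB (i x) (nbB D (rdL (L x)) (s x) (i x) (j₁ x)) :=
  c_bex hi (c_nb hc (hL.comp Computable.fst) (hs.comp Computable.fst)
    (hi.comp Computable.fst) (h₁.comp Computable.fst) Computable.snd)

theorem c_J1 (hc : D.Comp) (hL : Computable L) (hs : Computable s)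
    (hi : Computable i) : Computable fun x => J1 D (rdL (L x)) (s x) (i x) :=
  c_find hi (c_bexnb hc (hL.comp Computable.fst) (hs.comp Computable.fst)
    (hi.comp Computable.fst) Computable.snd)

theorem c_J2 (hc : D.Comp) (hL : Computable L) (hs : Computable s)
    (hi : Computable i) : Computable fun x => J2 D (rdL (L x)) (s x) (i x) :=
  c_find hi (c_nb hc (hL.comp Computable.fst) (hs.comp Computable.fst)
    (hi.comp Computable.fst) ((c_J1 hc hL hs hi).comp Computable.fst) Computable.snd)

theorem c_dn {p : β → ℕ × ℕ} (hp : Computable p) {m : β → ℕ} (hm : Computable m) :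
    Computable fun x => dn (p x) (m x) :=
  (c_sub (c_mul (Computable.fst.comp hp) (c_pow2 (c_sub hm (Computable.snd.comp hp))))
    (Computable.const 1)).pair hm

theorem c_up {p : β → ℕ × ℕ} (hp : Computable p) {m : β → ℕ} (hm : Computable m) :
    Computable fun x => up (p x) (m x) :=
  (c_add (c_mul (Computable.fst.comp hp) (c_pow2 (c_sub hm (Computable.snd.comp hp))))
    (Computable.const 1)).pair hm

theorem c_spot (hc : D.Comp) (hL : Computable L) (hs : Computable s)
    (h₁ : Computable j₁) (h₂ : Computable j₂) :
    Computable fun x => spotB D (rdL (L x)) (s x) (j₁ x) (j₂ x) := by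
  have hm : Computable fun x => 3 * s x + 1 :=
    c_add (c_mul (Computable.const 3) hs) (Computable.const 1)
  exact Computable.cond (c_or (hc.hr.comp h₁) (c_and (c_not (hc.hl.comp h₂)) (c_lt h₂ h₁)))
    (c_dn (c_pvL hL h₂) hm) (c_up (c_pvL hL h₁) hm)

theorem c_node (hc : D.Comp) (k : ℕ) (hH : Computable H) (hL : Computable L) (hs : Computable s)
    (hi : Computable i) :
    Computable fun x => nodeF D k (s x) (i x) (rd (H x)) (rdL (L x)) := by
  have hF : Computable fun x => findB (s x) (retB (rd (H x)) (rdL (L x)) (s x) (i x)) :=
    c_find hs (c_ret (hH.comp Computable.fst) (hL.comp Computable.fst) (hs.comp Computable.fst)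
      (hi.comp Computable.fst) Computable.snd)
  have hR : Computable fun x => bexB (s x) (retB (rd (H x)) (rdL (L x)) (s x) (i x)) :=
    c_bex hs (c_ret (hH.comp Computable.fst) (hL.comp Computable.fst) (hs.comp Computable.fst)
      (hi.comp Computable.fst) Computable.snd)
  have hN : Computable fun x => bexB (i x) (fun j => (rdL (L x) j).2.2) :=
    c_bex hi (c_new (c_rdL (hL.comp Computable.fst) Computable.snd))
  have hB : Computable fun x => bexB (i x) fun j₁ =>
      bexB (i x) (nbB D (rdL (L x)) (s x) (i x) j₁) :=
    c_bex hi (c_bexnb hc (hL.comp Computable.fst) (hs.comp Computable.fst)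
      (hi.comp Computable.fst) Computable.snd)
  have hP := c_spot hc hL hs (c_J1 hc hL hs hi) (c_J2 hc hL hs hi)
  have r0 : Computable fun x => ((true, some (i x + 1, 0), false) : Rec) :=
    (Computable.const true).pair ((Computable.option_some.comp
      ((c_add hi (Computable.const 1)).pair (Computable.const 0))).pair (Computable.const false))
  have r1 : Computable fun x => ((true, (rd (H x)
      (findB (s x) (retB (rd (H x)) (rdL (L x)) (s x) (i x))) (i x)).2.1, false) : Rec) :=
    (Computable.const true).pair ((c_ptr (c_rd hH hF hi)).pair (Computable.const false))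
  have r2 : Computable fun x => ((true, some (spotB D (rdL (L x)) (s x)
      (J1 D (rdL (L x)) (s x) (i x)) (J2 D (rdL (L x)) (s x) (i x))), true) : Rec) :=
    (Computable.const true).pair ((Computable.option_some.comp hP).pair (Computable.const true))
  exact Computable.cond (c_lt hi (Computable.const k)) r0
    (Computable.cond (c_bitB hc hH hL hs hi)
      (Computable.cond hR r1 (Computable.cond hN (Computable.const _)
        (Computable.cond hB r2 (Computable.const _))))
      (Computable.const _))

end closure

/-! ### The history -/

/-- The first `n` records of the stage after the history `H`. -/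
def row (D : Data) (k : ℕ) (H : List (List Rec)) (n : ℕ) : List Rec :=
  Nat.rec [] (fun _ L => L ++ [nodeF D k H.length L.length (rd H) (rdL L)]) n

/-- The history before stage `n`. -/
def hist (D : Data) (k : ℕ) (n : ℕ) : List (List Rec) :=
  Nat.rec [] (fun _ H => H ++ [row D k H (k + H.length + 1)]) n

/-- The record of node `i` of stage `s`. -/
def rec (D : Data) (k s i : ℕ) : Rec :=
  nodeF D k s i (rd (hist D k s)) (rdL (row D k (hist D k s) i))

theorem c_row {D : Data} (hc : D.Comp) (k : ℕ) {β : Type} [Primcodable β]
    {H : β → List (List Rec)} {n : β → ℕ} (hH : Computable H) (hn : Computable n) :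
    Computable fun x => row D k (H x) (n x) := by
  have h := Computable.nat_rec (f := n) (g := fun _ : β => ([] : List Rec))
    (h := fun (x : β) (q : ℕ × List Rec) =>
      q.2 ++ [nodeF D k (H x).length q.2.length (rd (H x)) (rdL q.2)]) hn (Computable.const [])
    (Computable.to₂ (f := fun w : β × (ℕ × List Rec) =>
        w.2.2 ++ [nodeF D k (H w.1).length w.2.2.length (rd (H w.1)) (rdL w.2.2)])
      (Computable.list_concat.comp (Computable.snd.comp Computable.snd)
        (c_node hc k (hH.comp Computable.fst) (Computable.snd.comp Computable.snd)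
          (Computable.list_length.comp (hH.comp Computable.fst))
          (Computable.list_length.comp (Computable.snd.comp Computable.snd)))))
  exact h

theorem c_hist {D : Data} (hc : D.Comp) (k : ℕ) {β : Type} [Primcodable β]
    {n : β → ℕ} (hn : Computable n) : Computable fun x => hist D k (n x) := by
  have h := Computable.nat_rec (f := n) (g := fun _ : β => ([] : List (List Rec)))
    (h := fun (_ : β) (q : ℕ × List (List Rec)) => q.2 ++ [row D k q.2 (k + q.2.length + 1)]) hn
    (Computable.const [])
    (Computable.to₂ (f := fun w : β × (ℕ × List (List Rec)) =>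
        w.2.2 ++ [row D k w.2.2 (k + w.2.2.length + 1)])
      (Computable.list_concat.comp (Computable.snd.comp Computable.snd)
        (c_row hc k (Computable.snd.comp Computable.snd)
          (c_add (c_add (Computable.const k)
            (Computable.list_length.comp (Computable.snd.comp Computable.snd)))
            (Computable.const 1)))))
  exact h

theorem c_rec {D : Data} (hc : D.Comp) (k : ℕ) :
    Computable fun p : ℕ × ℕ => rec D k p.1 p.2 :=
  c_node hc k (c_hist hc k Computable.fst)
    (c_row hc k (c_hist hc k Computable.fst) Computable.snd) Computable.fst Computable.snd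

theorem row_length (D : Data) (k : ℕ) (H : List (List Rec)) (n : ℕ) :
    (row D k H n).length = n := by
  induction n with
  | zero => rfl
  | succ n ih =>
    show (row D k H n ++ [_]).length = n + 1
    rw [List.length_append, ih]; rfl

theorem hist_length (D : Data) (k : ℕ) (n : ℕ) : (hist D k n).length = n := by
  induction n with
  | zero => rfl
  | succ n ih =>
    show (hist D k n ++ [_]).length = n + 1
    rw [List.length_append, ih]; rfl

theorem row_get (D : Data) (k : ℕ) (H : List (List Rec)) {n j : ℕ} (h : j < n) :
    (row D k H n)[j]? = some (nodeF D k H.length j (rd H) (rdL (row D k H j))) := by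
  induction n with
  | zero => omega
  | succ n ih =>
    have h1 : row D k H (n + 1) = row D k H n ++
        [nodeF D k H.length (row D k H n).length (rd H) (rdL (row D k H n))] := rfl
    rw [h1]
    rcases Nat.lt_succ_iff_lt_or_eq.1 h with h2 | rfl
    · rw [List.getElem?_append_left (by rw [row_length]; exact h2)]
      exact ih h2
    · rw [List.getElem?_append_right (by rw [row_length])]
      simp [row_length]

theorem hist_get (D : Data) (k : ℕ) {n t : ℕ} (h : t < n) :
    (hist D k n)[t]? = some (row D k (hist D k t) (k + t + 1)) := by
  induction n with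
  | zero => omega
  | succ n ih =>
    have h1 : hist D k (n + 1) = hist D k n ++
        [row D k (hist D k n) (k + (hist D k n).length + 1)] := rfl
    rw [h1]
    rcases Nat.lt_succ_iff_lt_or_eq.1 h with h2 | rfl
    · rw [List.getElem?_append_left (by rw [hist_length]; exact h2)]
      exact ih h2
    · rw [List.getElem?_append_right (by rw [hist_length])]
      simp [hist_length]

theorem rdL_row (D : Data) (k s : ℕ) {n j : ℕ} (h : j < n) :
    rdL (row D k (hist D k s) n) j = rec D k s j := by
  unfold rdL
  rw [row_get D k _ h, hist_length]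
  rfl

theorem rec_out (D : Data) (k s i : ℕ) (hk : k ≤ i) (hs : s ≤ i) :
    rec D k s i = (false, none, false) := by
  unfold rec nodeF bitB
  have h1 : decide (i < k) = false := by simp [hk]
  have h2 : decide (i < s) = false := by simp [hs]
  rw [h1, h2]
  rfl

theorem rd_hist (D : Data) (k : ℕ) {s t : ℕ} (h : t < s) (j : ℕ) :
    rd (hist D k s) t j = rec D k t j := by
  unfold rd
  rw [hist_get D k h]
  by_cases hj : j < k + t + 1
  · exact rdL_row D k t hj
  · rw [rec_out D k t j (by omega) (by omega)]
    unfold rdL
    rw [Option.getD_some, List.getElem?_eq_none (by rw [row_length]; omega)]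
    rfl

/-- The recursion equation. -/
theorem rec_eq (D : Data) (k s i : ℕ) :
    rec D k s i = nodeF D k s i (rec D k) (rec D k s) := by
  conv_lhs => unfold rec
  refine nodeF_congr ?_ ?_
  · intro t ht
    funext j
    exact rd_hist D k ht j
  · intro j hj
    exact rdL_row D k s hj

end Pool.Agent.Lib.MP_0f5a21_lc.H.A2
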