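import Pool.Agent.Lib.MP_0f5a21_lc.H.Defs

/-!
Theorem H, definitions of the order theory of the starts (C4) on a complete linear order.
-/

set_option autoImplicit false

namespace Pool.Agent.Lib.MP_0f5a21_lc.H

variable {X : Type} [LinearOrder X]

/-- `x` has a chain of `n` successors. -/
def UpChain (x : X) (n : ℕ) : Prop := ∃ y : ℕ → X, y 0 = x ∧ ∀ i, i < n → y i ⋖ y (i + 1)

/-- `x` has a chain of `n` predecessors. -/
def DownChain (x : X) (n : ℕ) : Prop := ∃ y : ℕ → X, y 0 = x ∧ ∀ i, i < n → y (i + 1) ⋖ y i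

/-- `x` is not the least point and has no predecessor. -/
def LLim (x : X) : Prop := (∃ y, y < x) ∧ ¬ ∃ y, y ⋖ x

/-- `x` is not the greatest point and has no successor. -/
def RLim (x : X) : Prop := (∃ y, x < y) ∧ ¬ ∃ y, x ⋖ y

/-- `x` is isolated. -/
def Isol (x : X) : Prop := ¬ LLim x ∧ ¬ RLim x

/-- The left ends of the pieces. -/
def Start (x : X) : Prop :=
  (∀ y, x ≤ y) ∨ LLim x ∨ ((RLim x ∨ ∀ y, y ≤ x) ∧ ∀ n, DownChain x n)

/-- The points of the piece of the start `x`. -/
def InPiece (x y : X) : Prop :=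
  x = y ∨ ((¬ ∀ n, UpChain x n) ∧ x ≤ y ∧ (Set.Icc x y).Finite)

variable (X) in
/-- The order of the markers. -/
abbrev Starts : Type := {x : X // Start x}

/-- The label of a start. -/
noncomputable def labS (m : Starts X) : ℕ := {y : X | Isol y ∧ InPiece m.1 y}.ncard

open Classical in
/-- Hard left side. -/
noncomputable def hlS (m : Starts X) : Bool := decide (∀ n, DownChain m.1 n)

open Classical in
/-- Hard right side. -/
noncomputable def hrS (m : Starts X) : Bool := decide (∀ n, UpChain m.1 n)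

end Pool.Agent.Lib.MP_0f5a21_lc.H
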