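import Pool.Agent.Lib.MP_0f5a21_lc.Basic
import Pool.Agent.Lib.MP_0f5a21_lc.H.Order

/-!
Theorem H, part C1: the complete linear order of the paths of a tree without dead ends.
-/

set_option autoImplicit false

namespace Pool.Agent.Lib.MP_0f5a21_lc.H

/-- The paths of the tree, in the lexicographic order. -/
abbrev Pth (t : List Bool → Bool) : Type := {f : Lex (ℕ → Bool) // IsPath t (ofLex f)}

/-! ### Directions -/

theorem eq_not {a b : Bool} (h : a ≠ b) : a = !b := by
  cases a <;> cases b
  · exact absurd rfl h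
  · rfl
  · rfl
  · exact absurd rfl h

/-- `g` lies in direction `b` from `f`. -/
def tw (b : Bool) (f g : ℕ → Bool) : Prop := ∃ k, (∀ i < k, f i = g i) ∧ f k = !b ∧ g k = b

theorem exists_diff {f g : ℕ → Bool} (h : f ≠ g) : ∃ k, (∀ i < k, f i = g i) ∧ f k ≠ g k := by
  have h1 : ∃ k, f k ≠ g k := by
    by_contra hc
    push Not at hc
    exact h (funext hc)
  classical
  refine ⟨Nat.find h1, fun i hi => ?_, Nat.find_spec h1⟩
  have := Nat.find_min h1 hi
  push Not at this
  exact this

theorem tw_or {f g : ℕ → Bool} (b : Bool) (h : f ≠ g) : tw b f g ∨ tw b g f := by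
  obtain ⟨k, hk, hd⟩ := exists_diff h
  cases hf : f k <;> cases hg : g k <;> cases b
  · exact absurd (hf.trans hg.symm) hd
  · exact absurd (hf.trans hg.symm) hd
  · exact Or.inr ⟨k, fun i hi => (hk i hi).symm, hg, hf⟩
  · exact Or.inl ⟨k, hk, hf, hg⟩
  · exact Or.inl ⟨k, hk, hf, hg⟩
  · exact Or.inr ⟨k, fun i hi => (hk i hi).symm, hg, hf⟩
  · exact absurd (hf.trans hg.symm) hd
  · exact absurd (hf.trans hg.symm) hd

theorem tw_ne {b : Bool} {f g : ℕ → Bool} (h : tw b f g) : f ≠ g := by
  rintro rfl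
  obtain ⟨k, _, h1, h2⟩ := h
  rw [h1] at h2
  cases b <;> cases h2

theorem tw_swap {b : Bool} {f g : ℕ → Bool} : tw (!b) f g ↔ tw b g f := by
  constructor
  · rintro ⟨k, h, h1, h2⟩
    rw [Bool.not_not] at h1
    exact ⟨k, fun i hi => (h i hi).symm, h2, h1⟩
  · rintro ⟨k, h, h1, h2⟩
    refine ⟨k, fun i hi => (h i hi).symm, ?_, h1⟩
    rw [Bool.not_not]
    exact h2

theorem tw_trans {b : Bool} {f g h : ℕ → Bool} (h1 : tw b f g) (h2 : tw b g h) : tw b f h := by
  obtain ⟨k, a1, a2, a3⟩ := h1
  obtain ⟨l, c1, c2, c3⟩ := h2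
  rcases Nat.lt_trichotomy k l with hkl | hkl | hkl
  · exact ⟨k, fun i hi => (a1 i hi).trans (c1 i (by omega)), a2, (c1 k hkl).symm.trans a3⟩
  · subst hkl
    rw [a3] at c2
    cases b <;> cases c2
  · exact ⟨l, fun i hi => (a1 i (by omega)).trans (c1 i hi), (a1 l hkl).trans c2, c3⟩

theorem tw_asymm {b : Bool} {f g : ℕ → Bool} (h1 : tw b f g) (h2 : tw b g f) : False :=
  tw_ne (tw_trans h1 h2) rfl

variable {t : List Bool → Bool}

/-- The digits. -/
def dg (f : Pth t) : ℕ → Bool := ofLex f.1

theorem dg_path (f : Pth t) : IsPath t (dg f) := f.2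

theorem dg_inj {f g : Pth t} (h : dg f = dg g) : f = g := Subtype.ext h

theorem dg_ne {f g : Pth t} (h : f ≠ g) : dg f ≠ dg g := fun hc => h (dg_inj hc)

/-- The element of a path. -/
def mkP (f : ℕ → Bool) (h : IsPath t f) : Pth t := ⟨toLex f, h⟩

theorem dg_mkP {f : ℕ → Bool} (h : IsPath t f) : dg (mkP f h) = f := rfl

theorem lt_iff_tw {f g : Pth t} : f < g ↔ tw true (dg f) (dg g) := by
  show (∃ i, (∀ j, j < i → f.1 j = g.1 j) ∧ f.1 i < g.1 i) ↔ _
  constructor
  · rintro ⟨k, h1, h2⟩
    rw [Bool.lt_iff] at h2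
    exact ⟨k, h1, h2.1, h2.2⟩
  · rintro ⟨k, h1, h2, h3⟩
    exact ⟨k, h1, Bool.lt_iff.2 ⟨h2, h3⟩⟩

theorem gt_iff_tw {f g : Pth t} : g < f ↔ tw false (dg f) (dg g) := by
  rw [lt_iff_tw]
  exact (tw_swap (b := true)).symm

theorem lt_iff {f g : Pth t} : f < g ↔
    ∃ k, (∀ i < k, dg f i = dg g i) ∧ dg f k = false ∧ dg g k = true := lt_iff_tw

/-! ### Extreme paths -/

theorem both_of {f g : ℕ → Bool} (hf : IsPath t f) (hg : IsPath t g) {k : ℕ}
    (h : ∀ i < k, f i = g i) (hd : f k ≠ g k) : both t (pre f k) = true := by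
  have h1 := hf (k + 1)
  have h2 := hg (k + 1)
  rw [pre_succ] at h1 h2
  rw [← pre_eq_of h] at h2
  unfold both
  cases hfk : f k <;> cases hgk : g k <;> rw [hfk] at h1 hd <;> rw [hgk] at h2 hd
  · exact absurd rfl hd
  · rw [h1, h2]; rfl
  · rw [h1, h2]; rfl
  · exact absurd rfl hd

theorem len_append (v : List Bool) (b : Bool) : (v ++ [b]).length = v.length + 1 := by simp

theorem pre_append {f : ℕ → Bool} {v : List Bool} {b : Bool} :
    pre f (v.length + 1) = v ++ [b] ↔ pre f v.length = v ∧ f v.length = b := by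
  rw [pre_succ]
  constructor
  · intro h
    have h1 := congrArg List.dropLast h
    have h2 := congrArg List.getLast? h
    simp only [List.dropLast_concat] at h1
    simp only [List.getLast?_append, List.getLast?_singleton, Option.some_or,
      Option.some.injEq] at h2
    exact ⟨h1, h2⟩
  · rintro ⟨h1, h2⟩
    rw [h1, h2]

theorem extreme {b : Bool} {v : List Bool} (ht : IsTree t) (hv : t v = true) {g : ℕ → Bool}
    (hg : IsPath t g) (h : pre g v.length = v) : g = pathC t b v ∨ tw b g (pathC t b v) := by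
  by_cases hne : g = pathC t b v
  · exact Or.inl hne
  · right
    obtain ⟨k, hk, hd⟩ := exists_diff hne
    have hp := pathC_isPath ht (b := b) hv
    have hb := both_of hp hg (fun i hi => (hk i hi).symm) (fun hc => hd hc.symm)
    have hvk : v.length ≤ k := by
      by_contra hc
      push Not at hc
      apply hd
      have h1 := pathC_pre0 (t := t) b v
      exact agree_of_pre (h.trans h1.symm) k hc
    have h2 := pathC_step (t := t) b v hvk
    unfold dir at h2
    rw [if_pos hb] at h2
    refine ⟨k, hk, ?_, h2⟩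
    rw [h2] at hd
    cases hgk : g k <;> cases b <;> rw [hgk] at hd
    · exact absurd rfl hd
    · rfl
    · rfl
    · exact absurd rfl hd

theorem le_pathC_true {v : List Bool} (ht : IsTree t) (hv : t v = true) {g : Pth t}
    (h : pre (dg g) v.length = v) : g ≤ mkP (pathC t true v) (pathC_isPath ht hv) := by
  rcases extreme (b := true) ht hv (dg_path g) h with h1 | h1
  · exact le_of_eq (dg_inj h1)
  · exact le_of_lt (lt_iff_tw.2 h1)

theorem pathC_false_le {v : List Bool} (ht : IsTree t) (hv : t v = true) {g : Pth t}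
    (h : pre (dg g) v.length = v) : mkP (pathC t false v) (pathC_isPath ht hv) ≤ g := by
  rcases extreme (b := false) ht hv (dg_path g) h with h1 | h1
  · exact le_of_eq (dg_inj h1).symm
  · exact le_of_lt (gt_iff_tw.2 h1)

/-- (ii) the least path -/
theorem least_path (ht : IsTree t) (g : Pth t) :
    mkP (pathC t false []) (pathC_isPath ht ht.nil) ≤ g :=
  pathC_false_le ht ht.nil (by rfl)

/-- (ii) the greatest path -/
theorem greatest_path (ht : IsTree t) (g : Pth t) :
    g ≤ mkP (pathC t true []) (pathC_isPath ht ht.nil) :=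
  le_pathC_true ht ht.nil (by rfl)

theorem isLeast_iff (ht : IsTree t) (f : Pth t) :
    (∀ g, f ≤ g) ↔ dg f = pathC t false [] := by
  constructor
  · intro h
    exact congrArg dg (le_antisymm (h _) (least_path ht f))
  · intro h g
    have : f = mkP (pathC t false []) (pathC_isPath ht ht.nil) := dg_inj h
    rw [this]
    exact least_path ht g

theorem isGreatest_iff (ht : IsTree t) (f : Pth t) :
    (∀ g, g ≤ f) ↔ dg f = pathC t true [] := by
  constructor
  · intro h
    exact congrArg dg (le_antisymm (greatest_path ht f) (h _))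
  · intro h g
    have : f = mkP (pathC t true []) (pathC_isPath ht ht.nil) := dg_inj h
    rw [this]
    exact greatest_path ht g

theorem nonempty_path (ht : IsTree t) : Nonempty (Pth t) :=
  ⟨mkP (pathC t false []) (pathC_isPath ht ht.nil)⟩

/-! ### Completeness -/

open Classical in
/-- The walk to the supremum in direction `b` of the set `S`. -/
noncomputable def supL (S : Set (ℕ → Bool)) (b : Bool) : ℕ → List Bool
  | 0 => []
  | n + 1 => supL S b n ++ [if ∃ f ∈ S, pre f (n + 1) = supL S b n ++ [b] then b else !b]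

theorem supL_length (S : Set (ℕ → Bool)) (b : Bool) (n : ℕ) : (supL S b n).length = n := by
  induction n with
  | zero => rfl
  | succ n ih => unfold supL; rw [len_append, ih]

theorem supL_pos {S : Set (ℕ → Bool)} {b : Bool} {n : ℕ}
    (h : ∃ f ∈ S, pre f (n + 1) = supL S b n ++ [b]) : supL S b (n + 1) = supL S b n ++ [b] := by
  rw [supL, if_pos h]

theorem supL_pre (S : Set (ℕ → Bool)) (b : Bool) (n : ℕ) :
    pre (lim (supL S b)) n = supL S b n := by
  have h := pre_lim (L := supL S b)
    (d := fun n => by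
      classical exact if ∃ f ∈ S, pre f (n + 1) = supL S b n ++ [b] then b else !b)
    (fun m => by rfl) n
  have h0 : (supL S b 0).length = 0 := rfl
  rw [h0, Nat.zero_add] at h
  exact h

theorem supL_mem {S : Set (ℕ → Bool)} (b : Bool) (hS : S.Nonempty) (n : ℕ) :
    ∃ f ∈ S, pre f n = supL S b n := by
  induction n with
  | zero =>
    obtain ⟨f, hf⟩ := hS
    exact ⟨f, hf, by rw [pre_zero]; rfl⟩
  | succ n ih =>
    obtain ⟨f, hf, hp⟩ := ih
    by_cases hc : ∃ f ∈ S, pre f (n + 1) = supL S b n ++ [b]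
    · obtain ⟨g, hg, hgp⟩ := hc
      refine ⟨g, hg, ?_⟩
      unfold supL
      rw [if_pos ⟨g, hg, hgp⟩]
      exact hgp
    · refine ⟨f, hf, ?_⟩
      unfold supL
      rw [if_neg hc, pre_succ, hp]
      have : f n = !b := by
        cases hfn : f n <;> cases b
        · exact absurd ⟨f, hf, by rw [pre_succ, hp, hfn]⟩ hc
        · rfl
        · rfl
        · exact absurd ⟨f, hf, by rw [pre_succ, hp, hfn]⟩ hc
      rw [this]

theorem exists_sup {S : Set (ℕ → Bool)} (b : Bool) (hS : S.Nonempty) (hp : ∀ f ∈ S, IsPath t f) :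
    ∃ x, IsPath t x ∧ (∀ f ∈ S, f = x ∨ tw b f x) ∧
      ∀ y, (∀ f ∈ S, f = y ∨ tw b f y) → x = y ∨ tw b x y := by
  refine ⟨lim (supL S b), ?_, ?_, ?_⟩
  · intro n
    obtain ⟨f, hf, h⟩ := supL_mem b hS n
    rw [supL_pre, ← h]
    exact hp f hf n
  · intro f hf
    by_cases hne : f = lim (supL S b)
    · exact Or.inl hne
    · right
      rcases tw_or b hne with h | h
      · exact h
      · exfalso
        obtain ⟨k, h1, h2, h3⟩ := h
        have h4 : pre f (k + 1) = supL S b k ++ [b] := by
          rw [pre_succ, h3, ← supL_pre, pre_eq_of (fun i hi => (h1 i hi).symm)]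
        have h5 : supL S b (k + 1) = supL S b k ++ [b] := supL_pos ⟨f, hf, h4⟩
        rw [← supL_pre, pre_succ, supL_pre, h2] at h5
        have h6 := congrArg List.getLast? h5
        simp only [List.getLast?_append, List.getLast?_singleton, Option.some_or,
          Option.some.injEq] at h6
        cases b <;> cases h6
  · intro y hy
    by_cases hne : lim (supL S b) = y
    · exact Or.inl hne
    · right
      rcases tw_or b hne with h | h
      · exact h
      · exfalso
        obtain ⟨k, h1, h2, h3⟩ := h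
        obtain ⟨f, hf, h4⟩ := supL_mem b hS (k + 1)
        rw [← supL_pre] at h4
        have h5 := agree_of_pre h4
        have h6 : tw b y f :=
          ⟨k, fun i hi => (h1 i hi).trans (h5 i (by omega)).symm, h2, (h5 k (by omega)).trans h3⟩
        rcases hy f hf with h7 | h7
        · exact tw_ne h6 h7.symm
        · exact tw_asymm h6 h7

/-- (i) every nonempty set of paths has a supremum -/
theorem exists_lub (S : Set (Pth t)) (hS : S.Nonempty) : ∃ x, IsLUB S x := by
  obtain ⟨f0, hf0⟩ := hS
  obtain ⟨x, hx, h1, h2⟩ := exists_sup (t := t) (S := dg '' S) true ⟨dg f0, f0, hf0, rfl⟩ (by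
    rintro _ ⟨f, _, rfl⟩
    exact dg_path f)
  refine ⟨mkP x hx, ?_, ?_⟩
  · intro f hf
    rcases h1 (dg f) ⟨f, hf, rfl⟩ with h | h
    · exact le_of_eq (dg_inj h)
    · exact le_of_lt (lt_iff_tw.2 h)
  · intro y hy
    rcases h2 (dg y) (by
      rintro _ ⟨f, hf, rfl⟩
      rcases lt_or_eq_of_le (hy hf) with h | h
      · exact Or.inr (lt_iff_tw.1 h)
      · exact Or.inl (congrArg dg h)) with h | h
    · exact le_of_eq (dg_inj (f := mkP x hx) h)
    · exact le_of_lt (lt_iff_tw.2 h)

/-- (i) every nonempty set of paths has an infimum -/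
theorem exists_glb (S : Set (Pth t)) (hS : S.Nonempty) : ∃ x, IsGLB S x := by
  obtain ⟨f0, hf0⟩ := hS
  obtain ⟨x, hx, h1, h2⟩ := exists_sup (t := t) (S := dg '' S) false ⟨dg f0, f0, hf0, rfl⟩ (by
    rintro _ ⟨f, _, rfl⟩
    exact dg_path f)
  refine ⟨mkP x hx, ?_, ?_⟩
  · intro f hf
    rcases h1 (dg f) ⟨f, hf, rfl⟩ with h | h
    · exact le_of_eq (dg_inj h).symm
    · exact le_of_lt (gt_iff_tw.2 h)
  · intro y hy
    rcases h2 (dg y) (by
      rintro _ ⟨f, hf, rfl⟩
      rcases lt_or_eq_of_le (hy hf) with h | h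
      · exact Or.inr (gt_iff_tw.1 h)
      · exact Or.inl (congrArg dg h.symm)) with h | h
    · exact le_of_eq (dg_inj (f := mkP x hx) h).symm
    · exact le_of_lt (gt_iff_tw.2 h)

/-! ### Neighbours -/

/-- `g` is the neighbour of `f` in direction `b`. -/
def nb (t : List Bool → Bool) (b : Bool) (f g : ℕ → Bool) : Prop :=
  tw b f g ∧ ¬ ∃ h, IsPath t h ∧ tw b f h ∧ tw b h g

theorem nb_true {f g : Pth t} : nb t true (dg f) (dg g) ↔ f ⋖ g := by
  constructor
  · rintro ⟨h1, h2⟩
    refine ⟨lt_iff_tw.2 h1, fun c hc1 hc2 => h2 ⟨dg c, dg_path c, lt_iff_tw.1 hc1,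
      lt_iff_tw.1 hc2⟩⟩
  · rintro ⟨h1, h2⟩
    refine ⟨lt_iff_tw.1 h1, ?_⟩
    rintro ⟨h, hh, h3, h4⟩
    exact h2 (c := mkP h hh) (lt_iff_tw.2 h3) (lt_iff_tw.2 h4)

theorem nb_false {f g : Pth t} : nb t false (dg f) (dg g) ↔ g ⋖ f := by
  constructor
  · rintro ⟨h1, h2⟩
    refine ⟨gt_iff_tw.2 h1, fun c hc1 hc2 => h2 ⟨dg c, dg_path c, gt_iff_tw.1 hc2,
      gt_iff_tw.1 hc1⟩⟩
  · rintro ⟨h1, h2⟩
    refine ⟨gt_iff_tw.1 h1, ?_⟩
    rintro ⟨h, hh, h3, h4⟩
    exact h2 (c := mkP h hh) (gt_iff_tw.2 h4) (gt_iff_tw.2 h3)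

theorem child {v : List Bool} (hb : both t v = true) (b : Bool) : t (v ++ [b]) = true := by
  unfold both at hb
  rw [Bool.and_eq_true] at hb
  cases b
  · exact hb.1
  · exact hb.2

theorem pathC_at {v : List Bool} {b c : Bool} :
    pre (pathC t b (v ++ [c])) v.length = v ∧ pathC t b (v ++ [c]) v.length = c := by
  have h := pathC_pre0 (t := t) b (v ++ [c])
  rw [len_append] at h
  exact pre_append.1 h

theorem nb_iff (ht : IsTree t) {b : Bool} {f g : ℕ → Bool} (hf : IsPath t f) (hg : IsPath t g) :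
    nb t b f g ↔ ∃ v, both t v = true ∧ f = pathC t b (v ++ [!b]) ∧
      g = pathC t (!b) (v ++ [b]) := by
  constructor
  · rintro ⟨⟨k, h1, h2, h3⟩, h4⟩
    have hd : f k ≠ g k := by
      rw [h2, h3]; cases b <;> simp
    have hb := both_of hf hg h1 hd
    have hlen : (pre f k).length = k := pre_length f k
    have hpg : pre g k = pre f k := (pre_eq_of h1).symm
    have e1 : pre f (pre f k ++ [!b]).length = pre f k ++ [!b] := by
      rw [len_append, hlen, pre_succ, h2]
    have e2 : pre g (pre f k ++ [b]).length = pre f k ++ [b] := by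
      rw [len_append, hlen, pre_succ, h3, hpg]
    refine ⟨pre f k, hb, ?_, ?_⟩
    · rcases extreme (b := b) ht (child hb (!b)) hf e1 with h5 | h5
      · exact h5
      · exfalso
        refine h4 ⟨pathC t b (pre f k ++ [!b]), pathC_isPath ht (child hb (!b)), h5, k, ?_, ?_, h3⟩
        · intro i hi
          have := (pathC_at (t := t) (v := pre f k) (b := b) (c := !b)).1
          rw [hlen] at this
          exact (agree_of_pre this i hi).trans (h1 i hi)
        · have := (pathC_at (t := t) (v := pre f k) (b := b) (c := !b)).2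
          rw [hlen] at this
          exact this
    · rcases extreme (b := !b) ht (child hb b) hg e2 with h5 | h5
      · exact h5
      · exfalso
        rw [tw_swap] at h5
        refine h4 ⟨pathC t (!b) (pre f k ++ [b]), pathC_isPath ht (child hb b), ⟨k, ?_, h2, ?_⟩, h5⟩
        · intro i hi
          have := (pathC_at (t := t) (v := pre f k) (b := !b) (c := b)).1
          rw [hlen] at this
          exact (agree_of_pre this i hi).symm
        · have := (pathC_at (t := t) (v := pre f k) (b := !b) (c := b)).2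
          rw [hlen] at this
          exact this
  · rintro ⟨v, hb, hfe, hge⟩
    have f1 : pre f v.length = v := by rw [hfe]; exact pathC_at.1
    have f2 : f v.length = !b := by rw [hfe]; exact pathC_at.2
    have g1 : pre g v.length = v := by rw [hge]; exact pathC_at.1
    have g2 : g v.length = b := by rw [hge]; exact pathC_at.2
    have hag : ∀ i < v.length, f i = g i := agree_of_pre (f1.trans g1.symm)
    refine ⟨⟨v.length, hag, f2, g2⟩, ?_⟩
    rintro ⟨h, hh, h3, h4⟩
    have h1 : ∀ i < v.length, f i = h i := by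
      by_contra hc
      push Not at hc
      obtain ⟨k, h31, h32, h33⟩ := h3
      obtain ⟨l, h41, h42, h43⟩ := h4
      obtain ⟨i, hi, hne⟩ := hc
      have hk : k ≤ i := by
        by_contra hki
        exact hne (h31 i (by omega))
      have hl : l ≤ i := by
        by_contra hli
        exact hne ((hag i hi).trans (h41 i (by omega)).symm)
      rcases Nat.lt_trichotomy k l with hkl | hkl | hkl
      · have := h41 k hkl
        rw [h33, ← hag k (by omega), h32] at this
        cases b <;> cases this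
      · subst hkl
        rw [h33] at h42
        cases b <;> cases h42
      · have := h31 l hkl
        rw [h42, hag l (by omega), h43] at this
        cases b <;> cases this
    have h5 : pre h v.length = v := by rw [← pre_eq_of h1]; exact f1
    by_cases hc : h v.length = b
    · have h7 : pre h (v ++ [b]).length = v ++ [b] := by
        rw [len_append]; exact pre_append.2 ⟨h5, hc⟩
      rcases extreme (b := !b) ht (child hb b) hh h7 with h8 | h8
      · rw [h8, ← hge] at h4
        exact tw_ne h4 rfl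
      · rw [← hge, tw_swap] at h8
        exact tw_asymm h4 h8
    · have h7 : pre h (v ++ [!b]).length = v ++ [!b] := by
        rw [len_append]; exact pre_append.2 ⟨h5, eq_not hc⟩
      rcases extreme (b := b) ht (child hb (!b)) hh h7 with h8 | h8
      · rw [h8, ← hfe] at h3
        exact tw_ne h3 rfl
      · rw [← hfe] at h8
        exact tw_asymm h3 h8

/-- (iii) consecutive paths -/
theorem covBy_iff (ht : IsTree t) {f g : Pth t} : f ⋖ g ↔
    ∃ v, both t v = true ∧ dg f = pathC t true (v ++ [false]) ∧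
      dg g = pathC t false (v ++ [true]) := by
  rw [← nb_true, nb_iff ht (dg_path f) (dg_path g)]
  rfl

/-! ### Limits -/

/-- Infinitely many branchings where `f` goes to `b`. -/
def InfBr (t : List Bool → Bool) (b : Bool) (f : ℕ → Bool) : Prop :=
  ∀ n, ∃ m, n ≤ m ∧ both t (pre f m) = true ∧ f m = b

theorem branch_ne (b : Bool) : b ≠ !b := by cases b <;> simp

theorem infBr_iff (ht : IsTree t) {b : Bool} {f : ℕ → Bool} (hf : IsPath t f) :
    InfBr t b f ↔ (∃ y, IsPath t y ∧ tw b y f) ∧ ¬ ∃ y, IsPath t y ∧ nb t b y f := by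
  constructor
  · intro h
    refine ⟨?_, ?_⟩
    · obtain ⟨m, _, hb, hm⟩ := h 0
      obtain ⟨g, hg, hag, hgm⟩ := exists_branch ht hb (!b)
      exact ⟨g, hg, m, hag, hgm, hm⟩
    · rintro ⟨y, hy, ⟨k, h1, h2, h3⟩, h4⟩
      obtain ⟨m, hkm, hb, hm⟩ := h (k + 1)
      obtain ⟨g, hg, hag, hgm⟩ := exists_branch ht hb (!b)
      exact h4 ⟨g, hg, ⟨k, fun i hi => (h1 i hi).trans (hag i (by omega)).symm, h2,
        (hag k (by omega)).trans h3⟩, m, hag, hgm, hm⟩
  · rintro ⟨⟨y, hy, k, h1, h2, h3⟩, h4⟩
    by_contra hc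
    unfold InfBr at hc
    push Not at hc
    obtain ⟨n, hn⟩ := hc
    have hbk : both t (pre f k) = true := by
      refine both_of hf hy (fun i hi => (h1 i hi).symm) ?_
      rw [h2, h3]
      exact branch_ne b
    have hkn : k ≤ n := by
      by_contra hkn
      exact hn k (by omega) hbk h3
    classical
    obtain ⟨m, hm1, hm2, hmax⟩ : ∃ m, both t (pre f m) = true ∧ f m = b ∧
        ∀ l, m < l → both t (pre f l) = true → f l ≠ b := by
      refine ⟨Nat.findGreatest (fun m => both t (pre f m) = true ∧ f m = b) n, ?_, ?_, ?_⟩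
      · exact (Nat.findGreatest_spec (P := fun m => both t (pre f m) = true ∧ f m = b)
          hkn ⟨hbk, h3⟩).1
      · exact (Nat.findGreatest_spec (P := fun m => both t (pre f m) = true ∧ f m = b)
          hkn ⟨hbk, h3⟩).2
      · intro l hl hbl hfl
        by_cases hln : l ≤ n
        · exact Nat.findGreatest_is_greatest hl hln ⟨hbl, hfl⟩
        · exact hn l (by omega) hbl hfl
    have hlen : (pre f m).length = m := pre_length f m
    have e1 : pre f (pre f m ++ [b]).length = pre f m ++ [b] := by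
      rw [len_append, hlen, pre_succ, hm2]
    have hfe : f = pathC t (!b) (pre f m ++ [b]) := by
      rcases extreme (b := !b) ht (child hm1 b) hf e1 with h5 | h5
      · exact h5
      · exfalso
        obtain ⟨l, h6, h7, h8⟩ := h5
        rw [Bool.not_not] at h7
        have hbl : both t (pre f l) = true := by
          refine both_of hf (pathC_isPath ht (child hm1 b)) h6 ?_
          rw [h7, h8]
          exact branch_ne b
        have hml : m < l := by
          by_contra hml
          have h9 := pathC_at (t := t) (v := pre f m) (b := !b) (c := b)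
          rw [hlen] at h9
          rcases Nat.lt_or_ge l m with h10 | h10
          · have := agree_of_pre h9.1 l h10
            rw [h8, h7] at this
            cases b <;> cases this
          · have h11 : l = m := by omega
            subst h11
            rw [h9.2] at h8
            cases b <;> cases h8
        exact hmax l hml hbl h7
    refine h4 ⟨pathC t b (pre f m ++ [!b]), pathC_isPath ht (child hm1 (!b)), ?_⟩
    exact (nb_iff ht (pathC_isPath ht (child hm1 (!b))) hf).2 ⟨pre f m, hm1, rfl, hfe⟩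

/-- (iv) limits from the left -/
theorem lLim_iff (ht : IsTree t) {f : Pth t} : LLim f ↔
    ∀ n, ∃ m, n ≤ m ∧ both t (pre (dg f) m) = true ∧ dg f m = true := by
  have h := infBr_iff ht (b := true) (dg_path f)
  unfold InfBr at h
  rw [h]
  unfold LLim
  constructor
  · rintro ⟨⟨y, hy⟩, h2⟩
    refine ⟨⟨dg y, dg_path y, lt_iff_tw.1 hy⟩, ?_⟩
    rintro ⟨z, hz, hz2⟩
    exact h2 ⟨mkP z hz, nb_true.1 hz2⟩
  · rintro ⟨⟨y, hy, h1⟩, h2⟩
    refine ⟨⟨mkP y hy, lt_iff_tw.2 h1⟩, ?_⟩
    rintro ⟨z, hz⟩
    exact h2 ⟨dg z, dg_path z, nb_true.2 hz⟩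

/-- (iv) limits from the right -/
theorem rLim_iff (ht : IsTree t) {f : Pth t} : RLim f ↔
    ∀ n, ∃ m, n ≤ m ∧ both t (pre (dg f) m) = true ∧ dg f m = false := by
  have h := infBr_iff ht (b := false) (dg_path f)
  unfold InfBr at h
  rw [h]
  unfold RLim
  constructor
  · rintro ⟨⟨y, hy⟩, h2⟩
    refine ⟨⟨dg y, dg_path y, gt_iff_tw.1 hy⟩, ?_⟩
    rintro ⟨z, hz, hz2⟩
    exact h2 ⟨mkP z hz, nb_false.1 hz2⟩
  · rintro ⟨⟨y, hy, h1⟩, h2⟩
    refine ⟨⟨mkP y hy, gt_iff_tw.2 h1⟩, ?_⟩
    rintro ⟨z, hz⟩
    exact h2 ⟨dg z, dg_path z, nb_false.2 hz⟩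

/-- An isolated path does not branch from some level on. -/
theorem isol_iff_quiet (ht : IsTree t) {f : Pth t} : Isol f ↔ ∃ m, Quiet t (dg f) m := by
  unfold Isol
  rw [lLim_iff ht, rLim_iff ht]
  constructor
  · rintro ⟨h1, h2⟩
    push Not at h1 h2
    obtain ⟨a, ha⟩ := h1
    obtain ⟨c, hc⟩ := h2
    refine ⟨max a c, fun n hn => ?_⟩
    by_contra hb
    rw [Bool.not_eq_false] at hb
    have h3 := ha n ((le_max_left a c).trans hn) hb
    have h4 := hc n ((le_max_right a c).trans hn) hb
    cases hx : dg f n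
    · exact h4 hx
    · exact h3 hx
  · rintro ⟨m, hm⟩
    constructor
    · intro h
      obtain ⟨k, hk, hb, _⟩ := h m
      rw [hm k hk] at hb
      cases hb
    · intro h
      obtain ⟨k, hk, hb, _⟩ := h m
      rw [hm k hk] at hb
      cases hb

/-- (v) isolated points of the order are the isolated paths -/
theorem isol_iff (ht : IsTree t) {f : Pth t} : Isol f ↔
    ∃ m : ℕ, ∀ g : ℕ → Bool, IsPath t g → (∀ i < m, g i = dg f i) → g = dg f := by
  rw [isol_iff_quiet ht]
  constructor
  · rintro ⟨m, hm⟩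
    exact ⟨m, fun g hg hag => eq_of_quiet (dg_path f) hg hm hag⟩
  · rintro ⟨m, hm⟩
    exact ⟨m, quiet_of_isolated ht hm⟩

end Pool.Agent.Lib.MP_0f5a21_lc.H
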