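import Pool.Agent.Lib.MP_0f5a21_lc.H.Spec
import Pool.Agent.Lib.MP_0f5a21_lc.H.Blocks
import Pool.Agent.Lib.MP_0f5a21_lc.H.Node60
import Pool.Agent.Lib.MP_0f5a21_lc.Comp

/-!
Theorem H, module SIG: the hypotheses (a) and (c) give certificates (`Cert`).
-/

set_option autoImplicit false

namespace Pool.Agent.Lib.MP_0f5a21_lc.H

open C4

section order

variable {X : Type} [LinearOrder X]

theorem upInf_bl {x a : X} (hxa : x ⋖ a) (hu : UpInf a) : (Bl a).Infinite := by
  intro hfin
  have hsub : {y : X | a ≤ y ∧ (Set.Icc a y).Finite} ⊆ Bl a := by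
    rintro y ⟨h1, h2⟩
    have h3 : UpInf y := (upInf_fin h1 h2).1 hu
    obtain ⟨z, hz⟩ := h3.succ
    have hp : ∃ p, p ⋖ y := by
      rcases h1.eq_or_lt with h4 | h4
      · exact ⟨x, by rw [← h4]; exact hxa⟩
      · obtain ⟨p, hp, _⟩ := pred_of_fin h4 h2
        exact ⟨p, hp⟩
    obtain ⟨p, hp⟩ := hp
    refine ⟨isol_of hp hz, h2.subset (fun w hw => ⟨hw.2.1, hw.2.2⟩), ?_⟩
    apply (Set.finite_singleton a).subset
    rintro w ⟨_, h5, h6⟩
    exact le_antisymm h6 (h1.trans h5)
  obtain ⟨m, hm, hmax⟩ := Set.exists_max_image _ (fun y : X => y) (hfin.subset hsub)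
    ⟨a, le_rfl, by simp⟩
  obtain ⟨z, hz⟩ := ((upInf_fin hm.1 hm.2).1 hu).succ
  have := hmax z ⟨hm.1.trans hz.lt.le, icc_insert_right hz hm.2⟩
  exact absurd hz.lt (not_lt.2 this)

theorem lbl_empty (hd : DenseL X) {x a : X} (hx : LLim x) (hxa : x ⋖ a) : LBl a = ∅ := by
  rw [Set.eq_empty_iff_forall_notMem]
  rintro g ⟨h2, h3, h4⟩
  exact left_inf hd hx hxa h2 h3 h4

theorem bl_upInf (hl : DenseL X) (hr : DenseR X) {x a : X} (hx : LLim x) (hxa : x ⋖ a)
    (h : (Bl a).Infinite) : UpInf x := by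
  have hge : ∀ g ∈ Bl a, a ≤ g := by
    rintro g ⟨h2, h3, h4⟩
    by_contra hcon
    push Not at hcon
    exact left_inf hl hx hxa h2 hcon h4
  intro n
  obtain ⟨F, hF, hFc⟩ := h.exists_subset_card_eq (n + 1)
  have hFne : F.Nonempty := by
    rw [← Finset.card_pos, hFc]; omega
  obtain ⟨g, hg, hmax⟩ := F.exists_max_image id hFne
  have hfin : (Set.Icc a g).Finite := icc_finite hl hr (hF hg).2.1
  have hsub2 : (F : Set X) ⊆ Set.Icc a g := fun w hw => ⟨hge w (hF hw), hmax w hw⟩
  have hcard := Set.ncard_le_ncard hsub2 hfin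
  rw [Set.ncard_coe_finset, hFc] at hcard
  exact (UpChain.cons hxa (upChain_of_finite g n a hfin hcard)).mono (by omega)

theorem bl_iff_up (hl : DenseL X) (hr : DenseR X) {x a : X} (hx : LLim x) (hxa : x ⋖ a) :
    (Bl a).Infinite ↔ UpInf x :=
  ⟨bl_upInf hl hr hx hxa, fun h => upInf_bl hxa ((upInf_step hxa).1 h)⟩

theorem upInf_dual {x : X} : UpInf (OrderDual.toDual x) ↔ DnInf x :=
  forall_congr' fun _ => upChain_dual

theorem bl_iff_down (hl : DenseL X) (hr : DenseR X) {x a : X} (hx : RLim x) (hxa : a ⋖ x) :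
    (Bl a).Infinite ↔ DnInf x := by
  have h := bl_iff_up (denseL_dual hr) (denseR_dual hl) (lLim_dual.2 hx) hxa.toDual
  rw [bl_dual, upInf_dual] at h
  rw [← h]
  exact Iff.rfl

theorem rbl_empty (hd : DenseR X) {x a : X} (hx : RLim x) (hxa : a ⋖ x) : RBl a = ∅ := by
  have h := lbl_empty (denseL_dual hd) (lLim_dual.2 hx) hxa.toDual
  rw [lBl_dual] at h
  exact h

end order

variable {t : List Bool → Bool}

/-- (a) gives the empty certificates. -/
theorem cert_a (ht : IsTree t) (hpac : ∀ f, IsPath t f → Computable f) (h : HypA (Pth t)) :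
    Cert t (fun _ _ _ _ => false) (fun _ _ _ _ => false) := by
  obtain ⟨h1, h2⟩ := starA ht hpac h
  constructor
  · intro v x _ _ hx
    constructor
    · intro hu
      obtain ⟨n, hn⟩ := h1 x hx
      exact absurd (hu n) hn
    · rintro ⟨w, hw⟩
      obtain ⟨p, hp⟩ := hw 0
      cases hp
  · intro v x _ _ hx
    constructor
    · intro hu
      obtain ⟨n, hn⟩ := h2 x hx
      exact absurd (hu n) hn
    · rintro ⟨w, hw⟩
      obtain ⟨p, hp⟩ := hw 0
      cases hp

/-- (c) in the order of the paths. -/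
def HypC (t : List Bool → Bool) (q : List Bool → ℕ → ℕ → ℕ → Bool) : Prop :=
  ∀ σ, t σ = true → ∀ f : Pth t, pre (dg f) σ.length = σ →
    (∀ g : Pth t, pre (dg g) σ.length = σ → g = f) → (LBl f = ∅ ∨ RBl f = ∅) →
    ((Bl f).Infinite ↔ ∃ w, ∀ n, ∃ p, q σ w n p = true)

/-- The nodes above `v ++ [b]` on the extreme path in direction `!b`. -/
@[irreducible] def wk (t : List Bool → Bool) (b : Bool) (v : List Bool) (k : ℕ) : List Bool :=
  walkC t (!b) (v ++ [b]) k

theorem wk_eq (t : List Bool → Bool) (b : Bool) (v : List Bool) (k : ℕ) :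
    wk t b v k = walkC t (!b) (v ++ [b]) k := by
  unfold wk
  rfl

theorem comp_wk (ht : Computable t) (b : Bool) :
    Computable fun p : List Bool × ℕ => wk t b p.1 p.2 := by
  have h0 : Computable fun p : List Bool × ℕ =>
      ((((!b), p.1 ++ [b]), p.2) : (Bool × List Bool) × ℕ) :=
    Computable.pair (Computable.pair (Computable.const (!b))
      (Computable.list_concat.comp Computable.fst (Computable.const b))) Computable.snd
  exact ((comp_walkC ht).comp h0).of_eq fun p => (wk_eq t b p.1 p.2).symm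

/-- First component. -/
@[irreducible] def u1 (n : ℕ) : ℕ := n.unpair.1

/-- Second component. -/
@[irreducible] def u2 (n : ℕ) : ℕ := n.unpair.2

theorem u1_pair (a c : ℕ) : u1 (Nat.pair a c) = a := by
  unfold u1
  rw [Nat.unpair_pair]

theorem u2_pair (a c : ℕ) : u2 (Nat.pair a c) = c := by
  unfold u2
  rw [Nat.unpair_pair]

theorem comp_u1' : Computable u1 :=
  (Computable.fst.comp Computable.unpair).of_eq fun n => by unfold u1; rfl

theorem comp_u2' : Computable u2 :=
  (Computable.snd.comp Computable.unpair).of_eq fun n => by unfold u2; rfl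

/-- The certificate made from (c). -/
def QC (t : List Bool → Bool) (q : List Bool → ℕ → ℕ → ℕ → Bool) (b : Bool) (v : List Bool)
    (W n p : ℕ) : Bool :=
  A2.ballB n (fun l => !(both t (wk t b v (u1 W + l)))) && q (wk t b v (u1 W)) (u2 W) n p

theorem qc_iff (ht : IsTree t) {q : List Bool → ℕ → ℕ → ℕ → Bool} (hq : HypC t q) {b : Bool}
    {v : List Bool} {z : Pth t} (hz : dg z = pathC t (!b) (v ++ [b]))
    (he : LBl z = ∅ ∨ RBl z = ∅) :
    (∃ W, ∀ n, ∃ p, QC t q b v W n p = true) ↔ (Isol z ∧ (Bl z).Infinite) := by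
  have hpre : ∀ k, pre (dg z) ((v ++ [b]).length + k) = wk t b v k := by
    intro k
    rw [hz, wk_eq]
    exact pathC_pre _ _ _
  have hmem : ∀ k, t (wk t b v k) = true := fun k => by
    rw [← hpre]
    exact dg_path z _
  have hlen : ∀ k, (wk t b v k).length = (v ++ [b]).length + k := fun k => by
    rw [← hpre, pre_length]
  have key : ∀ k, (∀ n, both t (wk t b v (k + n)) = false) →
      Isol z ∧ ((Bl z).Infinite ↔
        ∃ w, ∀ n, ∃ p, q (wk t b v k) w n p = true) := by
    intro k hk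
    have hquiet : Quiet t (dg z) ((v ++ [b]).length + k) := by
      intro n hn
      obtain ⟨d, rfl⟩ := Nat.exists_eq_add_of_le hn
      rw [Nat.add_assoc, hpre]
      exact hk d
    refine ⟨(isol_iff_quiet ht).2 ⟨_, hquiet⟩, hq _ (hmem k) z (by rw [hlen, hpre]) ?_ he⟩
    intro g hg
    rw [hlen] at hg
    apply dg_inj
    apply eq_of_quiet (dg_path z) (dg_path g) hquiet
    apply agree_of_pre
    rw [hg, hpre]
  constructor
  · rintro ⟨W, hW⟩
    have h1 : ∀ n, both t (wk t b v (u1 W + n)) = false := by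
      intro n
      obtain ⟨p, hp⟩ := hW (n + 1)
      unfold QC at hp
      rw [Bool.and_eq_true, A2.ballB_iff] at hp
      have := hp.1 n (by omega)
      simpa using this
    obtain ⟨h2, h3⟩ := key _ h1
    refine ⟨h2, h3.2 ⟨u2 W, fun n => ?_⟩⟩
    obtain ⟨p, hp⟩ := hW n
    unfold QC at hp
    rw [Bool.and_eq_true] at hp
    exact ⟨p, hp.2⟩
  · rintro ⟨h1, h2⟩
    obtain ⟨m, hm⟩ := (isol_iff_quiet ht).1 h1
    have h3 : ∀ n, both t (wk t b v (m + n)) = false := by
      intro n
      rw [← hpre]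
      exact hm _ (by omega)
    obtain ⟨_, h4⟩ := key m h3
    obtain ⟨w, hw⟩ := h4.1 h2
    refine ⟨Nat.pair m w, fun n => ?_⟩
    obtain ⟨p, hp⟩ := hw n
    refine ⟨p, ?_⟩
    unfold QC
    rw [u1_pair, u2_pair, Bool.and_eq_true, A2.ballB_iff]
    refine ⟨fun l _ => ?_, hp⟩
    simp [h3 l]

theorem cert_c (ht : IsTree t) (hpac : ∀ f, IsPath t f → Computable f)
    {q : List Bool → ℕ → ℕ → ℕ → Bool} (hq : HypC t q) : Cert t (QC t q true) (QC t q false) := by
  have hl := denseL_pth ht hpac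
  have hr := denseR_pth ht hpac
  constructor
  · intro v x hb hx hlx
    have hz : IsPath t (pathC t false (v ++ [true])) := pathC_isPath ht (child hb true)
    have hcov : x ⋖ mkP _ hz := (covBy_iff ht).2 ⟨v, hb, hx, rfl⟩
    rw [qc_iff ht hq (z := mkP _ hz) rfl (Or.inl (lbl_empty hl hlx hcov)),
      bl_iff_up hl hr hlx hcov]
    constructor
    · intro hu
      obtain ⟨y, hy⟩ := ((upInf_step hcov).1 hu).succ
      exact ⟨isol_of hcov hy, hu⟩
    · exact fun h => h.2
  · intro v x hb hx hlx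
    have hz : IsPath t (pathC t true (v ++ [false])) := pathC_isPath ht (child hb false)
    have hcov : mkP _ hz ⋖ x := (covBy_iff ht).2 ⟨v, hb, rfl, hx⟩
    rw [qc_iff ht hq (z := mkP _ hz) rfl (Or.inr (rbl_empty hr hlx hcov)),
      bl_iff_down hl hr hlx hcov]
    constructor
    · intro hu
      obtain ⟨y, hy⟩ := ((dnInf_step hcov).2 hu).pred
      exact ⟨isol_of hy hcov, hu⟩
    · exact fun h => h.2

theorem comp_wkr {α : Type} [Primcodable α] (ht : Computable t) (b : Bool) {f : α → List Bool}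
    {g : α → ℕ} (hf : Computable f) (hg : Computable g) :
    Computable fun r => wk t b (f r) (g r) :=
  (comp_wk ht b).comp (hf.pair hg)

theorem comp_q4 {α : Type} [Primcodable α] {q : List Bool → ℕ → ℕ → ℕ → Bool}
    (hq : Computable fun p : ((List Bool × ℕ) × ℕ) × ℕ => q p.1.1.1 p.1.1.2 p.1.2 p.2)
    {f : α → List Bool} {g h k : α → ℕ} (hf : Computable f) (hg : Computable g)
    (hh : Computable h) (hk : Computable k) : Computable fun r => q (f r) (g r) (h r) (k r) :=
  hq.comp (((hf.pair hg).pair hh).pair hk)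

theorem comp_QC1 {α : Type} [Primcodable α] (ht : Computable t) (b : Bool) {f : α → List Bool}
    {g h : α → ℕ} (hf : Computable f) (hg : Computable g) (hh : Computable h) :
    Computable fun r => A2.ballB (h r) (fun l => !(both t (wk t b (f r) (g r + l)))) := by
  apply A2.c_ball (p := fun (r : α) l => !(both t (wk t b (f r) (g r + l)))) hh
  apply A2.c_not
  apply (comp_both ht).comp
  exact comp_wkr ht b (hf.comp Computable.fst)
    (A2.c_add (hg.comp Computable.fst) Computable.snd)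

theorem comp_QC {α : Type} [Primcodable α] (ht : Computable t) {q : List Bool → ℕ → ℕ → ℕ → Bool}
    (hq : Computable fun p : ((List Bool × ℕ) × ℕ) × ℕ => q p.1.1.1 p.1.1.2 p.1.2 p.2) (b : Bool)
    {f : α → List Bool} {W n k : α → ℕ} (hf : Computable f) (hW : Computable W)
    (hn : Computable n) (hk : Computable k) :
    Computable fun r => QC t q b (f r) (W r) (n r) (k r) :=
  comp_and (comp_QC1 ht b hf (comp_u1'.comp hW) hn)
    (comp_q4 hq (comp_wkr ht b hf (comp_u1'.comp hW)) (comp_u2'.comp hW) hn hk)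

/-- (c) for the tree gives (c) for the order of the paths. -/
theorem hypC_tree (ht : IsTree t) {q : List Bool → ℕ → ℕ → ℕ → Bool}
    (h : ∀ σ ∈ {σ | t σ = true}, ∀ f, PathOf {σ | t σ = true} f → Through σ f →
      (∀ g, PathOf {σ | t σ = true} g → Through σ g → g = f) →
      (LeftBlock {σ | t σ = true} f = ∅ ∨ RightBlock {σ | t σ = true} f = ∅) →
      ((BlockOf {σ | t σ = true} f).Infinite ↔ ∃ w, ∀ n, ∃ p, q σ w n p = true)) :
    HypC t q := by
  intro σ hσ f hf huni hends
  have hu : ∀ g, PathOf {σ | t σ = true} g → Through σ g → g = dg f := by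
    intro g hg hi
    exact congrArg dg (huni (mkP g hg) hi)
  have hiso : Isol f := by
    rw [isol_iff ht]
    refine ⟨σ.length, fun g hg hi => hu g hg ?_⟩
    exact (pre_eq_of hi).trans hf
  rw [← leftBlock_empty ht, ← rightBlock_empty ht] at hends
  rw [← blockOf_infinite ht hiso]
  exact h σ hσ (dg f) (dg_path f) hf hu hends

end Pool.Agent.Lib.MP_0f5a21_lc.H
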