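import Pool.Agent.Lib.MP_0f5a21_lc.H.Order

/-!
Theorem H, module C4, first part: chains, finite intervals and starts in a complete linear order.
-/

set_option autoImplicit false

namespace Pool.Agent.Lib.MP_0f5a21_lc.H

namespace C4

variable {X : Type} [LinearOrder X]

/-- Infinitely many successors. -/
def UpInf (x : X) : Prop := ∀ n, UpChain x n

/-- Infinitely many predecessors. -/
def DnInf (x : X) : Prop := ∀ n, DownChain x n

/-- No predecessor. -/
def NP (x : X) : Prop := ¬ ∃ y, y ⋖ x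

/-- No successor. -/
def NS (x : X) : Prop := ¬ ∃ y, x ⋖ y

theorem upChain_zero (x : X) : UpChain x 0 := ⟨fun _ => x, rfl, by intro i hi; omega⟩

theorem downChain_zero (x : X) : DownChain x 0 := ⟨fun _ => x, rfl, by intro i hi; omega⟩

theorem upChain_succ (x : X) (n : ℕ) : UpChain x (n + 1) ↔ ∃ y, x ⋖ y ∧ UpChain y n := by
  constructor
  · rintro ⟨y, h0, h⟩
    refine ⟨y 1, ?_, fun i => y (i + 1), rfl, ?_⟩
    · have := h 0 (by omega)
      rwa [h0] at this
    · intro i hi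
      exact h (i + 1) (by omega)
  · rintro ⟨z, hz, y, h0, h⟩
    refine ⟨fun i => if i = 0 then x else y (i - 1), by simp, ?_⟩
    intro i hi
    rcases Nat.eq_zero_or_pos i with rfl | hpos
    · simp [h0, hz]
    · have h1 : i ≠ 0 := by omega
      have h2 : i + 1 ≠ 0 := by omega
      simp only [h1, h2, if_false]
      have := h (i - 1) (by omega)
      have h3 : i - 1 + 1 = i + 1 - 1 := by omega
      rwa [h3] at this

theorem downChain_succ (x : X) (n : ℕ) : DownChain x (n + 1) ↔ ∃ y, y ⋖ x ∧ DownChain y n := by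
  constructor
  · rintro ⟨y, h0, h⟩
    refine ⟨y 1, ?_, fun i => y (i + 1), rfl, ?_⟩
    · have := h 0 (by omega)
      rwa [h0] at this
    · intro i hi
      exact h (i + 1) (by omega)
  · rintro ⟨z, hz, y, h0, h⟩
    refine ⟨fun i => if i = 0 then x else y (i - 1), by simp, ?_⟩
    intro i hi
    rcases Nat.eq_zero_or_pos i with rfl | hpos
    · simp [h0, hz]
    · have h1 : i ≠ 0 := by omega
      have h2 : i + 1 ≠ 0 := by omega
      simp only [h1, h2, if_false]
      have := h (i - 1) (by omega)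
      have h3 : i - 1 + 1 = i + 1 - 1 := by omega
      rwa [h3] at this

theorem covBy_right_unique {a b c : X} (h : a ⋖ b) (h' : a ⋖ c) : b = c := by
  rcases lt_trichotomy b c with h1 | h1 | h1
  · exact absurd h1 (h'.2 h.1)
  · exact h1
  · exact absurd h1 (h.2 h'.1)

theorem covBy_left_unique {a b c : X} (h : a ⋖ c) (h' : b ⋖ c) : a = b := by
  rcases lt_trichotomy a b with h1 | h1 | h1
  · exact absurd h'.1 (h.2 h1)
  · exact h1
  · exact absurd h.1 (h'.2 h1)

theorem upChain_mono {x : X} {n m : ℕ} (h : UpChain x n) (hm : m ≤ n) : UpChain x m := by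
  obtain ⟨y, h0, h⟩ := h
  exact ⟨y, h0, fun i hi => h i (by omega)⟩

theorem downChain_mono {x : X} {n m : ℕ} (h : DownChain x n) (hm : m ≤ n) : DownChain x m := by
  obtain ⟨y, h0, h⟩ := h
  exact ⟨y, h0, fun i hi => h i (by omega)⟩

theorem upInf_step {a b : X} (h : a ⋖ b) : UpInf a ↔ UpInf b := by
  constructor
  · intro ha n
    obtain ⟨y, hy, hn⟩ := (upChain_succ a n).1 (ha (n + 1))
    rwa [covBy_right_unique h hy]
  · intro hb n
    exact upChain_mono ((upChain_succ a n).2 ⟨b, h, hb n⟩) (by omega)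

theorem dnInf_step {a b : X} (h : a ⋖ b) : DnInf a ↔ DnInf b := by
  constructor
  · intro ha n
    exact downChain_mono ((downChain_succ b n).2 ⟨a, h, ha n⟩) (by omega)
  · intro hb n
    obtain ⟨y, hy, hn⟩ := (downChain_succ b n).1 (hb (n + 1))
    rwa [covBy_left_unique h hy]

theorem UpInf.succ {x : X} (h : UpInf x) : ∃ y, x ⋖ y := by
  obtain ⟨y, hy, -⟩ := (upChain_succ x 0).1 (h 1)
  exact ⟨y, hy⟩

theorem DnInf.pred {x : X} (h : DnInf x) : ∃ y, y ⋖ x := by
  obtain ⟨y, hy, -⟩ := (downChain_succ x 0).1 (h 1)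
  exact ⟨y, hy⟩

/-- A finite nontrivial interval: the left end has a successor in it. -/
theorem succ_of_fin {x y : X} (h : x < y) (hf : (Set.Icc x y).Finite) : ∃ z, x ⋖ z ∧ z ≤ y := by
  have h1 : (Set.Ioc x y).Finite := hf.subset Set.Ioc_subset_Icc_self
  obtain ⟨z, hz, hmin⟩ := Set.exists_min_image (Set.Ioc x y) id h1 ⟨y, h, le_rfl⟩
  refine ⟨z, ⟨hz.1, ?_⟩, hz.2⟩
  intro c hc1 hc2
  exact absurd (hmin c ⟨hc1, hc2.le.trans hz.2⟩) (not_le.2 hc2)

/-- A finite nontrivial interval: the right end has a predecessor in it. -/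
theorem pred_of_fin {x y : X} (h : x < y) (hf : (Set.Icc x y).Finite) : ∃ z, z ⋖ y ∧ x ≤ z := by
  have h1 : (Set.Ico x y).Finite := hf.subset Set.Ico_subset_Icc_self
  obtain ⟨z, hz, hmax⟩ := Set.exists_max_image (Set.Ico x y) id h1 ⟨x, le_rfl, h⟩
  refine ⟨z, ⟨hz.2, ?_⟩, hz.1⟩
  intro c hc1 hc2
  exact absurd (hmax c ⟨hz.1.trans hc1.le, hc2⟩) (not_le.2 hc1)

/-- A property invariant under covering steps is constant on finite intervals. -/
theorem fin_ind (P : X → Prop) (hP : ∀ a b, a ⋖ b → (P a ↔ P b)) :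
    ∀ (n : ℕ) (x y : X), x ≤ y → (Set.Icc x y).Finite → (Set.Icc x y).ncard ≤ n →
      (P x ↔ P y) := by
  intro n
  induction n with
  | zero =>
    intro x y hxy hf hn
    have h1 : (Set.Icc x y).ncard = 0 := by omega
    rw [Set.ncard_eq_zero hf] at h1
    exact absurd h1 (Set.nonempty_Icc.2 hxy).ne_empty
  | succ n ih =>
    intro x y hxy hf hn
    rcases hxy.eq_or_lt with rfl | hlt
    · exact Iff.rfl
    · obtain ⟨z, hz, hzy⟩ := succ_of_fin hlt hf
      have hsub : Set.Icc z y ⊂ Set.Icc x y := by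
        refine ⟨Set.Icc_subset_Icc_left hz.1.le, ?_⟩
        intro hcon
        have := hcon (⟨le_rfl, hxy⟩ : x ∈ Set.Icc x y)
        exact absurd this.1 (not_le.2 hz.1)
      have hf' : (Set.Icc z y).Finite := hf.subset hsub.1
      have hc := Set.ncard_lt_ncard hsub hf
      exact (hP x z hz).trans (ih z y hzy hf' (by omega))

theorem upInf_fin {x y : X} (h : x ≤ y) (hf : (Set.Icc x y).Finite) : UpInf x ↔ UpInf y :=
  fin_ind UpInf (fun _ _ => upInf_step) _ x y h hf le_rfl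

theorem dnInf_fin {x y : X} (h : x ≤ y) (hf : (Set.Icc x y).Finite) : DnInf x ↔ DnInf y :=
  fin_ind DnInf (fun _ _ => dnInf_step) _ x y h hf le_rfl

theorem icc_insert_left {x z y : X} (h : x ⋖ z) (hf : (Set.Icc z y).Finite) :
    (Set.Icc x y).Finite := by
  refine (hf.insert x).subset ?_
  intro t ht
  rcases ht.1.eq_or_lt with h1 | h1
  · exact Or.inl h1.symm
  · refine Or.inr ⟨?_, ht.2⟩
    by_contra h2
    exact h.2 h1 (not_le.1 h2)

theorem icc_insert_right {x z y : X} (h : z ⋖ y) (hf : (Set.Icc x z).Finite) :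
    (Set.Icc x y).Finite := by
  refine (hf.insert y).subset ?_
  intro t ht
  rcases ht.2.eq_or_lt with h1 | h1
  · exact Or.inl h1
  · refine Or.inr ⟨ht.1, ?_⟩
    by_contra h2
    exact h.2 (not_le.1 h2) h1

theorem end_up {x : X} (h : ¬ UpInf x) : ∃ e, x ≤ e ∧ (Set.Icc x e).Finite ∧ NS e := by
  have key : ∀ (n : ℕ) (x : X), ¬ UpChain x n → ∃ e, x ≤ e ∧ (Set.Icc x e).Finite ∧ NS e := by
    intro n
    induction n with
    | zero => intro x h; exact absurd (upChain_zero x) h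
    | succ n ih =>
      intro x h
      by_cases hs : ∃ y, x ⋖ y
      · obtain ⟨y, hy⟩ := hs
        have : ¬ UpChain y n := fun hc => h ((upChain_succ x n).2 ⟨y, hy, hc⟩)
        obtain ⟨e, he1, he2, he3⟩ := ih y this
        exact ⟨e, hy.1.le.trans he1, icc_insert_left hy he2, he3⟩
      · exact ⟨x, le_rfl, by simp, hs⟩
  simp only [UpInf, not_forall] at h
  obtain ⟨n, hn⟩ := h
  exact key n x hn

theorem end_dn {x : X} (h : ¬ DnInf x) : ∃ e, e ≤ x ∧ (Set.Icc e x).Finite ∧ NP e := by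
  have key : ∀ (n : ℕ) (x : X), ¬ DownChain x n → ∃ e, e ≤ x ∧ (Set.Icc e x).Finite ∧ NP e := by
    intro n
    induction n with
    | zero => intro x h; exact absurd (downChain_zero x) h
    | succ n ih =>
      intro x h
      by_cases hs : ∃ y, y ⋖ x
      · obtain ⟨y, hy⟩ := hs
        have : ¬ DownChain y n := fun hc => h ((downChain_succ x n).2 ⟨y, hy, hc⟩)
        obtain ⟨e, he1, he2, he3⟩ := ih y this
        exact ⟨e, he1.trans hy.1.le, icc_insert_right hy he2, he3⟩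
      · exact ⟨x, le_rfl, by simp, hs⟩
  simp only [DnInf, not_forall] at h
  obtain ⟨n, hn⟩ := h
  exact key n x hn

theorem sup_up (hlub : ∀ S : Set X, S.Nonempty → ∃ m, IsLUB S m) {x : X} (h : UpInf x) :
    ∃ z, x < z ∧ NP z ∧ ∀ y, x ≤ y → y < z → (Set.Icc x y).Finite := by
  obtain ⟨z, hz⟩ := hlub {y | x ≤ y ∧ (Set.Icc x y).Finite} ⟨x, le_rfl, by simp⟩
  have hxz : x ≤ z := hz.1 ⟨le_rfl, by simp⟩
  have hnot : ¬ (Set.Icc x z).Finite := by
    intro hf
    have h1 : UpInf z := (upInf_fin hxz hf).1 h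
    obtain ⟨w, hw⟩ := h1.succ
    have : w ≤ z := hz.1 ⟨hxz.trans hw.1.le, icc_insert_right hw hf⟩
    exact absurd hw.1 (not_lt.2 this)
  have hlt : x < z := lt_of_le_of_ne hxz (by rintro rfl; exact hnot (by simp))
  have hex : ∀ p, p < z → ∃ s, p < s ∧ s < z ∧ x ≤ s ∧ (Set.Icc x s).Finite := by
    intro p hp
    obtain ⟨s, hs, hps⟩ := (lt_isLUB_iff hz).1 hp
    refine ⟨s, hps, lt_of_le_of_ne (hz.1 hs) ?_, hs.1, hs.2⟩
    rintro rfl
    exact hnot hs.2
  refine ⟨z, hlt, ?_, ?_⟩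
  · rintro ⟨p, hp⟩
    obtain ⟨s, h1, h2, -, -⟩ := hex p hp.1
    exact hp.2 h1 h2
  · intro y hy1 hy2
    obtain ⟨s, h1, h2, h3, h4⟩ := hex y hy2
    exact h4.subset (Set.Icc_subset_Icc_right h1.le)

theorem inf_dn (hglb : ∀ S : Set X, S.Nonempty → ∃ m, IsGLB S m) {x : X} (h : DnInf x) :
    ∃ z, z < x ∧ NS z ∧ ∀ y, z < y → y ≤ x → (Set.Icc y x).Finite := by
  obtain ⟨z, hz⟩ := hglb {y | y ≤ x ∧ (Set.Icc y x).Finite} ⟨x, le_rfl, by simp⟩
  have hxz : z ≤ x := hz.1 ⟨le_rfl, by simp⟩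
  have hnot : ¬ (Set.Icc z x).Finite := by
    intro hf
    have h1 : DnInf z := (dnInf_fin hxz hf).2 h
    obtain ⟨w, hw⟩ := h1.pred
    have : z ≤ w := hz.1 ⟨hw.1.le.trans hxz, icc_insert_left hw hf⟩
    exact absurd hw.1 (not_lt.2 this)
  have hlt : z < x := lt_of_le_of_ne hxz (by rintro rfl; exact hnot (by simp))
  have hex : ∀ p, z < p → ∃ s, s < p ∧ z < s ∧ s ≤ x ∧ (Set.Icc s x).Finite := by
    intro p hp
    obtain ⟨s, hs, hps⟩ := (isGLB_lt_iff hz).1 hp
    refine ⟨s, hps, lt_of_le_of_ne (hz.1 hs) ?_, hs.1, hs.2⟩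
    rintro rfl
    exact hnot hs.2
  refine ⟨z, hlt, ?_, ?_⟩
  · rintro ⟨p, hp⟩
    obtain ⟨s, h1, h2, -, -⟩ := hex p hp.1
    exact hp.2 h2 h1
  · intro y hy1 hy2
    obtain ⟨s, h1, h2, h3, h4⟩ := hex y hy1
    exact h4.subset (Set.Icc_subset_Icc_left h1.le)

theorem np_iff {x : X} : NP x ↔ ((∀ y, x ≤ y) ∨ LLim x) := by
  unfold NP LLim
  by_cases h : ∃ y, y < x
  · have h1 : ¬ ∀ y, x ≤ y := by
      intro h2
      obtain ⟨y, hy⟩ := h
      exact absurd (h2 y) (not_le.2 hy)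
    tauto
  · have h1 : ∀ y, x ≤ y := by
      intro y
      by_contra h2
      exact h ⟨y, not_le.1 h2⟩
    have h2 : ¬ ∃ y, y ⋖ x := by
      rintro ⟨y, hy⟩
      exact h ⟨y, hy.1⟩
    tauto

theorem ns_iff {x : X} : NS x ↔ (RLim x ∨ (∀ y, y ≤ x)) := by
  unfold NS RLim
  by_cases h : ∃ y, x < y
  · have h1 : ¬ ∀ y, y ≤ x := by
      intro h2
      obtain ⟨y, hy⟩ := h
      exact absurd (h2 y) (not_le.2 hy)
    tauto
  · have h1 : ∀ y, y ≤ x := by
      intro y
      by_contra h2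
      exact h ⟨y, not_le.1 h2⟩
    have h2 : ¬ ∃ y, x ⋖ y := by
      rintro ⟨y, hy⟩
      exact h ⟨y, hy.1⟩
    tauto

theorem start_iff {x : X} : Start x ↔ (NP x ∨ (NS x ∧ DnInf x)) := by
  unfold Start
  rw [np_iff, ns_iff]
  unfold DnInf
  tauto

/-- No start in the finite part above a start. -/
theorem not_start_of_fin {m y : X} (hm : Start m) (h : m < y) (hf : (Set.Icc m y).Finite) :
    ¬ Start y := by
  rw [start_iff] at hm ⊢
  obtain ⟨s, hs, -⟩ := succ_of_fin h hf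
  obtain ⟨p, hp, -⟩ := pred_of_fin h hf
  have hnp : NP m := hm.resolve_right (fun hc => hc.1 ⟨s, hs⟩)
  rintro (h1 | h1)
  · exact h1 ⟨p, hp⟩
  · obtain ⟨q, hq⟩ := ((dnInf_fin h.le hf).2 h1.2).pred
    exact hnp ⟨q, hq⟩

/-- `m` is the greatest start below `x`. -/
def IsLo (x m : X) : Prop := Start m ∧ m ≤ x ∧ ∀ s, Start s → s ≤ x → s ≤ m

theorem np_of_lub {S : Set X} {w : X} (hw : IsLUB S w) (h : w ∉ S) : NP w := by
  rintro ⟨p, hp⟩
  obtain ⟨s, hs, hps⟩ := (lt_isLUB_iff hw).1 hp.1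
  exact hp.2 hps (lt_of_le_of_ne (hw.1 hs) (by rintro rfl; exact h hs))

theorem exists_lo [Nonempty X] (hlub : ∀ S : Set X, S.Nonempty → ∃ m, IsLUB S m)
    (hglb : ∀ S : Set X, S.Nonempty → ∃ m, IsGLB S m) (x : X) : ∃ m, IsLo x m := by
  obtain ⟨b, hb⟩ := hglb Set.univ Set.univ_nonempty
  have hbs : Start b := Or.inl (fun y => hb.1 (Set.mem_univ y))
  have hne : {s | Start s ∧ s ≤ x}.Nonempty := ⟨b, hbs, hb.1 (Set.mem_univ x)⟩
  obtain ⟨w, hw⟩ := hlub {s | Start s ∧ s ≤ x} hne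
  have hwx : w ≤ x := hw.2 (fun s hs => hs.2)
  refine ⟨w, ?_, hwx, fun s h1 h2 => hw.1 ⟨h1, h2⟩⟩
  by_cases h : w ∈ {s | Start s ∧ s ≤ x}
  · exact h.1
  · exact start_iff.2 (Or.inl (np_of_lub hw h))

theorem lo_cases (hglb : ∀ S : Set X, S.Nonempty → ∃ m, IsGLB S m) {x m : X} (h : IsLo x m) :
    (Set.Icc m x).Finite ∨ ∃ e, m ≤ e ∧ e < x ∧ (Set.Icc m e).Finite ∧ NS e ∧ DnInf x ∧
      ∀ y, e < y → y ≤ x → (Set.Icc y x).Finite := by
  obtain ⟨hm, hmx, hmax⟩ := h
  by_cases hd : DnInf x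
  · rcases hmx.eq_or_lt with rfl | hlt
    · left; simp
    · right
      obtain ⟨z, hzx, hns, hfin⟩ := inf_dn hglb hd
      have hmz : m ≤ z := by
        by_contra hcon
        have hf := hfin m (not_le.1 hcon) hmx
        obtain ⟨s, hs, -⟩ := succ_of_fin hlt hf
        have hnp : NP m := (start_iff.1 hm).resolve_right (fun hc => hc.1 ⟨s, hs⟩)
        obtain ⟨q, hq⟩ := ((dnInf_fin hmx hf).2 hd).pred
        exact hnp ⟨q, hq⟩
      refine ⟨z, hmz, hzx, ?_, hns, hd, hfin⟩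
      by_cases hz : DnInf z
      · have : z ≤ m := hmax z (start_iff.2 (Or.inr ⟨hns, hz⟩)) hzx.le
        have h2 : z = m := le_antisymm this hmz
        rw [h2]; simp
      · obtain ⟨e, he1, he2, he3⟩ := end_dn hz
        have : e ≤ m := hmax e (start_iff.2 (Or.inl he3)) (he1.trans hzx.le)
        exact he2.subset (Set.Icc_subset_Icc_left this)
  · left
    obtain ⟨e, he1, he2, he3⟩ := end_dn hd
    have : e ≤ m := hmax e (start_iff.2 (Or.inl he3)) he1
    exact he2.subset (Set.Icc_subset_Icc_left this)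

theorem inPiece_iff {m x : X} : InPiece m x ↔ (m = x ∨ (¬ UpInf m ∧ m ≤ x ∧ (Set.Icc m x).Finite)) :=
  Iff.rfl

/-- The next start above a point outside the piece. -/
theorem next_start (hlub : ∀ S : Set X, S.Nonempty → ∃ m, IsLUB S m)
    (hglb : ∀ S : Set X, S.Nonempty → ∃ m, IsGLB S m) {x m : X} (h : IsLo x m)
    (hp : ¬ InPiece m x) : ∃ m', Start m' ∧ x < m' ∧ ∀ y, x < y → y < m' → ¬ Start y := by
  rw [inPiece_iff] at hp
  have hne : m ≠ x := fun hc => hp (Or.inl hc)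
  have hlt : m < x := lt_of_le_of_ne h.2.1 hne
  have hns : ¬ Start x := fun hc => absurd (h.2.2 x hc le_rfl) (not_le.2 hlt)
  by_cases hu : UpInf x
  · obtain ⟨z, hz1, hz2, hz3⟩ := sup_up hlub hu
    refine ⟨z, start_iff.2 (Or.inl hz2), hz1, ?_⟩
    intro y hy1 hy2 hys
    have hf := hz3 y hy1.le hy2
    obtain ⟨p, hp, -⟩ := pred_of_fin hy1 hf
    obtain ⟨s, hs⟩ := ((upInf_fin hy1.le hf).1 hu).succ
    rcases start_iff.1 hys with h1 | h1
    · exact h1 ⟨p, hp⟩
    · exact h1.1 ⟨s, hs⟩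
  · obtain ⟨e, he1, he2, he3⟩ := end_up hu
    have hd : DnInf x := by
      rcases lo_cases hglb h with h1 | ⟨_, _, _, _, _, h1, _⟩
      · exfalso
        apply hp
        right
        exact ⟨fun hc => hu ((upInf_fin h.2.1 h1).1 hc), h.2.1, h1⟩
      · exact h1
    have hde : DnInf e := (dnInf_fin he1 he2).1 hd
    have hes : Start e := start_iff.2 (Or.inr ⟨he3, hde⟩)
    have hxe : x < e := lt_of_le_of_ne he1 (by rintro rfl; exact hns hes)
    refine ⟨e, hes, hxe, ?_⟩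
    intro y hy1 hy2 hys
    obtain ⟨p, hp, -⟩ := pred_of_fin hy1 (he2.subset (Set.Icc_subset_Icc_right hy2.le))
    obtain ⟨s, hs, -⟩ := succ_of_fin hy2 (he2.subset (Set.Icc_subset_Icc_left hy1.le))
    rcases start_iff.1 hys with h1 | h1
    · exact h1 ⟨p, hp⟩
    · exact h1.1 ⟨s, hs⟩

theorem fin_of_inPiece {m x : X} (h : InPiece m x) : (Set.Icc m x).Finite := by
  rcases h with rfl | h
  · simp
  · exact h.2.2

theorem le_of_inPiece {m x : X} (h : InPiece m x) : m ≤ x := by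
  rcases h with rfl | h
  · exact le_rfl
  · exact h.2.1

theorem inPiece_convex {m x y : X} (h : InPiece m y) (h1 : m ≤ x) (h2 : x ≤ y) : InPiece m x := by
  rcases h with rfl | h
  · exact Or.inl (le_antisymm h1 h2)
  · exact Or.inr ⟨h.1, h1, h.2.2.subset (Set.Icc_subset_Icc_right h2)⟩

theorem lo_of_inPiece {m x : X} (hm : Start m) (h : InPiece m x) : IsLo x m := by
  refine ⟨hm, le_of_inPiece h, ?_⟩
  intro s hs hsx
  by_contra hcon
  have hlt : m < s := not_le.1 hcon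
  exact not_start_of_fin hm hlt
    ((fin_of_inPiece h).subset (Set.Icc_subset_Icc_right hsx)) hs

/-- Points between consecutive starts outside the piece are isolated. -/
theorem isol_of_gap (hglb : ∀ S : Set X, S.Nonempty → ∃ m, IsGLB S m) {m y : X}
    (h : IsLo y m) (hp : ¬ InPiece m y) : Isol y := by
  rw [inPiece_iff] at hp
  have hne : m ≠ y := fun hc => hp (Or.inl hc)
  have hlt : m < y := lt_of_le_of_ne h.2.1 hne
  have hns : ¬ Start y := fun hc => absurd (h.2.2 y hc le_rfl) (not_le.2 hlt)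
  constructor
  · intro hc
    exact hns (Or.inr (Or.inl hc))
  · intro hc
    have hn : NS y := ns_iff.2 (Or.inl hc)
    rcases lo_cases hglb h with h1 | ⟨_, _, _, _, _, h1, _⟩
    · apply hp
      right
      refine ⟨fun hc' => ?_, h.2.1, h1⟩
      exact hn ((upInf_fin h.2.1 h1).1 hc').succ
    · exact hns (start_iff.2 (Or.inr ⟨hn, h1⟩))

theorem isLo_of_between {m m' x : X} (hm : Start m) (hn : ∀ y, m < y → y < m' → ¬ Start y)
    (h1 : m ≤ x) (h2 : x < m') : IsLo x m := by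
  refine ⟨hm, h1, ?_⟩
  intro s hs hsx
  by_contra hcon
  exact hn s (not_le.1 hcon) (lt_of_le_of_lt hsx h2) hs

theorem not_inPiece_of_end {m e y : X} (h1 : m ≤ e) (hns : NS e) (h2 : e < y) :
    ¬ InPiece m y := by
  intro h
  obtain ⟨s, hs, -⟩ := succ_of_fin h2 ((fin_of_inPiece h).subset (Set.Icc_subset_Icc_left h1))
  exact hns ⟨s, hs⟩

theorem gap_nonempty {m m' : X} (hm : Start m) (hm' : Start m') (hlt : m < m') :
    ∃ y, m < y ∧ y < m' ∧ ¬ InPiece m y := by
  by_cases hu : UpInf m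
  · obtain ⟨s, hs⟩ := hu.succ
    have hf : (Set.Icc m s).Finite := icc_insert_right hs (by simp)
    have hsm : s ≤ m' := by
      by_contra hc
      exact hs.2 hlt (not_le.1 hc)
    refine ⟨s, hs.1, lt_of_le_of_ne hsm ?_, ?_⟩
    · rintro rfl
      exact not_start_of_fin hm hs.1 hf hm'
    · rintro (h | h)
      · exact hs.1.ne h
      · exact h.1 hu
  · obtain ⟨e, he1, he2, he3⟩ := end_up hu
    have hem : e < m' := by
      by_contra hc
      exact not_start_of_fin hm hlt (he2.subset (Set.Icc_subset_Icc_right (not_lt.1 hc))) hm'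
    have : ∃ y, e < y ∧ y < m' := by
      by_contra hc
      push Not at hc
      exact he3 ⟨m', hem, fun c h1 h2 => absurd h2 (not_lt.2 (hc c h1))⟩
    obtain ⟨y, h1, h2⟩ := this
    exact ⟨y, lt_of_le_of_lt he1 h1, h2, not_inPiece_of_end he1 he3 h1⟩

end C4

end Pool.Agent.Lib.MP_0f5a21_lc.H
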