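import Pool.Agent.Lib.MP_0f5a21_lc.H.Defs

/-!
Theorem H, verification, part 1: agreement of stages, births of pointers, dyadic positions.
-/

set_option autoImplicit false

namespace Pool.Agent.Lib.MP_0f5a21_lc.H

variable {D : Data} {k : ℕ} {b : ℕ → ℕ → Bool} {P : ℕ → ℕ → Option ℚ}

theorem Agree.refl (s n : ℕ) : Agree b s s n := fun _ _ => rfl

theorem Agree.symm {s t n : ℕ} (h : Agree b s t n) : Agree b t s n := fun j hj => (h j hj).symm

theorem Agree.trans {s t u n : ℕ} (h : Agree b s t n) (h' : Agree b t u n) : Agree b s u n :=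
  fun j hj => (h j hj).trans (h' j hj)

theorem Agree.mono {s t n m : ℕ} (h : Agree b s t n) (hm : m ≤ n) : Agree b s t m :=
  fun j hj => h j (by omega)

theorem LeftOf.mono {u s n m : ℕ} (h : LeftOf b u s n) (hm : n ≤ m) : LeftOf b u s m := by
  obtain ⟨j, hj, h1, h2, h3⟩ := h
  exact ⟨j, by omega, h1, h2, h3⟩

theorem LeftOf.congr {u s t n : ℕ} (h : LeftOf b u s n) (ha : Agree b s t n) : LeftOf b u t n := by
  obtain ⟨j, hj, h1, h2, h3⟩ := h
  exact ⟨j, hj, h1.trans (ha.mono (by omega)), h2, by rw [← ha j hj, h3]⟩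

theorem not_leftOf_of_agree {u s n : ℕ} (ha : Agree b u s n) : ¬ LeftOf b u s n := by
  rintro ⟨j, hj, _, h2, h3⟩
  rw [ha j hj, h3] at h2
  cases h2

/-! ### Multiples of powers of 1/2 -/

/-- `a` is a multiple of `2^(-e)`. -/
def Mul2 (e : ℕ) (a : ℚ) : Prop := ∃ z : ℤ, a = z / 2 ^ e

/-- `a` is an odd multiple of `2^(-e)`. -/
def Odd2 (e : ℕ) (a : ℚ) : Prop := ∃ z : ℤ, a = (2 * z + 1) / 2 ^ e

theorem Mul2.mono {e f : ℕ} {a : ℚ} (h : Mul2 e a) (hf : e ≤ f) : Mul2 f a := by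
  obtain ⟨z, rfl⟩ := h
  obtain ⟨d, rfl⟩ := Nat.exists_eq_add_of_le hf
  refine ⟨z * 2 ^ d, ?_⟩
  rw [pow_add]
  push_cast
  rw [div_eq_div_iff (by positivity) (by positivity)]
  ring

theorem Mul2.sub {e : ℕ} {a a' : ℚ} (h : Mul2 e a) (h' : Mul2 e a') : Mul2 e (a - a') := by
  obtain ⟨z, rfl⟩ := h
  obtain ⟨z', rfl⟩ := h'
  exact ⟨z - z', by push_cast; ring⟩

theorem Mul2.add {e : ℕ} {a a' : ℚ} (h : Mul2 e a) (h' : Mul2 e a') : Mul2 e (a + a') := by
  obtain ⟨z, rfl⟩ := h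
  obtain ⟨z', rfl⟩ := h'
  exact ⟨z + z', by push_cast; ring⟩

theorem mul2_one (e : ℕ) : Mul2 e (1 / 2 ^ e) := ⟨1, by push_cast; ring⟩

theorem mul2_nat (e n : ℕ) : Mul2 e (n : ℚ) := by
  have h : Mul2 0 (n : ℚ) := ⟨n, by simp⟩
  exact h.mono (Nat.zero_le _)

theorem Mul2.gap {e : ℕ} {a a' : ℚ} (h : Mul2 e a) (h' : Mul2 e a') (hlt : a < a') :
    a + 1 / 2 ^ e ≤ a' := by
  obtain ⟨z, rfl⟩ := h
  obtain ⟨z', rfl⟩ := h'
  have hp : (0 : ℚ) < 2 ^ e := by positivity
  rw [div_lt_div_iff_of_pos_right hp] at hlt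
  have h1 : z < z' := by exact_mod_cast hlt
  have h2 : z + 1 ≤ z' := by omega
  rw [← add_div, div_le_div_iff_of_pos_right hp]
  exact_mod_cast h2

/-- Comparison of multiples of `2^(-e)` up to less than one unit. -/
theorem Mul2.le_of_lt {e : ℕ} {a a' d : ℚ} (h : Mul2 e a) (h' : Mul2 e a') (hd : d < 1 / 2 ^ e)
    (hlt : a ≤ a' + d) : a ≤ a' := by
  by_contra hc
  have := h'.gap h (not_le.1 hc)
  linarith

theorem Odd2.mul2 {e : ℕ} {a : ℚ} (h : Odd2 e a) : Mul2 e a := by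
  obtain ⟨z, rfl⟩ := h
  exact ⟨2 * z + 1, by push_cast; ring⟩

theorem Odd2.not_mul2 {e f : ℕ} {a : ℚ} (h : Odd2 e a) (hf : f < e) : ¬ Mul2 f a := by
  rintro hm
  have hm' := hm.mono (show f ≤ e - 1 by omega)
  obtain ⟨z, hz⟩ := h
  obtain ⟨w, hw⟩ := hm'
  obtain ⟨g, rfl⟩ : ∃ g, e = g + 1 := ⟨e - 1, by omega⟩
  have hg : g + 1 - 1 = g := by omega
  rw [hg] at hw
  rw [hw, div_eq_div_iff (by positivity) (by positivity), pow_succ] at hz
  have hp : (2 : ℚ) ^ g ≠ 0 := by positivity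
  have h1 : (w : ℚ) * 2 = 2 * z + 1 := by
    apply mul_right_cancel₀ hp
    linarith
  have h2 : w * 2 = 2 * z + 1 := by exact_mod_cast h1
  omega

theorem Odd2.unique {e f : ℕ} {a : ℚ} (h : Odd2 e a) (h' : Odd2 f a) : e = f := by
  rcases Nat.lt_trichotomy e f with hlt | heq | hgt
  · exact absurd h.mul2 (h'.not_mul2 hlt)
  · exact heq
  · exact absurd h'.mul2 (h.not_mul2 hgt)

theorem odd2_sub {e f : ℕ} {a : ℚ} (h : Mul2 e a) (hf : e < f) : Odd2 f (a - 1 / 2 ^ f) := by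
  obtain ⟨z, hz⟩ := h.mono (show e ≤ f - 1 by omega)
  obtain ⟨g, rfl⟩ : ∃ g, f = g + 1 := ⟨f - 1, by omega⟩
  have hg : g + 1 - 1 = g := by omega
  rw [hg] at hz
  refine ⟨z - 1, ?_⟩
  rw [hz, pow_succ]
  push_cast
  field_simp
  ring

theorem odd2_add {e f : ℕ} {a : ℚ} (h : Mul2 e a) (hf : e < f) : Odd2 f (a + 1 / 2 ^ f) := by
  obtain ⟨z, hz⟩ := h.mono (show e ≤ f - 1 by omega)
  obtain ⟨g, rfl⟩ : ∃ g, f = g + 1 := ⟨f - 1, by omega⟩
  have hg : g + 1 - 1 = g := by omega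
  rw [hg] at hz
  refine ⟨z, ?_⟩
  rw [hz, pow_succ]
  field_simp

theorem pow_lt_aux {e f : ℕ} (h : e < f) : (1 : ℚ) / 2 ^ f < 1 / 2 ^ e := by
  apply one_div_lt_one_div_of_lt (by positivity)
  exact pow_lt_pow_right₀ (by norm_num) h

theorem pow_add_aux (s : ℕ) : (1 : ℚ) / 2 ^ (3 * s + 1) + 1 / 2 ^ (3 * s + 3) < 1 / 2 ^ (3 * s) := by
  have hp : (0 : ℚ) < 2 ^ (3 * s) := by positivity
  rw [pow_add, pow_add]
  have : (1 : ℚ) / (2 ^ (3 * s) * 2 ^ 1) + 1 / (2 ^ (3 * s) * 2 ^ 3) = (5 / 8) * (1 / 2 ^ (3 * s)) := by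
    ring
  rw [this]
  have h2 : (0 : ℚ) < 1 / 2 ^ (3 * s) := by positivity
  linarith

/-! ### Births -/

theorem bit_of_some (hR : Run D k b P) {s i : ℕ} {a : ℚ} (h : P s i = some a) : b s i = true := by
  cases hb : b s i
  · rw [hR.off s i hb] at h
    cases h
  · rfl

theorem lt_of_some (hR : Run D k b P) {s i : ℕ} {a : ℚ} (hk : k ≤ i) (h : P s i = some a) :
    i < s := ((hR.vis s i hk).1 (bit_of_some hR h)).1

/-- `t` is the birth stage of the pointer `a` of node `i` of stage `s`. -/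
structure Birth (D : Data) (b : ℕ → ℕ → Bool) (P : ℕ → ℕ → Option ℚ) (s i : ℕ) (a : ℚ) (t : ℕ) :
    Prop where
  le : t ≤ s
  agree : Agree b s t (i + 1)
  old : ∀ j, j < i → P t j = P s j
  val : P t i = some a
  fresh : ∀ a', ¬ Retained b P t i a'
  alone : ∀ j, j < i → ¬ New b P t j
  place : Place D P t i a
  noleft : ∀ u, t < u → u < s → ¬ LeftOf b u s i

theorem exists_birth (hR : Run D k b P) (s : ℕ) : ∀ i a, k ≤ i → P s i = some a →
    ∃ t, Birth D b P s i a t := by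
  induction s using Nat.strong_induction_on with
  | _ s ih =>
    intro i a hi ha
    have hb := bit_of_some hR ha
    by_cases hret : ∃ a', Retained b P s i a'
    · obtain ⟨a', h'⟩ := hret
      have h1 := hR.keep s i a' hi hb h'
      have h2 : a' = a := by rw [ha] at h1; exact (Option.some.inj h1).symm
      subst h2
      obtain ⟨t, hts, hag, hold, hval, hnl⟩ := h'
      obtain ⟨t', B⟩ := ih t hts i a' hi hval
      refine ⟨t', ?_, hag.trans B.agree, fun j hj => (B.old j hj).trans (hold j hj), B.val, B.fresh,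
        B.alone, B.place, ?_⟩
      · exact le_trans B.le hts.le
      · intro u hu hus hleft
        rcases Nat.lt_trichotomy u t with h | h | h
        · exact B.noleft u hu h (hleft.congr (hag.mono (by omega)))
        · subst h
          exact not_leftOf_of_agree ((hag.mono (by omega)).symm) hleft
        · exact hnl u h hus hleft
    · have hno : ∀ a', ¬ Retained b P s i a' := fun a' h' => hret ⟨a', h'⟩
      have hal : ∀ j, j < i → ¬ New b P s j := by
        intro j hj hn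
        have := hR.wait s i hi hb hno ⟨j, hj, hn⟩
        rw [ha] at this
        cases this
      exact ⟨s, le_rfl, Agree.refl _ _, fun _ _ => rfl, ha, hno, hal,
        (hR.put s i a hi hb hno hal).1 ha, fun u h1 h2 => by omega⟩

/-- A pointer which is not new comes from an earlier stage. -/
theorem old_of_not_new {s j : ℕ} {x : ℚ} (h : ¬ New b P s j) (hx : P s j = some x) :
    ∃ t, t < s ∧ P t j = some x := by
  have h1 : Retained b P s j x := by
    by_contra hc
    exact h ⟨x, hx, hc⟩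
  obtain ⟨t, hts, _, _, hv, _⟩ := h1
  exact ⟨t, hts, hv⟩

theorem ptr_mul2 (hR : Run D k b P) (s : ℕ) : ∀ i a, P s i = some a → Mul2 (3 * s + 1) a := by
  induction s using Nat.strong_induction_on with
  | _ s ih =>
    intro i a ha
    by_cases hi : i < k
    · rw [hR.base_P s i hi] at ha
      rw [← Option.some.inj ha]
      have := mul2_nat (3 * s + 1) (i + 1)
      push_cast at this
      exact this
    · have hi' : k ≤ i := by omega
      obtain ⟨t, B⟩ := exists_birth hR s i a hi' ha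
      rcases Nat.lt_or_ge t s with hts | hts
      · exact (ih t hts i a B.val).mono (by omega)
      · have hts' : t = s := le_antisymm B.le hts
        subst hts'
        obtain ⟨j₁, j₂, a₁, a₂, hN, _, hs⟩ := B.place
        obtain ⟨h1, h2, h3, h4, _, _⟩ := hN
        obtain ⟨t₁, ht₁, hv₁⟩ := old_of_not_new (B.alone j₁ h1) h3
        obtain ⟨t₂, ht₂, hv₂⟩ := old_of_not_new (B.alone j₂ h2) h4
        have m₁ := (ih t₁ ht₁ _ _ hv₁).mono (show 3 * t₁ + 1 ≤ 3 * t + 1 by omega)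
        have m₂ := (ih t₂ ht₂ _ _ hv₂).mono (show 3 * t₂ + 1 ≤ 3 * t + 1 by omega)
        rw [hs]
        unfold spot
        split_ifs
        · exact m₂.sub (mul2_one _)
        · exact m₁.add (mul2_one _)

theorem old_mul2 (hR : Run D k b P) {t s i : ℕ} {a : ℚ} (h : P t i = some a) (hts : t < s) :
    Mul2 (3 * s) a := (ptr_mul2 hR t i a h).mono (by omega)

theorem notnew_mul2 (hR : Run D k b P) {s j : ℕ} {x : ℚ} (h : ¬ New b P s j)
    (hx : P s j = some x) : Mul2 (3 * s) x := by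
  obtain ⟨t, hts, hv⟩ := old_of_not_new h hx
  exact old_mul2 hR hv hts

/-- The new position lies strictly between the two old ones. -/
theorem spot_between {s j₁ j₂ : ℕ} {a₁ a₂ : ℚ} (m₁ : Mul2 (3 * s) a₁) (m₂ : Mul2 (3 * s) a₂)
    (h : a₁ < a₂) : a₁ < spot D s j₁ j₂ a₁ a₂ ∧ spot D s j₁ j₂ a₁ a₂ < a₂ := by
  have h1 := m₁.gap m₂ h
  have h2 : (1 : ℚ) / 2 ^ (3 * s + 1) < 1 / 2 ^ (3 * s) := pow_lt_aux (by omega)
  have h3 : (0 : ℚ) < 1 / 2 ^ (3 * s + 1) := by positivity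
  unfold spot
  split_ifs
  · constructor <;> linarith
  · constructor <;> linarith

/-- A birth: the data of the placement. -/
theorem birth_data (hR : Run D k b P) {s i t : ℕ} {a : ℚ} (B : Birth D b P s i a t) :
    ∃ j₁ j₂ a₁ a₂, Nbrs D P t i j₁ j₂ a₁ a₂ ∧ Soft D i j₁ j₂ ∧ a = spot D t j₁ j₂ a₁ a₂ ∧
      Mul2 (3 * t) a₁ ∧ Mul2 (3 * t) a₂ ∧ a₁ < a ∧ a < a₂ := by
  obtain ⟨j₁, j₂, a₁, a₂, hN, hS, hs⟩ := B.place
  have m₁ := notnew_mul2 hR (B.alone j₁ hN.1) hN.2.2.1
  have m₂ := notnew_mul2 hR (B.alone j₂ hN.2.1) hN.2.2.2.1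
  have h := spot_between (D := D) (j₁ := j₁) (j₂ := j₂) m₁ m₂ hN.2.2.2.2.1
  rw [← hs] at h
  exact ⟨j₁, j₂, a₁, a₂, hN, hS, hs, m₁, m₂, h.1, h.2⟩

theorem birth_odd2 (hR : Run D k b P) {s i t : ℕ} {a : ℚ} (B : Birth D b P s i a t) :
    Odd2 (3 * t + 1) a := by
  obtain ⟨j₁, j₂, a₁, a₂, hN, hS, hs, m₁, m₂, _, _⟩ := birth_data hR B
  rw [hs]
  unfold spot
  split_ifs
  · exact odd2_sub m₂ (by omega)
  · exact odd2_add m₁ (by omega)

theorem ptr_bounds (hR : Run D k b P) (s : ℕ) : ∀ i a, P s i = some a →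
    1 ≤ a ∧ a ≤ k ∧ (k ≤ i → 1 < a ∧ a < k) := by
  induction s using Nat.strong_induction_on with
  | _ s ih =>
    intro i a ha
    by_cases hi : i < k
    · rw [hR.base_P s i hi] at ha
      rw [← Option.some.inj ha]
      refine ⟨?_, ?_, fun h => by omega⟩
      · have : (0 : ℚ) ≤ i := by positivity
        linarith
      · have : ((i + 1 : ℕ) : ℚ) ≤ k := by exact_mod_cast hi
        push_cast at this
        exact this
    · have hi' : k ≤ i := by omega
      obtain ⟨t, B⟩ := exists_birth hR s i a hi' ha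
      obtain ⟨j₁, j₂, a₁, a₂, hN, hS, hs, m₁, m₂, h1, h2⟩ := birth_data hR B
      obtain ⟨t₁, ht₁, hv₁⟩ := old_of_not_new (B.alone j₁ hN.1) hN.2.2.1
      obtain ⟨t₂, ht₂, hv₂⟩ := old_of_not_new (B.alone j₂ hN.2.1) hN.2.2.2.1
      have b₁ := ih t₁ (lt_of_lt_of_le ht₁ B.le) _ _ hv₁
      have b₂ := ih t₂ (lt_of_lt_of_le ht₂ B.le) _ _ hv₂
      have h3 : 1 < a := lt_of_le_of_lt b₁.1 h1
      have h4 : a < k := lt_of_lt_of_le h2 b₂.2.1
      exact ⟨h3.le, h4.le, fun _ => ⟨h3, h4⟩⟩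

/-- A position determines its index. -/
theorem ptr_inj (hR : Run D k b P) {s s' i i' : ℕ} {a : ℚ} (h : P s i = some a)
    (h' : P s' i' = some a) : i = i' := by
  by_cases hi : i < k
  · by_cases hi' : i' < k
    · rw [hR.base_P s i hi] at h
      rw [hR.base_P s' i' hi'] at h'
      have := (Option.some.inj h).trans (Option.some.inj h').symm
      have h2 : (i : ℚ) = i' := by linarith
      exact_mod_cast h2
    · exfalso
      obtain ⟨t, B⟩ := exists_birth hR s' i' a (by omega) h'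
      have ho := birth_odd2 hR B
      rw [hR.base_P s i hi] at h
      apply ho.not_mul2 (show 0 < 3 * t + 1 by omega)
      rw [← Option.some.inj h]
      have := mul2_nat 0 (i + 1)
      push_cast at this
      exact this
  · by_cases hi' : i' < k
    · exfalso
      obtain ⟨t, B⟩ := exists_birth hR s i a (by omega) h
      have ho := birth_odd2 hR B
      rw [hR.base_P s' i' hi'] at h'
      apply ho.not_mul2 (show 0 < 3 * t + 1 by omega)
      rw [← Option.some.inj h']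
      have := mul2_nat 0 (i' + 1)
      push_cast at this
      exact this
    · obtain ⟨t, B⟩ := exists_birth hR s i a (by omega) h
      obtain ⟨t', B'⟩ := exists_birth hR s' i' a (by omega) h'
      have ht : t = t' := by
        have := (birth_odd2 hR B).unique (birth_odd2 hR B')
        omega
      subst ht
      rcases Nat.lt_trichotomy i i' with hlt | heq | hgt
      · exact absurd ⟨a, B.val, B.fresh a⟩ (B'.alone i hlt)
      · exact heq
      · exact absurd ⟨a, B'.val, B'.fresh a⟩ (B.alone i' hgt)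

end Pool.Agent.Lib.MP_0f5a21_lc.H
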