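import Pool.Agent.Lib.MP_0f5a21_lc.H.Verify1

/-!
Theorem H, verification, part 2: the true path, final pointers, their order.
-/

set_option autoImplicit false

namespace Pool.Agent.Lib.MP_0f5a21_lc.H

variable {D : Data} {k : ℕ} {M : Type} [LinearOrder M] {ρ : ℕ → M} {lab : M → ℕ}
  {hl hr : M → Bool} {b : ℕ → ℕ → Bool} {P : ℕ → ℕ → Option ℚ}

/-- The first `n` bits of stage `s` are the true ones. -/
def TP (D : Data) (b : ℕ → ℕ → Bool) (n s : ℕ) : Prop := ∀ j, j < n → (b s j = true ↔ D.Real j)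

theorem TP.mono {n m s : ℕ} (h : TP D b n s) (hm : m ≤ n) : TP D b m s := fun j hj => h j (by omega)

theorem TP.agree {n s t : ℕ} (h : TP D b n s) (h' : TP D b n t) : Agree b s t n := by
  intro j hj
  have h1 := h j hj
  have h2 := h' j hj
  cases h3 : b s j <;> cases h4 : b t j
  · rfl
  · rw [h3] at h1
    rw [h4] at h2
    exact absurd (h1.2 (h2.1 rfl)) (by simp)
  · rw [h3] at h1
    rw [h4] at h2
    exact absurd (h2.2 (h1.1 rfl)) (by simp)
  · rfl

theorem TP.congr {n s t : ℕ} (h : TP D b n s) (ha : Agree b s t n) : TP D b n t := by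
  intro j hj
  rw [← ha j hj]
  exact h j hj

theorem TP.succ {n s : ℕ} (h : TP D b n s) (h' : b s n = true ↔ D.Real n) : TP D b (n + 1) s := by
  intro j hj
  by_cases hjn : j < n
  · exact h j hjn
  · have : j = n := by omega
    subst this
    exact h'

theorem tp_main (hG : D.BGood k M ρ lab hl hr) (hR : Run D k b P) (n : ℕ) :
    (∀ N, ∃ s, N ≤ s ∧ TP D b n s) ∧
    ∃ s₀, ∀ s, s₀ ≤ s → ¬ ∃ j, j < n ∧ TP D b j s ∧ ¬ D.Real j ∧ b s j = true := by
  induction n with
  | zero =>
    refine ⟨fun N => ⟨N, le_rfl, fun j hj => absurd hj (by omega)⟩, 0, fun s _ => ?_⟩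
    rintro ⟨j, hj, _⟩
    omega
  | succ n ih =>
    obtain ⟨hinf, s₀, hleft⟩ := ih
    by_cases hreal : D.Real n
    · refine ⟨?_, s₀, fun s hs => ?_⟩
      · intro N
        by_cases hn : n < k
        · obtain ⟨s, hs, hT⟩ := hinf N
          exact ⟨s, hs, hT.succ (by simp [hR.base_b s n hn, hreal])⟩
        · by_contra hc
          have hc' : ∀ s, N ≤ s → TP D b n s → b s n = false := by
            intro s hs hT
            cases hb : b s n
            · rfl
            · exact absurd ⟨s, hs, hT.succ (by simp [hb, hreal])⟩ hc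
          obtain ⟨s', hs'⟩ := hreal (D.c n N + 1)
          obtain ⟨s, hs, hT⟩ := hinf (N + s' + n + 1)
          have hb := hc' s (by omega) hT
          have hb' : b s n = true := by
            apply (hR.vis s n (by omega)).2
            refine ⟨by omega, fun t ht hag hbt => ?_⟩
            by_cases htN : t < N
            · have h1 : D.c n t ≤ D.c n N := hG.sound.cmono n (by omega)
              have h2 : D.c n s' ≤ D.c n s := hG.sound.cmono n (by omega)
              omega
            · have := hc' t (by omega) (hT.congr hag)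
              rw [this] at hbt
              cases hbt
          rw [hb] at hb'
          cases hb'
      · rintro ⟨j, hj, hT, hnr, hb⟩
        by_cases hjn : j = n
        · subst hjn
          exact hnr hreal
        · exact hleft s hs ⟨j, by omega, hT, hnr, hb⟩
    · have hnk : k ≤ n := by
        by_contra hc
        exact hreal (hG.base_real n (by omega))
      have hbd : ∃ B, ∀ s, D.c n s < B := by
        unfold Data.Real at hreal
        push Not at hreal
        exact hreal
      obtain ⟨B, hB⟩ := hbd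
      have hfin : ∃ s₁, ∀ s, s₁ ≤ s → ¬ (TP D b n s ∧ b s n = true) := by
        by_contra hc
        push Not at hc
        have key : ∀ m, ∃ s, TP D b n s ∧ b s n = true ∧ m ≤ D.c n s := by
          intro m
          induction m with
          | zero =>
            obtain ⟨s, _, h1, h2⟩ := hc 0
            exact ⟨s, h1, h2, Nat.zero_le _⟩
          | succ m ihm =>
            obtain ⟨s, h1, h2, h3⟩ := ihm
            obtain ⟨s', hs', h1', h2'⟩ := hc (s + 1)
            refine ⟨s', h1', h2', ?_⟩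
            have := ((hR.vis s' n hnk).1 h2').2 s (by omega) (h1'.agree h1) h2
            omega
        obtain ⟨s, _, _, h3⟩ := key B
        have := hB s
        omega
      obtain ⟨s₁, hs₁⟩ := hfin
      refine ⟨?_, s₀ + s₁, fun s hs => ?_⟩
      · intro N
        obtain ⟨s, hs, hT⟩ := hinf (N + s₁)
        refine ⟨s, by omega, hT.succ ?_⟩
        constructor
        · intro hb
          exact absurd ⟨hT, hb⟩ (hs₁ s (by omega))
        · intro hr'
          exact absurd hr' hreal
      · rintro ⟨j, hj, hT, hnr, hb⟩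
        by_cases hjn : j = n
        · subst hjn
          exact hs₁ s (by omega) ⟨hT, hb⟩
        · exact hleft s (by omega) ⟨j, by omega, hT, hnr, hb⟩

/-- No later stage is left of the true path below `n`. -/
theorem no_left (hG : D.BGood k M ρ lab hl hr) (hR : Run D k b P) (n : ℕ) :
    ∃ s₀, ∀ u, s₀ ≤ u → ∀ s, TP D b n s → ¬ LeftOf b u s n := by
  obtain ⟨_, s₀, hleft⟩ := tp_main hG hR n
  refine ⟨s₀, fun u hu s hT hL => ?_⟩
  obtain ⟨j, hj, hag, h1, h2⟩ := hL
  apply hleft u hu
  refine ⟨j, hj, (hT.mono (by omega)).congr hag.symm, ?_, h1⟩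
  intro hr'
  have := (hT j hj).2 hr'
  rw [h2] at this
  cases this

/-- The pointers on the true path settle. -/
theorem settle (hG : D.BGood k M ρ lab hl hr) (hR : Run D k b P) (n : ℕ) :
    ∃ s₁, ∀ i, i < n → ∀ s s', s₁ ≤ s → s₁ ≤ s' → TP D b (i + 1) s → TP D b (i + 1) s' →
      P s i = P s' i := by
  induction n with
  | zero => exact ⟨0, fun i hi => absurd hi (by omega)⟩
  | succ n ih =>
    obtain ⟨s₁, hs₁⟩ := ih
    obtain ⟨s₀, hs₀⟩ := no_left hG hR n
    have key : ∃ s₂, ∀ s s', s₂ ≤ s → s₂ ≤ s' → TP D b (n + 1) s → TP D b (n + 1) s' →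
        P s n = P s' n := by
      by_cases hnk : n < k
      · exact ⟨0, fun s s' _ _ _ _ => by rw [hR.base_P s n hnk, hR.base_P s' n hnk]⟩
      by_cases hreal : D.Real n
      · by_cases hex : ∃ s a, s₀ + s₁ ≤ s ∧ TP D b (n + 1) s ∧ P s n = some a
        · obtain ⟨t, a, ht, hTt, hPt⟩ := hex
          have all : ∀ s, t ≤ s → TP D b (n + 1) s → P s n = some a := by
            intro s hs hT
            rcases Nat.eq_or_lt_of_le hs with heq | hlt
            · rw [← heq]
              exact hPt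
            · apply hR.keep s n a (by omega) ((hT n (by omega)).2 hreal)
              refine ⟨t, hlt, hT.agree hTt, fun j hj => ?_, hPt, fun u hu1 hu2 => ?_⟩
              · exact hs₁ j hj t s (by omega) (by omega) (hTt.mono (by omega)) (hT.mono (by omega))
              · exact hs₀ u (by omega) s (hT.mono (by omega))
          exact ⟨t, fun s s' h1 h2 h3 h4 => by rw [all s h1 h3, all s' h2 h4]⟩
        · refine ⟨s₀ + s₁, fun s s' h1 h2 h3 h4 => ?_⟩
          cases h5 : P s n with
          | some a => exact absurd ⟨s, a, h1, h3, h5⟩ hex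
          | none =>
            cases h6 : P s' n with
            | some a => exact absurd ⟨s', a, h2, h4, h6⟩ hex
            | none => rfl
      · refine ⟨0, fun s s' _ _ h3 h4 => ?_⟩
        have : ∀ s, TP D b (n + 1) s → P s n = none := by
          intro s hT
          apply hR.off
          cases hb : b s n
          · rfl
          · exact absurd ((hT n (by omega)).1 hb) hreal
        rw [this s h3, this s' h4]
    obtain ⟨s₂, hs₂⟩ := key
    refine ⟨s₁ + s₂, fun i hi s s' h1 h2 h3 h4 => ?_⟩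
    by_cases hin : i < n
    · exact hs₁ i hin s s' (by omega) (by omega) h3 h4
    · have : i = n := by omega
      subst this
      exact hs₂ s s' (by omega) (by omega) h3 h4

/-- `a` is the final pointer of the real marker `i`. -/
def Fin' (D : Data) (b : ℕ → ℕ → Bool) (P : ℕ → ℕ → Option ℚ) (i : ℕ) (a : ℚ) : Prop :=
  D.Real i ∧ ∃ s₁, ∀ s, s₁ ≤ s → TP D b (i + 1) s → P s i = some a

theorem fin_base (hG : D.BGood k M ρ lab hl hr) (hR : Run D k b P) {i : ℕ} (hi : i < k) :
    Fin' D b P i ((i : ℚ) + 1) :=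
  ⟨hG.base_real i hi, 0, fun s _ _ => hR.base_P s i hi⟩

theorem fin_unique (hG : D.BGood k M ρ lab hl hr) (hR : Run D k b P) {i : ℕ} {a a' : ℚ}
    (h : Fin' D b P i a) (h' : Fin' D b P i a') : a = a' := by
  obtain ⟨_, s₁, h1⟩ := h
  obtain ⟨_, s₂, h2⟩ := h'
  obtain ⟨s, hs, hT⟩ := (tp_main hG hR (i + 1)).1 (s₁ + s₂)
  have := (h1 s (by omega) hT).symm.trans (h2 s (by omega) hT)
  exact Option.some.inj this

/-- Late true stages show the final pointers. -/
theorem late (hG : D.BGood k M ρ lab hl hr) (hR : Run D k b P) (n : ℕ) :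
    ∃ s₁, ∀ s, s₁ ≤ s → TP D b n s → ∀ j, j < n → ∀ x, (P s j = some x ↔ Fin' D b P j x) := by
  obtain ⟨s₁, hs₁⟩ := settle hG hR n
  refine ⟨s₁, fun s hs hT j hj x => ?_⟩
  constructor
  · intro h
    have hreal : D.Real j := (hT j hj).1 (bit_of_some hR h)
    refine ⟨hreal, s₁, fun s' hs' hT' => ?_⟩
    rw [hs₁ j hj s' s hs' hs hT' (hT.mono (by omega))]
    exact h
  · rintro ⟨hreal, s₂, h2⟩
    obtain ⟨s', hs', hT'⟩ := (tp_main hG hR (j + 1)).1 (s₁ + s₂)
    rw [hs₁ j hj s s' hs (by omega) (hT.mono (by omega)) hT']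
    exact h2 s' (by omega) hT'

/-- The birth of a final pointer. -/
theorem fin_birth (hG : D.BGood k M ρ lab hl hr) (hR : Run D k b P) {i : ℕ} {a : ℚ}
    (h : Fin' D b P i a) (hi : k ≤ i) :
    ∃ t, i < t ∧ TP D b (i + 1) t ∧ P t i = some a ∧
      (∀ j, j < i → ∀ x, (P t j = some x ↔ Fin' D b P j x)) ∧
      ∃ j₁ j₂ a₁ a₂, Nbrs D P t i j₁ j₂ a₁ a₂ ∧ Soft D i j₁ j₂ ∧ a = spot D t j₁ j₂ a₁ a₂ ∧
      Mul2 (3 * t) a₁ ∧ Mul2 (3 * t) a₂ ∧ a₁ < a ∧ a < a₂ := by
  obtain ⟨s₁, hs₁⟩ := late hG hR (i + 1)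
  obtain ⟨s, hs, hT⟩ := (tp_main hG hR (i + 1)).1 s₁
  have ha : P s i = some a := (hs₁ s hs hT i (by omega) a).2 h
  obtain ⟨t, B⟩ := exists_birth hR s i a hi ha
  refine ⟨t, lt_of_some hR hi B.val, hT.congr B.agree, B.val, fun j hj x => ?_, birth_data hR B⟩
  rw [B.old j hj]
  exact hs₁ s hs hT j (by omega) x

theorem fin_real {i : ℕ} {a : ℚ} (h : Fin' D b P i a) : D.Real i := h.1

theorem fin_some (hG : D.BGood k M ρ lab hl hr) (hR : Run D k b P) {i : ℕ} {a : ℚ}
    (h : Fin' D b P i a) (N : ℕ) : ∃ s, N ≤ s ∧ TP D b (i + 1) s ∧ P s i = some a := by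
  obtain ⟨_, s₁, h1⟩ := h
  obtain ⟨s, hs, hT⟩ := (tp_main hG hR (i + 1)).1 (s₁ + N)
  exact ⟨s, by omega, hT, h1 s (by omega) hT⟩

/-- The order of the final pointers is the order of the markers. -/
theorem fin_order_aux (hG : D.BGood k M ρ lab hl hr) (hR : Run D k b P) {i j : ℕ} {a x : ℚ}
    (h : Fin' D b P i a) (h' : Fin' D b P j x) (hij : j < i) :
    (ρ j < ρ i ∧ x < a) ∨ (ρ i < ρ j ∧ a < x) := by
  by_cases hi : i < k
  · left
    have h1 := fin_unique hG hR h (fin_base hG hR hi)
    have h2 := fin_unique hG hR h' (fin_base hG hR (show j < k by omega))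
    refine ⟨hG.base_mono j i hij hi, ?_⟩
    rw [h1, h2]
    have : (j : ℚ) < i := by exact_mod_cast hij
    linarith
  · obtain ⟨t, _, hT, hv, hold, j₁, j₂, a₁, a₂, hN, _, _, _, _, h1, h2⟩ :=
      fin_birth hG hR h (by omega)
    have hx : P t j = some x := (hold j hij x).2 h'
    rcases hN.2.2.2.2.2 j hij x hx with ⟨h3, h4, _⟩ | ⟨h3, h4, _⟩
    · left
      exact ⟨hG.sound.lt_sound j i t h'.1 h.1 h4, lt_of_le_of_lt h3 h1⟩
    · right
      exact ⟨hG.sound.lt_sound i j t h.1 h'.1 h4, lt_of_lt_of_le h2 h3⟩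

theorem fin_order (hG : D.BGood k M ρ lab hl hr) (hR : Run D k b P) {i j : ℕ} {a x : ℚ}
    (h : Fin' D b P i a) (h' : Fin' D b P j x) :
    (i = j ∧ a = x) ∨ (ρ i < ρ j ∧ a < x) ∨ (ρ j < ρ i ∧ x < a) := by
  rcases Nat.lt_trichotomy i j with hlt | heq | hgt
  · rcases fin_order_aux hG hR h' h hlt with h1 | h1
    · exact Or.inr (Or.inl h1)
    · exact Or.inr (Or.inr h1)
  · subst heq
    exact Or.inl ⟨rfl, fin_unique hG hR h h'⟩
  · rcases fin_order_aux hG hR h h' hgt with h1 | h1
    · exact Or.inr (Or.inr h1)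
    · exact Or.inr (Or.inl h1)

theorem fin_lt_iff (hG : D.BGood k M ρ lab hl hr) (hR : Run D k b P) {i j : ℕ} {a x : ℚ}
    (h : Fin' D b P i a) (h' : Fin' D b P j x) : ρ i < ρ j ↔ a < x := by
  rcases fin_order hG hR h h' with ⟨h1, h2⟩ | h1 | h1
  · subst h1
    subst h2
    simp
  · exact ⟨fun _ => h1.2, fun _ => h1.1⟩
  · exact ⟨fun h2 => absurd h2 h1.1.not_gt, fun h2 => absurd h2 h1.2.not_gt⟩

theorem fin_eq_of (hG : D.BGood k M ρ lab hl hr) (hR : Run D k b P) {i j : ℕ} {a x : ℚ}
    (h : Fin' D b P i a) (h' : Fin' D b P j x) (he : ρ i = ρ j) : i = j ∧ a = x := by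
  rcases fin_order hG hR h h' with h1 | h1 | h1
  · exact h1
  · exact absurd he h1.1.ne
  · exact absurd he h1.1.ne'

end Pool.Agent.Lib.MP_0f5a21_lc.H
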