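import Pool.Agent.Lib.MP_0f5a21_lc.H.Verify2

/-!
Theorem H, verification, part 3: every marker gets a final pointer; the atoms between the final
pointers.
-/

set_option autoImplicit false

namespace Pool.Agent.Lib.MP_0f5a21_lc.H

variable {D : Data} {k : ℕ} {M : Type} [LinearOrder M] {ρ : ℕ → M} {lab : M → ℕ}
  {hl hr : M → Bool} {b : ℕ → ℕ → Bool} {P : ℕ → ℕ → Option ℚ}

theorem side_aux {N : Type} [LinearOrder N] (hglb : ∀ S : Set N, S.Nonempty → ∃ m, IsGLB S m)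
    (l r : N → Bool) (hr_next : ∀ m, r m = true → ∃ m', m ⋖ m')
    (hl_prev : ∀ m, l m = true → ∃ m', m' ⋖ m ∧ r m' = false)
    (Pl : Set N)
    (hside : ∀ u, u ∉ Pl → r u = false → l u = true ∧
      ∀ x ∈ Pl, x < u → ∃ x' ∈ Pl, x ≤ x' ∧ x' < u ∧ r x' = true)
    (m : N) (hm : m ∉ Pl) (hrm : r m = false) : False := by
  set V : Set N := {u | u ≤ m ∧ (∀ x ∈ Pl, ¬ (u ≤ x ∧ x ≤ m)) ∧ r u = false} with hV
  have hmV : m ∈ V := by
    refine ⟨le_rfl, fun x hx hc => ?_, hrm⟩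
    have : x = m := le_antisymm hc.2 hc.1
    subst this
    exact hm hx
  obtain ⟨z, hz⟩ := hglb V ⟨m, hmV⟩
  have hzV : z ∉ V := by
    intro hzV
    have hzP : z ∉ Pl := fun h => hzV.2.1 z h ⟨le_rfl, hzV.1⟩
    obtain ⟨h1, h2⟩ := hside z hzP hzV.2.2
    obtain ⟨p, hp, hrp⟩ := hl_prev z h1
    have hpV : p ∈ V := by
      refine ⟨hp.lt.le.trans hzV.1, fun x hx hc => ?_, hrp⟩
      rcases eq_or_lt_of_le hc.1 with h3 | h3
      · subst h3
        obtain ⟨x', hx', h4, h5, h6⟩ := h2 p hx hp.lt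
        rcases eq_or_lt_of_le h4 with h7 | h7
        · subst h7
          rw [hrp] at h6
          cases h6
        · exact hp.2 h7 h5
      · have h4 : z ≤ x := by
          by_contra hc'
          exact hp.2 h3 (not_le.1 hc')
        exact hzV.2.1 x hx ⟨h4, hc.2⟩
    exact absurd (hz.1 hpV) (not_le.2 hp.lt)
  have hlt : ∀ v ∈ V, z < v := by
    intro v hv
    refine lt_of_le_of_ne (hz.1 hv) ?_
    rintro rfl
    exact hzV hv
  have hrz : r z = false := by
    cases h : r z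
    · rfl
    · exfalso
      obtain ⟨z', hz'⟩ := hr_next z h
      have : z' ≤ z := hz.2 (fun v hv => by
        by_contra hc
        exact hz'.2 (hlt v hv) (not_le.1 hc))
      exact absurd this (not_le.2 hz'.lt)
  have habove : ∀ x, z < x → ∃ v ∈ V, v < x := by
    intro x hx
    by_contra hc
    push Not at hc
    exact absurd (hz.2 (fun v hv => hc v hv)) (not_le.2 hx)
  have hzP : z ∈ Pl := by
    by_contra hzP
    apply hzV
    refine ⟨hz.1 hmV, fun x hx hc => ?_, hrz⟩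
    have h1 : z < x := by
      refine lt_of_le_of_ne hc.1 ?_
      rintro rfl
      exact hzP hx
    obtain ⟨v, hv, h2⟩ := habove x h1
    exact hv.2.1 x hx ⟨h2.le, hc.2⟩
  obtain ⟨x', hx', h4, h5, h6⟩ := (hside m hm hrm).2 z hzP (hlt m hmV)
  rcases eq_or_lt_of_le h4 with h7 | h7
  · subst h7
    rw [hrz] at h6
    cases h6
  · obtain ⟨v, hv, h8⟩ := habove x' h7
    exact hv.2.1 x' hx' ⟨h8.le, h5.le⟩

/-- Neighbours in a finite set of positions. -/
theorem exists_nbr_low {s i : ℕ} (S : ℕ → Prop) (h0 : ∃ j, j < i ∧ S j ∧ ∃ x, P s j = some x) :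
    ∃ j a, j < i ∧ S j ∧ P s j = some a ∧ ∀ j', j' < i → S j' → ∀ x, P s j' = some x → x ≤ a := by
  classical
  obtain ⟨j₀, h1, h2, x₀, h3⟩ := h0
  set T : Finset ℕ := (Finset.range i).filter (fun j => S j ∧ (P s j).isSome) with hT
  have hne : T.Nonempty := ⟨j₀, by simp [hT, h1, h2, h3]⟩
  obtain ⟨j, hj, hmax⟩ := T.exists_max_image (fun j => (P s j).getD 0) hne
  simp only [hT, Finset.mem_filter, Finset.mem_range] at hj
  obtain ⟨a, ha⟩ := Option.isSome_iff_exists.1 hj.2.2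
  refine ⟨j, a, hj.1, hj.2.1, ha, fun j' hj' hS' x hx => ?_⟩
  have := hmax j' (by simp [hT, hj', hS', hx])
  rw [ha, hx] at this
  simpa using this

theorem exists_nbr_high {s i : ℕ} (S : ℕ → Prop) (h0 : ∃ j, j < i ∧ S j ∧ ∃ x, P s j = some x) :
    ∃ j a, j < i ∧ S j ∧ P s j = some a ∧ ∀ j', j' < i → S j' → ∀ x, P s j' = some x → a ≤ x := by
  classical
  obtain ⟨j₀, h1, h2, x₀, h3⟩ := h0
  set T : Finset ℕ := (Finset.range i).filter (fun j => S j ∧ (P s j).isSome) with hT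
  have hne : T.Nonempty := ⟨j₀, by simp [hT, h1, h2, h3]⟩
  obtain ⟨j, hj, hmin⟩ := T.exists_min_image (fun j => (P s j).getD 0) hne
  simp only [hT, Finset.mem_filter, Finset.mem_range] at hj
  obtain ⟨a, ha⟩ := Option.isSome_iff_exists.1 hj.2.2
  refine ⟨j, a, hj.1, hj.2.1, ha, fun j' hj' hS' x hx => ?_⟩
  have := hmin j' (by simp [hT, hj', hS', hx])
  rw [ha, hx] at this
  simpa using this

/-- At late true stages no node below `n` is new. -/
theorem late_not_new (hG : D.BGood k M ρ lab hl hr) (hR : Run D k b P) (n : ℕ) :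
    ∃ s₁, ∀ s, s₁ ≤ s → TP D b n s → ∀ j, j < n → ¬ New b P s j := by
  obtain ⟨s₁, hs₁⟩ := settle hG hR n
  obtain ⟨s₀, hs₀⟩ := no_left hG hR n
  obtain ⟨t, ht, hTt⟩ := (tp_main hG hR n).1 (s₀ + s₁)
  refine ⟨t + 1, fun s hs hT j hj => ?_⟩
  rintro ⟨a, ha, hno⟩
  apply hno
  refine ⟨t, by omega, (hT.mono (by omega)).agree (hTt.mono (by omega)), fun l hl => ?_, ?_,
    fun u hu1 hu2 => ?_⟩
  · exact hs₁ l (by omega) t s (by omega) (by omega) (hTt.mono (by omega)) (hT.mono (by omega))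
  · rw [hs₁ j hj t s (by omega) (by omega) (hTt.mono (by omega)) (hT.mono (by omega))]
    exact ha
  · intro hL
    exact hs₀ u (by omega) s hT (hL.mono (by omega))

/-- At late true stages all comparisons with a real marker are correct. -/
theorem late_lt (hG : D.BGood k M ρ lab hl hr) (i : ℕ) (hi : D.Real i) (n : ℕ) :
    ∃ s₁, ∀ s, s₁ ≤ s → ∀ j, j < n → D.Real j →
      (ρ j < ρ i → D.lt j i s = true ∧ D.lt i j s = false) ∧
      (ρ i < ρ j → D.lt i j s = true ∧ D.lt j i s = false) := by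
  induction n with
  | zero => exact ⟨0, fun s _ j hj => absurd hj (by omega)⟩
  | succ n ih =>
    obtain ⟨s₁, hs₁⟩ := ih
    have key : ∃ s₂, ∀ s, s₂ ≤ s → D.Real n →
      (ρ n < ρ i → D.lt n i s = true ∧ D.lt i n s = false) ∧
      (ρ i < ρ n → D.lt i n s = true ∧ D.lt n i s = false) := by
      by_cases hn : D.Real n
      · rcases lt_trichotomy (ρ n) (ρ i) with h | h | h
        · obtain ⟨s₂, hs₂⟩ := hG.sound.lt_complete n i hn hi h
          refine ⟨s₂, fun s hs _ => ⟨fun _ => ⟨hs₂ s hs, ?_⟩, fun h' => absurd h' h.not_gt⟩⟩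
          cases hc : D.lt i n s
          · rfl
          · exact absurd (hG.sound.lt_sound i n s hi hn hc) h.not_gt
        · exact ⟨0, fun s _ _ => ⟨fun h' => absurd h h'.ne, fun h' => absurd h h'.ne'⟩⟩
        · obtain ⟨s₂, hs₂⟩ := hG.sound.lt_complete i n hi hn h
          refine ⟨s₂, fun s hs _ => ⟨fun h' => absurd h' h.not_gt, fun _ => ⟨hs₂ s hs, ?_⟩⟩⟩
          cases hc : D.lt n i s
          · rfl
          · exact absurd (hG.sound.lt_sound n i s hn hi hc) h.not_gt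
      · exact ⟨0, fun s _ h => absurd h hn⟩
    obtain ⟨s₂, hs₂⟩ := key
    refine ⟨s₁ + s₂, fun s hs j hj hreal => ?_⟩
    by_cases hjn : j < n
    · exact hs₁ s (by omega) j hjn hreal
    · have : j = n := by omega
      subst this
      exact hs₂ s (by omega) hreal

/-- A real marker whose position is not yet taken and whose placement is never soft is blocked. -/
theorem placed_of_soft (hG : D.BGood k M ρ lab hl hr) (hR : Run D k b P) {i : ℕ} (hi : k ≤ i)
    (hreal : D.Real i) (hnew : ∀ j a, j < i → Fin' D b P j a → ρ j ≠ ρ i)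
    (hsoft : ∀ j₁ a₁ j₂ a₂, j₁ < i → j₂ < i → Fin' D b P j₁ a₁ → Fin' D b P j₂ a₂ →
      ρ j₁ < ρ i → ρ i < ρ j₂ → (∀ j a, j < i → Fin' D b P j a → ρ j < ρ i → ρ j ≤ ρ j₁) →
      (∀ j a, j < i → Fin' D b P j a → ρ i < ρ j → ρ j₂ ≤ ρ j) → Soft D i j₁ j₂) :
    ∃ a, Fin' D b P i a := by
  obtain ⟨s₁, hs₁⟩ := late hG hR (i + 1)
  obtain ⟨s₂, hs₂⟩ := late_not_new hG hR (i + 1)
  obtain ⟨s₃, hs₃⟩ := late_lt hG i hreal i
  obtain ⟨s, hs, hT⟩ := (tp_main hG hR (i + 1)).1 (s₁ + s₂ + s₃)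
  have hfin := hs₁ s (by omega) hT
  have hb : b s i = true := (hT i (by omega)).2 hreal
  have hnn : ∀ j, j < i → ¬ New b P s j := fun j hj => hs₂ s (by omega) hT j (by omega)
  suffices h : ∃ a, P s i = some a by
    obtain ⟨a, ha⟩ := h
    exact ⟨a, (hfin i (by omega) a).1 ha⟩
  by_cases hret : ∃ a, Retained b P s i a
  · obtain ⟨a, ha⟩ := hret
    exact ⟨a, hR.keep s i a hi hb ha⟩
  · have hno : ∀ a, ¬ Retained b P s i a := fun a h => hret ⟨a, h⟩
    have hk := hG.hk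
    have hb0 : Fin' D b P 0 ((0 : ℕ) + 1 : ℚ) := fin_base hG hR (by omega)
    have hbt : Fin' D b P (k - 1) (((k - 1 : ℕ) : ℚ) + 1) := fin_base hG hR (by omega)
    have h0 : ρ 0 < ρ i := lt_of_le_of_ne (hG.bot _) (hnew 0 _ (by omega) hb0)
    have ht : ρ i < ρ (k - 1) := lt_of_le_of_ne (hG.top _) (hnew (k - 1) _ (by omega) hbt).symm
    obtain ⟨j₁, a₁, h11, h12, h13, h14⟩ := exists_nbr_low (P := P) (s := s) (i := i)
      (fun j => ρ j < ρ i) ⟨0, by omega, h0, _, hR.base_P s 0 (by omega)⟩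
    obtain ⟨j₂, a₂, h21, h22, h23, h24⟩ := exists_nbr_high (P := P) (s := s) (i := i)
      (fun j => ρ i < ρ j) ⟨k - 1, by omega, ht, _, hR.base_P s (k - 1) (by omega)⟩
    have f1 : Fin' D b P j₁ a₁ := (hfin j₁ (by omega) a₁).1 h13
    have f2 : Fin' D b P j₂ a₂ := (hfin j₂ (by omega) a₂).1 h23
    have h12' : a₁ < a₂ := (fin_lt_iff hG hR f1 f2).1 (lt_trans h12 h22)
    have hN : Nbrs D P s i j₁ j₂ a₁ a₂ := by
      refine ⟨h11, h21, h13, h23, h12', fun j hj x hx => ?_⟩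
      have fj := (hfin j (by omega) x).1 hx
      have hlt := hs₃ s (by omega) j hj fj.1
      rcases lt_trichotomy (ρ j) (ρ i) with h | h | h
      · left
        exact ⟨h14 j hj h x hx, hlt.1 h⟩
      · exact absurd h (hnew j x hj fj)
      · right
        exact ⟨h24 j hj h x hx, hlt.2 h⟩
    have hS : Soft D i j₁ j₂ := by
      apply hsoft j₁ a₁ j₂ a₂ h11 h21 f1 f2 h12 h22
      · intro j a hj fj hlt
        have := h14 j hj hlt a ((hfin j (by omega) a).2 fj)
        by_contra hc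
        exact absurd ((fin_lt_iff hG hR f1 fj).1 (not_le.1 hc)) (not_lt.2 this)
      · intro j a hj fj hlt
        have := h24 j hj hlt a ((hfin j (by omega) a).2 fj)
        by_contra hc
        exact absurd ((fin_lt_iff hG hR fj f2).1 (not_le.1 hc)) (not_lt.2 this)
    exact ⟨_, (hR.put s i _ hi hb hno hnn).2 ⟨j₁, j₂, a₁, a₂, hN, hS, rfl⟩⟩

/-- Every marker gets a final pointer. -/
theorem all_placed (hG : D.BGood k M ρ lab hl hr) (hR : Run D k b P) (m : M) :
    ∃ i a, Fin' D b P i a ∧ ρ i = m := by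
  set Pl : Set M := {m | ∃ i a, Fin' D b P i a ∧ ρ i = m} with hPl
  by_contra hm
  have hm' : m ∉ Pl := hm
  -- the side lemma
  have key : ∀ u, u ∉ Pl →
      ¬ ((hl u = true → ∃ x ∈ Pl, x < u ∧ ∀ x' ∈ Pl, x ≤ x' → x' < u → hr x' = false) ∧
        (hr u = true → ∃ y ∈ Pl, u < y ∧ ∀ y' ∈ Pl, y' ≤ y → u < y' → hl y' = false)) := by
    rintro u hu ⟨hA, hB⟩
    have hA' : ∃ n, hl u = true → ∀ i a, n ≤ i → ∀ j₁, j₁ < i → Fin' D b P j₁ a → ρ j₁ < u →
        (∀ j a, j < i → Fin' D b P j a → ρ j < u → ρ j ≤ ρ j₁) → hr (ρ j₁) = false := by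
      by_cases h : hl u = true
      · obtain ⟨x, ⟨l, y, fl, hlx⟩, hxu, hx⟩ := hA h
        refine ⟨l + 1, fun _ i a hi j₁ hj₁ f₁ hlt hmax => ?_⟩
        refine hx _ ⟨j₁, a, f₁, rfl⟩ ?_ hlt
        rw [← hlx]
        exact hmax l y (by omega) fl (by rw [hlx]; exact hxu)
      · exact ⟨0, fun h' => absurd h' h⟩
    have hB' : ∃ n, hr u = true → ∀ i a, n ≤ i → ∀ j₂, j₂ < i → Fin' D b P j₂ a → u < ρ j₂ →
        (∀ j a, j < i → Fin' D b P j a → u < ρ j → ρ j₂ ≤ ρ j) → hl (ρ j₂) = false := by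
      by_cases h : hr u = true
      · obtain ⟨x, ⟨l, y, fl, hlx⟩, hxu, hx⟩ := hB h
        refine ⟨l + 1, fun _ i a hi j₁ hj₁ f₁ hlt hmax => ?_⟩
        refine hx _ ⟨j₁, a, f₁, rfl⟩ ?_ hlt
        rw [← hlx]
        exact hmax l y (by omega) fl (by rw [hlx]; exact hxu)
      · exact ⟨0, fun h' => absurd h' h⟩
    obtain ⟨n₁, hn₁⟩ := hA'
    obtain ⟨n₂, hn₂⟩ := hB'
    obtain ⟨i, hi, hreal, hρ⟩ : ∃ i, n₁ + n₂ + k ≤ i ∧ D.Real i ∧ ρ i = u := by
      rcases hG.surj u with ⟨i, hi, h⟩ | h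
      · exact absurd ⟨i, _, fin_base hG hR hi, h⟩ hu
      · exact h _
    have : ∃ a, Fin' D b P i a := by
      apply placed_of_soft hG hR (by omega) hreal
      · intro j a _ fj he
        exact hu ⟨j, a, fj, he.trans hρ⟩
      · intro j₁ a₁ j₂ a₂ h1 h2 f1 f2 hlt1 hlt2 hmax hmin
        rw [hρ] at hlt1 hlt2 hmax hmin
        constructor
        · rintro ⟨hc1, hc2⟩
          rw [hG.sound.hl_eq i hreal, hρ] at hc2
          rw [hG.sound.hr_eq j₁ f1.1] at hc1
          rw [hn₁ hc2 i a₁ (by omega) j₁ h1 f1 hlt1 hmax] at hc1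
          cases hc1
        · rintro ⟨hc1, hc2⟩
          rw [hG.sound.hr_eq i hreal, hρ] at hc1
          rw [hG.sound.hl_eq j₂ f2.1] at hc2
          rw [hn₂ hc1 i a₂ (by omega) j₂ h2 f2 hlt2 hmin] at hc2
          cases hc2
    obtain ⟨a, fa⟩ := this
    exact hu ⟨i, a, fa, hρ⟩
  -- two cases
  by_cases hrm : hr m = false
  · apply side_aux hG.sound.glb hl hr (fun m h => (hG.sound.hr_next m h).imp fun _ h => h.1)
      (fun m h => hG.sound.hl_prev m h) Pl ?_ m hm' hrm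
    intro u hu hru
    have hk := key u hu
    have h2 : hr u = true → ∃ y ∈ Pl, u < y ∧ ∀ y' ∈ Pl, y' ≤ y → u < y' → hl y' = false := by
      rw [hru]
      intro h
      cases h
    have h1 : ¬ (hl u = true → ∃ x ∈ Pl, x < u ∧ ∀ x' ∈ Pl, x ≤ x' → x' < u → hr x' = false) :=
      fun h => hk ⟨h, h2⟩
    push Not at h1
    refine ⟨h1.1, fun x hx hxu => ?_⟩
    obtain ⟨x', hx', h3, h4, h5⟩ := h1.2 x hx hxu
    exact ⟨x', hx', h3, h4, by simpa using h5⟩
  · have hrm' : hr m = true := by simpa using hrm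
    have hlm : hl m = false := by
      cases h : hl m
      · rfl
      · exact absurd ⟨h, hrm'⟩ (hG.sound.not_both m)
    have hnext : ∀ m : Mᵒᵈ, hl (OrderDual.ofDual m) = true → ∃ m', m ⋖ m' := by
      intro m h
      obtain ⟨m', h1, _⟩ := hG.sound.hl_prev _ h
      exact ⟨OrderDual.toDual m', h1.toDual⟩
    have hprev : ∀ m : Mᵒᵈ, hr (OrderDual.ofDual m) = true →
        ∃ m', m' ⋖ m ∧ hl (OrderDual.ofDual m') = false := by
      intro m h
      obtain ⟨m', h1, h2⟩ := hG.sound.hr_next _ h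
      exact ⟨OrderDual.toDual m', h1.toDual, h2⟩
    refine side_aux (N := Mᵒᵈ) (fun S hS => hG.sound.lub S hS)
      (fun m => hr (OrderDual.ofDual m)) (fun m => hl (OrderDual.ofDual m)) hnext hprev
      (OrderDual.ofDual ⁻¹' Pl) ?_ (OrderDual.toDual m) hm' hlm
    intro u hu hlu
    have hk := key (OrderDual.ofDual u) hu
    have h2 : hl (OrderDual.ofDual u) = true → ∃ x ∈ Pl, x < OrderDual.ofDual u ∧
        ∀ x' ∈ Pl, x ≤ x' → x' < OrderDual.ofDual u → hr x' = false := by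
      intro h
      have h' : hl (OrderDual.ofDual u) = false := hlu
      rw [h'] at h
      cases h
    have h1 : ¬ (hr (OrderDual.ofDual u) = true → ∃ y ∈ Pl, OrderDual.ofDual u < y ∧
        ∀ y' ∈ Pl, y' ≤ y → OrderDual.ofDual u < y' → hl y' = false) :=
      fun h => hk ⟨h2, h⟩
    push Not at h1
    refine ⟨h1.1, fun x hx hxu => ?_⟩
    obtain ⟨x', hx', h3, h4, h5⟩ := h1.2 (OrderDual.ofDual x) hx hxu
    exact ⟨OrderDual.toDual x', hx', h3, h4, by simpa using h5⟩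

end Pool.Agent.Lib.MP_0f5a21_lc.H
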