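import Pool.Agent.Lib.MP_0f5a21_lc.H.Verify3

/-!
Theorem H, verification, part 4: (V1), (V2), (V3).
-/

set_option autoImplicit false

namespace Pool.Agent.Lib.MP_0f5a21_lc.H

variable {D : Data} {k : ℕ} {M : Type} [LinearOrder M] {ρ : ℕ → M} {lab : M → ℕ}
  {hl hr : M → Bool} {b : ℕ → ℕ → Bool} {P : ℕ → ℕ → Option ℚ}

/-- The index of the final pointer of a marker. -/
noncomputable def idx (hG : D.BGood k M ρ lab hl hr) (hR : Run D k b P) (m : M) : ℕ :=
  (all_placed hG hR m).choose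

/-- The position of a marker. -/
noncomputable def pos (hG : D.BGood k M ρ lab hl hr) (hR : Run D k b P) (m : M) : ℚ :=
  (all_placed hG hR m).choose_spec.choose

theorem pos_fin (hG : D.BGood k M ρ lab hl hr) (hR : Run D k b P) (m : M) :
    Fin' D b P (idx hG hR m) (pos hG hR m) :=
  (all_placed hG hR m).choose_spec.choose_spec.1

theorem idx_rho (hG : D.BGood k M ρ lab hl hr) (hR : Run D k b P) (m : M) :
    ρ (idx hG hR m) = m :=
  (all_placed hG hR m).choose_spec.choose_spec.2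

theorem fin_pos (hG : D.BGood k M ρ lab hl hr) (hR : Run D k b P) {i : ℕ} {a : ℚ}
    (h : Fin' D b P i a) : i = idx hG hR (ρ i) ∧ a = pos hG hR (ρ i) :=
  fin_eq_of hG hR h (pos_fin hG hR (ρ i)) (idx_rho hG hR (ρ i)).symm

theorem pos_lt (hG : D.BGood k M ρ lab hl hr) (hR : Run D k b P) {m m' : M} :
    pos hG hR m < pos hG hR m' ↔ m < m' := by
  have := fin_lt_iff hG hR (pos_fin hG hR m) (pos_fin hG hR m')
  rw [idx_rho hG hR, idx_rho hG hR] at this
  exact this.symm

theorem pos_le (hG : D.BGood k M ρ lab hl hr) (hR : Run D k b P) {m m' : M} :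
    pos hG hR m ≤ pos hG hR m' ↔ m ≤ m' := by
  rw [← not_lt, ← not_lt, pos_lt]

theorem pos_inj (hG : D.BGood k M ρ lab hl hr) (hR : Run D k b P) {m m' : M}
    (h : pos hG hR m = pos hG hR m') : m = m' :=
  le_antisymm ((pos_le hG hR).1 h.le) ((pos_le hG hR).1 h.ge)

/-- Two records of a set of markers without greatest element. -/
theorem exists_records (S : ℕ → Prop) (N : ℕ) (h0 : ∃ l, l < N ∧ S l)
    (hno : ∀ l, S l → ∃ l', S l' ∧ ρ l < ρ l') :
    ∃ i₁ i₂, N ≤ i₁ ∧ i₁ < i₂ ∧ S i₁ ∧ S i₂ ∧ ρ i₁ < ρ i₂ ∧ ∀ l, l < i₂ → S l → ρ l ≤ ρ i₁ := by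
  classical
  obtain ⟨l₀, hl₀, hS₀⟩ := h0
  -- maximum below N
  obtain ⟨l₁, hl₁, hmax⟩ := ((Finset.range N).filter S).exists_max_image ρ
    ⟨l₀, by simp [hl₀, hS₀]⟩
  simp only [Finset.mem_filter, Finset.mem_range] at hl₁ hmax
  have hex1 : ∃ i, S i ∧ ρ l₁ < ρ i := hno l₁ hl₁.2
  set i₁ := Nat.find hex1 with hi₁
  have h1 := Nat.find_spec hex1
  rw [← hi₁] at h1
  have hex2 : ∃ i, S i ∧ ρ i₁ < ρ i := hno i₁ h1.1
  set i₂ := Nat.find hex2 with hi₂
  have h2 := Nat.find_spec hex2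
  rw [← hi₂] at h2
  have hN : N ≤ i₁ := by
    by_contra hc
    exact absurd (hmax i₁ ⟨by omega, h1.1⟩) (not_le.2 h1.2)
  have h12 : i₁ < i₂ := by
    rcases Nat.lt_trichotomy i₁ i₂ with h | h | h
    · exact h
    · rw [← h] at h2
      exact absurd h2.2 (lt_irrefl _)
    · exact absurd ⟨h2.1, h1.2.trans h2.2⟩ (Nat.find_min hex1 h)
  refine ⟨i₁, i₂, hN, h12, h1.1, h2.1, h2.2, fun l hl hS => ?_⟩
  by_contra hc
  exact Nat.find_min hex2 hl ⟨hS, not_le.1 hc⟩

/-- The same from above. -/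
theorem exists_records' (S : ℕ → Prop) (N : ℕ) (h0 : ∃ l, l < N ∧ S l)
    (hno : ∀ l, S l → ∃ l', S l' ∧ ρ l' < ρ l) :
    ∃ i₁ i₂, N ≤ i₁ ∧ i₁ < i₂ ∧ S i₁ ∧ S i₂ ∧ ρ i₂ < ρ i₁ ∧ ∀ l, l < i₂ → S l → ρ i₁ ≤ ρ l :=
  exists_records (M := Mᵒᵈ) (ρ := fun i => OrderDual.toDual (ρ i)) S N h0 hno

theorem pos_bot (hG : D.BGood k M ρ lab hl hr) (hR : Run D k b P) : pos hG hR (ρ 0) = 1 := by
  have hk := hG.hk
  have := fin_pos hG hR (fin_base hG hR (show 0 < k by omega))
  rw [← this.2]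
  simp

theorem pos_top (hG : D.BGood k M ρ lab hl hr) (hR : Run D k b P) :
    pos hG hR (ρ (k - 1)) = k := by
  have hk := hG.hk
  have := fin_pos hG hR (fin_base hG hR (show k - 1 < k by omega))
  rw [← this.2]
  have : ((k - 1 + 1 : ℕ) : ℚ) = k := by
    congr 1
    omega
  push_cast at this
  exact this

/-- (V1): every dyadic position is a marker or lies between two consecutive markers. -/
theorem v1 (hG : D.BGood k M ρ lab hl hr) (hR : Run D k b P) {e : ℕ} {β : ℚ}
    (hβ : Mul2 e β) (h1 : 1 ≤ β) (hk : β ≤ k) :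
    (∃ m, pos hG hR m = β) ∨ ∃ m m', m ⋖ m' ∧ pos hG hR m < β ∧ β < pos hG hR m' := by
  by_cases hno : ∃ m, pos hG hR m = β
  · exact Or.inl hno
  right
  have hk2 := hG.hk
  have hne : ∀ m, pos hG hR m ≠ β := fun m h => hno ⟨m, h⟩
  have hA0 : pos hG hR (ρ 0) < β := by
    refine lt_of_le_of_ne ?_ (hne _)
    rw [pos_bot]
    exact h1
  have hB0 : β < pos hG hR (ρ (k - 1)) := by
    refine lt_of_le_of_ne ?_ (hne _).symm
    rw [pos_top]
    exact hk
  obtain ⟨a, ha⟩ := hG.sound.lub {m | pos hG hR m < β} ⟨_, hA0⟩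
  obtain ⟨c, hc⟩ := hG.sound.glb {m | β < pos hG hR m} ⟨_, hB0⟩
  have haA : pos hG hR a < β := by
    by_contra hcon
    have haB : β < pos hG hR a := lt_of_le_of_ne (not_lt.1 hcon) (hne a).symm
    -- no maximum
    have hnomax : ∀ l, (∃ x, Fin' D b P l x ∧ x < β) →
        ∃ l', (∃ x, Fin' D b P l' x ∧ x < β) ∧ ρ l < ρ l' := by
      rintro l ⟨x, fx, hx⟩
      have hxa : ρ l < a := by
        refine lt_of_le_of_ne (ha.1 ?_) ?_
        · show pos hG hR (ρ l) < β
          rw [← (fin_pos hG hR fx).2]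
          exact hx
        · rintro rfl
          rw [← (fin_pos hG hR fx).2] at haB
          exact absurd haB hx.not_gt
      have : ∃ m, pos hG hR m < β ∧ ρ l < m := by
        by_contra hc'
        push Not at hc'
        exact absurd (ha.2 (fun m hm => hc' m hm)) (not_le.2 hxa)
      obtain ⟨m, hm, hlm⟩ := this
      exact ⟨idx hG hR m, ⟨_, pos_fin hG hR m, hm⟩, by rw [idx_rho hG hR]; exact hlm⟩
    set j := idx hG hR a with hj
    have fj : Fin' D b P j (pos hG hR a) := pos_fin hG hR a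
    have hρj : ρ j = a := idx_rho hG hR a
    obtain ⟨i₁, i₂, hN, h12, ⟨x₁, f₁, hx₁⟩, ⟨x₂, f₂, hx₂⟩, hlt, hmax⟩ :=
      exists_records (ρ := ρ) (fun l => ∃ x, Fin' D b P l x ∧ x < β) (j + e + k + 1)
        ⟨0, by omega, _, fin_base hG hR (by omega), by
          have := hA0
          rw [pos_bot] at this
          simpa using this⟩ hnomax
    obtain ⟨t, hit, hT, hv, hold, j₁, j₂, a₁, a₂, hNb, hS, hspot, m₁, m₂, hl1, hl2⟩ :=
      fin_birth hG hR f₂ (by omega)
    have g₁ : Fin' D b P j₁ a₁ := (hold j₁ hNb.1 a₁).1 hNb.2.2.1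
    have g₂ : Fin' D b P j₂ a₂ := (hold j₂ hNb.2.1 a₂).1 hNb.2.2.2.1
    have hρ1 : ρ j₁ < ρ i₂ := (fin_lt_iff hG hR g₁ f₂).2 hl1
    have hρ2 : ρ i₂ < ρ j₂ := (fin_lt_iff hG hR f₂ g₂).2 hl2
    have e1 : j₁ = i₁ := by
      have h3 : ρ j₁ ≤ ρ i₁ := hmax j₁ hNb.1 ⟨a₁, g₁, hl1.trans hx₂⟩
      have h4 : x₁ ≤ a₁ := by
        rcases hNb.2.2.2.2.2 i₁ h12 x₁ ((hold i₁ h12 x₁).2 f₁) with h | h
        · exact h.1
        · exfalso
          have h5 : a₂ ≤ x₁ := h.1
          have h6 := (fin_lt_iff hG hR f₁ f₂).1 hlt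
          linarith
      have h5 : ρ i₁ ≤ ρ j₁ := by
        by_contra hcc
        have := (fin_lt_iff hG hR g₁ f₁).1 (not_le.1 hcc)
        linarith
      exact (fin_eq_of hG hR g₁ f₁ (le_antisymm h3 h5)).1
    have hi2a : ρ i₂ < a := by
      have : x₂ < pos hG hR a := hx₂.trans haB
      have := (fin_lt_iff hG hR f₂ fj).2 this
      rwa [hρj] at this
    have e2 : j₂ = j ∧ a₂ = pos hG hR a := by
      apply fin_eq_of hG hR g₂ fj
      rw [hρj]
      apply le_antisymm
      · have h4 : a₂ ≤ pos hG hR a := by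
          rcases hNb.2.2.2.2.2 j (by omega) _ ((hold j (by omega) _).2 fj) with h | h
          · exfalso
            have h5 : pos hG hR a ≤ a₁ := h.1
            linarith
          · exact h.1
        by_contra hcc
        have := (fin_lt_iff hG hR fj g₂).1 (by rw [hρj]; exact not_le.1 hcc)
        linarith
      · by_contra hcc
        have h3 : ρ j₂ < a := not_le.1 hcc
        have h4 : pos hG hR (ρ j₂) < β := by
          by_contra h5
          have h6 : β < pos hG hR (ρ j₂) := lt_of_le_of_ne (not_lt.1 h5) (hne _).symm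
          have h7 : a ≤ ρ j₂ := ha.2 (fun m hm => ((pos_lt hG hR).1 (lt_trans hm h6)).le)
          exact absurd h3 (not_lt.2 h7)
        rw [← (fin_pos hG hR g₂).2] at h4
        exact absurd (hmax j₂ hNb.2.1 ⟨a₂, g₂, h4⟩) (not_le.2 (hlt.trans hρ2))
    have hla : hl a = false := by
      cases h : hl a
      · rfl
      · exfalso
        obtain ⟨p, hp, _⟩ := hG.sound.hl_prev a h
        have : ∃ m, pos hG hR m < β ∧ p < m := by
          by_contra hc'
          push Not at hc'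
          exact absurd (ha.2 (fun m hm => hc' m hm)) (not_le.2 hp.lt)
        obtain ⟨m, hm, hpm⟩ := this
        have hma : m < a := (pos_lt hG hR).1 (hm.trans haB)
        exact hp.2 hpm hma
    have hDl : D.hl j₂ = false := by
      rw [e2.1, hG.sound.hl_eq j fj.1, hρj, hla]
    have hs : x₂ = a₂ - 1 / 2 ^ (3 * t + 1) := by
      rw [hspot]
      unfold spot
      rw [if_pos]
      right
      exact ⟨hDl, by omega⟩
    have h8 := (hβ.mono (show e ≤ 3 * t by omega)).gap m₂ (by rw [e2.2]; exact haB)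
    have h9 : (1 : ℚ) / 2 ^ (3 * t + 1) < 1 / 2 ^ (3 * t) := pow_lt_aux (by omega)
    linarith
  have hcB : β < pos hG hR c := by
    by_contra hcon
    have hcA : pos hG hR c < β := lt_of_le_of_ne (not_lt.1 hcon) (hne c)
    have hnomin : ∀ l, (∃ x, Fin' D b P l x ∧ β < x) →
        ∃ l', (∃ x, Fin' D b P l' x ∧ β < x) ∧ ρ l' < ρ l := by
      rintro l ⟨x, fx, hx⟩
      have hxa : c < ρ l := by
        refine lt_of_le_of_ne (hc.1 ?_) ?_
        · show β < pos hG hR (ρ l)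
          rw [← (fin_pos hG hR fx).2]
          exact hx
        · rintro rfl
          rw [← (fin_pos hG hR fx).2] at hcA
          exact absurd hcA hx.not_gt
      have : ∃ m, β < pos hG hR m ∧ m < ρ l := by
        by_contra hc'
        push Not at hc'
        exact absurd (hc.2 (fun m hm => hc' m hm)) (not_le.2 hxa)
      obtain ⟨m, hm, hlm⟩ := this
      exact ⟨idx hG hR m, ⟨_, pos_fin hG hR m, hm⟩, by rw [idx_rho hG hR]; exact hlm⟩
    set j := idx hG hR c with hj
    have fj : Fin' D b P j (pos hG hR c) := pos_fin hG hR c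
    have hρj : ρ j = c := idx_rho hG hR c
    obtain ⟨i₁, i₂, hN, h12, ⟨x₁, f₁, hx₁⟩, ⟨x₂, f₂, hx₂⟩, hlt, hmax⟩ :=
      exists_records' (ρ := ρ) (fun l => ∃ x, Fin' D b P l x ∧ β < x) (j + e + k + 1)
        ⟨k - 1, by omega, _, fin_base hG hR (by omega), by
          have h3 := hB0
          rw [pos_top] at h3
          have : ((k - 1 + 1 : ℕ) : ℚ) = k := by
            congr 1
            omega
          push_cast at this
          rw [this]
          exact h3⟩ hnomin
    obtain ⟨t, hit, hT, hv, hold, j₁, j₂, a₁, a₂, hNb, hS, hspot, m₁, m₂, hl1, hl2⟩ :=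
      fin_birth hG hR f₂ (by omega)
    have g₁ : Fin' D b P j₁ a₁ := (hold j₁ hNb.1 a₁).1 hNb.2.2.1
    have g₂ : Fin' D b P j₂ a₂ := (hold j₂ hNb.2.1 a₂).1 hNb.2.2.2.1
    have hρ1 : ρ j₁ < ρ i₂ := (fin_lt_iff hG hR g₁ f₂).2 hl1
    have hρ2 : ρ i₂ < ρ j₂ := (fin_lt_iff hG hR f₂ g₂).2 hl2
    have e1 : j₂ = i₁ := by
      have h3 : ρ i₁ ≤ ρ j₂ := hmax j₂ hNb.2.1 ⟨a₂, g₂, hx₂.trans hl2⟩
      have h4 : a₂ ≤ x₁ := by
        rcases hNb.2.2.2.2.2 i₁ h12 x₁ ((hold i₁ h12 x₁).2 f₁) with h | h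
        · exfalso
          have h5 : x₁ ≤ a₁ := h.1
          have h6 := (fin_lt_iff hG hR f₂ f₁).1 hlt
          linarith
        · exact h.1
      have h5 : ρ j₂ ≤ ρ i₁ := by
        by_contra hcc
        have := (fin_lt_iff hG hR f₁ g₂).1 (not_le.1 hcc)
        linarith
      exact (fin_eq_of hG hR g₂ f₁ (le_antisymm h5 h3)).1
    have hi2a : c < ρ i₂ := by
      have : pos hG hR c < x₂ := hcA.trans hx₂
      have := (fin_lt_iff hG hR fj f₂).2 this
      rwa [hρj] at this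
    have e2 : j₁ = j ∧ a₁ = pos hG hR c := by
      apply fin_eq_of hG hR g₁ fj
      rw [hρj]
      apply le_antisymm
      · by_contra hcc
        have h3 : c < ρ j₁ := not_le.1 hcc
        have h4 : β < pos hG hR (ρ j₁) := by
          by_contra h5
          have h6 : pos hG hR (ρ j₁) < β := lt_of_le_of_ne (not_lt.1 h5) (hne _)
          have h7 : ρ j₁ ≤ c := hc.2 (fun m hm => ((pos_lt hG hR).1 (lt_trans h6 hm)).le)
          exact absurd h3 (not_lt.2 h7)
        rw [← (fin_pos hG hR g₁).2] at h4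
        exact absurd (hmax j₁ hNb.1 ⟨a₁, g₁, h4⟩) (not_le.2 (hρ1.trans hlt))
      · have h4 : pos hG hR c ≤ a₁ := by
          rcases hNb.2.2.2.2.2 j (by omega) _ ((hold j (by omega) _).2 fj) with h | h
          · exact h.1
          · exfalso
            have h5 : a₂ ≤ pos hG hR c := h.1
            linarith
        by_contra hcc
        have := (fin_lt_iff hG hR g₁ fj).1 (by rw [hρj]; exact not_le.1 hcc)
        linarith
    have hrc : hr c = false := by
      cases h : hr c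
      · rfl
      · exfalso
        obtain ⟨p, hp, _⟩ := hG.sound.hr_next c h
        have : ∃ m, β < pos hG hR m ∧ m < p := by
          by_contra hc'
          push Not at hc'
          exact absurd (hc.2 (fun m hm => hc' m hm)) (not_le.2 hp.lt)
        obtain ⟨m, hm, hpm⟩ := this
        have hma : c < m := (pos_lt hG hR).1 (hcA.trans hm)
        exact hp.2 hma hpm
    have hDr : D.hr j₁ = false := by
      rw [e2.1, hG.sound.hr_eq j fj.1, hρj, hrc]
    have hs : x₂ = a₁ + 1 / 2 ^ (3 * t + 1) := by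
      rw [hspot]
      unfold spot
      rw [if_neg]
      rintro (h | h)
      · rw [hDr] at h
        cases h
      · have := h.2
        omega
    have h8 := m₁.gap (hβ.mono (show e ≤ 3 * t by omega)) (by rw [e2.2]; exact hcA)
    have h9 : (1 : ℚ) / 2 ^ (3 * t + 1) < 1 / 2 ^ (3 * t) := pow_lt_aux (by omega)
    linarith
  refine ⟨a, c, ⟨(pos_lt hG hR).1 (haA.trans hcB), fun m h3 h4 => ?_⟩, haA, hcB⟩
  rcases lt_or_gt_of_ne (hne m) with h | h
  · exact absurd (ha.1 h) (not_le.2 h3)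
  · exact absurd (hc.1 h) (not_le.2 h4)

end Pool.Agent.Lib.MP_0f5a21_lc.H
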