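import Pool.Agent.Lib.MP_0f5a21_lc.H.Verify4

/-!
Theorem H, verification, part 5: finiteness of the atoms away from the soft sides.
-/

set_option autoImplicit false

namespace Pool.Agent.Lib.MP_0f5a21_lc.H

variable {D : Data} {k : ℕ} {M : Type} [LinearOrder M] {ρ : ℕ → M} {lab : M → ℕ}
  {hl hr : M → Bool} {b : ℕ → ℕ → Bool} {P : ℕ → ℕ → Option ℚ}

/-- Neighbouring active markers never face each other with two hard sides. -/
theorem no_hard_hard (hG : D.BGood k M ρ lab hl hr) (hR : Run D k b P) (i : ℕ) :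
    ∀ s j₁ j₂ a₁ a₂, j₁ < i → j₂ < i → P s j₁ = some a₁ → P s j₂ = some a₂ → a₁ < a₂ →
      (∀ j, j < i → ∀ x, P s j = some x → x ≤ a₁ ∨ a₂ ≤ x) →
      ¬ (D.hr j₁ = true ∧ D.hl j₂ = true) := by
  induction i with
  | zero => intro s j₁ j₂ a₁ a₂ h; omega
  | succ i ih =>
    intro s j₁ j₂ a₁ a₂ h1 h2 h3 h4 h5 h6
    by_cases hi : i < k
    · rw [hR.base_P s j₁ (by omega)] at h3
      rw [hR.base_P s j₂ (by omega)] at h4
      have e1 := Option.some.inj h3
      have e2 := Option.some.inj h4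
      rw [← e1, ← e2] at h5 h6
      have hlt : (j₁ : ℚ) < j₂ := by linarith
      have hlt' : j₁ < j₂ := by exact_mod_cast hlt
      have hj : j₂ = j₁ + 1 := by
        by_contra hc
        have h7 := h6 (j₁ + 1) (by omega) _ (hR.base_P s (j₁ + 1) (by omega))
        push_cast at h7
        rcases h7 with h7 | h7
        · linarith
        · have h8 : (j₂ : ℚ) ≤ ((j₁ + 1 : ℕ) : ℚ) := by push_cast; linarith
          have h9 : j₂ ≤ j₁ + 1 := by exact_mod_cast h8
          omega
      rw [hG.sound.hr_eq j₁ (hG.base_real j₁ (by omega)),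
        hG.sound.hl_eq j₂ (hG.base_real j₂ (by omega)), hj]
      exact hG.base_soft j₁ (by omega)
    · have hR' := hR
      by_cases e1 : j₁ = i
      · subst e1
        obtain ⟨t, B⟩ := exists_birth hR s j₁ a₁ (by omega) h3
        obtain ⟨l₁, l₂, c₁, c₂, hN, hS, hs, m₁, m₂, g1, g2⟩ := birth_data hR B
        have hj2 : j₂ < j₁ := by
          have : j₂ ≠ j₁ := by
            rintro rfl
            rw [h3] at h4
            rw [Option.some.inj h4] at h5
            exact lt_irrefl _ h5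
          omega
        have hp2 : P t j₂ = some a₂ := by rw [B.old j₂ hj2]; exact h4
        have k1 : a₂ ≤ c₂ := by
          rcases h6 l₂ (by have := hN.2.1; omega) c₂ (by rw [← B.old l₂ hN.2.1]; exact hN.2.2.2.1)
            with h | h
          · linarith
          · exact h
        have k2 : c₂ ≤ a₂ := by
          rcases hN.2.2.2.2.2 j₂ hj2 a₂ hp2 with h | h
          · have := h.1
            linarith
          · exact h.1
        have k3 : a₂ = c₂ := le_antisymm k1 k2
        have k4 : j₂ = l₂ := ptr_inj hR h4 (by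
          have := hN.2.2.2.1
          rw [B.old l₂ hN.2.1, ← k3] at this
          exact this)
        subst k4
        exact hS.2
      · by_cases e2 : j₂ = i
        · subst e2
          obtain ⟨t, B⟩ := exists_birth hR s j₂ a₂ (by omega) h4
          obtain ⟨l₁, l₂, c₁, c₂, hN, hS, hs, m₁, m₂, g1, g2⟩ := birth_data hR B
          have hj1 : j₁ < j₂ := by omega
          have hp1 : P t j₁ = some a₁ := by rw [B.old j₁ hj1]; exact h3
          have k1 : c₁ ≤ a₁ := by
            rcases h6 l₁ (by have := hN.1; omega) c₁ (by rw [← B.old l₁ hN.1]; exact hN.2.2.1)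
              with h | h
            · exact h
            · linarith
          have k2 : a₁ ≤ c₁ := by
            rcases hN.2.2.2.2.2 j₁ hj1 a₁ hp1 with h | h
            · exact h.1
            · have := h.1
              linarith
          have k3 : a₁ = c₁ := le_antisymm k2 k1
          have k4 : j₁ = l₁ := ptr_inj hR h3 (by
            have := hN.2.2.1
            rw [B.old l₁ hN.1, ← k3] at this
            exact this)
          subst k4
          exact hS.1
        · exact ih s j₁ j₂ a₁ a₂ (by omega) (by omega) h3 h4 h5 (fun j hj => h6 j (by omega))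

/-- Core of (V2): a set of positions without final pointers, into which new pointers come only
next to pointers in it, is left by all pointers. -/
theorem visits_finite (hG : D.BGood k M ρ lab hl hr) (hR : Run D k b P) (J : Set ℚ)
    (hJ : ∀ i a, Fin' D b P i a → a ∉ J) (s₁ : ℕ)
    (hsrc : ∀ t i a, s₁ ≤ t → k ≤ i → Birth D b P t i a t → a ∈ J →
      ∃ j, j < i ∧ ∃ x, P t j = some x ∧ x ∈ J) :
    ∃ s₂, ∀ s, s₂ ≤ s → ∀ i a, P s i = some a → a ∉ J := by
  -- for fixed birth data only finitely many visits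
  have claim : ∀ t i, ∃ N, ∀ s, N ≤ s → ¬ (k ≤ i ∧ Agree b s t (i + 1) ∧
      (∃ a ∈ J, P t i = some a ∧ P s i = some a) ∧
      ∀ u, t < u → u < s → ¬ LeftOf b u s i) := by
    intro t i
    by_cases hT : TP D b (i + 1) t
    · obtain ⟨s₀, hs₀⟩ := late hG hR (i + 1)
      refine ⟨s₀, fun s hs => ?_⟩
      rintro ⟨_, hag, ⟨a, haJ, _, hPs⟩, _⟩
      exact hJ i a ((hs₀ s hs (hT.congr hag.symm) i (by omega) a).1 hPs) haJ
    · have hex : ∃ l, l < i + 1 ∧ ¬ (b t l = true ↔ D.Real l) := by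
        unfold TP at hT
        push Not at hT
        obtain ⟨l, hl1, hl2⟩ := hT
        refine ⟨l, hl1, fun h => ?_⟩
        rcases hl2 with ⟨h1, h2⟩ | ⟨h1, h2⟩
        · exact h2 (h.1 h1)
        · exact h1 (h.2 h2)
      classical
      set l := Nat.find hex with hldef
      have hl1 := Nat.find_spec hex
      rw [← hldef] at hl1
      have hTl : TP D b l t := by
        intro j hj
        by_contra hc
        exact Nat.find_min hex hj ⟨by omega, hc⟩
      by_cases hbl : b t l = true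
      · have hnr : ¬ D.Real l := fun h => hl1.2 ⟨fun _ => h, fun _ => hbl⟩
        obtain ⟨_, s₀, hs₀⟩ := tp_main hG hR (i + 1)
        refine ⟨s₀, fun s hs => ?_⟩
        rintro ⟨_, hag, _, _⟩
        exact hs₀ s hs ⟨l, hl1.1, hTl.congr (hag.symm.mono (by omega)), hnr,
          by rw [hag l hl1.1]; exact hbl⟩
      · have hbl' : b t l = false := by simpa using hbl
        have hr' : D.Real l := by
          by_contra h
          exact hl1.2 ⟨fun h' => absurd h' hbl, fun h' => absurd h' h⟩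
        obtain ⟨u, hu, hTu⟩ := (tp_main hG hR (l + 1)).1 (t + 1)
        refine ⟨u + 1, fun s hs => ?_⟩
        rintro ⟨hki, hag, ⟨a, haJ, hPt, hPs⟩, hnl⟩
        have hli : l ≠ i := by
          intro h
          rw [h, bit_of_some hR hPt] at hbl'
          cases hbl'
        apply hnl u (by omega) (by omega)
        refine ⟨l, by omega, ?_, (hTu l (by omega)).2 hr', by rw [hag l hl1.1]; exact hbl'⟩
        exact ((hTu.mono (by omega)).agree hTl).trans ((hag.mono (by omega)).symm)
  choose N hN using claim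
  -- a bound
  set B : ℕ := ∑ t ∈ Finset.range s₁, ∑ i ∈ Finset.range s₁, N t i with hB
  refine ⟨B, fun s hs => ?_⟩
  by_contra hcon
  push Not at hcon
  classical
  have hex : ∃ i, ∃ a, P s i = some a ∧ a ∈ J := hcon
  set i := Nat.find hex with hi
  obtain ⟨a, hPa, haJ⟩ := Nat.find_spec hex
  rw [← hi] at hPa
  have hmin : ∀ j, j < i → ¬ ∃ a, P s j = some a ∧ a ∈ J := fun j hj => Nat.find_min hex hj
  have hki : k ≤ i := by
    by_contra hc
    have h1 := fin_base hG hR (show i < k by omega)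
    rw [hR.base_P s i (by omega)] at hPa
    rw [← Option.some.inj hPa] at haJ
    exact hJ _ _ h1 haJ
  obtain ⟨t, Bt⟩ := exists_birth hR s i a hki hPa
  have hts : t < s₁ := by
    by_contra hc
    have Bt' : Birth D b P t i a t := ⟨le_rfl, Agree.refl _ _, fun _ _ => rfl, Bt.val, Bt.fresh,
      Bt.alone, Bt.place, fun u h1 h2 => by omega⟩
    obtain ⟨j, hj, x, hx, hxJ⟩ := hsrc t i a (by omega) hki Bt' haJ
    rw [Bt.old j hj] at hx
    exact hmin j hj ⟨x, hx, hxJ⟩
  have hit := lt_of_some hR hki Bt.val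
  have hle : N t i ≤ B := by
    calc N t i ≤ ∑ i ∈ Finset.range s₁, N t i :=
          Finset.single_le_sum (f := fun i => N t i) (fun _ _ => Nat.zero_le _)
            (Finset.mem_range.2 (show i < s₁ by omega))
      _ ≤ B := Finset.single_le_sum (f := fun t => ∑ i ∈ Finset.range s₁, N t i)
            (fun _ _ => Nat.zero_le _) (Finset.mem_range.2 hts)
  exact hN t i s (by omega) ⟨hki, Bt.agree, ⟨a, haJ, Bt.val, hPa⟩, Bt.noleft⟩

/-- (V2) for atoms. -/
theorem atoms_finite (hG : D.BGood k M ρ lab hl hr) (hR : Run D k b P) (J : Set ℚ)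
    (hJ : ∀ i a, Fin' D b P i a → a ∉ J) (s₁ : ℕ)
    (hsrc : ∀ t i a, s₁ ≤ t → k ≤ i → Birth D b P t i a t → a ∈ J →
      ∃ j, j < i ∧ ∃ x, P t j = some x ∧ x ∈ J)
    (hjl : ∀ s i a, s₁ ≤ s → P s i = some a → i ≠ 0 → D.hl i = false →
      a - 1 / 2 ^ (3 * s + 3) ∈ J → a ∈ J)
    (hjr : ∀ s i a, s₁ ≤ s → P s i = some a → i + 1 ≠ k → D.hr i = false →
      a + 1 / 2 ^ (3 * s + 3) ∈ J → a ∈ J) :
    {p : ℚ × ℕ | IsAtom D k P p.1 p.2 ∧ p.1 ∈ J}.Finite := by
  obtain ⟨s₂, hs₂⟩ := visits_finite hG hR J hJ s₁ hsrc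
  set N := s₁ + s₂ with hN
  apply Set.Finite.subset (s := ⋃ s ∈ Finset.range N, ⋃ i ∈ Finset.range (N + k),
    ({((P s i).getD 0, D.lab i), ((P s i).getD 0 - 1 / 2 ^ (3 * s + 3), 1),
      ((P s i).getD 0 + 1 / 2 ^ (3 * s + 3), 1)} : Set (ℚ × ℕ)))
  · apply Set.Finite.biUnion (Finset.finite_toSet _)
    intro s _
    apply Set.Finite.biUnion (Finset.finite_toSet _)
    intro i _
    exact Set.toFinite _
  · rintro ⟨q, n⟩ ⟨hA, hq⟩
    have hbound : ∀ s i a, P s i = some a → s < N → i < N + k := by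
      intro s i a h hs
      by_cases hi : i < k
      · omega
      · have := lt_of_some hR (show k ≤ i by omega) h
        omega
    simp only [Set.mem_iUnion, Finset.mem_range, exists_prop]
    simp only at hA hq
    cases hA with
    | ptr s i a h =>
      have hs : s < N := by
        by_contra hc
        exact hs₂ s (by omega) i q h hq
      refine ⟨s, hs, i, hbound s i q h hs, ?_⟩
      rw [h]
      simp
    | jl s i a h hi hh =>
      have hs : s < N := by
        by_contra hc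
        exact hs₂ s (by omega) i a h (hjl s i a (by omega) h hi hh hq)
      refine ⟨s, hs, i, hbound s i a h hs, ?_⟩
      rw [h]
      simp
    | jr s i a h hi hh =>
      have hs : s < N := by
        by_contra hc
        exact hs₂ s (by omega) i a h (hjr s i a (by omega) h hi hh hq)
      refine ⟨s, hs, i, hbound s i a h hs, ?_⟩
      rw [h]
      simp

theorem small_aux (s : ℕ) : (0 : ℚ) < 1 / 2 ^ (3 * s + 3) ∧
    (1 : ℚ) / 2 ^ (3 * s + 3) < 1 / 2 ^ (3 * s + 1) ∧ (0 : ℚ) < 1 / 2 ^ (3 * s + 1) ∧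
    (1 : ℚ) / 2 ^ (3 * s + 1) < 1 / 2 ^ (3 * s) :=
  ⟨by positivity, pow_lt_aux (by omega), by positivity, pow_lt_aux (by omega)⟩

/-- Closed interval without final pointers. -/
theorem atoms_icc (hG : D.BGood k M ρ lab hl hr) (hR : Run D k b P) {x y : ℚ} {e : ℕ}
    (hx : Mul2 e x) (hy : Mul2 e y) (hJ : ∀ i a, Fin' D b P i a → a ∉ Set.Icc x y) :
    {p : ℚ × ℕ | IsAtom D k P p.1 p.2 ∧ p.1 ∈ Set.Icc x y}.Finite := by
  apply atoms_finite hG hR _ hJ e
  · intro t i a ht hki B haJ
    obtain ⟨j₁, j₂, a₁, a₂, hN, hS, hs, m₁, m₂, h1, h2⟩ := birth_data hR B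
    obtain ⟨_, _, p3, p4⟩ := small_aux t
    have hx' := hx.mono (show e ≤ 3 * t by omega)
    have hy' := hy.mono (show e ≤ 3 * t by omega)
    unfold spot at hs
    split_ifs at hs
    · refine ⟨j₂, hN.2.1, a₂, hN.2.2.2.1, haJ.1.trans h2.le, ?_⟩
      exact m₂.le_of_lt hy' p4 (by have := haJ.2; linarith)
    · refine ⟨j₁, hN.1, a₁, hN.2.2.1, ?_, h1.le.trans haJ.2⟩
      exact hx'.le_of_lt m₁ p4 (by have := haJ.1; linarith)
  · intro s i a hs h _ _ hq
    obtain ⟨p1, p2, _, _⟩ := small_aux s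
    refine ⟨by have := hq.1; linarith, ?_⟩
    exact (ptr_mul2 hR s i a h).le_of_lt (hy.mono (by omega)) p2 (by have := hq.2; linarith)
  · intro s i a hs h _ _ hq
    obtain ⟨p1, p2, _, _⟩ := small_aux s
    refine ⟨?_, by have := hq.2; linarith⟩
    exact (hx.mono (show e ≤ 3 * s + 1 by omega)).le_of_lt (ptr_mul2 hR s i a h) p2
      (by have := hq.1; linarith)

theorem pos_mul2 (hG : D.BGood k M ρ lab hl hr) (hR : Run D k b P) (m : M) :
    ∃ s, ∀ t, s < t → Mul2 (3 * t) (pos hG hR m) := by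
  obtain ⟨s, _, _, hs⟩ := fin_some hG hR (pos_fin hG hR m) 0
  exact ⟨s, fun t ht => old_mul2 hR hs ht⟩

/-- Half open interval at the hard right side of a marker. -/
theorem atoms_ioc (hG : D.BGood k M ρ lab hl hr) (hR : Run D k b P) {m : M} {y : ℚ} {e : ℕ}
    (hm : hr m = true) (hy : Mul2 e y)
    (hJ : ∀ i a, Fin' D b P i a → a ∉ Set.Ioc (pos hG hR m) y) :
    {p : ℚ × ℕ | IsAtom D k P p.1 p.2 ∧ p.1 ∈ Set.Ioc (pos hG hR m) y}.Finite := by
  obtain ⟨s₀, hs₀⟩ := pos_mul2 hG hR m
  have hix : ∀ s i a, P s i = some a → a = pos hG hR m → D.hr i = true := by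
    intro s i a h he
    obtain ⟨s', _, _, hs'⟩ := fin_some hG hR (pos_fin hG hR m) 0
    have : i = idx hG hR m := ptr_inj hR h (by rw [he]; exact hs')
    rw [this, hG.sound.hr_eq _ (pos_fin hG hR m).1, idx_rho hG hR, hm]
  apply atoms_finite hG hR _ hJ (e + s₀ + 1)
  · intro t i a ht hki B haJ
    obtain ⟨j₁, j₂, a₁, a₂, hN, hS, hs, m₁, m₂, h1, h2⟩ := birth_data hR B
    obtain ⟨_, _, p3, p4⟩ := small_aux t
    have hx' := hs₀ t (by omega)
    have hy' := hy.mono (show e ≤ 3 * t by omega)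
    unfold spot at hs
    split_ifs at hs with hc
    · refine ⟨j₂, hN.2.1, a₂, hN.2.2.2.1, haJ.1.trans h2, ?_⟩
      exact m₂.le_of_lt hy' p4 (by have := haJ.2; linarith)
    · refine ⟨j₁, hN.1, a₁, hN.2.2.1, ?_, h1.le.trans haJ.2⟩
      have h3 : pos hG hR m ≤ a₁ := hx'.le_of_lt m₁ p4 (by have := haJ.1; linarith)
      refine lt_of_le_of_ne h3 (fun he => ?_)
      exact hc (Or.inl (hix t j₁ a₁ hN.2.2.1 he.symm))
  · intro s i a hs h _ _ hq
    obtain ⟨p1, p2, _, _⟩ := small_aux s
    refine ⟨by have := hq.1; linarith, ?_⟩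
    exact (ptr_mul2 hR s i a h).le_of_lt (hy.mono (by omega)) p2 (by have := hq.2; linarith)
  · intro s i a hs h _ hh hq
    obtain ⟨p1, p2, _, _⟩ := small_aux s
    refine ⟨?_, by have := hq.2; linarith⟩
    have h3 : pos hG hR m ≤ a := ((hs₀ s (by omega)).mono (show 3 * s ≤ 3 * s + 1 by omega)).le_of_lt
      (ptr_mul2 hR s i a h) p2 (by have := hq.1; linarith)
    refine lt_of_le_of_ne h3 (fun he => ?_)
    have := hix s i a h he.symm
    rw [hh] at this
    cases this

/-- Half open interval at the hard left side of a marker. -/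
theorem atoms_ico (hG : D.BGood k M ρ lab hl hr) (hR : Run D k b P) {m : M} {x : ℚ} {e : ℕ}
    (hm : hl m = true) (hx : Mul2 e x)
    (hJ : ∀ i a, Fin' D b P i a → a ∉ Set.Ico x (pos hG hR m)) :
    {p : ℚ × ℕ | IsAtom D k P p.1 p.2 ∧ p.1 ∈ Set.Ico x (pos hG hR m)}.Finite := by
  obtain ⟨s₀, hs₀⟩ := pos_mul2 hG hR m
  have hix : ∀ s i a, P s i = some a → a = pos hG hR m → D.hl i = true := by
    intro s i a h he
    obtain ⟨s', _, _, hs'⟩ := fin_some hG hR (pos_fin hG hR m) 0
    have : i = idx hG hR m := ptr_inj hR h (by rw [he]; exact hs')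
    rw [this, hG.sound.hl_eq _ (pos_fin hG hR m).1, idx_rho hG hR, hm]
  apply atoms_finite hG hR _ hJ (e + s₀ + 1)
  · intro t i a ht hki B haJ
    obtain ⟨j₁, j₂, a₁, a₂, hN, hS, hs, m₁, m₂, h1, h2⟩ := birth_data hR B
    obtain ⟨_, _, p3, p4⟩ := small_aux t
    have hy' := hs₀ t (by omega)
    have hx' := hx.mono (show e ≤ 3 * t by omega)
    unfold spot at hs
    split_ifs at hs with hc
    · refine ⟨j₂, hN.2.1, a₂, hN.2.2.2.1, haJ.1.trans h2.le, ?_⟩
      have h3 : a₂ ≤ pos hG hR m := m₂.le_of_lt hy' p4 (by have := haJ.2; linarith)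
      refine lt_of_le_of_ne h3 (fun he => ?_)
      have hl2 := hix t j₂ a₂ hN.2.2.2.1 he
      rcases hc with hc | hc
      · refine no_hard_hard hG hR i t j₁ j₂ a₁ a₂ hN.1 hN.2.1 hN.2.2.1 hN.2.2.2.1 hN.2.2.2.2.1
          (fun j hj z hz => ?_) ⟨hc, hl2⟩
        rcases hN.2.2.2.2.2 j hj z hz with h | h
        · exact Or.inl h.1
        · exact Or.inr h.1
      · rw [hl2] at hc
        cases hc.1
    · refine ⟨j₁, hN.1, a₁, hN.2.2.1, ?_, h1.trans haJ.2⟩
      exact hx'.le_of_lt m₁ p4 (by have := haJ.1; linarith)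
  · intro s i a hs h _ hh hq
    obtain ⟨p1, p2, _, _⟩ := small_aux s
    refine ⟨by have := hq.1; linarith, ?_⟩
    have h3 : a ≤ pos hG hR m := (ptr_mul2 hR s i a h).le_of_lt
      ((hs₀ s (by omega)).mono (show 3 * s ≤ 3 * s + 1 by omega)) p2 (by have := hq.2; linarith)
    refine lt_of_le_of_ne h3 (fun he => ?_)
    have := hix s i a h he
    rw [hh] at this
    cases this
  · intro s i a hs h _ _ hq
    obtain ⟨p1, p2, _, _⟩ := small_aux s
    refine ⟨?_, by have := hq.2; linarith⟩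
    exact (hx.mono (show e ≤ 3 * s + 1 by omega)).le_of_lt (ptr_mul2 hR s i a h) p2
      (by have := hq.1; linarith)

/-- Powers of 1/2 are small. -/
theorem exists_small {ε : ℚ} (h : 0 < ε) : ∃ N, ∀ s, N ≤ s → (1 : ℚ) / 2 ^ (3 * s + 3) < ε := by
  obtain ⟨n, hn⟩ := exists_pow_lt_of_lt_one h (show (1 / 2 : ℚ) < 1 by norm_num)
  refine ⟨n, fun s hs => lt_of_le_of_lt ?_ hn⟩
  rw [one_div, one_div, inv_pow]
  apply inv_anti₀ (by positivity)
  exact pow_le_pow_right₀ (by norm_num) (by omega)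

/-- (V3): atoms of label 1 accumulate at a soft right side. -/
theorem v3_right (hG : D.BGood k M ρ lab hl hr) (hR : Run D k b P) {m : M} (hm : hr m = false)
    (ht : ∃ m', m < m') {ε : ℚ} (hε : 0 < ε) :
    ∃ q, IsAtom D k P q 1 ∧ pos hG hR m < q ∧ q < pos hG hR m + ε := by
  obtain ⟨N, hN⟩ := exists_small hε
  obtain ⟨s, hs, _, hP⟩ := fin_some hG hR (pos_fin hG hR m) N
  have hk : idx hG hR m + 1 ≠ k := by
    intro h
    obtain ⟨m', hm'⟩ := ht
    have h1 := hG.top m'
    have h2 : idx hG hR m = k - 1 := by omega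
    rw [← h2, idx_rho hG hR] at h1
    exact absurd h1 (not_le.2 hm')
  have hp := (small_aux s).1
  refine ⟨_, IsAtom.jr s _ _ hP hk (by
    rw [hG.sound.hr_eq _ (pos_fin hG hR m).1, idx_rho hG hR, hm]), ?_, ?_⟩
  · linarith
  · have := hN s hs
    linarith

/-- (V3): atoms of label 1 accumulate at a soft left side. -/
theorem v3_left (hG : D.BGood k M ρ lab hl hr) (hR : Run D k b P) {m : M} (hm : hl m = false)
    (ht : ∃ m', m' < m) {ε : ℚ} (hε : 0 < ε) :
    ∃ q, IsAtom D k P q 1 ∧ q < pos hG hR m ∧ pos hG hR m - ε < q := by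
  obtain ⟨N, hN⟩ := exists_small hε
  obtain ⟨s, hs, _, hP⟩ := fin_some hG hR (pos_fin hG hR m) N
  have hk : idx hG hR m ≠ 0 := by
    intro h
    obtain ⟨m', hm'⟩ := ht
    have h1 := hG.bot m'
    rw [← h, idx_rho hG hR] at h1
    exact absurd h1 (not_le.2 hm')
  have hp := (small_aux s).1
  refine ⟨_, IsAtom.jl s _ _ hP hk (by
    rw [hG.sound.hl_eq _ (pos_fin hG hR m).1, idx_rho hG hR, hm]), ?_, ?_⟩
  · linarith
  · have := hN s hs
    linarith

end Pool.Agent.Lib.MP_0f5a21_lc.H
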